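import Pool.Agent.Lib.UMB.E.Defs
import Pool.Agent.Lib.UMB.Lin.M2

set_option autoImplicit false

/-!
# UMB.E chunk P5: comparison of the metric with the flat metric
-/

open Filter Topology Set MeasureTheory
open scoped ContDiff

namespace UMB.E

open Pool.Agent.Lib.PenroseSph (E3 Tens pd trg)

theorem AF.met {g : Tens} {a : ℝ} (h : AF g a) : MetOn g {x : E3 | a < ‖x‖} where
  isOpen := isOpen_lt continuous_const continuous_norm
  smooth := h.smooth
  symm := h.symm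
  pos := h.pos

theorem p5_compact (K : ℝ) : IsCompact {A : Matrix (Fin 3) (Fin 3) ℝ | ∀ i j, |A i j| ≤ K} := by
  have h1 : IsCompact (Set.pi Set.univ fun _ : Fin 3 => Set.pi Set.univ fun _ : Fin 3 => Set.Icc (-K) K) :=
    isCompact_univ_pi fun _ => isCompact_univ_pi fun _ => isCompact_Icc
  have h2 : {A : Matrix (Fin 3) (Fin 3) ℝ | ∀ i j, |A i j| ≤ K}
      = Set.pi Set.univ fun _ : Fin 3 => Set.pi Set.univ fun _ : Fin 3 => Set.Icc (-K) K := by
    ext A
    constructor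
    · intro hA i _ j _
      exact abs_le.1 (hA i j)
    · intro hA i j
      exact abs_le.2 (hA i (Set.mem_univ i) j (Set.mem_univ j))
  rw [h2]
  exact h1

/-- `|u|² ≤ (tr A) A⁻¹(u, u)` for a positive definite matrix. -/
theorem p5_low {A : Matrix (Fin 3) (Fin 3) ℝ} (hA : A.PosDef) (u : Fin 3 → ℝ) :
    ∑ i, u i ^ 2 ≤ (∑ i, A i i) * ∑ i, ∑ j, A⁻¹ i j * u i * u j := by
  have hdet : IsUnit A.det := hA.det_pos.ne'.isUnit
  obtain ⟨B, hB, hBB⟩ := UMB.Lin.m2_sqrt A hA.posSemidef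
  have hBs : ∀ i j, B i j = B j i := fun i j => by
    conv_lhs => rw [← hB]
    rfl
  obtain ⟨w, hw⟩ : ∃ w : Fin 3 → ℝ, w = A⁻¹.mulVec u := ⟨_, rfl⟩
  have huw : u = A.mulVec w := by
    rw [hw, Matrix.mulVec_mulVec, Matrix.mul_nonsing_inv A hdet, Matrix.one_mulVec]
  have e1 : ∑ i, ∑ j, A⁻¹ i j * u i * u j = ∑ i, u i * w i := by
    rw [hw]
    simp only [Matrix.mulVec, dotProduct, Finset.mul_sum]
    exact Finset.sum_congr rfl fun i _ => Finset.sum_congr rfl fun j _ => by ring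
  have hA1 : ∀ a b, A a b = ∑ i, B i a * B i b := by
    intro a b
    rw [← hBB, Matrix.mul_apply]
    exact Finset.sum_congr rfl fun i _ => by rw [hBs a i]
  obtain ⟨z, hz⟩ : ∃ z : Fin 3 → ℝ, ∀ j, z j = ∑ b, B j b * w b := ⟨_, fun _ => rfl⟩
  have hu : ∀ a, u a = ∑ j, B j a * z j := by
    intro a
    rw [huw]
    simp only [Matrix.mulVec, dotProduct, hA1, hz, Fin.sum_univ_three]
    ring
  have e2 : ∑ i, u i * w i = ∑ j, z j ^ 2 := by
    simp only [hu, hz, Fin.sum_univ_three]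
    ring
  have e3 : ∑ i, A i i = ∑ i, ∑ j, B j i ^ 2 := by
    simp only [hA1]
    exact Finset.sum_congr rfl fun i _ => Finset.sum_congr rfl fun j _ => by ring
  rw [e1, e2, e3, Finset.sum_mul]
  refine Finset.sum_le_sum fun i _ => ?_
  rw [hu i]
  exact Finset.sum_mul_sq_le_sq_mul_sq _ _ _

/-- **P5a.** For `|x| ≥ r`, `r` large, `|g_ij - δ_ij| ≤ C/r` is small: `(g x)⁻¹` and `det (g x)` are continuous functions of
the matrix `g x` near `1`; on the compact set `1 ≤ |x| ≤ r` continuity and positivity (`MetOn.det_pos`,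
`MetOn.inv_smooth`; for `low` minimise the positive quadratic form over (compact set) × (unit sphere of `Fin 3 → ℝ`)). -/
theorem exists_cmp {g : Tens} {a : ℝ} (h : AF g a) : ∃ Λ : ℝ, Cmp g Λ := by
  obtain ⟨C, hC⟩ := h.decay
  have hM := AF.met h
  have hmem : ∀ x : E3, 1 ≤ ‖x‖ → x ∈ {x : E3 | a < ‖x‖} := fun x hx => lt_of_lt_of_le h.lt hx
  obtain ⟨K, hKd⟩ : ∃ K : ℝ, K = 1 + |C| := ⟨_, rfl⟩
  have hK : ∀ x : E3, 1 ≤ ‖x‖ → ∀ i j, |g x i j| ≤ K := by
    intro x hx i j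
    have h1 := (hC x hx i j 0).1
    have h2 : C / ‖x‖ ≤ |C| := by
      rw [div_le_iff₀ (by linarith)]
      nlinarith [le_abs_self C, abs_nonneg C]
    have h3 : |(1 : Matrix (Fin 3) (Fin 3) ℝ) i j| ≤ 1 := by
      rw [Matrix.one_apply]
      split_ifs <;> simp
    have h4 : g x i j = (g x i j - (1 : Matrix (Fin 3) (Fin 3) ℝ) i j) + (1 : Matrix (Fin 3) (Fin 3) ℝ) i j := by
      ring
    rw [h4, hKd]
    refine (abs_add_le _ _).trans ?_
    linarith
  -- upper bounds from compactness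
  have hadj : ∀ i j : Fin 3, ∃ c : ℝ, ∀ A : Matrix (Fin 3) (Fin 3) ℝ, (∀ i j, |A i j| ≤ K) → |A.adjugate i j| ≤ c := by
    intro i j
    have hcont : Continuous fun A : Matrix (Fin 3) (Fin 3) ℝ => A.adjugate i j :=
      (continuous_id.matrix_adjugate).matrix_elem i j
    obtain ⟨c, hc⟩ := (p5_compact K).exists_bound_of_continuousOn hcont.continuousOn
    exact ⟨c, fun A hA => hc A hA⟩
  obtain ⟨cd, hcd⟩ : ∃ c : ℝ, ∀ A : Matrix (Fin 3) (Fin 3) ℝ, (∀ i j, |A i j| ≤ K) → |A.det| ≤ c := by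
    have hcont : Continuous fun A : Matrix (Fin 3) (Fin 3) ℝ => A.det := continuous_id.matrix_det
    obtain ⟨c, hc⟩ := (p5_compact K).exists_bound_of_continuousOn hcont.continuousOn
    exact ⟨c, fun A hA => hc A hA⟩
  choose ca hca using hadj
  -- lower bound of the determinant
  obtain ⟨m, hm, hmd⟩ : ∃ m : ℝ, 0 < m ∧ ∀ x : E3, 1 ≤ ‖x‖ → m ≤ (g x).det := by
    have hdc : Continuous fun A : Matrix (Fin 3) (Fin 3) ℝ => A.det := continuous_id.matrix_det
    have hev : ∀ᶠ A : Matrix (Fin 3) (Fin 3) ℝ in 𝓝 1, 1 / 2 < A.det := by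
      have h1 : Tendsto (fun A : Matrix (Fin 3) (Fin 3) ℝ => A.det) (𝓝 1) (𝓝 (1 : Matrix (Fin 3) (Fin 3) ℝ).det) :=
        hdc.tendsto 1
      rw [Matrix.det_one] at h1
      exact h1.eventually (lt_mem_nhds (by norm_num))
    have htend : Tendsto g (Filter.comap (fun x : E3 => ‖x‖) atTop) (𝓝 1) := by
      refine tendsto_pi_nhds.2 fun i => tendsto_pi_nhds.2 fun j => ?_
      rw [tendsto_iff_norm_sub_tendsto_zero]
      have h1 : Tendsto (fun x : E3 => |C| / ‖x‖) (Filter.comap (fun x : E3 => ‖x‖) atTop) (𝓝 0) :=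
        (tendsto_const_nhds.div_atTop tendsto_comap)
      refine squeeze_zero' (Eventually.of_forall fun x => norm_nonneg _) ?_ h1
      have h2 : ∀ᶠ x : E3 in Filter.comap (fun x : E3 => ‖x‖) atTop, 1 ≤ ‖x‖ :=
        tendsto_comap.eventually (eventually_ge_atTop 1)
      filter_upwards [h2] with x hx
      refine ((hC x hx i j 0).1).trans ?_
      exact div_le_div_of_nonneg_right (le_abs_self C) (by linarith)
    have h3 := htend.eventually hev
    rw [Filter.eventually_comap] at h3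
    obtain ⟨r, hr⟩ := eventually_atTop.1 h3
    obtain ⟨r', hr'⟩ : ∃ r' : ℝ, r' = max r 1 := ⟨_, rfl⟩
    have hcomp : IsCompact {x : E3 | 1 ≤ ‖x‖ ∧ ‖x‖ ≤ r'} := by
      have h4 : {x : E3 | 1 ≤ ‖x‖ ∧ ‖x‖ ≤ r'} = Metric.closedBall 0 r' ∩ {x : E3 | 1 ≤ ‖x‖} := by
        ext x
        simp [and_comm]
      rw [h4]
      exact (isCompact_closedBall 0 r').inter_right (isClosed_le continuous_const continuous_norm)
    have hdet : ContinuousOn (fun x : E3 => (g x).det) {x : E3 | 1 ≤ ‖x‖ ∧ ‖x‖ ≤ r'} :=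
      (hM.det_smooth.continuousOn).mono fun x hx => hmem x hx.1
    rcases Set.eq_empty_or_nonempty {x : E3 | 1 ≤ ‖x‖ ∧ ‖x‖ ≤ r'} with hne | hne
    · refine ⟨1 / 2, by norm_num, fun x hx => ?_⟩
      have h5 : r' < ‖x‖ := by
        by_contra hcon
        have : x ∈ (∅ : Set E3) := by
          rw [← hne]
          exact ⟨hx, not_lt.1 hcon⟩
        exact this
      exact (hr ‖x‖ (by rw [hr'] at h5; exact (le_max_left r 1).trans h5.le) x rfl).le
    · obtain ⟨x0, hx0, hmin⟩ := hcomp.exists_isMinOn hne hdet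
      refine ⟨min (1 / 2) (g x0).det, lt_min (by norm_num) (hM.det_pos (hmem x0 hx0.1)), fun x hx => ?_⟩
      rcases le_or_gt ‖x‖ r' with h5 | h5
      · exact (min_le_right _ _).trans (hmin ⟨hx, h5⟩)
      · exact (min_le_left _ _).trans
          (hr ‖x‖ (by rw [hr'] at h5; exact (le_max_left r 1).trans h5.le) x rfl).le
  have hsm : 0 < Real.sqrt m := Real.sqrt_pos.2 hm
  obtain ⟨Λ, hΛ⟩ : ∃ Λ : ℝ, Λ = 3 * K + (∑ i, ∑ j, |ca i j|) / m + 1 / Real.sqrt m + Real.sqrt |cd| := ⟨_, rfl⟩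
  have hK1 : 1 ≤ K := by rw [hKd]; linarith [abs_nonneg C]
  have p1 : 0 ≤ (∑ i, ∑ j, |ca i j|) / m :=
    div_nonneg (Finset.sum_nonneg fun _ _ => Finset.sum_nonneg fun _ _ => abs_nonneg _) hm.le
  have p2 : 0 ≤ 1 / Real.sqrt m := by positivity
  have p3 : 0 ≤ Real.sqrt |cd| := Real.sqrt_nonneg _
  refine ⟨Λ, ⟨by linarith, fun x hx u => ?_, fun x hx i j => ?_, fun x hx => ?_, fun x hx => ?_⟩⟩
  · have hpd := hM.posDef (hmem x hx)
    refine (p5_low hpd u).trans ?_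
    have h1 : ∑ i, g x i i ≤ Λ := by
      have h2 : ∑ i, g x i i ≤ 3 * K := by
        rw [Fin.sum_univ_three]
        have a0 := (abs_le.1 (hK x hx 0 0)).2
        have a1 := (abs_le.1 (hK x hx 1 1)).2
        have a2 := (abs_le.1 (hK x hx 2 2)).2
        linarith
      linarith
    refine mul_le_mul_of_nonneg_right h1 ?_
    have h3 := hpd.inv.posSemidef.dotProduct_mulVec_nonneg u
    have h4 : star u ⬝ᵥ ((g x)⁻¹).mulVec u = ∑ i, ∑ j, (g x)⁻¹ i j * u i * u j := by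
      simp only [dotProduct, Matrix.mulVec, Pi.star_apply, star_trivial, Finset.mul_sum]
      exact Finset.sum_congr rfl fun i _ => Finset.sum_congr rfl fun j _ => by ring
    rw [h4] at h3
    exact h3
  · have h1 : (g x)⁻¹ i j = ((g x).det)⁻¹ * (g x).adjugate i j := by
      rw [Matrix.inv_def, Matrix.smul_apply, Ring.inverse_eq_inv', smul_eq_mul]
    rw [h1, abs_mul, abs_inv, abs_of_pos (hM.det_pos (hmem x hx))]
    have h2 := hca i j (g x) (hK x hx)
    have h3 : ((g x).det)⁻¹ ≤ m⁻¹ := inv_anti₀ hm (hmd x hx)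
    have h4 : |ca i j| ≤ ∑ i, ∑ j, |ca i j| :=
      (Finset.single_le_sum (f := fun j => |ca i j|) (fun _ _ => abs_nonneg _) (Finset.mem_univ j)).trans
        (Finset.single_le_sum (f := fun i => ∑ j, |ca i j|)
          (fun _ _ => Finset.sum_nonneg fun _ _ => abs_nonneg _) (Finset.mem_univ i))
    have h5 : ((g x).det)⁻¹ * |(g x).adjugate i j| ≤ m⁻¹ * ∑ i, ∑ j, |ca i j| :=
      mul_le_mul h3 (h2.trans ((le_abs_self _).trans h4)) (abs_nonneg _) (by positivity)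
    refine h5.trans ?_
    have h6 : m⁻¹ * ∑ i, ∑ j, |ca i j| = (∑ i, ∑ j, |ca i j|) / m := by
      rw [div_eq_mul_inv, mul_comm]
    rw [h6]
    linarith
  · have h1 : Real.sqrt m ≤ vol g x := Real.sqrt_le_sqrt (hmd x hx)
    have h2 : 1 / Real.sqrt m ≤ Λ := by linarith
    calc (1 : ℝ) = 1 / Real.sqrt m * Real.sqrt m := by field_simp
      _ ≤ Λ * vol g x := mul_le_mul h2 h1 hsm.le (by linarith)
  · have h1 : vol g x ≤ Real.sqrt |cd| := by
      refine Real.sqrt_le_sqrt ?_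
      exact (le_abs_self _).trans ((hcd (g x) (hK x hx)).trans (le_abs_self _))
    linarith

/-- **P5b.** Consequences at a point. `(pd i u)² ≤ ∑ (pd i u)² ≤ Λ gsq`, `|gradU a| ≤ ∑_j Λ |pd j u| ≤ 3 Λ √(Λ gsq)`,
`|dwG| ≤ ∑_a |pd a w| |gradU a|`. -/
theorem grad_bd {g : Tens} {Λ : ℝ} (h : Cmp g Λ) {x : E3} (hx : 1 ≤ ‖x‖) (u w : E3 → ℝ) (h0 : 0 ≤ gsq g u x) :
    (∀ i, |pd i u x| ≤ Real.sqrt Λ * yreg g u 0 x) ∧ (∀ i, |gradU g u i x| ≤ 3 * Λ * Real.sqrt Λ * yreg g u 0 x) ∧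
      |dwG g w u x| ≤ (∑ i, |pd i w x|) * (3 * Λ * Real.sqrt Λ * yreg g u 0 x) := by
  have hΛ := h.pos
  have hy : yreg g u 0 x = Real.sqrt (gsq g u x) := by
    unfold yreg
    rw [add_zero]
  have hgsq : gsq g u x = ∑ i, ∑ j, (g x)⁻¹ i j * pd i u x * pd j u x := by
    simp only [gsq, gradU, Finset.mul_sum]
    exact Finset.sum_congr rfl fun i _ => Finset.sum_congr rfl fun j _ => by ring
  have h1 : ∀ i, |pd i u x| ≤ Real.sqrt Λ * yreg g u 0 x := by
    intro i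
    rw [hy, ← Real.sqrt_mul hΛ.le]
    refine Real.abs_le_sqrt ?_
    have h2 := h.low x hx fun j => pd j u x
    rw [hgsq]
    exact (Finset.single_le_sum (f := fun j => pd j u x ^ 2) (fun _ _ => sq_nonneg _)
      (Finset.mem_univ i)).trans h2
  have h2 : ∀ i, |gradU g u i x| ≤ 3 * Λ * Real.sqrt Λ * yreg g u 0 x := by
    intro i
    unfold gradU
    refine (Finset.abs_sum_le_sum_abs _ _).trans ?_
    have h3 : ∀ j ∈ (Finset.univ : Finset (Fin 3)),
        |(g x)⁻¹ i j * pd j u x| ≤ Λ * (Real.sqrt Λ * yreg g u 0 x) := by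
      intro j _
      rw [abs_mul]
      exact mul_le_mul (h.inv x hx i j) (h1 j) (abs_nonneg _) hΛ.le
    refine (Finset.sum_le_card_nsmul _ _ _ h3).trans ?_
    simp only [Finset.card_univ, Fintype.card_fin, nsmul_eq_mul]
    push_cast
    linarith
  refine ⟨h1, h2, ?_⟩
  unfold dwG
  refine (Finset.abs_sum_le_sum_abs _ _).trans ?_
  rw [Finset.sum_mul]
  refine Finset.sum_le_sum fun a _ => ?_
  rw [abs_mul]
  exact mul_le_mul_of_nonneg_left (h2 a) (abs_nonneg _)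

end UMB.E
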