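import Pool.Agent.Lib.UMB.E.Defs

set_option autoImplicit false

/-!
# UMB.E chunk P7: weights
-/

open Filter Topology Set MeasureTheory
open scoped ContDiff

namespace UMB.E

open Pool.Agent.Lib.PenroseSph (E3 Tens pd trg)
open UMB.Lin (Ann cAnn sig)

/-- The properties of the weight `w = ζ² |x|⁻²`. -/
structure Wt (C ρ : ℝ) (w : E3 → ℝ) : Prop where
  smooth : ContDiffOn ℝ ∞ w {x : E3 | 1 / 2 < ‖x‖}
  nonneg : ∀ x : E3, 1 ≤ ‖x‖ → 0 ≤ w x
  le : ∀ x : E3, 1 ≤ ‖x‖ → w x ≤ 1 / ‖x‖ ^ 2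
  eq : ∀ x : E3, 1 ≤ ‖x‖ → ρ ≤ ‖x‖ → w x = 1 / ‖x‖ ^ 2
  zero : ∀ x : E3, 1 ≤ ‖x‖ → ‖x‖ < ρ / 2 → w x = 0
  grad : ∀ x : E3, 1 ≤ ‖x‖ → ∑ i, |pd i w x| ≤ C * Real.sqrt (w x) / ‖x‖ ^ 2

theorem p7_deriv_gt {t : ℝ} (ht : 1 < t) : deriv Real.smoothTransition t = 0 := by
  have h1 : Real.smoothTransition =ᶠ[𝓝 t] fun _ => (1 : ℝ) := by
    filter_upwards [Ioi_mem_nhds ht] with s hs
    exact Real.smoothTransition.one_of_one_le (le_of_lt hs)
  rw [h1.deriv_eq, deriv_const]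

theorem p7_deriv_lt {t : ℝ} (ht : t < 0) : deriv Real.smoothTransition t = 0 := by
  have h1 : Real.smoothTransition =ᶠ[𝓝 t] fun _ => (0 : ℝ) := by
    filter_upwards [Iio_mem_nhds ht] with s hs
    exact Real.smoothTransition.zero_of_nonpos (le_of_lt hs)
  rw [h1.deriv_eq, deriv_const]

theorem p7_deriv_bd : ∃ C0 : ℝ, 0 < C0 ∧ ∀ t : ℝ, |deriv Real.smoothTransition t| ≤ C0 := by
  have h1 : Continuous (deriv Real.smoothTransition) :=
    (Real.smoothTransition.contDiff (n := 1)).continuous_deriv le_rfl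
  obtain ⟨C, hC⟩ := (isCompact_Icc (a := (0 : ℝ)) (b := 1)).exists_bound_of_continuousOn h1.continuousOn
  refine ⟨max C 1, lt_max_of_lt_right one_pos, fun t => ?_⟩
  rcases lt_or_ge t 0 with h2 | h2
  · rw [p7_deriv_lt h2, abs_zero]
    exact le_max_of_le_right zero_le_one
  · rcases lt_or_ge 1 t with h3 | h3
    · rw [p7_deriv_gt h3, abs_zero]
      exact le_max_of_le_right zero_le_one
    · exact le_max_of_le_left (hC t ⟨h2, h3⟩)

/-- The radial function. -/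
noncomputable def p7_phi (ρ r : ℝ) : ℝ := Real.smoothTransition (2 * r / ρ - 1) ^ 2 / r ^ 2

theorem p7_phi_deriv (ρ r : ℝ) (hr : r ≠ 0) : HasDerivAt (p7_phi ρ)
    ((2 * Real.smoothTransition (2 * r / ρ - 1) * (deriv Real.smoothTransition (2 * r / ρ - 1) * (2 / ρ)) * r ^ 2 -
      Real.smoothTransition (2 * r / ρ - 1) ^ 2 * (2 * r)) / (r ^ 2) ^ 2) r := by
  have h1 : HasDerivAt Real.smoothTransition (deriv Real.smoothTransition (2 * r / ρ - 1)) (2 * r / ρ - 1) :=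
    (((Real.smoothTransition.contDiff (n := 1)).differentiable (by norm_num)) _).hasDerivAt
  have h2 : HasDerivAt (fun r : ℝ => 2 * r / ρ - 1) (2 / ρ) r := by
    have := (((hasDerivAt_id r).const_mul 2).div_const ρ).sub_const 1
    simpa using this
  have h3 : HasDerivAt (fun r : ℝ => Real.smoothTransition (2 * r / ρ - 1))
      (deriv Real.smoothTransition (2 * r / ρ - 1) * (2 / ρ)) r := by
    have h3' := HasDerivAt.comp r h1 h2
    exact h3'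
  have h4 := h3.pow 2
  have h5 : HasDerivAt (fun r : ℝ => r ^ 2) (2 * r) r := by
    simpa using hasDerivAt_pow 2 r
  have h6 := h4.div h5 (pow_ne_zero 2 hr)
  have h7 : (fun r : ℝ => Real.smoothTransition (2 * r / ρ - 1)) ^ 2 / (fun r : ℝ => r ^ 2) = p7_phi ρ := by
    funext s
    rfl
  rw [h7] at h6
  simpa using h6

/-- **P7.** `w x = ζ(|x|)²/|x|²` with `ζ r = smoothTransition(2 r/ρ - 1)` for `ρ ≥ 2` (`ζ = 0` for `r ≤ ρ/2`, `= 1` for `r ≥ ρ`,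
`|ζ'| ≤ C/ρ`, `ζ' = 0` outside `[ρ/2, ρ]`, so `|ζ'| ≤ C/r`), `ζ = 1` for `ρ < 2`.
`|∂_i w| ≤ 2 ζ |ζ'| r⁻² + 2 ζ² r⁻³ ≤ C ζ r⁻³ = C √w r⁻²`. (`|smoothTransition'|` is bounded: continuous, zero outside `[0,1]`.) -/
theorem exists_wt : ∃ C : ℝ, 0 < C ∧ ∀ ρ : ℝ, 1 ≤ ρ → ∃ w : E3 → ℝ, Wt C ρ w := by
  obtain ⟨C0, hC0, hb⟩ := p7_deriv_bd
  refine ⟨3 * (4 * C0 + 2), by positivity, fun ρ hρ => ⟨fun x => p7_phi ρ ‖x‖, ?_, ?_, ?_, ?_, ?_, ?_⟩⟩
  · have h0 : ∀ x ∈ {x : E3 | 1 / 2 < ‖x‖}, x ≠ 0 := by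
      intro x hx h
      rw [mem_ofPred_eq, h, norm_zero] at hx
      norm_num at hx
    intro x hx
    have hn : ContDiffAt ℝ ∞ (fun x : E3 => ‖x‖) x := contDiffAt_norm ℝ (h0 x hx)
    have h1 : ContDiffAt ℝ ∞ (fun x : E3 => Real.smoothTransition (2 * ‖x‖ / ρ - 1)) x :=
      (Real.smoothTransition.contDiff (n := ⊤)).contDiffAt.comp x
        (((contDiffAt_const.mul hn).div_const ρ).sub contDiffAt_const)
    exact ((h1.pow 2).div (hn.pow 2) (pow_ne_zero 2 (norm_ne_zero_iff.2 (h0 x hx)))).contDiffWithinAt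
  · intro x _
    unfold p7_phi
    positivity
  · intro x hx
    unfold p7_phi
    have h1 := Real.smoothTransition.le_one (2 * ‖x‖ / ρ - 1)
    have h2 := Real.smoothTransition.nonneg (2 * ‖x‖ / ρ - 1)
    have h3 : 0 < ‖x‖ ^ 2 := by positivity
    apply div_le_div_of_nonneg_right _ h3.le
    nlinarith
  · intro x hx hρx
    unfold p7_phi
    have h1 : (1 : ℝ) ≤ 2 * ‖x‖ / ρ - 1 := by
      have : 2 ≤ 2 * ‖x‖ / ρ := by
        rw [le_div_iff₀ (by linarith)]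
        linarith
      linarith
    rw [Real.smoothTransition.one_of_one_le h1, one_pow]
  · intro x hx hρx
    unfold p7_phi
    have h1 : 2 * ‖x‖ / ρ - 1 ≤ (0 : ℝ) := by
      have : 2 * ‖x‖ / ρ ≤ 1 := by
        rw [div_le_iff₀ (by linarith)]
        linarith
      linarith
    rw [Real.smoothTransition.zero_of_nonpos h1]
    simp
  · intro x hx
    have hr : 0 < ‖x‖ := by linarith
    have hx0 : x ≠ 0 := norm_pos_iff.1 hr
    have hn : HasFDerivAt (fun x : E3 => ‖x‖) (fderiv ℝ (fun x : E3 => ‖x‖) x) x :=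
      ((contDiffAt_norm ℝ hx0 (n := 1)).differentiableAt (by norm_num)).hasFDerivAt
    have h1 := (p7_phi_deriv ρ ‖x‖ hr.ne').comp_hasFDerivAt x hn
    obtain ⟨T, hT⟩ : ∃ T, T = Real.smoothTransition (2 * ‖x‖ / ρ - 1) := ⟨_, rfl⟩
    obtain ⟨T', hT'⟩ : ∃ T', T' = deriv Real.smoothTransition (2 * ‖x‖ / ρ - 1) := ⟨_, rfl⟩
    rw [← hT, ← hT'] at h1
    have hT0 : 0 ≤ T := by rw [hT]; exact Real.smoothTransition.nonneg _
    have hT1 : T ≤ 1 := by rw [hT]; exact Real.smoothTransition.le_one _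
    have hT2 : |T'| * ‖x‖ ≤ C0 * ρ := by
      rcases le_or_gt ‖x‖ ρ with h2 | h2
      · exact mul_le_mul (by rw [hT']; exact hb _) h2 hr.le hC0.le
      · have h3 : T' = 0 := by
          rw [hT']
          apply p7_deriv_gt
          have : 2 < 2 * ‖x‖ / ρ := by
            rw [lt_div_iff₀ (by linarith)]
            linarith
          linarith
        rw [h3, abs_zero, zero_mul]
        positivity
    have hsq : Real.sqrt (p7_phi ρ ‖x‖) = T / ‖x‖ := by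
      unfold p7_phi
      rw [← hT, ← div_pow, Real.sqrt_sq (div_nonneg hT0 hr.le)]
    have hder : |(2 * T * (T' * (2 / ρ)) * ‖x‖ ^ 2 - T ^ 2 * (2 * ‖x‖)) / (‖x‖ ^ 2) ^ 2| ≤
        (4 * C0 + 2) * (T / ‖x‖) / ‖x‖ ^ 2 := by
      have hρ0 : 0 < ρ := by linarith
      have h4 : |2 * T * (T' * (2 / ρ)) * ‖x‖ ^ 2 - T ^ 2 * (2 * ‖x‖)| ≤ (4 * C0 + 2) * T * ‖x‖ := by
        have h5 : |2 * T * (T' * (2 / ρ)) * ‖x‖ ^ 2| ≤ 4 * C0 * T * ‖x‖ := by
          have h6 : 2 * T * (T' * (2 / ρ)) * ‖x‖ ^ 2 = (4 * T * ‖x‖ / ρ) * (T' * ‖x‖) := by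
            field_simp
            ring
          rw [h6, abs_mul, abs_mul T', abs_of_pos hr, abs_of_nonneg (by positivity : 0 ≤ 4 * T * ‖x‖ / ρ)]
          calc 4 * T * ‖x‖ / ρ * (|T'| * ‖x‖) ≤ 4 * T * ‖x‖ / ρ * (C0 * ρ) :=
                mul_le_mul_of_nonneg_left hT2 (by positivity)
            _ = 4 * C0 * T * ‖x‖ := by field_simp
        have h7 : |T ^ 2 * (2 * ‖x‖)| ≤ 2 * T * ‖x‖ := by
          rw [abs_of_nonneg (by positivity)]
          have h8 : T ^ 2 ≤ T := by nlinarith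
          nlinarith
        calc _ ≤ |2 * T * (T' * (2 / ρ)) * ‖x‖ ^ 2| + |T ^ 2 * (2 * ‖x‖)| := abs_sub _ _
          _ ≤ 4 * C0 * T * ‖x‖ + 2 * T * ‖x‖ := add_le_add h5 h7
          _ = _ := by ring
      rw [abs_div, abs_of_pos (by positivity : 0 < (‖x‖ ^ 2) ^ 2)]
      calc _ ≤ (4 * C0 + 2) * T * ‖x‖ / (‖x‖ ^ 2) ^ 2 := div_le_div_of_nonneg_right h4 (by positivity)
        _ = _ := by field_simp
    have hpd : ∀ i : Fin 3, |pd i (fun x => p7_phi ρ ‖x‖) x| ≤ (4 * C0 + 2) * (T / ‖x‖) / ‖x‖ ^ 2 := by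
      intro i
      unfold pd
      have h2 : fderiv ℝ (fun x : E3 => p7_phi ρ ‖x‖) x = _ := h1.fderiv
      rw [h2, smul_apply, smul_eq_mul, abs_mul]
      have h3 : |(fderiv ℝ (fun x : E3 => ‖x‖) x) (EuclideanSpace.single i 1)| ≤ 1 := by
        have h4 := (fderiv ℝ (fun x : E3 => ‖x‖) x).le_opNorm (EuclideanSpace.single i 1)
        have h5 : ‖fderiv ℝ (fun x : E3 => ‖x‖) x‖ ≤ 1 := by
          have h7 := norm_fderiv_le_of_lipschitz ℝ (lipschitzWith_one_norm (E := E3)) (x₀ := x)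
          simpa using h7
        have h6 : ‖(EuclideanSpace.single i (1 : ℝ) : E3)‖ = 1 := by simp
        rw [h6, mul_one, Real.norm_eq_abs] at h4
        exact h4.trans h5
      calc _ ≤ _ * 1 := mul_le_mul_of_nonneg_left h3 (abs_nonneg _)
        _ ≤ _ := by rw [mul_one]; exact hder
    rw [hsq, Fin.sum_univ_three]
    have e0 := hpd 0
    have e1 := hpd 1
    have e2 := hpd 2
    have e3 : 3 * (4 * C0 + 2) * (T / ‖x‖) / ‖x‖ ^ 2 = 3 * ((4 * C0 + 2) * (T / ‖x‖) / ‖x‖ ^ 2) := by ring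
    rw [e3]
    linarith

end UMB.E
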