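import Pool.Agent.Lib.UMB.E.NDefs
import Pool.Agent.Lib.UMB.M.Defs
import Pool.Agent.Lib.UMB.BR.Hopf
import Pool.Agent.Lib.UMB.M.K4b
import Pool.Agent.Lib.UMB.M.K5

set_option autoImplicit false

/-!
# UMB.E chunk Q1: the structure `Th` from `LF`
-/

open Filter Topology Set MeasureTheory
open scoped ContDiff

namespace UMB.E

open Pool.Agent.Lib.PenroseSph (E3 Tens pd trg chr)
open UMB.Lin (Ann cAnn sig)

theorem q1_sq {g k : Tens} {θ : E3 → ℝ} {x : E3} {m : ℝ} (hM : ∀ i j, |UMB.Mh g k θ i j x| ≤ m) :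
    |MhSq g k θ x| ≤ 9 * m ^ 2 := by
  unfold MhSq
  refine (Finset.abs_sum_le_sum_abs _ _).trans ?_
  have e1 : ∀ i ∈ (Finset.univ : Finset (Fin 3)), |∑ j, UMB.Mh g k θ i j x * UMB.Mh g k θ j i x| ≤ 3 * m ^ 2 := by
    intro i _
    refine (Finset.abs_sum_le_sum_abs _ _).trans ?_
    have e2 : ∀ j ∈ (Finset.univ : Finset (Fin 3)), |UMB.Mh g k θ i j x * UMB.Mh g k θ j i x| ≤ m ^ 2 := by
      intro j _
      rw [sq]
      exact k4_mul (hM i j) (hM j i)
    refine (Finset.sum_le_sum e2).trans (le_of_eq ?_)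
    simp
  refine (Finset.sum_le_sum e1).trans (le_of_eq ?_)
  simp
  ring

theorem q1_inner {θ : E3 → ℝ} {R : ℝ} (hR : 1 < R) {W : Set E3} (hW : IsOpen W) (hsub : cann R ⊆ W)
    (hc : ContinuousOn θ W) (h0 : ∀ x : E3, ‖x‖ = 1 → θ x = 0) {ε : ℝ} (hε : 0 < ε) :
    ∃ s : ℝ, 0 < s ∧ ∀ x : E3, 1 < ‖x‖ → ‖x‖ < 1 + s → θ x < ε := by
  have hU : IsOpen (W ∩ θ ⁻¹' Iio ε) := hc.isOpen_inter_preimage hW isOpen_Iio
  have hS : IsCompact (Metric.sphere (0 : E3) 1) := isCompact_sphere 0 1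
  have hSU : Metric.sphere (0 : E3) 1 ⊆ W ∩ θ ⁻¹' Iio ε := by
    intro x hx
    rw [mem_sphere_zero_iff_norm] at hx
    refine ⟨hsub ⟨hx.ge, by rw [hx]; exact hR.le⟩, ?_⟩
    show θ x < ε
    rw [h0 x hx]
    exact hε
  obtain ⟨δ, hδ, hδU⟩ := hS.exists_thickening_subset_open hU hSU
  refine ⟨δ, hδ, fun x h1 h2 => ?_⟩
  have hx0 : 0 < ‖x‖ := by linarith
  have hmem : x ∈ Metric.thickening δ (Metric.sphere (0 : E3) 1) := by
    rw [Metric.mem_thickening_iff]
    refine ⟨‖x‖⁻¹ • x, ?_, ?_⟩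
    · rw [mem_sphere_zero_iff_norm, norm_smul, norm_inv, norm_norm]
      exact inv_mul_cancel₀ hx0.ne'
    · have e1 : x - ‖x‖⁻¹ • x = (1 - ‖x‖⁻¹) • x := by
        rw [sub_smul, one_smul]
      have e2 : 0 ≤ 1 - ‖x‖⁻¹ := by
        have := inv_le_one_of_one_le₀ h1.le
        linarith
      rw [dist_eq_norm, e1, norm_smul, Real.norm_of_nonneg e2, sub_mul, one_mul, inv_mul_cancel₀ hx0.ne']
      linarith
  exact (hδU hmem).2

theorem th_of_LF {g k : Tens} {a R T Ce Λ : ℝ} {θ : E3 → ℝ} (hg : AF g a) (hc : Cmp g Λ) (hk : Kk g k a)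
    (hL : LF R 0 T θ) (h4 : 4 ≤ R) (hup : ∀ x ∈ Ann R, Real.exp (θ x) ≤ Ce * ‖x‖)
    (hout : ∃ s : ℝ, 0 < s ∧ ∀ x : E3, R - s < ‖x‖ → ‖x‖ < R → yreg g θ 0 x ≤ 4 / R) : Th g k Ce R θ := by
  have hG : GK g k a := ⟨hg.lt, AF.met hg, hk.smooth, fun x hx => hk.symm x hx⟩
  obtain ⟨K, s, B, Y, hK, hs, hB, hY, hbd⟩ := k4_setup hG hL
  have hmA : MeasurableSet (Ann R) := UMB.Lin.measurableSet_Ann R
  have hM : ∀ x ∈ Ann R, ∀ i j, |UMB.Mh g k θ i j x| ≤ (K + 3 * K * B + K ^ 2) *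
      (Real.sqrt (fsq (D2 θ x)) + Real.sqrt (vsq (D1 θ x))) := fun x hx => k4b_Mh hK hB (hbd x hx)
  refine ⟨h4, hL.smooth, hL.lo, ?_, hup, hout, ?_, ?_, ?_⟩
  · intro ε hε
    obtain ⟨W, hW, hsub, h3⟩ := hL.c3
    exact q1_inner hL.one_lt hW hsub h3.continuousOn hL.inner hε
  · refine ⟨B, fun x hx => ⟨fun i => ?_, fun i j => ?_⟩⟩
    · exact (k4b_abs θ x i).trans (hbd x hx).b_le
    · refine le_trans ?_ (hbd x hx).f_le
      rw [← Real.sqrt_sq_eq_abs]
      refine Real.sqrt_le_sqrt ?_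
      have h1 : D2 θ x i j ^ 2 ≤ ∑ j, D2 θ x i j ^ 2 :=
        Finset.single_le_sum (f := fun j => D2 θ x i j ^ 2) (fun j _ => sq_nonneg _) (Finset.mem_univ j)
      have h2 : ∑ j, D2 θ x i j ^ 2 ≤ fsq (D2 θ x) :=
        Finset.single_le_sum (f := fun i => ∑ j, D2 θ x i j ^ 2)
          (fun i _ => Finset.sum_nonneg fun j _ => sq_nonneg _) (Finset.mem_univ i)
      exact h1.trans h2
  · -- integrability
    have hm := k5_met hG R
    have hsu : ann R ⊆ {x : E3 | a < ‖x‖} := fun x hx => hG.lt.trans hx.1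
    have hks : ∀ i j, ContDiffOn ℝ ∞ (fun x => k x i j) (ann R) := fun i j => (hG.smooth i j).mono hsu
    have hu := hL.smooth
    have m_vol : AEMeasurable (fun x => vol g x) (volume.restrict (ann R)) := k5_am hm.vol_smooth
    have m_u : AEMeasurable (fun x => θ x) (volume.restrict (ann R)) := k5_am hu
    have m_gsq : AEMeasurable (fun x => gsq g θ x) (volume.restrict (ann R)) := k5_am (hm.gsq_smooth hu)
    have m_gr : ∀ i, AEMeasurable (fun x => gradU g θ i x) (volume.restrict (ann R)) :=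
      fun i => k5_am (k5_sm _ (val_gr hm hu i))
    have m_pd : ∀ i, AEMeasurable (fun x => pd i θ x) (volume.restrict (ann R)) :=
      fun i => k5_am (k5_sm _ (val_Du hm hu i))
    have m_hm : ∀ i j, AEMeasurable (fun x => hessM g θ i j x) (volume.restrict (ann R)) :=
      fun i j => k5_am (k5_sm _ (val_hm hm hu i j))
    have m_up : ∀ i j, AEMeasurable (fun x => upk g k i j x) (volume.restrict (ann R)) :=
      fun i j => k5_am (k5_sm _ (val_up hm hks i j))
    have m_y : AEMeasurable (fun x => yreg g θ 0 x) (volume.restrict (ann R)) := by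
      unfold yreg
      exact (m_gsq.add_const 0).sqrt
    have m_Mh : ∀ i j, AEMeasurable (fun x => UMB.Mh g k θ i j x) (volume.restrict (ann R)) := by
      intro i j
      unfold UMB.Mh
      by_cases hij : i = j
      · simp only [hij, if_true]
        exact (((m_hm j j).add (((m_gr j).const_mul 2).mul (m_pd j))).sub m_gsq).sub (m_y.mul (m_up j j))
      · simp only [hij, if_false]
        exact (((m_hm i j).add (((m_gr i).const_mul 2).mul (m_pd j))).sub aemeasurable_const).sub (m_y.mul (m_up i j))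
    have m_MhSq : AEMeasurable (fun x => MhSq g k θ x) (volume.restrict (ann R)) := by
      unfold MhSq
      exact Finset.aemeasurable_fun_sum _ fun i _ => Finset.aemeasurable_fun_sum _ fun j _ => (m_Mh i j).mul (m_Mh j i)
    have hmeas : AEStronglyMeasurable (enD g k θ) (volume.restrict (Ann R)) :=
      ((m_u.exp.mul (m_MhSq.div m_y)).mul m_vol).aestronglyMeasurable
    set K' : ℝ := K + 3 * K * B + K ^ 2 with hK'
    have hK0 : 0 ≤ K := by linarith
    have hB0 : 0 ≤ B := by linarith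
    have hK'0 : 0 ≤ K' := by rw [hK']; positivity
    have hdom : Integrable (fun x => K * (9 * K' ^ 2 / s * ((2 + 2 * B) *
        (1 + fsq (D2 θ x) / Real.sqrt (vsq (D1 θ x)))))) (volume.restrict (Ann R)) := by
      have h1 : Integrable (fun _ : E3 => (1 : ℝ)) (volume.restrict (Ann R)) :=
        integrableOn_const (UMB.Lin.volume_Ann_lt_top R).ne
      exact (((h1.add hL.kf).const_mul (2 + 2 * B)).const_mul (9 * K' ^ 2 / s)).const_mul K
    refine Integrable.mono' hdom hmeas ?_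
    filter_upwards [ae_restrict_mem hmA] with x hx
    have hb := hbd x hx
    have hb0 : 0 ≤ Real.sqrt (vsq (D1 θ x)) := Real.sqrt_nonneg _
    have hf0 : 0 ≤ Real.sqrt (fsq (D2 θ x)) := Real.sqrt_nonneg _
    have hff : Real.sqrt (fsq (D2 θ x)) ^ 2 = fsq (D2 θ x) := Real.sq_sqrt (k4_fsq_nn _)
    have hsq := q1_sq (hM x hx)
    have hT0 : 0 ≤ fsq (D2 θ x) / Real.sqrt (vsq (D1 θ x)) := div_nonneg (k4_fsq_nn _) hb0
    have hen : enD g k θ x = (vol g x * Real.exp (θ x)) * (MhSq g k θ x / yreg g θ 0 x) := by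
      unfold enD
      ring
    rw [Real.norm_eq_abs, hen, abs_mul, abs_of_nonneg hb.v_nn]
    have hq : |MhSq g k θ x / yreg g θ 0 x| ≤ 9 * K' ^ 2 / s * ((2 + 2 * B) *
        (1 + fsq (D2 θ x) / Real.sqrt (vsq (D1 θ x)))) := by
      rcases eq_or_lt_of_le hb0 with h0 | h0
      · have hy1 : yreg g θ 0 x ≤ 0 := by
          have := hb.y0_le
          rw [← h0, mul_zero] at this
          exact this
        have hy2 : yreg g θ 0 x = 0 := le_antisymm hy1 (Real.sqrt_nonneg _)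
        rw [hy2, div_zero, abs_zero]
        positivity
      · have hsb : 0 < s * Real.sqrt (vsq (D1 θ x)) := mul_pos hs h0
        have h1 := k4_div hsq hsb (hb.y_ge 0 le_rfl)
        refine h1.trans ?_
        have h3 : 9 * (K' * (Real.sqrt (fsq (D2 θ x)) + Real.sqrt (vsq (D1 θ x)))) ^ 2 /
            (s * Real.sqrt (vsq (D1 θ x))) = 9 * K' ^ 2 / s *
            ((Real.sqrt (fsq (D2 θ x)) + Real.sqrt (vsq (D1 θ x))) ^ 2 / Real.sqrt (vsq (D1 θ x))) := by
          field_simp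
        rw [h3]
        have h5 := k4_quot hf0 h0 hb.b_le
        rw [hff] at h5
        exact mul_le_mul_of_nonneg_left h5 (by positivity)
    exact mul_le_mul hb.v_le hq (abs_nonneg _) hK0
  · have h0 := (ae_restrict_iff' hmA).1 hL.kf0
    filter_upwards [h0] with x h1 hx hgs
    have hv0 : vsq (D1 θ x) ≤ 0 := by
      have h2 := hc.low x hx.1.le (D1 θ x)
      rw [← k4_gsq_eq, hgs, mul_zero] at h2
      exact h2
    have hv1 : vsq (D1 θ x) = 0 := le_antisymm hv0 (k4_vsq_nn _)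
    have hd1 : D1 θ x = 0 := k4b_zero (by rw [hv1, Real.sqrt_zero])
    have hd2 := h1 hx hd1
    have hM2 : ∀ i j, |UMB.Mh g k θ i j x| ≤ 0 := by
      intro i j
      have h3 := hM x hx i j
      have h4 : fsq (D2 θ x) = 0 := by
        rw [hd2]
        simp [fsq]
      rw [hv1, h4, Real.sqrt_zero, add_zero, mul_zero] at h3
      exact h3
    have h5 := q1_sq hM2
    norm_num at h5
    exact h5

end UMB.E
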