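import Pool.Agent.Lib.UMB.E.NDefs
import Pool.Agent.Lib.UMB.M.M1

set_option autoImplicit false

/-!
# UMB.E chunk Q2: `P.D`, the splitting of the main integral, the inner boundary term
-/

open Filter Topology Set MeasureTheory
open scoped ContDiff

namespace UMB.E

open Pool.Agent.Lib.PenroseSph (E3 Tens pd trg chr meanCurv gradNorm)
open UMB.Lin (Ann cAnn sig)

/-- **Q2a.** Unfold; `mul_div_assoc`. -/
theorem D_eq (P : Par) (v : E3 → ℝ) : P.D v = En P.g P.k P.R (P.th v) := by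
  unfold Par.D En enD Par.y
  simp only [mul_div_assoc]

/-- **Q2b.** `M1_int` gives the integrability of the first part and of `vol e^u y`; `η` is continuous on the compact set `cann R`
(bounded, measurable), so `vol e^u y η` is integrable (`Integrable.mul_bdd`-type lemma on the restricted measure); `integral_sub`. -/
theorem main_split {g k : Tens} {a R c2 : ℝ} {θ η : E3 → ℝ} (hG : GK g k a) (hu : LF R 0 c2 θ)
    (hη : ContinuousOn η (cann R)) :
    ∫ x in ann R, vol g x * (Real.exp (θ x) * ((MhSq g k θ x - MhTr g k θ x ^ 2) / (2 * yreg g θ 0 x)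
        - yreg g θ 0 x * η x)) =
      (∫ x in Ann R, mainD g k θ x) - ∫ x in Ann R, Real.exp (θ x) * yreg g θ 0 x * η x * vol g x := by
  obtain ⟨-, -, h3, h4⟩ := M1_int (k := k) hG hu
  have hsub : Ann R ⊆ cAnn R := fun x hx => ⟨hx.1.le, hx.2.le⟩
  have hcomp : IsCompact (cAnn R) := by
    have h1 : cAnn R = {x : E3 | 1 ≤ ‖x‖} ∩ {x : E3 | ‖x‖ ≤ R} := by
      ext y
      rfl
    refine Metric.isCompact_of_isClosed_isBounded ?_ ?_
    · rw [h1]
      exact (isClosed_le continuous_const continuous_norm).inter (isClosed_le continuous_norm continuous_const)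
    · refine (Metric.isBounded_closedBall (x := (0 : E3)) (r := R)).subset ?_
      intro x hx
      rw [mem_closedBall_zero_iff]
      exact hx.2
  obtain ⟨B, hB⟩ := hcomp.exists_bound_of_continuousOn hη
  have hm : AEStronglyMeasurable η (volume.restrict (Ann R)) :=
    (hη.aestronglyMeasurable hcomp.measurableSet).mono_measure (Measure.restrict_mono hsub le_rfl)
  have hae : ∀ᵐ x ∂(volume.restrict (Ann R)), ‖η x‖ ≤ B := by
    filter_upwards [ae_restrict_mem (UMB.Lin.measurableSet_Ann R)] with x hx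
    exact hB x (hsub hx)
  have h5 : Integrable (fun x => η x * (vol g x * (Real.exp (θ x) * yreg g θ 0 x)))
      (volume.restrict (Ann R)) := Integrable.bdd_mul (c := B) h4 hm hae
  have h6 : Integrable (fun x => mainD g k θ x) (volume.restrict (Ann R)) := by
    refine h3.congr (Filter.Eventually.of_forall fun x => ?_)
    simp only [mainD]
    ring
  have h7 : Integrable (fun x => Real.exp (θ x) * yreg g θ 0 x * η x * vol g x) (volume.restrict (Ann R)) := by
    refine h5.congr (Filter.Eventually.of_forall fun x => ?_)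
    ring
  rw [← integral_sub h6 h7]
  refine integral_congr_ae (Filter.Eventually.of_forall fun x => ?_)
  simp only [mainD]
  ring

theorem q2_gn {g : Tens} {Λ : ℝ} (hc : Cmp g Λ) {x : E3} (hx : ‖x‖ = 1) :
    gradNorm g (fun y => ‖y‖) x ≤ Real.sqrt (9 * Λ) := by
  have hx0 : x ≠ 0 := by
    intro h0
    rw [h0, norm_zero] at hx
    exact zero_ne_one hx
  have hp : ∀ i, |pd i (fun y : E3 => ‖y‖) x| ≤ 1 := by
    intro i
    unfold pd
    have h1 : ‖fderiv ℝ (fun y : E3 => ‖y‖) x‖ ≤ 1 := by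
      have h2 := norm_fderiv_le_of_lipschitz (𝕜 := ℝ) (f := fun y : E3 => ‖y‖) (x₀ := x)
        (C := 1) lipschitzWith_one_norm
      simpa using h2
    have h3 := (fderiv ℝ (fun y : E3 => ‖y‖) x).le_opNorm (EuclideanSpace.single i 1)
    have h4 : ‖(EuclideanSpace.single i (1 : ℝ) : E3)‖ = 1 := by simp
    rw [h4, mul_one] at h3
    rw [← Real.norm_eq_abs]
    exact h3.trans h1
  unfold gradNorm
  refine Real.sqrt_le_sqrt ?_
  have hG := hc.inv x hx.ge
  have hij : ∀ i j, (g x)⁻¹ i j * pd i (fun y : E3 => ‖y‖) x * pd j (fun y : E3 => ‖y‖) x ≤ Λ := by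
    intro i j
    refine (le_abs_self _).trans ?_
    rw [abs_mul, abs_mul]
    have h1 : |(g x)⁻¹ i j| * |pd i (fun y : E3 => ‖y‖) x| ≤ Λ * 1 :=
      mul_le_mul (hG i j) (hp i) (abs_nonneg _) hc.pos.le
    have h2 := mul_le_mul h1 (hp j) (abs_nonneg _) (by linarith [hc.pos])
    linarith
  refine (Finset.sum_le_sum fun i _ => Finset.sum_le_sum fun j _ => hij i j).trans ?_
  simp
  linarith

/-- **Q2c.** Pointwise for `|x| = 1`: `Y² - Y (H - P) ≥ Y² - Y η0 ≥ - η0²/4` (`Y = gradNorm ≥ 0`, `H - P ≤ η0`),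
`0 ≤ vol ≤ Λ`, `0 ≤ gradNorm g |.| ≤ √(9Λ)` (`|G_ij| ≤ Λ`, `|pd i |.|| ≤ 1`). If the integrand is not integrable, the integral is `0`;
otherwise `integral_mono` with the constant (finite measure; `sig.real univ`). -/
theorem bdry_in {g k : Tens} {Λ η0 : ℝ} (hc : Cmp g Λ) (hη0 : 0 ≤ η0) (θ : E3 → ℝ)
    (hH : ∀ x : E3, ‖x‖ = 1 → meanCurv g (fun y => ‖y‖) x ≤ sphTr g k x + η0) :
    -((sig.real univ) * (Λ * Real.sqrt (9 * Λ)) * η0 ^ 2) ≤ bdry g k θ 1 := by
  have hpt : ∀ n : Metric.sphere (0 : E3) 1,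
      -(Λ * Real.sqrt (9 * Λ) * η0 ^ 2) ≤ (1 : ℝ) ^ 2 * bd g k θ ((1 : ℝ) • (n : E3)) := by
    intro n
    rw [one_smul, one_pow, one_mul]
    have hn : ‖(n : E3)‖ = 1 := by
      have := n.2
      rwa [mem_sphere_zero_iff_norm] at this
    set x : E3 := (n : E3) with hxdef
    have h1 := hH x hn
    set Y := gradNorm g θ x with hY
    have hY0 : 0 ≤ Y := Real.sqrt_nonneg _
    set N := gradNorm g (fun y => ‖y‖) x with hN
    have hN0 : 0 ≤ N := Real.sqrt_nonneg _
    have hN1 : N ≤ Real.sqrt (9 * Λ) := q2_gn hc hn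
    have hv0 : 0 ≤ vol g x := Real.sqrt_nonneg _
    have hv1 : vol g x ≤ Λ := hc.vol_le x hn.ge
    have h2 : -(η0 ^ 2) ≤ Y ^ 2 - Y * (meanCurv g (fun y => ‖y‖) x - sphTr g k x) := by
      have h3 : Y * (meanCurv g (fun y => ‖y‖) x - sphTr g k x) ≤ Y * η0 :=
        mul_le_mul_of_nonneg_left (by linarith) hY0
      nlinarith [sq_nonneg (Y - η0 / 2), sq_nonneg η0]
    have h4 : vol g x * N ≤ Λ * Real.sqrt (9 * Λ) := mul_le_mul hv1 hN1 hN0 hc.pos.le
    have h5 : 0 ≤ vol g x * N := mul_nonneg hv0 hN0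
    have h6 : bd g k θ x = vol g x * N * (Y ^ 2 - Y * (meanCurv g (fun y => ‖y‖) x - sphTr g k x)) := by
      unfold bd
      ring
    rw [h6]
    have h7 : vol g x * N * -(η0 ^ 2) ≤
        vol g x * N * (Y ^ 2 - Y * (meanCurv g (fun y => ‖y‖) x - sphTr g k x)) :=
      mul_le_mul_of_nonneg_left h2 h5
    have h8 : vol g x * N * η0 ^ 2 ≤ Λ * Real.sqrt (9 * Λ) * η0 ^ 2 :=
      mul_le_mul_of_nonneg_right h4 (sq_nonneg _)
    linarith
  have hK : 0 ≤ (sig.real univ) * (Λ * Real.sqrt (9 * Λ)) * η0 ^ 2 := by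
    have := hc.pos
    positivity
  unfold bdry
  by_cases hint : Integrable (fun n : Metric.sphere (0 : E3) 1 => (1 : ℝ) ^ 2 * bd g k θ ((1 : ℝ) • (n : E3)))
      UMB.Lin.sig
  · have h1 := integral_mono (integrable_const (-(Λ * Real.sqrt (9 * Λ) * η0 ^ 2))) hint hpt
    rw [integral_const, smul_eq_mul] at h1
    linarith
  · rw [integral_undef hint]
    linarith

end UMB.E
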