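import Pool.Agent.Lib.UMB.E.NDefs
import Pool.Agent.Lib.UMB.M.Defs
import Pool.Agent.Lib.UMB.Far.FZ1
import Pool.Agent.Lib.UMB.BR.Hopf

set_option autoImplicit false

/-!
# UMB.E chunk Q3a: the outer boundary term
-/

open Filter Topology Set MeasureTheory
open scoped ContDiff

namespace UMB.E

open Pool.Agent.Lib.PenroseSph (E3 Tens pd trg chr meanCurv gradNorm)
open UMB.Lin (Ann cAnn sig)

/-- **Q3a.** The same integrand: `areaD = vol * gradNorm |.|`, `P.y v x = yreg P.g (P.th v) 0 x = gradNorm P.g (P.th v) x` (unfold,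
`Finset.mul_sum`, symmetry of the sums is not needed up to `ring_nf`), `sm = sig`. -/
theorem bdry_out (P : Par) (v : E3 → ℝ) : bdry P.g P.k (P.th v) P.R = Far.sphQ P.g P.k (P.y v) P.R := by
  have hy : ∀ x, gradNorm P.g (P.th v) x = P.y v x := by
    intro x
    unfold gradNorm Par.y yreg gsq gradU
    rw [add_zero]
    congr 1
    refine Finset.sum_congr rfl fun i _ => ?_
    rw [Finset.mul_sum]
    exact Finset.sum_congr rfl fun j _ => by ring
  unfold bdry Far.sphQ
  refine integral_congr_ae (Filter.Eventually.of_forall fun n => ?_)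
  simp only [bd, Far.areaD, hy]
  ring

end UMB.E
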