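import Pool.Agent.Lib.UMB.E.NDefs
import Pool.Agent.Lib.UMB.M.Defs
import Pool.Agent.Lib.UMB.BR.Hopf

set_option autoImplicit false

/-!
# UMB.E chunk Q3b: reduction to globally `C³` functions
-/

open Filter Topology Set MeasureTheory
open scoped ContDiff

namespace UMB.E

open Pool.Agent.Lib.PenroseSph (E3 Tens pd trg chr meanCurv gradNorm)
open UMB.Lin (Ann cAnn sig)

theorem q3b_pd {u u' : E3 → ℝ} {x : E3} (h : u =ᶠ[𝓝 x] u') (i : Fin 3) : pd i u x = pd i u' x := by
  unfold pd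
  rw [h.fderiv_eq]

theorem q3b_pd_ev {u u' : E3 → ℝ} {x : E3} (h : u =ᶠ[𝓝 x] u') (i : Fin 3) : pd i u =ᶠ[𝓝 x] pd i u' := by
  filter_upwards [h.eventuallyEq_nhds] with y hy
  exact q3b_pd hy i

theorem q3b_mh {g k : Tens} {u u' : E3 → ℝ} {x : E3} (h : u =ᶠ[𝓝 x] u') :
    MhSq g k u x = MhSq g k u' x ∧ yreg g u 0 x = yreg g u' 0 x := by
  have h1 : ∀ i, pd i u x = pd i u' x := fun i => q3b_pd h i
  have h2 : ∀ i j, pd i (pd j u) x = pd i (pd j u') x := fun i j => q3b_pd (q3b_pd_ev h j) i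
  constructor
  · simp only [MhSq, UMB.Mh, hessM, hess, gradU, gsq, yreg, h1, h2]
  · simp only [gradU, gsq, yreg, h1]

theorem q3b_mean {P : Par} (hP : P.Ok) {v w : E3 → ℝ} (h : ∀ x ∈ cAnn P.R, w x = v x) :
    P.kap w = P.kap v := by
  have h1 := hP.r1_ge
  have h2 := hP.R1_ge
  have h3 := hP.R_ge
  have h4 : Par.mean w (2 * P.R1) = Par.mean v (2 * P.R1) := by
    unfold Par.mean
    congr 1
    refine integral_congr_ae (Filter.Eventually.of_forall fun n => ?_)
    have hn : ‖(n : E3)‖ = 1 := by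
      have := n.2
      rwa [mem_sphere_zero_iff_norm] at this
    refine h _ ⟨?_, ?_⟩
    · rw [norm_smul, hn, mul_one, Real.norm_eq_abs, abs_of_nonneg (by linarith)]
      linarith
    · rw [norm_smul, hn, mul_one, Real.norm_eq_abs, abs_of_nonneg (by linarith)]
      linarith
  unfold Par.kap Par.Cv
  rw [h4]

/-- **Q3b.** `UMB.BR.glob` (with `hv.near`) gives a global `C³` function `w` with `w = v` near every point of `cAnn`. All
fields of `W.Sol` only see the germs of `v` at the points of `cAnn`: `ext R w = ext R v`, so `vd`, `qd`, `aa`, `bb` are equal;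
derivatives in `Ann` are equal (`Filter.EventuallyEq.fderiv_eq` twice). `P.mean v r` for `1 ≤ r ≤ R` is equal, so `P.Cv`, `P.kap`,
`P.T`, `P.CC`; `P.th` agrees near `cAnn`, so `P.D` is equal. -/
theorem sol_glob {P : Par} (hP : P.Ok) {v : E3 → ℝ} (hv : W.Sol P.op v) : ∃ w : E3 → ℝ, ContDiff ℝ 3 w ∧ W.Sol P.op w ∧
    (∀ x ∈ cAnn P.R, w =ᶠ[𝓝 x] v) ∧ P.kap w = P.kap v ∧ P.T w = P.T v ∧ P.CC w = P.CC v ∧ P.D w = P.D v := by
  obtain ⟨U, hU, hKU, hvU⟩ := hv.near
  obtain ⟨w, hw, hwv⟩ := UMB.BR.glob (n := 3) (UMB.BR.isCompact_cAnn P.R) hU hKU hvU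
  have heq : ∀ x ∈ cAnn P.R, w x = v x := fun x hx => (hwv x hx).eq_of_nhds
  have hsub : ∀ x ∈ Ann P.R, x ∈ cAnn P.R := fun x hx => ⟨hx.1.le, hx.2.le⟩
  have hR1 : (1 : ℝ) < P.R := by
    have h1 := hP.r1_ge
    have h2 := hP.R1_ge
    have h3 := hP.R_ge
    linarith
  have hext : ext P.op.R w = ext P.op.R v := by
    funext x
    unfold ext
    split_ifs with h1 h2
    · rfl
    · exact heq x ⟨not_lt.1 h1, h2⟩
    · rfl
  have hvd : P.op.vd w = P.op.vd v := by
    funext x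
    unfold OpData.vd
    rw [hext]
  have hqd : P.op.qd w = P.op.qd v := by
    funext x
    unfold OpData.qd
    rw [hext]
  have hnn : P.op.nn w = P.op.nn v := by
    funext x
    unfold OpData.nn OpData.Nd
    rw [hqd]
  have haa : P.op.aa w = P.op.aa v := by
    funext x
    unfold OpData.aa
    rw [hvd, hnn]
  have hbb : P.op.bb w = P.op.bb v := by
    funext x
    unfold OpData.bb
    rw [haa, hnn]
  have hD1 : ∀ x ∈ Ann P.R, D1 w x = D1 v x := fun x hx => funext fun i => q3b_pd (hwv x (hsub x hx)) i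
  have hD2 : ∀ x ∈ Ann P.R, D2 w x = D2 v x := fun x hx => funext fun i => funext fun j =>
    q3b_pd (q3b_pd_ev (hwv x (hsub x hx)) j) i
  have hkap : P.kap w = P.kap v := q3b_mean hP heq
  have hT : P.T w = P.T v := by
    unfold Par.T Par.F
    rw [hkap]
  have hCC : P.CC w = P.CC v := by
    unfold Par.CC
    rw [hT]
  refine ⟨w, hw, ?_, hwv, hkap, hT, hCC, ?_⟩
  · refine ⟨hw.continuous.continuousOn, hv.smooth.congr fun x hx => heq x (hsub x hx), ?_, ?_, ?_, ?_, ?_, ?_, ?_⟩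
    · intro x hx
      rw [heq x ⟨hx.ge, hx.le.trans hR1.le⟩]
      exact hv.one x hx
    · intro x hx
      rw [heq x ⟨by rw [hx]; exact hR1.le, hx.le⟩]
      exact hv.zero x hx
    · intro x hx
      rw [heq x hx]
      exact hv.nonneg x hx
    · intro x hx
      rw [heq x hx]
      exact hv.le_one x hx
    · intro x hx
      rw [haa, hbb, hD1 x hx, hD2 x hx]
      exact hv.solves x hx
    · intro ε hε
      obtain ⟨z, hz1, hz2⟩ := hv.approx ε hε
      refine ⟨z, hz1, fun x hx => ?_⟩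
      rw [heq x (hsub x hx), hD1 x hx, hD2 x hx]
      exact hz2 x hx
    · exact ⟨Set.univ, isOpen_univ, Set.subset_univ _, hw.contDiffOn⟩
  · unfold Par.D
    refine setIntegral_congr_fun (UMB.Lin.measurableSet_Ann P.R) fun x hx => ?_
    have h1 : P.th w =ᶠ[𝓝 x] P.th v := by
      filter_upwards [hwv x (hsub x hx)] with y hy
      unfold Par.th W.theta
      rw [hkap, hy]
    obtain ⟨h2, h3⟩ := q3b_mh (g := P.g) (k := P.k) h1
    have h4 : P.th w x = P.th v x := h1.eq_of_nhds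
    simp only [Par.y, h2, h3, h4]

end UMB.E
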