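import Pool.Agent.Lib.UMB.E.P9

set_option autoImplicit false

/-!
# UMB.E chunk P11b: a first order integral
-/

open Filter Topology Set MeasureTheory
open scoped ContDiff

namespace UMB.E

open Pool.Agent.Lib.PenroseSph (E3 Tens pd trg)
open UMB.Lin (Ann cAnn sig)

theorem p11b_alg {y r : ℝ} (hr : 0 < r) : y / r ^ 3 ≤ 1 / 2 * (y ^ 2 / r ^ 2 + 1 / r ^ 4) := by
  have : 1 / 2 * (y ^ 2 / r ^ 2 + 1 / r ^ 4) - y / r ^ 3 = 1 / 2 * (y / r - 1 / r ^ 2) ^ 2 := by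
    field_simp
    ring
  have h2 := sq_nonneg (y / r - 1 / r ^ 2)
  linarith

/-- **P11b.** `∫_{|x| ≥ ρ} exp θ |x|⁻⁴ y vol ≤ Ce ∫ |x|⁻³ y vol ≤ Ce X2(ρ)^{1/2} (∫_{|x| ≥ ρ} |x|⁻⁴ vol)^{1/2} ≤ C/ρ (1 + D)`. Likewise for
`ρ = 1`. -/
theorem X1_le : ∀ Λ Ce : ℝ, 0 ≤ Ce → ∃ C : ℝ, 0 < C ∧ ∀ (g k : Tens) (a R : ℝ) (θ : E3 → ℝ) (ρ : ℝ), AF g a → Cmp g Λ →
    Kk g k a → Th g k Ce R θ → 1 ≤ ρ → ρ ≤ R →
    ∫ x in Ann R ∩ {x : E3 | ρ ≤ ‖x‖}, Real.exp (θ x) * yreg g θ 0 x / ‖x‖ ^ 4 * vol g x ≤ C / ρ * (1 + En g k R θ) := by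
  intro Λ Ce hCe
  by_cases hΛ : 0 < Λ
  swap
  · exact ⟨1, one_pos, fun g k a R θ ρ hg hc hk hT hρ hρR => absurd hc.pos hΛ⟩
  obtain ⟨C2, hC2, h2⟩ := X2_le Λ
  obtain ⟨Cp, hCp, hpow⟩ := pow_int
  refine ⟨Ce / 2 * (C2 + Λ * Cp) + 1, by positivity, ?_⟩
  intro g k a R θ ρ hg hc hk hT hρ hρR
  have hρ0 : 0 < ρ := lt_of_lt_of_le one_pos hρ
  have hR1 : 1 < R := by linarith [hT.four_le]
  have hp4 := (hpow R ρ hR1 (by linarith)).1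
  have hX2 := h2 g k a Ce R θ ρ hg hc hk hT hρ hρR
  obtain ⟨b1, b2, b3, b4, b5, b6⟩ := p9_BC_of hg hk hT
  obtain ⟨n1, n2, n3⟩ := p9_En hg hk hT
  have hm := p9_met R hg
  have hmeas : MeasurableSet (Ann R ∩ {x : E3 | ρ ≤ ‖x‖}) := (UMB.Lin.measurableSet_Ann R).inter (p9_meas ρ)
  have hi2 : IntegrableOn (fun x => gsq g θ x / ‖x‖ ^ 2 * vol g x) (Ann R ∩ {x : E3 | ρ ≤ ‖x‖}) := by
    have := ((b1.mul (p9_BC_inv 2)).mul b3).int.mono_set (inter_subset_left : Ann R ∩ {x : E3 | ρ ≤ ‖x‖} ⊆ Ann R)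
    refine this.congr_fun (fun x _ => ?_) hmeas
    show gsq g θ x * (1 / ‖x‖ ^ 2) * vol g x = gsq g θ x / ‖x‖ ^ 2 * vol g x
    ring
  have hi4 : IntegrableOn (fun x : E3 => 1 / ‖x‖ ^ 4) (Ann R ∩ {x : E3 | ρ ≤ ‖x‖}) :=
    (p9_BC_inv 4).int.mono_set inter_subset_left
  have hmono : ∫ x in Ann R ∩ {x : E3 | ρ ≤ ‖x‖}, Real.exp (θ x) * yreg g θ 0 x / ‖x‖ ^ 4 * vol g x ≤
      ∫ x in Ann R ∩ {x : E3 | ρ ≤ ‖x‖}, (Ce / 2 * (gsq g θ x / ‖x‖ ^ 2 * vol g x) + Ce / 2 * Λ * (1 / ‖x‖ ^ 4)) := by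
    refine integral_mono_of_nonneg ?_ ((hi2.const_mul _).add (hi4.const_mul _)) ?_
    · filter_upwards with x
      exact mul_nonneg (div_nonneg (mul_nonneg (Real.exp_pos _).le (Real.sqrt_nonneg _)) (by positivity))
        (Real.sqrt_nonneg _)
    · filter_upwards [ae_restrict_mem hmeas] with x hx
      have hx1 : 1 ≤ ‖x‖ := hx.1.1.le
      have hx0 : 0 < ‖x‖ := lt_trans one_pos hx.1.1
      have hy0 : 0 ≤ yreg g θ 0 x := Real.sqrt_nonneg _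
      have hys : yreg g θ 0 x ^ 2 = gsq g θ x := ysq_zero (hm.gsq_nonneg hx.1)
      have hv0 : 0 ≤ vol g x := Real.sqrt_nonneg _
      have hvL : vol g x ≤ Λ := hc.vol_le x hx1
      have hE := hT.up x hx.1
      have e1 : Real.exp (θ x) * yreg g θ 0 x / ‖x‖ ^ 4 ≤ Ce * (yreg g θ 0 x / ‖x‖ ^ 3) := by
        have h1 : Real.exp (θ x) * yreg g θ 0 x / ‖x‖ ^ 4 ≤ Ce * ‖x‖ * yreg g θ 0 x / ‖x‖ ^ 4 :=
          div_le_div_of_nonneg_right (mul_le_mul_of_nonneg_right hE hy0) (by positivity)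
        refine h1.trans (le_of_eq ?_)
        field_simp
      have e2 := p11b_alg (y := yreg g θ 0 x) hx0
      rw [hys] at e2
      have e3 : Real.exp (θ x) * yreg g θ 0 x / ‖x‖ ^ 4 ≤ Ce / 2 * (gsq g θ x / ‖x‖ ^ 2 + 1 / ‖x‖ ^ 4) := by
        refine e1.trans ((mul_le_mul_of_nonneg_left e2 hCe).trans (le_of_eq ?_))
        ring
      have e4 := mul_le_mul_of_nonneg_right e3 hv0
      have k4 : Ce / 2 * (1 / ‖x‖ ^ 4) * vol g x ≤ Ce / 2 * (1 / ‖x‖ ^ 4) * Λ :=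
        mul_le_mul_of_nonneg_left hvL (by positivity)
      nlinarith [e4, k4]
  refine hmono.trans ?_
  rw [integral_add (hi2.const_mul _) (hi4.const_mul _), integral_const_mul, integral_const_mul]
  have q1 : Ce / 2 * X2 g R ρ θ ≤ Ce / 2 * (C2 / ρ * (1 + En g k R θ)) :=
    mul_le_mul_of_nonneg_left hX2 (by positivity)
  have q2 : Ce / 2 * Λ * (∫ x in Ann R ∩ {x : E3 | ρ ≤ ‖x‖}, 1 / ‖x‖ ^ 4) ≤ Ce / 2 * Λ * (Cp / ρ) :=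
    mul_le_mul_of_nonneg_left hp4 (by positivity)
  have q3 : Ce / 2 * Λ * (Cp / ρ) ≤ Ce / 2 * Λ * (Cp / ρ) * (1 + En g k R θ) :=
    le_mul_of_one_le_right (by positivity) (by linarith)
  have q4 : 0 ≤ 1 / ρ * (1 + En g k R θ) := by positivity
  have q5 : (Ce / 2 * (C2 + Λ * Cp) + 1) / ρ * (1 + En g k R θ) =
      Ce / 2 * (C2 / ρ * (1 + En g k R θ)) + Ce / 2 * Λ * (Cp / ρ) * (1 + En g k R θ) + 1 / ρ * (1 + En g k R θ) := by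
    ring
  unfold X2 at q1
  linarith

end UMB.E
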