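import Pool.Agent.Lib.UMB.E.P11
import Pool.Agent.Lib.UMB.E.P11b

set_option autoImplicit false

/-!
# UMB.E chunk P13: the energy inequality
-/

open Filter Topology Set MeasureTheory
open scoped ContDiff

namespace UMB.E

open Pool.Agent.Lib.PenroseSph (E3 Tens pd trg)
open UMB.Lin (Ann cAnn sig)

/-- The main term `exp θ (|Mh|² - (tr Mh)²)/(2y) dV`. -/
noncomputable def mainD (g k : Tens) (θ : E3 → ℝ) (x : E3) : ℝ :=
  Real.exp (θ x) * ((MhSq g k θ x - MhTr g k θ x ^ 2) / (2 * yreg g θ 0 x)) * vol g x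

/-- The Cordes inequality with errors: near part (`|x| < ρ`) with a nonnegative error function `e`, far part. -/
structure Cor (g k : Tens) (R ρ c1 Cf : ℝ) (θ e : E3 → ℝ) : Prop where
  near : ∀ x ∈ Ann R, ‖x‖ < ρ → c1 * MhSq g k θ x - e x * yreg g θ 0 x ≤ MhSq g k θ x - MhTr g k θ x ^ 2
  far : ∀ x ∈ Ann R, ρ ≤ ‖x‖ →
    |MhTr g k θ x| ≤ Cf / ‖x‖ * (Real.sqrt (MhSq g k θ x) + gsq g θ x) + Cf / ‖x‖ ^ 2 * yreg g θ 0 x
  nonneg : ∀ x ∈ Ann R, 0 ≤ e x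
  int : IntegrableOn (fun x => Real.exp (θ x) * e x * vol g x) (Ann R)

theorem p13_near {m t e y c1 E v : ℝ} (hy : 0 ≤ y) (hE : 0 ≤ E) (hv : 0 ≤ v) (he : 0 ≤ e)
    (h : c1 * m - e * y ≤ m - t ^ 2) :
    c1 / 2 * (E * (m / y) * v) - 1 / 2 * (E * e * v) ≤ E * ((m - t ^ 2) / (2 * y)) * v := by
  rcases hy.eq_or_lt with h0 | h0
  · rw [← h0]
    simp
    positivity
  · have h1 : (c1 * m - e * y) / (2 * y) ≤ (m - t ^ 2) / (2 * y) := div_le_div_of_nonneg_right h (by positivity)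
    have h2 : (c1 * m - e * y) / (2 * y) = c1 / 2 * (m / y) - 1 / 2 * e := by
      field_simp
    rw [h2] at h1
    have h3 := mul_le_mul_of_nonneg_right (mul_le_mul_of_nonneg_left h1 hE) hv
    refine le_trans (le_of_eq ?_) h3
    ring

theorem p13_far {m t y r C E v : ℝ} (hm : 0 ≤ m) (hy : 0 ≤ y) (hr : 0 < r) (hE : 0 ≤ E) (hv : 0 ≤ v)
    (hCr : 6 * C ^ 2 ≤ r ^ 2)
    (h : |t| ≤ C / r * (Real.sqrt m + y ^ 2) + C / r ^ 2 * y) :
    1 / 4 * (E * (m / y) * v) - 3 / 2 * C ^ 2 * (E * y ^ 3 / r ^ 2 * v + E * y / r ^ 4 * v) ≤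
      E * ((m - t ^ 2) / (2 * y)) * v := by
  rcases hy.eq_or_lt with h0 | h0
  · rw [← h0]
    simp
  · have hs2 : Real.sqrt m ^ 2 = m := Real.sq_sqrt hm
    have hs0 := Real.sqrt_nonneg m
    have ht : t ^ 2 ≤ (C / r * (Real.sqrt m + y ^ 2) + C / r ^ 2 * y) ^ 2 := by
      rw [← sq_abs t]
      exact pow_le_pow_left₀ (abs_nonneg _) h 2
    have h3 : (C / r * (Real.sqrt m + y ^ 2) + C / r ^ 2 * y) ^ 2 ≤
        3 * ((C / r * Real.sqrt m) ^ 2 + (C / r * y ^ 2) ^ 2 + (C / r ^ 2 * y) ^ 2) := by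
      nlinarith [sq_nonneg (C / r * Real.sqrt m - C / r * y ^ 2), sq_nonneg (C / r * Real.sqrt m - C / r ^ 2 * y),
        sq_nonneg (C / r * y ^ 2 - C / r ^ 2 * y)]
    have h4 : 3 * (C / r * Real.sqrt m) ^ 2 ≤ 1 / 2 * m := by
      have : 3 * (C / r * Real.sqrt m) ^ 2 = 3 * C ^ 2 / r ^ 2 * m := by
        rw [mul_pow, hs2]
        ring
      rw [this]
      refine mul_le_mul_of_nonneg_right ?_ hm
      rw [div_le_iff₀ (by positivity)]
      linarith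
    have h5 : 1 / 2 * m - 3 * C ^ 2 * (y ^ 4 / r ^ 2 + y ^ 2 / r ^ 4) ≤ m - t ^ 2 := by
      have e1 : 3 * (C / r * y ^ 2) ^ 2 = 3 * C ^ 2 * (y ^ 4 / r ^ 2) := by ring
      have e2 : 3 * (C / r ^ 2 * y) ^ 2 = 3 * C ^ 2 * (y ^ 2 / r ^ 4) := by ring
      linarith
    have h6 : (1 / 2 * m - 3 * C ^ 2 * (y ^ 4 / r ^ 2 + y ^ 2 / r ^ 4)) / (2 * y) ≤ (m - t ^ 2) / (2 * y) :=
      div_le_div_of_nonneg_right h5 (by positivity)
    have h7 : (1 / 2 * m - 3 * C ^ 2 * (y ^ 4 / r ^ 2 + y ^ 2 / r ^ 4)) / (2 * y) =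
        1 / 4 * (m / y) - 3 / 2 * C ^ 2 * (y ^ 3 / r ^ 2 + y / r ^ 4) := by
      field_simp
      ring
    rw [h7] at h6
    have h8 := mul_le_mul_of_nonneg_right (mul_le_mul_of_nonneg_left h6 hE) hv
    refine le_trans (le_of_eq ?_) h8
    ring

/-- `mainD` is integrable. -/
theorem p13_int {g k : Tens} {a Ce R : ℝ} {θ : E3 → ℝ} (hg : AF g a) (hk : Kk g k a) (hT : Th g k Ce R θ) :
    IntegrableOn (mainD g k θ) (Ann R) := by
  obtain ⟨b1, b2, b3, b4, b5, b6⟩ := p9_BC_of hg hk hT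
  obtain ⟨n1, n2, n3⟩ := p9_En hg hk hT
  have hm := p9_met R hg
  have hks : ∀ x ∈ Ann R, (k x).IsSymm := fun x hx => hk.symm x (lt_trans hg.lt hx.1)
  have hA := UMB.Lin.measurableSet_Ann R
  have hms : AEStronglyMeasurable (mainD g k θ) (volume.restrict (Ann R)) := by
    have m1 : AEMeasurable (fun x => Real.exp (θ x)) (volume.restrict (Ann R)) :=
      (b4.1.aestronglyMeasurable hA).aemeasurable
    have m2 : AEMeasurable (fun x => MhSq g k θ x - MhTr g k θ x ^ 2) (volume.restrict (Ann R)) :=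
      ((b5.1.sub (b6.1.pow 2)).aestronglyMeasurable hA).aemeasurable
    have m3 : AEMeasurable (fun x => (2 : ℝ) * yreg g θ 0 x) (volume.restrict (Ann R)) :=
      ((b2.1.aestronglyMeasurable hA).aemeasurable).const_mul 2
    have m4 : AEMeasurable (vol g) (volume.restrict (Ann R)) := (b3.1.aestronglyMeasurable hA).aemeasurable
    exact ((m1.mul (m2.div m3)).mul m4).aestronglyMeasurable
  refine Integrable.mono' (g := fun x => 2 * enD g k θ x) (hT.int.const_mul 2) hms ?_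
  filter_upwards [ae_restrict_mem hA] with x hx
  have hsq := (mh_ineq hm hks hT.smooth hx).2.1
  have hm0 := n1 x hx
  have hy0 : 0 ≤ yreg g θ 0 x := Real.sqrt_nonneg _
  have hv0 : 0 ≤ vol g x := Real.sqrt_nonneg _
  have hE0 := (Real.exp_pos (θ x)).le
  rw [Real.norm_eq_abs]
  unfold mainD enD
  rw [abs_mul, abs_mul, abs_of_nonneg hv0, abs_of_nonneg hE0, abs_div, abs_of_nonneg (mul_nonneg two_pos.le hy0)]
  have h1 : |MhSq g k θ x - MhTr g k θ x ^ 2| ≤ 4 * MhSq g k θ x := by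
    rw [abs_le]
    constructor
    · linarith
    · have := sq_nonneg (MhTr g k θ x)
      linarith
  have h2 : |MhSq g k θ x - MhTr g k θ x ^ 2| / (2 * yreg g θ 0 x) ≤ 4 * MhSq g k θ x / (2 * yreg g θ 0 x) :=
    div_le_div_of_nonneg_right h1 (mul_nonneg two_pos.le hy0)
  have h3 : 4 * MhSq g k θ x / (2 * yreg g θ 0 x) = 2 * (MhSq g k θ x / yreg g θ 0 x) := by
    rw [show 4 * MhSq g k θ x = 2 * (2 * MhSq g k θ x) by ring, mul_div_mul_left _ _ two_ne_zero, mul_div_assoc]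
  rw [h3] at h2
  have h4 := mul_le_mul_of_nonneg_right (mul_le_mul_of_nonneg_left h2 hE0) hv0
  refine h4.trans (le_of_eq ?_)
  ring

/-- **P13.** Far part, `|x| ≥ ρ`, `6 Cf² ≤ ρ²`: `(tr Mh)² ≤ 3 Cf² |x|⁻² (MhSq + y⁴) + 3 Cf² |x|⁻⁴ y²` (`(a+b+c)² ≤ 3(a²+b²+c²)`),
so `MhSq - (tr Mh)² ≥ MhSq/2 - 3 Cf² |x|⁻² y⁴ - 3 Cf² |x|⁻⁴ y²`; divide by `2y` (where `y = 0` both sides are `0` in Lean). With
`c = min (c1/2) (1/4)`: `mainD ≥ c enD - (1/2) e exp θ vol 1_{near} - C 1_{far} (exp θ |x|⁻² y³ + exp θ |x|⁻⁴ y) vol`.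
Integrate: `X3_le`, `X1_le`. (`mainD` is integrable: `|mainD| ≤ 2 enD` by `mh_ineq`, a.e. measurable by `contOn`.) -/
theorem energy_le : ∀ Λ Ce c1 Cf : ℝ, 0 ≤ Ce → 0 < c1 → 0 ≤ Cf → ∃ c C : ℝ, 0 < c ∧ 0 < C ∧
    ∀ (g k : Tens) (a R ρ : ℝ) (θ e : E3 → ℝ), AF g a → Cmp g Λ → Kk g k a → Th g k Ce R θ → C ≤ ρ → ρ ≤ R →
      Cor g k R ρ c1 Cf θ e →
      c * En g k R θ ≤ (∫ x in Ann R, mainD g k θ x) + (∫ x in Ann R, Real.exp (θ x) * e x * vol g x)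
        + C / ρ * (1 + En g k R θ) := by
  intro Λ Ce c1 Cf hCe hc1 hCf
  obtain ⟨C3, hC3, h3⟩ := X3_le Λ Ce hCe
  obtain ⟨C1, hC1, h1⟩ := X1_le Λ Ce hCe
  refine ⟨min (c1 / 2) (1 / 4), 2 + 6 * Cf ^ 2 + 3 / 2 * Cf ^ 2 * (C3 + C1), lt_min (by positivity) (by norm_num),
    by positivity, ?_⟩
  intro g k a R ρ θ e hg hc hk hT hρ hρR hcor
  have hρ2 : 2 ≤ ρ := by
    have : 0 ≤ 6 * Cf ^ 2 + 3 / 2 * Cf ^ 2 * (C3 + C1) := by positivity
    linarith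
  have hρ1 : 1 ≤ ρ := by linarith
  have hρ0 : 0 < ρ := by linarith
  have hCρ : 6 * Cf ^ 2 ≤ ρ ^ 2 := by
    have : 0 ≤ 3 / 2 * Cf ^ 2 * (C3 + C1) := by positivity
    nlinarith
  have hX3 := h3 g k a R θ ρ hg hc hk hT hρ2 hρR
  have hX1 := h1 g k a R θ ρ hg hc hk hT hρ1 hρR
  obtain ⟨b1, b2, b3, b4, b5, b6⟩ := p9_BC_of hg hk hT
  obtain ⟨n1, n2, n3⟩ := p9_En hg hk hT
  have hm := p9_met R hg
  set c : ℝ := min (c1 / 2) (1 / 4) with hcd
  set S : Set E3 := {x : E3 | ρ ≤ ‖x‖} with hS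
  have hSm : MeasurableSet S := p9_meas _
  have hA := UMB.Lin.measurableSet_Ann R
  have hi3 : IntegrableOn (fun x => Real.exp (θ x) * yreg g θ 0 x ^ 3 / ‖x‖ ^ 2 * vol g x) (Ann R) := by
    have := (((b4.mul (b2.pow 3)).mul (p9_BC_inv 2)).mul b3).int
    refine this.congr_fun (fun x _ => ?_) hA
    show Real.exp (θ x) * yreg g θ 0 x ^ 3 * (1 / ‖x‖ ^ 2) * vol g x = _
    ring
  have hi1 : IntegrableOn (fun x => Real.exp (θ x) * yreg g θ 0 x / ‖x‖ ^ 4 * vol g x) (Ann R) := by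
    have := (((b4.mul b2).mul (p9_BC_inv 4)).mul b3).int
    refine this.congr_fun (fun x _ => ?_) hA
    show Real.exp (θ x) * yreg g θ 0 x * (1 / ‖x‖ ^ 4) * vol g x = _
    ring
  have hi3' : IntegrableOn (fun x => S.indicator (fun x => Real.exp (θ x) * yreg g θ 0 x ^ 3 / ‖x‖ ^ 2 * vol g x) x)
      (Ann R) := hi3.indicator hSm
  have hi1' : IntegrableOn (fun x => S.indicator (fun x => Real.exp (θ x) * yreg g θ 0 x / ‖x‖ ^ 4 * vol g x) x)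
      (Ann R) := hi1.indicator hSm
  have hmono : ∫ x in Ann R, (c * enD g k θ x + (-1) * (Real.exp (θ x) * e x * vol g x) +
      (-(3 / 2 * Cf ^ 2)) * S.indicator (fun x => Real.exp (θ x) * yreg g θ 0 x ^ 3 / ‖x‖ ^ 2 * vol g x) x +
      (-(3 / 2 * Cf ^ 2)) * S.indicator (fun x => Real.exp (θ x) * yreg g θ 0 x / ‖x‖ ^ 4 * vol g x) x) ≤
      ∫ x in Ann R, mainD g k θ x := by
    refine setIntegral_mono_on ?_ (p13_int hg hk hT) hA fun x hx => ?_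
    · exact (((hT.int.const_mul _).add (hcor.int.const_mul _)).add (hi3'.const_mul _)).add (hi1'.const_mul _)
    have hx1 : 1 ≤ ‖x‖ := hx.1.le
    have hx0 : 0 < ‖x‖ := lt_trans one_pos hx.1
    have hy0 : 0 ≤ yreg g θ 0 x := Real.sqrt_nonneg _
    have hv0 : 0 ≤ vol g x := Real.sqrt_nonneg _
    have hE0 := (Real.exp_pos (θ x)).le
    have he0 := hcor.nonneg x hx
    have hen := n2 x hx
    have heev : 0 ≤ Real.exp (θ x) * e x * vol g x := mul_nonneg (mul_nonneg hE0 he0) hv0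
    have hys : yreg g θ 0 x ^ 2 = gsq g θ x := ysq_zero (hm.gsq_nonneg hx)
    by_cases hxS : x ∈ S
    · have hxρ : ρ ≤ ‖x‖ := hxS
      have hf := hcor.far x hx hxρ
      rw [← hys] at hf
      have hCr : 6 * Cf ^ 2 ≤ ‖x‖ ^ 2 := hCρ.trans (pow_le_pow_left₀ hρ0.le hxρ 2)
      have key := p13_far (n1 x hx) hy0 hx0 hE0 hv0 hCr hf
      rw [Set.indicator_of_mem hxS, Set.indicator_of_mem hxS]
      have hcq : c * enD g k θ x ≤ 1 / 4 * enD g k θ x := mul_le_mul_of_nonneg_right (min_le_right _ _) hen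
      unfold mainD
      unfold enD at hcq ⊢
      linarith
    · have hlt : ‖x‖ < ρ := not_le.mp hxS
      have key := p13_near hy0 hE0 hv0 he0 (hcor.near x hx hlt)
      rw [Set.indicator_of_notMem hxS, Set.indicator_of_notMem hxS]
      have hcq : c * enD g k θ x ≤ c1 / 2 * enD g k θ x := mul_le_mul_of_nonneg_right (min_le_left _ _) hen
      unfold mainD
      unfold enD at hcq ⊢
      linarith
  rw [p9_int4 hT.int hcor.int hi3' hi1', setIntegral_indicator hSm, setIntegral_indicator hSm] at hmono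
  have hEn : ∫ x in Ann R, enD g k θ x = En g k R θ := rfl
  have hX3' : ∫ x in Ann R ∩ S, Real.exp (θ x) * yreg g θ 0 x ^ 3 / ‖x‖ ^ 2 * vol g x = X3 g R ρ θ := rfl
  rw [hEn, hX3'] at hmono
  have q3 : 3 / 2 * Cf ^ 2 * X3 g R ρ θ ≤ 3 / 2 * Cf ^ 2 * (C3 / ρ * (1 + En g k R θ)) :=
    mul_le_mul_of_nonneg_left hX3 (by positivity)
  have q1 : 3 / 2 * Cf ^ 2 * (∫ x in Ann R ∩ S, Real.exp (θ x) * yreg g θ 0 x / ‖x‖ ^ 4 * vol g x) ≤
      3 / 2 * Cf ^ 2 * (C1 / ρ * (1 + En g k R θ)) := mul_le_mul_of_nonneg_left hX1 (by positivity)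
  have q5 : (2 + 6 * Cf ^ 2 + 3 / 2 * Cf ^ 2 * (C3 + C1)) / ρ * (1 + En g k R θ) =
      (2 + 6 * Cf ^ 2) / ρ * (1 + En g k R θ) + 3 / 2 * Cf ^ 2 * (C3 / ρ * (1 + En g k R θ)) +
        3 / 2 * Cf ^ 2 * (C1 / ρ * (1 + En g k R θ)) := by ring
  have q6 : 0 ≤ (2 + 6 * Cf ^ 2) / ρ * (1 + En g k R θ) := by positivity
  rw [q5]
  linarith

end UMB.E
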