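import Pool.Agent.Lib.UMB.Asm.Defs
import Pool.Agent.Lib.UMB.E.P13
import Pool.Agent.Lib.UMB.W.F5

set_option autoImplicit false

/-!
# UMB.E: the near error function
-/

open Filter Topology Set MeasureTheory
open scoped ContDiff

namespace UMB.E

open Pool.Agent.Lib.PenroseSph (E3 Tens pd trg chr)
open UMB.Lin (Ann cAnn sig)

/-- The matrix `Mh` (lower indices) of the operator `P.op` for `θ = F(v)`. -/
noncomputable def Mop (P : Par) (κ : ℝ) (v : E3 → ℝ) (x : E3) : Matrix (Fin 3) (Fin 3) ℝ :=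
  W.Mh (P.op.G x) (P.op.G x)⁻¹ (P.op.k x) (fun m => P.op.Gam m x) (D1 (W.theta P.p κ v) x) (D2 (W.theta P.p κ v) x)

/-- The error function of the near zone, `(7/q) (a:Mh)²/y`. -/
noncomputable def eN (P : Par) (κ : ℝ) (v : E3 → ℝ) (x : E3) : ℝ :=
  7 / P.q * (tr2 (P.op.aa v x) (Mop P κ v x) ^ 2 / Real.sqrt (q1 (P.op.G x) (D1 (W.theta P.p κ v) x)))

end UMB.E
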