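import Pool.Agent.Lib.UMB.E.BIn
import Pool.Agent.Lib.UMB.E.NDefs
import Pool.Agent.Lib.UMB.W.F2U
import Pool.Agent.Lib.UMB.BR.Top
import Pool.Agent.Lib.UMB.W.SolReg

set_option autoImplicit false

/-!
# UMB.E chunk Q4: the term with the error `η`
-/

open Filter Topology Set MeasureTheory
open scoped ContDiff

namespace UMB.E

open Pool.Agent.Lib.PenroseSph (E3 Tens pd trg chr meanCurv gradNorm)
open UMB.Lin (Ann cAnn sig)

/-- Pointwise size of the gradient. -/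
theorem q4_yreg {g : Tens} {Λ : ℝ} (hc : Cmp g Λ) {θ v : E3 → ℝ} {x : E3} (hx : 1 ≤ ‖x‖) {φ m : ℝ} (hφ : 0 ≤ φ)
    (hφm : φ ≤ m) (hD : ∀ i, D1 θ x i = - φ * D1 v x i) :
    yreg g θ 0 x ≤ Real.sqrt (9 * Λ) * m * Real.sqrt (vsq (D1 v x)) := by
  have hΛ := hc.pos
  have hs : 0 ≤ vsq (D1 v x) := Finset.sum_nonneg fun i _ => sq_nonneg _
  have hm : 0 ≤ m := hφ.trans hφm
  have h1 : gsq g θ x ≤ 9 * Λ * m ^ 2 * vsq (D1 v x) := by
    have h2 : gsq g θ x = ∑ i, ∑ j, (g x)⁻¹ i j * D1 θ x i * D1 θ x j := by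
      unfold gsq gradU D1
      refine Finset.sum_congr rfl fun i _ => ?_
      rw [Finset.mul_sum]
      refine Finset.sum_congr rfl fun j _ => ?_
      ring
    have h3 : ∀ i j : Fin 3, (g x)⁻¹ i j * D1 θ x i * D1 θ x j ≤ Λ * m ^ 2 * vsq (D1 v x) := by
      intro i j
      have e1 : ∀ k : Fin 3, (D1 v x k) ^ 2 ≤ vsq (D1 v x) := fun k =>
        Finset.single_le_sum (f := fun k => (D1 v x k) ^ 2) (fun k _ => sq_nonneg _) (Finset.mem_univ k)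
      have e2 : |D1 v x i * D1 v x j| ≤ vsq (D1 v x) := by
        have a1 := e1 i
        have a2 := e1 j
        rw [abs_le]
        constructor
        · nlinarith [sq_nonneg (D1 v x i + D1 v x j)]
        · nlinarith [sq_nonneg (D1 v x i - D1 v x j)]
      have e3 := hc.inv x hx i j
      have e4 : (g x)⁻¹ i j * D1 θ x i * D1 θ x j = φ ^ 2 * ((g x)⁻¹ i j * (D1 v x i * D1 v x j)) := by
        rw [hD i, hD j]
        ring
      rw [e4]
      have e5 : (g x)⁻¹ i j * (D1 v x i * D1 v x j) ≤ Λ * vsq (D1 v x) := by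
        refine (le_abs_self _).trans ?_
        rw [abs_mul]
        exact mul_le_mul e3 e2 (abs_nonneg _) hΛ.le
      calc φ ^ 2 * ((g x)⁻¹ i j * (D1 v x i * D1 v x j)) ≤ φ ^ 2 * (Λ * vsq (D1 v x)) :=
            mul_le_mul_of_nonneg_left e5 (sq_nonneg _)
        _ ≤ m ^ 2 * (Λ * vsq (D1 v x)) :=
            mul_le_mul_of_nonneg_right (pow_le_pow_left₀ hφ hφm 2) (by positivity)
        _ = Λ * m ^ 2 * vsq (D1 v x) := by ring
    rw [h2]
    calc ∑ i, ∑ j, (g x)⁻¹ i j * D1 θ x i * D1 θ x j ≤ ∑ _i : Fin 3, ∑ _j : Fin 3, Λ * m ^ 2 * vsq (D1 v x) :=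
          Finset.sum_le_sum fun i _ => Finset.sum_le_sum fun j _ => h3 i j
      _ = 9 * Λ * m ^ 2 * vsq (D1 v x) := by
          simp only [Finset.sum_const, Finset.card_univ, Fintype.card_fin, nsmul_eq_mul]
          push_cast
          ring
  unfold yreg
  rw [add_zero]
  refine (Real.sqrt_le_sqrt h1).trans (le_of_eq ?_)
  rw [show 9 * Λ * m ^ 2 * vsq (D1 v x) = (9 * Λ) * (m ^ 2 * vsq (D1 v x)) by ring,
    Real.sqrt_mul (by positivity), Real.sqrt_mul (sq_nonneg m), Real.sqrt_sq hm]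
  ring

/-- Cauchy–Schwarz. -/
theorem q4_cs {D : OpData} {v : E3 → ℝ} (hv : W.Sol D v) {η : E3 → ℝ} (hη : ContinuousOn η {x : E3 | 1 ≤ ‖x‖})
    (hη0 : ∀ x : E3, 1 ≤ ‖x‖ → 0 ≤ η x) {C : ℝ} (hI : ∫ x in Ann D.R, vsq (D1 v x) ≤ C) :
    IntegrableOn (fun x => Real.sqrt (vsq (D1 v x)) * η x) (Ann D.R) ∧
    ∫ x in Ann D.R, Real.sqrt (vsq (D1 v x)) * η x ≤
      Real.sqrt C * Real.sqrt (∫ x in {x : E3 | 1 ≤ ‖x‖ ∧ ‖x‖ ≤ D.R}, (η x) ^ 2) := by
  have hmA := UMB.Lin.measurableSet_Ann D.R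
  have hηc : ContinuousOn η (cAnn D.R) := hη.mono fun x hx => hx.1
  have hηA : ContinuousOn η (Ann D.R) := hηc.mono (UMB.Lin.Ann_subset D.R)
  obtain ⟨E, hE⟩ := (UMB.Lin.isCompact_cAnn D.R).exists_bound_of_continuousOn hηc
  obtain ⟨M, hM, h1, -⟩ := W.sr_bdd hv
  have hvs0 : ∀ x, 0 ≤ vsq (D1 v x) := fun x => Finset.sum_nonneg fun i _ => sq_nonneg _
  have hvsc : ContinuousOn (fun x => Real.sqrt (vsq (D1 v x))) (Ann D.R) := by
    unfold vsq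
    exact (continuousOn_finsetSum _ fun i _ => (W.sr_D1_cont hv.smooth i).pow 2).sqrt
  have hvsb : ∀ x ∈ Ann D.R, Real.sqrt (vsq (D1 v x)) ≤ Real.sqrt (3 * M ^ 2) := by
    intro x hx
    refine Real.sqrt_le_sqrt ?_
    unfold vsq
    calc ∑ i, (D1 v x i) ^ 2 ≤ ∑ _i : Fin 3, M ^ 2 := Finset.sum_le_sum fun i _ => by
          rw [← sq_abs]
          exact pow_le_pow_left₀ (abs_nonneg _) (h1 x hx i) 2
      _ = 3 * M ^ 2 := by simp
  have hf : MemLp (fun x => Real.sqrt (vsq (D1 v x))) (ENNReal.ofReal 2) (volume.restrict (Ann D.R)) := by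
    have : IsFiniteMeasure (volume.restrict (Ann D.R)) :=
      ⟨by rw [Measure.restrict_apply_univ]; exact UMB.Lin.volume_Ann_lt_top D.R⟩
    refine MemLp.of_bound (hvsc.aestronglyMeasurable hmA) (Real.sqrt (3 * M ^ 2)) ?_
    filter_upwards [ae_restrict_mem hmA] with x hx
    rw [Real.norm_of_nonneg (Real.sqrt_nonneg _)]
    exact hvsb x hx
  have hg : MemLp η (ENNReal.ofReal 2) (volume.restrict (Ann D.R)) := by
    have : IsFiniteMeasure (volume.restrict (Ann D.R)) :=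
      ⟨by rw [Measure.restrict_apply_univ]; exact UMB.Lin.volume_Ann_lt_top D.R⟩
    refine MemLp.of_bound (hηA.aestronglyMeasurable hmA) E ?_
    filter_upwards [ae_restrict_mem hmA] with x hx
    exact hE x (UMB.Lin.Ann_subset D.R hx)
  refine ⟨?_, ?_⟩
  · refine W.sr_intOn (hvsc.mul hηA) (M := Real.sqrt (3 * M ^ 2) * |E|) ?_
    intro x hx
    rw [abs_mul, abs_of_nonneg (Real.sqrt_nonneg _)]
    exact mul_le_mul (hvsb x hx) ((hE x (UMB.Lin.Ann_subset D.R hx)).trans (le_abs_self E)) (abs_nonneg _)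
      (Real.sqrt_nonneg _)
  · have hcs := integral_mul_le_Lp_mul_Lq_of_nonneg (μ := volume.restrict (Ann D.R)) (p := 2) (q := 2)
      Real.HolderConjugate.two_two (f := fun x => Real.sqrt (vsq (D1 v x))) (g := η)
      (Eventually.of_forall fun x => Real.sqrt_nonneg _)
      (by
        filter_upwards [ae_restrict_mem hmA] with x hx
        exact hη0 x hx.1.le) hf hg
    have e1 : ∫ x in Ann D.R, Real.sqrt (vsq (D1 v x)) ^ (2 : ℝ) = ∫ x in Ann D.R, vsq (D1 v x) := by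
      refine integral_congr_ae (Eventually.of_forall fun x => ?_)
      show Real.sqrt (vsq (D1 v x)) ^ (2 : ℝ) = vsq (D1 v x)
      rw [Real.rpow_two, Real.sq_sqrt (hvs0 x)]
    have e2 : ∫ x in Ann D.R, η x ^ (2 : ℝ) = ∫ x in Ann D.R, η x ^ 2 := by
      refine integral_congr_ae (Eventually.of_forall fun x => ?_)
      show η x ^ (2 : ℝ) = η x ^ 2
      rw [Real.rpow_two]
    rw [e1, e2, ← Real.sqrt_eq_rpow, ← Real.sqrt_eq_rpow] at hcs
    refine hcs.trans ?_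
    refine mul_le_mul (Real.sqrt_le_sqrt hI) (Real.sqrt_le_sqrt ?_) (Real.sqrt_nonneg _) (Real.sqrt_nonneg _)
    have hint : IntegrableOn (fun x => η x ^ 2) {x : E3 | 1 ≤ ‖x‖ ∧ ‖x‖ ≤ D.R} :=
      (hηc.pow 2).integrableOn_compact (UMB.Lin.isCompact_cAnn D.R)
    refine setIntegral_mono_set hint (Eventually.of_forall fun x => sq_nonneg _) ?_
    exact (UMB.Lin.Ann_subset D.R).eventuallyLE

theorem eta_term {g : Tens} {a : ℝ} (hg : AF g a) (K c0 q R1 R R0 Ce κ0 Λ : ℝ) (hκ0 : 0 < κ0) (hCe : 0 ≤ Ce)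
    (hc : Cmp g Λ) : ∃ L : ℝ, 0 ≤ L ∧ ∀ (k : Tens) (η : E3 → ℝ) (η0 δ' : ℝ), Adm g k a K η η0 R0 δ' →
      ∀ (eps d : ℝ) (eta : E3 → ℝ), (mkP g k a c0 q R1 R eps d eta).Ok → ∀ v : E3 → ℝ,
        W.Sol (mkP g k a c0 q R1 R eps d eta).op v → κ0 ≤ (mkP g k a c0 q R1 R eps d eta).kap v →
        (∀ x ∈ Ann R, Real.exp ((mkP g k a c0 q R1 R eps d eta).th v x) ≤ Ce * ‖x‖) →
        ∫ x in Ann R, Real.exp ((mkP g k a c0 q R1 R eps d eta).th v x) *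
            yreg g ((mkP g k a c0 q R1 R eps d eta).th v) 0 x * η x * vol g x ≤
          L * Real.sqrt (∫ x in {x : E3 | 1 ≤ ‖x‖ ∧ ‖x‖ ≤ R}, (η x) ^ 2) := by
  by_cases hex : ∃ (k : Tens) (eps0 d0 : ℝ) (eta0 : E3 → ℝ), (mkP g k a c0 q R1 R eps0 d0 eta0).Ok
  swap
  · refine ⟨0, le_rfl, ?_⟩
    intro k η η0 δ' hA eps d eta hP
    exact absurd ⟨k, eps, d, eta, hP⟩ hex
  obtain ⟨k0, eps0, d0, eta0, hP0'⟩ := hex
  have hP0 : (mkP g 0 a c0 q R1 R eps0 d0 eta0).Ok :=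
    ⟨hP0'.q_pos, hP0'.q_lt, hP0'.r1_ge, hP0'.R1_ge, hP0'.R_ge, hP0'.eps_pos, hP0'.eps_le, hP0'.d_pos, hP0'.d_le,
      hP0'.eta_smooth, hP0'.eta_nonneg, hP0'.eta_supp, hP0'.eta_int⟩
  have hop0 : (mkP g 0 a c0 q R1 R eps0 d0 eta0).op.Ok :=
    BR.op_ok_par (P := mkP g 0 a c0 q R1 R eps0 d0 eta0) hg (fun i j => contDiffOn_const) hP0
  have hR : 0 < R := by
    have h1 : 8 * R1 ≤ R := hP0.R_ge
    have h2 : 1 ≤ 1 + 100 * c0 / q := hP0.r1_ge
    have h3 : 4 * (1 + 100 * c0 / q) ≤ R1 := hP0.R1_ge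
    linarith
  obtain ⟨C, hC, hbd⟩ := W.sol_bdU hop0 |K|
  have hΛ := hc.pos
  have hκi : 0 < κ0⁻¹ := inv_pos.mpr hκ0
  refine ⟨Ce * R * (Real.sqrt (9 * Λ) * κ0⁻¹) * Λ * Real.sqrt C, by positivity, ?_⟩
  intro k η η0 δ' hA eps d eta hP v hv hκ hup
  set P : Par := mkP g k a c0 q R1 R eps d eta with hPd
  have hop : P.op.Ok := BR.op_ok hg hA hP
  have hκp : 0 < P.kap v := lt_of_lt_of_le hκ0 hκ
  have hkh : ∀ x ∈ cAnn R, ∀ i j, |P.kh x i j| ≤ |K| := by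
    intro x hx i j
    have h1 := hA.bound x hx.1 i j
    have h2 : K / ‖x‖ ^ 2 ≤ |K| := by
      have h3 : (1 : ℝ) ≤ ‖x‖ ^ 2 := one_le_pow₀ hx.1
      calc K / ‖x‖ ^ 2 ≤ |K| / ‖x‖ ^ 2 := div_le_div_of_nonneg_right (le_abs_self K) (by positivity)
        _ ≤ |K| := div_le_self (abs_nonneg K) h3
    have h4 : P.kh x i j = P.chk ‖x‖ * k x i j := rfl
    rw [h4, abs_mul]
    have h5 : 0 ≤ P.chk ‖x‖ := Real.smoothTransition.nonneg _
    have h6 : P.chk ‖x‖ ≤ 1 := Real.smoothTransition.le_one _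
    rw [abs_of_nonneg h5]
    calc P.chk ‖x‖ * |k x i j| ≤ 1 * |k x i j| := mul_le_mul_of_nonneg_right h6 (abs_nonneg _)
      _ ≤ |K| := by rw [one_mul]; exact h1.trans h2
  have hI : ∫ x in Ann R, (fsq (D2 v x) + vsq (D1 v x) + vsq (D1 v x) ^ 2) ≤ C :=
    hbd P.kh eps d eta hkh hop v hv
  have hi1 := W.sr_int_fsq hv
  have hi2 := W.sr_int_vsq hv
  have hi3 := W.sr_int_vsq2 hv
  have hvs0 : ∀ x, 0 ≤ vsq (D1 v x) := fun x => Finset.sum_nonneg fun i _ => sq_nonneg _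
  have hI2 : ∫ x in Ann R, vsq (D1 v x) ≤ C := by
    refine le_trans (integral_mono_of_nonneg (Eventually.of_forall fun x => hvs0 x) ((hi1.add hi2).add hi3)
      (Eventually.of_forall fun x => ?_)) hI
    show vsq (D1 v x) ≤ fsq (D2 v x) + vsq (D1 v x) + vsq (D1 v x) ^ 2
    have h1 : 0 ≤ fsq (D2 v x) := Finset.sum_nonneg fun i _ => Finset.sum_nonneg fun j _ => sq_nonneg _
    have h2 := sq_nonneg (vsq (D1 v x))
    linarith
  obtain ⟨hint, hcs⟩ := q4_cs hv hA.cont_err hA.err_nonneg hI2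
  have hexp : W.Expo P.op.p0 P.p := ⟨hop.one_lt_p0, hop.p_smooth, hop.p_ge, hop.p_le⟩
  have hnn : ∀ y ∈ Ann P.R, 0 ≤ v y := fun y hy => hv.nonneg y ⟨hy.1.le, hy.2.le⟩
  have hpt : ∀ x ∈ Ann R, Real.exp (P.th v x) * yreg g (P.th v) 0 x * η x * vol g x
      ≤ Ce * R * (Real.sqrt (9 * Λ) * κ0⁻¹) * Λ * (Real.sqrt (vsq (D1 v x)) * η x) := by
    intro x hx
    have hD : ∀ i, D1 (P.th v) x i = - (W.KK P.p (v x) + P.kap v)⁻¹ * D1 v x i := fun i =>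
      W.D1_theta hexp hκp (UMB.Lin.isOpen_Ann P.R) hv.smooth hnn hx i
    have hKK : 0 ≤ W.KK P.p (v x) := (hnn x hx).trans (W.KK_bd hexp (hnn x hx)).1
    have h1 := q4_yreg hc hx.1.le (θ := P.th v) (v := v) (φ := (W.KK P.p (v x) + P.kap v)⁻¹) (m := κ0⁻¹)
      (inv_nonneg.mpr (by linarith)) (inv_anti₀ hκ0 (by linarith)) hD
    have h2 : Real.exp (P.th v x) ≤ Ce * R := (hup x hx).trans (mul_le_mul_of_nonneg_left hx.2.le hCe)
    have h3 := hc.vol_le x hx.1.le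
    have h4 : 0 ≤ vol g x := Real.sqrt_nonneg _
    have h5 := hA.err_nonneg x hx.1.le
    have h6 : 0 ≤ yreg g (P.th v) 0 x := Real.sqrt_nonneg _
    have h7 : 0 ≤ Real.sqrt (vsq (D1 v x)) := Real.sqrt_nonneg _
    calc Real.exp (P.th v x) * yreg g (P.th v) 0 x * η x * vol g x
        ≤ (Ce * R) * (Real.sqrt (9 * Λ) * κ0⁻¹ * Real.sqrt (vsq (D1 v x))) * η x * Λ := by
          refine mul_le_mul (mul_le_mul_of_nonneg_right (mul_le_mul h2 h1 h6 (by positivity)) h5) h3 h4 ?_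
          positivity
      _ = Ce * R * (Real.sqrt (9 * Λ) * κ0⁻¹) * Λ * (Real.sqrt (vsq (D1 v x)) * η x) := by ring
  have hmA := UMB.Lin.measurableSet_Ann R
  have hfin : ∫ x in Ann R, Real.exp (P.th v x) * yreg g (P.th v) 0 x * η x * vol g x
      ≤ ∫ x in Ann R, Ce * R * (Real.sqrt (9 * Λ) * κ0⁻¹) * Λ * (Real.sqrt (vsq (D1 v x)) * η x) := by
    refine integral_mono_of_nonneg ?_ (Integrable.const_mul hint _) ?_
    · filter_upwards [ae_restrict_mem hmA] with x hx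
      have h4 : 0 ≤ vol g x := Real.sqrt_nonneg _
      have h5 := hA.err_nonneg x hx.1.le
      have h6 : 0 ≤ yreg g (P.th v) 0 x := Real.sqrt_nonneg _
      show 0 ≤ Real.exp (P.th v x) * yreg g (P.th v) 0 x * η x * vol g x
      positivity
    · filter_upwards [ae_restrict_mem hmA] with x hx
      exact hpt x hx
  rw [integral_const_mul] at hfin
  refine hfin.trans ?_
  calc Ce * R * (Real.sqrt (9 * Λ) * κ0⁻¹) * Λ * ∫ x in Ann R, Real.sqrt (vsq (D1 v x)) * η x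
      ≤ Ce * R * (Real.sqrt (9 * Λ) * κ0⁻¹) * Λ * (Real.sqrt C *
        Real.sqrt (∫ x in {x : E3 | 1 ≤ ‖x‖ ∧ ‖x‖ ≤ R}, (η x) ^ 2)) :=
        mul_le_mul_of_nonneg_left hcs (by positivity)
    _ = Ce * R * (Real.sqrt (9 * Λ) * κ0⁻¹) * Λ * Real.sqrt C *
        Real.sqrt (∫ x in {x : E3 | 1 ≤ ‖x‖ ∧ ‖x‖ ≤ R}, (η x) ^ 2) := by ring

end UMB.E
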