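import Pool.Agent.Lib.UMB.B.Bw

set_option autoImplicit false

/-!
# UMB.E: the input of the energy estimate from block B (barriers, helper4)
-/

open Filter Topology Set MeasureTheory
open scoped ContDiff

namespace UMB

open Pool.Agent.Lib.PenroseSph (E3 Tens pd gradNorm admFlux)
open UMB.Lin (Ann cAnn)

/-- **Be** (block B, helper4). Barriers for the energy estimate. -/
theorem Be {g : Tens} {a : ℝ} (hg : AF g a) (K : ℝ) :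
    ∃ c00 : ℝ, 0 ≤ c00 ∧ ∀ c0 : ℝ, c00 ≤ c0 → ∀ q : ℝ, 0 < q → q < 1 → ∃ cq Ce : ℝ, 0 < cq ∧ 0 < Ce ∧
      ∀ᶠ R1 in atTop, ∀ R0 : ℝ, ∀ᶠ R in atTop, ∃ κ0 : ℝ, 0 < κ0 ∧ FA g a K c0 q R1 R0 R fun P v =>
        κ0 ≤ P.kap v ∧ cq ≤ P.CC v ∧ (∀ x ∈ Ann P.R, Real.exp (P.th v x) ≤ Ce * ‖x‖) ∧
          ∀ x ∈ cAnn P.R, v x ≤ (P.r1 / ‖x‖) ^ (q / 2) :=
  UMB.B.Be hg K

end UMB
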