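import Pool.Agent.Lib.UMB.E.N4
import Pool.Agent.Lib.UMB.E.BIn
import Pool.Agent.Lib.UMB.BR.Top

set_option autoImplicit false

/-!
# UMB.E chunk Q5: the near error is small
-/

open Filter Topology Set MeasureTheory
open scoped ContDiff

namespace UMB.E

open Pool.Agent.Lib.PenroseSph (E3 Tens pd trg chr meanCurv gradNorm)
open UMB.Lin (Ann cAnn sig)

theorem err_small {g k : Tens} {a : ℝ} (hg : AF g a) {K c0 q R1 R R0 Ce κ0 Λ η0 δ' : ℝ} {η : E3 → ℝ} (hκ0 : 0 < κ0)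
    (hCe : 0 ≤ Ce) (hc : Cmp g Λ) (hA : Adm g k a K η η0 R0 δ') {s : ℝ} (hs : 0 < s) :
    ∀ᶠ eps in 𝓝[>] (0 : ℝ), ∀ᶠ d in 𝓝[>] (0 : ℝ), ∀ eta : E3 → ℝ, (mkP g k a c0 q R1 R eps d eta).Ok → ∀ v : E3 → ℝ,
        W.Sol (mkP g k a c0 q R1 R eps d eta).op v → κ0 ≤ (mkP g k a c0 q R1 R eps d eta).kap v →
        (∀ x ∈ Ann R, Real.exp ((mkP g k a c0 q R1 R eps d eta).th v x) ≤ Ce * ‖x‖) →
        ∫ x in Ann R, Real.exp ((mkP g k a c0 q R1 R eps d eta).th v x) *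
          eN (mkP g k a c0 q R1 R eps d eta) ((mkP g k a c0 q R1 R eps d eta).kap v) v x * vol g x ≤ s := by
  by_cases hex : ∃ (eps0 d0 : ℝ) (eta0 : E3 → ℝ), (mkP g k a c0 q R1 R eps0 d0 eta0).Ok
  swap
  · refine Eventually.of_forall fun eps => Eventually.of_forall fun d => ?_
    intro eta hP
    exact absurd ⟨eps, d, eta, hP⟩ hex
  obtain ⟨eps0, d0, eta0, hP0⟩ := hex
  obtain ⟨C, hC, hint⟩ := W.e_int (BR.op_ok hg hA hP0)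
  have hq : 0 < q := hP0.q_pos
  have hR : 0 < R := by
    have h1 : 8 * R1 ≤ R := hP0.R_ge
    have h2 : 1 ≤ 1 + 100 * c0 / q := hP0.r1_ge
    have h3 : 4 * (1 + 100 * c0 / q) ≤ R1 := hP0.R1_ge
    linarith
  set W0 : ℝ := Ce * R * Λ * (7 / q) * (C * (κ0⁻¹ + κ0⁻¹ ^ 3)) with hW0
  have hΛ := hc.pos
  have hκi : 0 < κ0⁻¹ := inv_pos.mpr hκ0
  have hWn : 0 ≤ W0 := by positivity
  have t1 : Tendsto (fun eps : ℝ => W0 * eps) (𝓝[>] (0 : ℝ)) (𝓝 0) := by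
    have h : Tendsto (fun eps : ℝ => W0 * eps) (𝓝 (0 : ℝ)) (𝓝 (W0 * 0)) := tendsto_id.const_mul W0
    rw [mul_zero] at h
    exact h.mono_left nhdsWithin_le_nhds
  have t2 : Tendsto (fun d : ℝ => W0 * d ^ (1 / 4 : ℝ)) (𝓝[>] (0 : ℝ)) (𝓝 0) := by
    have h0 : Tendsto (fun d : ℝ => d ^ (1 / 4 : ℝ)) (𝓝 (0 : ℝ)) (𝓝 ((0 : ℝ) ^ (1 / 4 : ℝ))) :=
      (Real.continuousAt_rpow_const (0 : ℝ) (1 / 4 : ℝ) (Or.inr (by norm_num))).tendsto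
    have h : Tendsto (fun d : ℝ => W0 * d ^ (1 / 4 : ℝ)) (𝓝 (0 : ℝ)) (𝓝 (W0 * (0 : ℝ) ^ (1 / 4 : ℝ))) :=
      h0.const_mul W0
    rw [Real.zero_rpow (by norm_num), mul_zero] at h
    exact h.mono_left nhdsWithin_le_nhds
  filter_upwards [t1.eventually (eventually_lt_nhds (half_pos hs))] with eps he
  filter_upwards [t2.eventually (eventually_lt_nhds (half_pos hs)), self_mem_nhdsWithin] with d hd hd0
  have hd0' : (0 : ℝ) < d := hd0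
  intro eta hP v hv hκ hup
  set P : Par := mkP g k a c0 q R1 R eps d eta with hPd
  have hop : P.op.Ok := BR.op_ok hg hA hP
  have hκp : 0 < P.kap v := lt_of_lt_of_le hκ0 hκ
  have hI := hint eps d eta hop hP.d_le hP.eps_le v hv (P.kap v) hκp
  have hI2 : ∫ x in Ann P.R, tr2 (P.op.aa v x) (Mop P (P.kap v) v x) ^ 2 /
      Real.sqrt (q1 (P.op.G x) (D1 (W.theta P.p (P.kap v) v) x))
      ≤ C * ((P.kap v)⁻¹ + (P.kap v)⁻¹ ^ 3) * (eps + d ^ (1 / 4 : ℝ)) := hI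
  have h1 := (eN_int hP hop hg hc hv hκp hup hI2).2
  have hκle : (P.kap v)⁻¹ ≤ κ0⁻¹ := inv_anti₀ hκ0 hκ
  have hκ0' : 0 ≤ (P.kap v)⁻¹ := (inv_pos.mpr hκp).le
  have heps : 0 < eps := hP.eps_pos
  have hdr : 0 ≤ d ^ (1 / 4 : ℝ) := Real.rpow_nonneg hd0'.le _
  have h2 : C * ((P.kap v)⁻¹ + (P.kap v)⁻¹ ^ 3) * (eps + d ^ (1 / 4 : ℝ))
      ≤ C * (κ0⁻¹ + κ0⁻¹ ^ 3) * (eps + d ^ (1 / 4 : ℝ)) := by
    refine mul_le_mul_of_nonneg_right (mul_le_mul_of_nonneg_left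
      (add_le_add hκle (pow_le_pow_left₀ hκ0' hκle 3)) hC) (by positivity)
  have h3 : Ce * P.R * Λ * (7 / P.q) * (C * ((P.kap v)⁻¹ + (P.kap v)⁻¹ ^ 3) * (eps + d ^ (1 / 4 : ℝ)))
      ≤ Ce * R * Λ * (7 / q) * (C * (κ0⁻¹ + κ0⁻¹ ^ 3) * (eps + d ^ (1 / 4 : ℝ))) :=
    mul_le_mul_of_nonneg_left h2 (by positivity)
  have h4 : Ce * R * Λ * (7 / q) * (C * (κ0⁻¹ + κ0⁻¹ ^ 3) * (eps + d ^ (1 / 4 : ℝ)))
      = W0 * eps + W0 * d ^ (1 / 4 : ℝ) := by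
    rw [hW0]
    ring
  refine h1.trans (h3.trans ?_)
  rw [h4]
  linarith

end UMB.E
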