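import Pool.Agent.Lib.UMB.E.NDefs

set_option autoImplicit false

/-!
# UMB.E chunk N4: integrability and size of the near error
-/

open Filter Topology Set MeasureTheory
open scoped ContDiff

namespace UMB.E

open Pool.Agent.Lib.PenroseSph (E3 Tens pd trg chr)
open UMB.Lin (Ann cAnn sig)

theorem n4_inv {S : Set E3} {G : Tens} (hG : ∀ i j, ContinuousOn (fun x => G x i j) S)
    (hd : ∀ x ∈ S, (G x).det ≠ 0) (i j : Fin 3) : ContinuousOn (fun x => (G x)⁻¹ i j) S := by
  have h1 : ContinuousOn G S := continuousOn_pi.2 fun i => continuousOn_pi.2 fun j => hG i j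
  have h2 : ContinuousOn (fun x => (G x).det) S := (continuous_id.matrix_det).comp_continuousOn h1
  have h3 : ContinuousOn (fun x => (G x).adjugate i j) S :=
    ((continuous_id.matrix_adjugate).matrix_elem i j).comp_continuousOn h1
  have h4 : (fun x => (G x)⁻¹ i j) = fun x => ((G x).det)⁻¹ * (G x).adjugate i j := by
    funext x
    rw [Matrix.inv_def, Matrix.smul_apply, Ring.inverse_eq_inv', smul_eq_mul]
  rw [h4]
  exact (h2.inv₀ hd).mul h3

theorem n4_det {G : Matrix (Fin 3) (Fin 3) ℝ} (hp : ∀ u : Fin 3 → ℝ, u ≠ 0 → 0 < q1 G u) : G.det ≠ 0 := by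
  intro h0
  obtain ⟨u, hu, hu0⟩ := Matrix.exists_mulVec_eq_zero_iff.mpr h0
  have h1 := hp u hu
  have h2 : q1 G u = ∑ i, u i * (G.mulVec u) i := by
    unfold q1
    refine Finset.sum_congr rfl fun i _ => ?_
    rw [Matrix.mulVec, dotProduct, Finset.mul_sum]
    refine Finset.sum_congr rfl fun j _ => ?_
    ring
  rw [h2, hu0] at h1
  simp at h1

theorem n4_nn_cont {D : OpData} (hD : D.Ok) {v : E3 → ℝ} (hv : ContinuousOn v (cAnn D.R)) (i : Fin 3) :
    ContinuousOn (fun x => D.nn v x i) (Ann D.R) := by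
  have hG : ∀ i j, ContinuousOn (fun x => D.G x i j) (Ann D.R) := fun i j =>
    (hD.G_smooth i j).continuousOn.mono fun x hx => lt_trans hD.a_lt hx.1
  have hq : ∀ i, ContinuousOn (fun x => D.qd v x i) (Ann D.R) := fun i => (W.sr_qd_cont hD hv i).continuousOn
  have hN : ContinuousOn (fun x => D.Nd v x) (Ann D.R) := by
    unfold OpData.Nd q1
    refine ContinuousOn.sqrt (ContinuousOn.add ?_ continuousOn_const)
    exact continuousOn_finsetSum _ fun i _ => continuousOn_finsetSum _ fun j _ => ((hG i j).mul (hq i)).mul (hq j)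
  have hN0 : ∀ x ∈ Ann D.R, D.Nd v x ≠ 0 := by
    intro x hx
    have hxa : D.a < ‖x‖ := lt_trans hD.a_lt hx.1
    have h1 : 0 ≤ q1 (D.G x) (D.qd v x) := by
      by_cases h : D.qd v x = 0
      · rw [h]; simp [q1]
      · exact (hD.G_pos x hxa _ h).le
    have h2 : 0 < D.eps ^ 2 := pow_pos hD.eps_pos 2
    have : 0 < D.Nd v x := Real.sqrt_pos.2 (by linarith)
    exact this.ne'
  unfold OpData.nn
  exact (continuousOn_finsetSum _ fun j _ => (hG i j).mul (hq j)).div hN hN0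

theorem n4_aa_cont {D : OpData} (hD : D.Ok) {v : E3 → ℝ} (hv : ContinuousOn v (cAnn D.R)) (i j : Fin 3) :
    ContinuousOn (fun x => D.aa v x i j) (Ann D.R) := by
  have hG : ContinuousOn (fun x => D.G x i j) (Ann D.R) :=
    (hD.G_smooth i j).continuousOn.mono fun x hx => lt_trans hD.a_lt hx.1
  have hp : ContinuousOn (fun x => D.p (D.vd v x)) (Ann D.R) :=
    (hD.p_smooth.continuous.comp (W.sr_vd_cont hD hv)).continuousOn
  unfold OpData.aa
  exact hG.add (((hp.sub continuousOn_const).mul (n4_nn_cont hD hv i)).mul (n4_nn_cont hD hv j))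

theorem n4_Mh_cont {D : OpData} (hD : D.Ok) {θ : E3 → ℝ} (hθ : ContDiffOn ℝ ∞ θ (Ann D.R)) (i j : Fin 3) :
    ContinuousOn (fun x => W.Mh (D.G x) (D.G x)⁻¹ (D.k x) (fun m => D.Gam m x) (D1 θ x) (D2 θ x) i j) (Ann D.R) := by
  have hs : ∀ x ∈ Ann D.R, D.a < ‖x‖ := fun x hx => lt_trans hD.a_lt hx.1
  have hG : ∀ i j, ContinuousOn (fun x => D.G x i j) (Ann D.R) := fun i j => (hD.G_smooth i j).continuousOn.mono hs
  have hk : ContinuousOn (fun x => D.k x i j) (Ann D.R) := (hD.k_smooth i j).continuousOn.mono hs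
  have hGam : ∀ m, ContinuousOn (fun x => D.Gam m x i j) (Ann D.R) := fun m =>
    (hD.Gam_smooth m i j).continuousOn.mono hs
  have h1 : ∀ i, ContinuousOn (fun x => D1 θ x i) (Ann D.R) := W.sr_D1_cont hθ
  have h2 : ContinuousOn (fun x => D2 θ x i j) (Ann D.R) := W.sr_D2_cont hθ i j
  have hi := n4_inv hG (fun x hx => n4_det (hD.G_pos x (hs x hx))) i j
  have hq : ContinuousOn (fun x => q1 (D.G x) (D1 θ x)) (Ann D.R) := W.f5_q1_cont hD h1
  unfold W.Mh
  refine ((((h2.sub (continuousOn_finsetSum _ fun m _ => (hGam m).mul (h1 m))).add ?_).sub (hq.mul hi)).sub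
    (hq.sqrt.mul hk))
  exact (continuousOn_const.mul (h1 i)).mul (h1 j)

/-- **N4.** `eN` is measurable on `Ann R` (quotient of continuous functions: `aa`, `Mop` are continuous on the open annulus, by
`OpData.Ok`, `W.theta_smooth`, continuity of the mollifications) and bounded there (`W.e_size`, `W.e_quot`, the first
derivatives of `v` are bounded). `exp θ ≤ Ce |x| ≤ Ce R`, `vol ≤ Λ`. The last inequality: `W.e_int`-type bound `B` for
`∫ (a:Mh)²/y` as a hypothesis. -/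
theorem eN_int {P : Par} (hP : P.Ok) (hop : P.op.Ok) (hg : AF P.g P.a) {Λ : ℝ} (hc : Cmp P.g Λ) {v : E3 → ℝ}
    (hv : W.Sol P.op v) {κ : ℝ} (hκ : 0 < κ) {Ce : ℝ}
    (hup : ∀ x ∈ Ann P.R, Real.exp (W.theta P.p κ v x) ≤ Ce * ‖x‖) {B : ℝ}
    (hB : ∫ x in Ann P.R, tr2 (P.op.aa v x) (Mop P κ v x) ^ 2 / Real.sqrt (q1 (P.op.G x) (D1 (W.theta P.p κ v) x)) ≤ B) :
    IntegrableOn (fun x => Real.exp (W.theta P.p κ v x) * eN P κ v x * vol P.g x) (Ann P.R) ∧
      ∫ x in Ann P.R, Real.exp (W.theta P.p κ v x) * eN P κ v x * vol P.g x ≤ Ce * P.R * Λ * (7 / P.q) * B := by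
  have hR : 32 ≤ P.R := by
    have h1 := hP.r1_ge
    have h2 := hP.R1_ge
    have h3 := hP.R_ge
    linarith
  have hq := hP.q_pos
  have hm := UMB.Lin.measurableSet_Ann P.R
  have hE : W.Expo P.op.p0 P.op.p := W.f5_expo hop
  have hv0 : ∀ x ∈ Ann P.R, 0 ≤ v x := fun x hx => hv.nonneg x ⟨hx.1.le, hx.2.le⟩
  have hθ : ContDiffOn ℝ ∞ (W.theta P.p κ v) (Ann P.R) :=
    W.theta_smooth hE hκ (UMB.Lin.isOpen_Ann P.R) hv.smooth hv0
  -- the quotient
  set X : E3 → ℝ := fun x => tr2 (P.op.aa v x) (Mop P κ v x) ^ 2 / Real.sqrt (q1 (P.op.G x) (D1 (W.theta P.p κ v) x))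
    with hX
  have hX0 : ∀ x, 0 ≤ X x := fun x => div_nonneg (sq_nonneg _) (Real.sqrt_nonneg _)
  have hXm : AEStronglyMeasurable X (volume.restrict (Ann P.R)) := by
    have h1 : ContinuousOn (fun x => tr2 (P.op.aa v x) (Mop P κ v x) ^ 2) (Ann P.R) := by
      unfold tr2
      refine ContinuousOn.pow (continuousOn_finsetSum _ fun i _ => continuousOn_finsetSum _ fun j _ => ?_) 2
      exact (n4_aa_cont hop hv.cont i j).mul (n4_Mh_cont hop hθ i j)
    have h2 : ContinuousOn (fun x => Real.sqrt (q1 (P.op.G x) (D1 (W.theta P.p κ v) x))) (Ann P.R) :=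
      (W.f5_q1_cont hop (u := fun x => D1 (W.theta P.p κ v) x) (W.sr_D1_cont hθ)).sqrt
    exact ((h1.aestronglyMeasurable hm).aemeasurable.div (h2.aestronglyMeasurable hm).aemeasurable).aestronglyMeasurable
  obtain ⟨C1, hC1, hC1'⟩ := W.coeff_bd hop
  obtain ⟨M, hM, hM1, -⟩ := W.sr_bdd hv
  obtain ⟨S, hS, hS1⟩ := W.f5_s_bdd hop (v := v) (M := M) hM1
  have hXb : ∃ Z : ℝ, ∀ x ∈ Ann P.R, X x ≤ Z := by
    refine ⟨3 * ((2 * C1) ^ 2 * κ⁻¹ * S + (8 / (P.op.p0 - 1) + 10) ^ 2 * κ⁻¹ ^ 3 * (S ^ 3 * 1 + S ^ 2 * S)), ?_⟩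
    intro x hx
    have h1 := W.f5_pt (D := P.op) hop hC1 (eps := P.eps) (d := P.d) (eta := P.eta) hop hv hκ hx
      (hC1' P.eps P.d P.eta hop v x ⟨hx.1.le, hx.2.le⟩).2.2.2
    refine h1.trans ?_
    have heps := hP.eps_pos
    have hs0 : 0 ≤ Real.sqrt (q1 (P.op.G x) (D1 v x)) := Real.sqrt_nonneg _
    have hs1 := hS1 x hx
    have hρ0 : 0 ≤ W.rho (P.op.G x) P.eps (P.op.qd v x) (D1 v x) := le_min (Real.sqrt_nonneg _) (by positivity)
    have hρ1 : W.rho (P.op.G x) P.eps (P.op.qd v x) (D1 v x) ≤ S := (min_le_left _ _).trans hs1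
    have hd1 : |P.op.p (P.op.vd v x) - P.op.p (v x)| ≤ 1 := by
      have a1 := hop.p_ge (P.op.vd v x)
      have a2 := hop.p_le (P.op.vd v x)
      have a3 := hop.p_ge (v x)
      have a4 := hop.p_le (v x)
      have a5 := hop.one_lt_p0
      rw [abs_le]
      constructor <;> linarith
    have hκi : 0 ≤ κ⁻¹ := (inv_pos.mpr hκ).le
    have hp0 : 0 < P.op.p0 - 1 := by linarith [hop.one_lt_p0]
    refine mul_le_mul_of_nonneg_left (add_le_add (mul_le_mul_of_nonneg_left hρ1 (by positivity))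
      (mul_le_mul_of_nonneg_left (add_le_add ?_ ?_) (by positivity))) (by norm_num)
    · exact mul_le_mul (pow_le_pow_left₀ hs0 hs1 3) hd1 (abs_nonneg _) (by positivity)
    · exact mul_le_mul (pow_le_pow_left₀ hs0 hs1 2) hρ1 hρ0 (by positivity)
  obtain ⟨Z, hZ⟩ := hXb
  have hXi : IntegrableOn X (Ann P.R) := by
    refine IntegrableOn.of_bound (UMB.Lin.volume_Ann_lt_top P.R) hXm Z ?_
    filter_upwards [ae_restrict_mem hm] with x hx
    rw [Real.norm_of_nonneg (hX0 x)]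
    exact hZ x hx
  -- the function
  have hθc : ContinuousOn (fun x => Real.exp (W.theta P.p κ v x)) (Ann P.R) := hθ.continuousOn.rexp
  have hvol : ContinuousOn (vol P.g) (Ann P.R) := by
    have hgc : ContinuousOn (fun x => P.g x) (Ann P.R) := continuousOn_pi.2 fun i => continuousOn_pi.2 fun j =>
      (hg.smooth i j).continuousOn.mono fun x hx => lt_trans hg.lt hx.1
    exact ((continuous_id.matrix_det).comp_continuousOn hgc).sqrt
  have hvol0 : ∀ x, 0 ≤ vol P.g x := fun x => Real.sqrt_nonneg _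
  have heq : (fun x => Real.exp (W.theta P.p κ v x) * eN P κ v x * vol P.g x)
      = fun x => (7 / P.q * (Real.exp (W.theta P.p κ v x) * vol P.g x)) * X x := by
    funext x
    simp only [eN, hX]
    ring
  have hCe : 0 < Ce := by
    obtain ⟨x, hx⟩ : ∃ x : E3, ‖x‖ = 2 := ⟨(2 : ℝ) • EuclideanSpace.single (0 : Fin 3) (1 : ℝ), by
      rw [norm_smul]; simp⟩
    have h1 := hup x ⟨by rw [hx]; norm_num, by rw [hx]; linarith⟩
    have h2 := Real.exp_pos (W.theta P.p κ v x)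
    rw [hx] at h1
    linarith
  have hle : ∀ x ∈ Ann P.R, (7 / P.q * (Real.exp (W.theta P.p κ v x) * vol P.g x)) * X x
      ≤ (Ce * P.R * Λ * (7 / P.q)) * X x := by
    intro x hx
    refine mul_le_mul_of_nonneg_right ?_ (hX0 x)
    have h1 := hup x hx
    have h2 : Ce * ‖x‖ ≤ Ce * P.R := mul_le_mul_of_nonneg_left hx.2.le hCe.le
    have h3 := hc.vol_le x hx.1.le
    have h4 : Real.exp (W.theta P.p κ v x) * vol P.g x ≤ (Ce * P.R) * Λ :=
      mul_le_mul (h1.trans h2) h3 (hvol0 x) (by positivity)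
    have h5 : 0 ≤ 7 / P.q := by positivity
    calc 7 / P.q * (Real.exp (W.theta P.p κ v x) * vol P.g x) ≤ 7 / P.q * ((Ce * P.R) * Λ) :=
          mul_le_mul_of_nonneg_left h4 h5
      _ = Ce * P.R * Λ * (7 / P.q) := by ring
  have hint : IntegrableOn (fun x => (7 / P.q * (Real.exp (W.theta P.p κ v x) * vol P.g x)) * X x) (Ann P.R) := by
    refine Integrable.mono' (hXi.const_mul (Ce * P.R * Λ * (7 / P.q))) ?_ ?_
    · exact ((continuousOn_const.mul (hθc.mul hvol)).aestronglyMeasurable hm).mul hXm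
    · filter_upwards [ae_restrict_mem hm] with x hx
      rw [Real.norm_of_nonneg (mul_nonneg (mul_nonneg (by positivity) (mul_nonneg (Real.exp_pos _).le (hvol0 x))) (hX0 x))]
      exact hle x hx
  rw [heq]
  refine ⟨hint, ?_⟩
  have h1 : ∫ x in Ann P.R, (7 / P.q * (Real.exp (W.theta P.p κ v x) * vol P.g x)) * X x
      ≤ ∫ x in Ann P.R, (Ce * P.R * Λ * (7 / P.q)) * X x :=
    setIntegral_mono_on hint (hXi.const_mul _) hm hle
  rw [integral_const_mul] at h1
  have hpos : 0 ≤ Ce * P.R * Λ * (7 / P.q) := by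
    have := hc.pos
    positivity
  exact h1.trans (mul_le_mul_of_nonneg_left hB hpos)

end UMB.E
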