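import Pool.Agent.Lib.UMB.E.NDefs

set_option autoImplicit false

/-!
# UMB.E chunk N2: the two forms of `Mh`
-/

open Filter Topology Set MeasureTheory
open scoped ContDiff

namespace UMB.E

open Pool.Agent.Lib.PenroseSph (E3 Tens pd trg chr)
open UMB.Lin (Ann cAnn sig)

/-- **N2.** With `G = (g x)⁻¹` and `S = W.Mh G g k Γ du D²u` (lower indices, symmetric): `UMB.Mh g k u a b = ∑_j G_aj S_bj`
(`hessM`, `gradU`, `upk` are defined by raising with `G`, and `∑_j G_aj g_jb = δ_ab`, `MetOn.inv_mul`), so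
`MhSq = ∑ G_aj S_bj G_bi S_ai = nsq G S`, `MhTr = ∑ G_aj S_aj = tr2 G S`; `q1 G (D1 u) = gsq`. -/
theorem mh_bridge {g k : Tens} {U : Set E3} (h : MetOn g U) (hks : ∀ x ∈ U, (k x).IsSymm) {u : E3 → ℝ}
    (hu : ContDiffOn ℝ ∞ u U) {x : E3} (hx : x ∈ U) :
    nsq (g x)⁻¹ (W.Mh (g x)⁻¹ (g x) (k x) (fun m => Matrix.of fun i j => chr g m i j x) (D1 u x) (D2 u x))
        = MhSq g k u x ∧
      tr2 (g x)⁻¹ (W.Mh (g x)⁻¹ (g x) (k x) (fun m => Matrix.of fun i j => chr g m i j x) (D1 u x) (D2 u x))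
        = MhTr g k u x ∧
      q1 (g x)⁻¹ (D1 u x) = gsq g u x ∧
      (∀ i j, W.Mh (g x)⁻¹ (g x) (k x) (fun m => Matrix.of fun i j => chr g m i j x) (D1 u x) (D2 u x) i j
        = W.Mh (g x)⁻¹ (g x) (k x) (fun m => Matrix.of fun i j => chr g m i j x) (D1 u x) (D2 u x) j i) := by
  have hgs : ∀ i j, g x i j = g x j i := fun i j => (h.symm x hx).apply j i
  have hks' : ∀ i j, k x i j = k x j i := fun i j => (hks x hx).apply j i
  have hGs : ∀ i j, (g x)⁻¹ i j = (g x)⁻¹ j i := h.inv_symm hx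
  have hQ : q1 (g x)⁻¹ (D1 u x) = gsq g u x := by
    unfold q1 gsq gradU D1
    simp only [Fin.sum_univ_three]
    ring
  have hS : ∀ i j, W.Mh (g x)⁻¹ (g x) (k x) (fun m => Matrix.of fun i j => chr g m i j x) (D1 u x) (D2 u x) i j
      = hess g u i j x + 2 * pd i u x * pd j u x - gsq g u x * g x i j - Real.sqrt (gsq g u x) * k x i j := by
    intro i j
    unfold W.Mh
    rw [hQ]
    rfl
  have hsym : ∀ i j, W.Mh (g x)⁻¹ (g x) (k x) (fun m => Matrix.of fun i j => chr g m i j x) (D1 u x) (D2 u x) i j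
      = W.Mh (g x)⁻¹ (g x) (k x) (fun m => Matrix.of fun i j => chr g m i j x) (D1 u x) (D2 u x) j i := by
    intro i j
    rw [hS, hS, h.hess_symm hu hx i j, hgs i j, hks' i j]
    ring
  have hM : ∀ a b, Mh g k u a b x = ∑ j, (g x)⁻¹ a j *
      W.Mh (g x)⁻¹ (g x) (k x) (fun m => Matrix.of fun i j => chr g m i j x) (D1 u x) (D2 u x) b j := by
    intro a b
    have h1 := h.inv_mul hx a b
    have h2 : (if a = b then gsq g u x else 0) = gsq g u x * ∑ j, (g x)⁻¹ a j * g x j b := by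
      rw [h1]
      split_ifs
      · rw [mul_one]
      · rw [mul_zero]
    unfold UMB.Mh
    rw [h2]
    unfold hessM gradU upk yreg
    rw [add_zero]
    simp only [hS, Fin.sum_univ_three, hgs 1 0, hgs 2 0, hgs 2 1, hks' 1 0, hks' 2 0, hks' 2 1,
      hgs _ b, hks' _ b]
    ring
  refine ⟨?_, ?_, hQ, hsym⟩
  · unfold MhSq nsq
    simp only [hM]
    generalize hT : W.Mh (g x)⁻¹ (g x) (k x) (fun m => Matrix.of fun i j => chr g m i j x) (D1 u x) (D2 u x) = T
      at hsym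
    generalize hG : (g x)⁻¹ = G at hGs
    simp only [Fin.sum_univ_three, hsym 1 0, hsym 2 0, hsym 2 1, hGs 1 0, hGs 2 0, hGs 2 1]
    ring
  · unfold MhTr tr2
    simp only [hM]

end UMB.E
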