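import Pool.Agent.Lib.UMB.E.N6a
import Pool.Agent.Lib.UMB.E.N2
import Pool.Agent.Lib.UMB.E.P5

set_option autoImplicit false

/-!
# UMB.E chunk N6b: the far zone
-/

open Filter Topology Set MeasureTheory
open scoped ContDiff

namespace UMB.E

open Pool.Agent.Lib.PenroseSph (E3 Tens pd trg chr)
open UMB.Lin (Ann cAnn sig)

theorem n6b_alg {C Λ K φ y V N S2 F L r : ℝ} (hC : 0 < C) (hΛ : 0 < Λ) (hK : 0 ≤ K) (hr : 1 ≤ r) (hy : 0 ≤ y)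
    (hV0 : 0 ≤ V) (hN : 0 ≤ N) (hV : V ≤ (1 + Λ) * y) (hF : F ≤ 9 * (Λ * N + 3 * (C / r ^ 2 * V) + 2 * (V * V)
      + y ^ 2 * C + y * (K / r ^ 2) + V * V)) (hF0 : 0 ≤ F)
    (hL : |L| ≤ S2 / r * F + S2 / r ^ 2 * V) (hS2 : 0 < S2) {M tk : ℝ} (hM : |M| ≤ |L| + y * tk)
    (htk : tk ≤ 9 * (C * (K / r ^ 2))) :
    |M| ≤ (S2 * 9 * (Λ + 3 * C * (1 + Λ) + 3 * (1 + Λ) ^ 2 + C + K) + S2 * (1 + Λ) + 9 * C * K) / r * (N + y ^ 2)
      + (S2 * 9 * (Λ + 3 * C * (1 + Λ) + 3 * (1 + Λ) ^ 2 + C + K) + S2 * (1 + Λ) + 9 * C * K) / r ^ 2 * y := by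
  have hr0 : 0 < r := by linarith
  obtain ⟨i, hi⟩ : ∃ i : ℝ, i = r⁻¹ := ⟨_, rfl⟩
  have hi0 : 0 < i := by rw [hi]; exact inv_pos.2 hr0
  have hi1 : i ≤ 1 := by rw [hi]; exact inv_le_one_of_one_le₀ hr
  have e1 : ∀ X : ℝ, X / r = X * i := fun X => by rw [hi, div_eq_mul_inv]
  have e2 : ∀ X : ℝ, X / r ^ 2 = X * i ^ 2 := fun X => by rw [hi, div_eq_mul_inv, inv_pow]
  rw [e1, e2] at hL
  rw [e2] at htk
  rw [e2, e2] at hF
  rw [e1, e2]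
  obtain ⟨W, hW⟩ : ∃ W : ℝ, W = 1 + Λ := ⟨_, rfl⟩
  rw [← hW] at hV ⊢
  have hW0 : 0 < W := by rw [hW]; linarith
  -- F ≤ 9 (Λ N + (3 C W + K) i² y + (3 W² + C) y²)
  have hVV : V * V ≤ W ^ 2 * y ^ 2 := by nlinarith
  have hCV : C * i ^ 2 * V ≤ C * i ^ 2 * (W * y) := mul_le_mul_of_nonneg_left hV (by positivity)
  have hF2 : F ≤ 9 * (Λ * N + (3 * C * W + K) * (i ^ 2 * y) + (3 * W ^ 2 + C) * y ^ 2) := by
    refine hF.trans ?_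
    nlinarith
  have hF3 : S2 * i * F ≤ S2 * i * (9 * (Λ * N + (3 * C * W + K) * (i ^ 2 * y) + (3 * W ^ 2 + C) * y ^ 2)) :=
    mul_le_mul_of_nonneg_left hF2 (by positivity)
  have hV2 : S2 * i ^ 2 * V ≤ S2 * i ^ 2 * (W * y) := mul_le_mul_of_nonneg_left hV (by positivity)
  have htk2 : y * tk ≤ y * (9 * (C * (K * i ^ 2))) := mul_le_mul_of_nonneg_left htk hy
  have hi3 : i * (i ^ 2 * y) ≤ i ^ 2 * y := by
    have : 0 ≤ i ^ 2 * y := by positivity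
    nlinarith
  have hi4 : S2 * 9 * (3 * C * W + K) * (i * (i ^ 2 * y)) ≤ S2 * 9 * (3 * C * W + K) * (i ^ 2 * y) :=
    mul_le_mul_of_nonneg_left hi3 (by positivity)
  have q1 : 0 ≤ S2 * i * (3 * C * W + 3 * W ^ 2 + C + K) * N := by positivity
  have q2 : 0 ≤ S2 * i * (Λ + 3 * C * W + K) * y ^ 2 := by positivity
  have q3 : 0 ≤ S2 * (Λ + 3 * W ^ 2 + C) * (i ^ 2 * y) := by positivity
  have q4 : 0 ≤ (S2 * W + 9 * C * K) * i * (N + y ^ 2) := by positivity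
  calc |M| ≤ |L| + y * tk := hM
    _ ≤ (S2 * i * (9 * (Λ * N + (3 * C * W + K) * (i ^ 2 * y) + (3 * W ^ 2 + C) * y ^ 2)) + S2 * i ^ 2 * (W * y))
        + y * (9 * (C * (K * i ^ 2))) := by linarith
    _ = S2 * i * 9 * (Λ * N + (3 * W ^ 2 + C) * y ^ 2) + S2 * 9 * (3 * C * W + K) * (i * (i ^ 2 * y))
        + (S2 * W + 9 * C * K) * (i ^ 2 * y) := by ring
    _ ≤ S2 * i * 9 * (Λ * N + (3 * W ^ 2 + C) * y ^ 2) + S2 * 9 * (3 * C * W + K) * (i ^ 2 * y)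
        + (S2 * W + 9 * C * K) * (i ^ 2 * y) := by linarith
    _ ≤ _ := by nlinarith

/-- **N6b.** `φ = (KK p v + κ)⁻¹`, `kt p (v x) = 1` (`p (v x) = 2`): `D1 θ = -φ D1 v`, `D2 θ = -φ D2 v + φ² dv dv` (W.E1), so
`tr Mh = -φ lapG v - y tr k`, `φ √fsq(D2 v) ≤ √fsq(D2 θ) + vsq(D1 θ)`, `√fsq(D2 θ) ≤ C (√MhSq + y² + |x|⁻² y)` (definition of
`Mh`, `nsq G S ≥ c fsq S`), `√vsq(D1 θ) ≤ C y`. -/
theorem cor_far {g : Tens} {a : ℝ} (hg : AF g a) (K : ℝ) : ∃ C : ℝ, 0 < C ∧ ∀ P : Par, P.g = g → P.a = a → P.Ok →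
    P.op.Ok → Kk P.g P.k P.a → (∀ x : E3, 1 ≤ ‖x‖ → ∀ i j, |P.k x i j| ≤ K / ‖x‖ ^ 2) → ∀ v : E3 → ℝ, W.Sol P.op v →
    ∀ κ : ℝ, 0 < κ → ∀ x ∈ Ann P.R, P.p (P.op.vd v x) = 2 → P.p (v x) = 2 →
      |MhTr g P.k (W.theta P.p κ v) x| ≤ C / ‖x‖ * (Real.sqrt (MhSq g P.k (W.theta P.p κ v) x)
        + gsq g (W.theta P.p κ v) x) + C / ‖x‖ ^ 2 * yreg g (W.theta P.p κ v) 0 x := by
  obtain ⟨C, hC, hb⟩ := gh_bd hg
  obtain ⟨S2, hS2, hlap⟩ := lap_far hg K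
  obtain ⟨Λ, hΛ⟩ := exists_cmp hg
  have hΛ0 := hΛ.pos
  refine ⟨S2 * 9 * (Λ + 3 * C * (1 + Λ) + 3 * (1 + Λ) ^ 2 + C + |K|) + S2 * (1 + Λ) + 9 * C * |K|, by positivity, ?_⟩
  rintro P rfl rfl hP hop hkk hk v hv κ hκ x hx hp hp'
  have hx1 : 1 ≤ ‖x‖ := hx.1.le
  have hx0 : 0 < ‖x‖ := by linarith
  have hsub : Ann P.R ⊆ {x : E3 | P.a < ‖x‖} := fun y hy => lt_trans hg.lt hy.1
  have hm : MetOn P.g (Ann P.R) :=
    ⟨UMB.Lin.isOpen_Ann P.R, fun i j => (hg.smooth i j).mono hsub, fun y hy => hg.symm y (hsub hy),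
      fun y hy => hg.pos y (hsub hy)⟩
  have hE : W.Expo P.op.p0 P.op.p := W.f5_expo hop
  have hv0 : ∀ x ∈ Ann P.R, 0 ≤ v x := fun x hx => hv.nonneg x ⟨hx.1.le, hx.2.le⟩
  have hθ : ContDiffOn ℝ ∞ (W.theta P.p κ v) (Ann P.R) :=
    W.theta_smooth hE hκ (UMB.Lin.isOpen_Ann P.R) hv.smooth hv0
  obtain ⟨θ, hθd⟩ : ∃ θ : E3 → ℝ, θ = W.theta P.p κ v := ⟨_, rfl⟩
  rw [← hθd] at hθ ⊢
  obtain ⟨φ, hφd⟩ : ∃ φ : ℝ, φ = (W.KK P.p (v x) + κ)⁻¹ := ⟨_, rfl⟩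
  have hφ : 0 < φ := by rw [hφd]; exact inv_pos.2 (W.e1_pos hE hκ (hv0 x hx))
  have hkt : W.kt P.p (v x) = 1 := by
    unfold W.kt
    rw [hp']
    norm_num
  have hd1 : ∀ i, D1 θ x i = - φ * D1 v x i := by
    intro i
    rw [hθd, hφd]
    exact W.D1_theta hE hκ (UMB.Lin.isOpen_Ann P.R) hv.smooth hv0 hx i
  have hd2 : ∀ i j, D2 θ x i j = - φ * D2 v x i j + D1 θ x i * D1 θ x j := by
    intro i j
    have e1 := W.D2_theta hE hκ (UMB.Lin.isOpen_Ann P.R) hv.smooth hv0 hx i j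
    rw [hd1 i, hd1 j, hθd]
    have e2 : W.kt P.op.p (v x) = 1 := hkt
    have e3 : (W.KK P.op.p (v x) + κ)⁻¹ = φ := hφd.symm
    rw [e2, e3] at e1
    show D2 (W.theta P.op.p κ v) x i j = _
    rw [e1]
    ring
  -- the objects
  obtain ⟨G, hG⟩ : ∃ G : Matrix (Fin 3) (Fin 3) ℝ, G = (P.g x)⁻¹ := ⟨_, rfl⟩
  obtain ⟨h1, h2, -⟩ := hb P rfl rfl hP x hx1
  obtain ⟨y, hy⟩ : ∃ y : ℝ, y = yreg P.g θ 0 x := ⟨_, rfl⟩
  have hgs0 : 0 ≤ gsq P.g θ x := hm.gsq_nonneg hx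
  have hy0 : 0 ≤ y := by rw [hy]; exact Real.sqrt_nonneg _
  have hy2 : y ^ 2 = gsq P.g θ x := by
    rw [hy]
    unfold yreg
    rw [Real.sq_sqrt (by linarith), add_zero]
  obtain ⟨V, hV⟩ : ∃ V : ℝ, V = Real.sqrt (vsq (D1 θ x)) := ⟨_, rfl⟩
  have hV0 : 0 ≤ V := by rw [hV]; exact Real.sqrt_nonneg _
  have hq1 : q1 G (D1 θ x) = gsq P.g θ x := by
    rw [hG]
    unfold q1 gsq gradU D1
    refine Finset.sum_congr rfl fun i _ => ?_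
    rw [Finset.mul_sum]
    exact Finset.sum_congr rfl fun j _ => by ring
  have hVy : V ≤ (1 + Λ) * y := by
    have e1 := hΛ.low x hx1 (D1 θ x)
    have e2 : ∑ i, ∑ j, (P.g x)⁻¹ i j * D1 θ x i * D1 θ x j = y ^ 2 := by
      rw [hy2, ← hq1, hG]; rfl
    rw [e2] at e1
    rw [hV]
    apply Real.sqrt_le_iff.2
    refine ⟨by positivity, ?_⟩
    have e3 : vsq (D1 θ x) ≤ Λ * y ^ 2 := e1
    have e4 : ((1 + Λ) * y) ^ 2 = (1 + Λ) ^ 2 * y ^ 2 := by ring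
    rw [e4]
    nlinarith [sq_nonneg y]
  -- the matrix
  obtain ⟨hb1, hb2, hb3, hb4⟩ := mh_bridge hm (k := P.k) (fun y hy => hkk.symm y (hsub hy)) hθ hx
  obtain ⟨S, hS⟩ : ∃ S : Matrix (Fin 3) (Fin 3) ℝ,
    S = W.Mh (P.g x)⁻¹ (P.g x) (P.k x) (fun m => Matrix.of fun i j => chr P.g m i j x) (D1 θ x) (D2 θ x) := ⟨_, rfl⟩
  rw [← hS, ← hG] at hb1
  have hGs : ∀ i j, G i j = G j i := by
    intro i j
    have e0 : (P.g x)⁻¹.IsSymm := by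
      show ((P.g x)⁻¹).transpose = (P.g x)⁻¹
      rw [Matrix.transpose_nonsing_inv, (hm.symm x hx).eq]
    rw [hG]
    exact (e0.apply j i)
  obtain ⟨N, hN⟩ : ∃ N : ℝ, N = Real.sqrt (MhSq P.g P.k θ x) := ⟨_, rfl⟩
  have hN0 : 0 ≤ N := by rw [hN]; exact Real.sqrt_nonneg _
  have hSN : ∀ i j, |S i j| ≤ Λ * N := by
    intro i j
    have e1 : (Λ⁻¹) ^ 2 * fsq S ≤ nsq G S := by
      refine W.nsq_ge (inv_pos.2 hΛ0).le hGs (fun u => ?_) S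
      have e2 := hΛ.low x hx1 u
      have e3 : ∑ i, ∑ j, (P.g x)⁻¹ i j * u i * u j = q1 G u := by rw [hG]; rfl
      rw [e3] at e2
      rw [inv_mul_le_iff₀ hΛ0]
      exact e2
    have e4 : fsq S ≤ Λ ^ 2 * MhSq P.g P.k θ x := by
      rw [← hb1]
      have : fsq S = Λ ^ 2 * ((Λ⁻¹) ^ 2 * fsq S) := by
        field_simp
      rw [this]
      exact mul_le_mul_of_nonneg_left e1 (by positivity)
    refine (n6a_fsq S i j).trans ?_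
    rw [hN, ← Real.sqrt_sq hΛ0.le, ← Real.sqrt_mul (by positivity)]
    exact Real.sqrt_le_sqrt e4
  have hVi : ∀ i, |D1 θ x i| ≤ V := fun i => by rw [hV]; exact n6a_vsq _ i
  have hkx : ∀ i j, |P.k x i j| ≤ |K| / ‖x‖ ^ 2 := fun i j =>
    (hk x hx1 i j).trans (div_le_div_of_nonneg_right (le_abs_self K) (by positivity))
  have hSe : ∀ i j, D2 θ x i j = S i j + ∑ m, chr P.g m i j x * D1 θ x m - 2 * (D1 θ x i * D1 θ x j)
      + y ^ 2 * P.g x i j + y * P.k x i j := by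
    intro i j
    have e1 : S i j = D2 θ x i j - ∑ m, chr P.g m i j x * D1 θ x m + 2 * D1 θ x i * D1 θ x j
        - q1 (P.g x)⁻¹ (D1 θ x) * P.g x i j - Real.sqrt (q1 (P.g x)⁻¹ (D1 θ x)) * P.k x i j := by
      rw [hS]; rfl
    have e2 : q1 (P.g x)⁻¹ (D1 θ x) = y ^ 2 := by rw [hy2, ← hq1, hG]
    rw [e2, Real.sqrt_sq hy0] at e1
    rw [e1]
    ring
  have hφD : ∀ i j, |φ * D2 v x i j| ≤ Λ * N + 3 * (C / ‖x‖ ^ 2 * V) + 2 * (V * V)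
      + y ^ 2 * C + y * (|K| / ‖x‖ ^ 2) + V * V := by
    intro i j
    have e1 : φ * D2 v x i j = - (S i j + ∑ m, chr P.g m i j x * D1 θ x m - 2 * (D1 θ x i * D1 θ x j)
      + y ^ 2 * P.g x i j + y * P.k x i j) + D1 θ x i * D1 θ x j := by
      rw [← hSe i j, hd2 i j]
      ring
    have a1 := hSN i j
    have a2 : |∑ m, chr P.g m i j x * D1 θ x m| ≤ 3 * (C / ‖x‖ ^ 2 * V) :=
      n6a_s1 fun m => n6a_mul (h2 m i j).1 (hVi m)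
    have a3 : |D1 θ x i * D1 θ x j| ≤ V * V := n6a_mul (hVi i) (hVi j)
    have a4 : |y ^ 2 * P.g x i j| ≤ y ^ 2 * C := n6a_mul (abs_of_nonneg (sq_nonneg y)).le (h1 i j).2.2.2
    have a5 : |y * P.k x i j| ≤ y * (|K| / ‖x‖ ^ 2) := n6a_mul (abs_of_nonneg hy0).le (hkx i j)
    rw [e1]
    rw [abs_le] at a1 a2 a3 a4 a5 ⊢
    constructor <;> linarith [a1.1, a1.2, a2.1, a2.2, a3.1, a3.2, a4.1, a4.2, a5.1, a5.2]
  -- the two functions of the Laplace bound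
  have hF : φ * Real.sqrt (fsq (D2 v x)) ≤ 9 * (Λ * N + 3 * (C / ‖x‖ ^ 2 * V) + 2 * (V * V)
      + y ^ 2 * C + y * (|K| / ‖x‖ ^ 2) + V * V) := by
    obtain ⟨T, hT⟩ : ∃ T : ℝ, T = Λ * N + 3 * (C / ‖x‖ ^ 2 * V) + 2 * (V * V)
      + y ^ 2 * C + y * (|K| / ‖x‖ ^ 2) + V * V := ⟨_, rfl⟩
    rw [← hT] at hφD ⊢
    have hT0 : 0 ≤ T := (abs_nonneg _).trans (hφD 0 0)
    have e1 : φ * Real.sqrt (fsq (D2 v x)) = Real.sqrt (φ ^ 2 * fsq (D2 v x)) := by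
      rw [Real.sqrt_mul (sq_nonneg _), Real.sqrt_sq hφ.le]
    rw [e1]
    apply Real.sqrt_le_iff.2
    refine ⟨by positivity, ?_⟩
    have e2 : φ ^ 2 * fsq (D2 v x) = ∑ i, ∑ j, (φ * D2 v x i j) ^ 2 := by
      unfold fsq
      rw [Finset.mul_sum]
      refine Finset.sum_congr rfl fun i _ => ?_
      rw [Finset.mul_sum]
      exact Finset.sum_congr rfl fun j _ => by ring
    have e3 : ∀ i j, |(φ * D2 v x i j) ^ 2| ≤ T ^ 2 := by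
      intro i j
      rw [abs_pow]
      exact pow_le_pow_left₀ (abs_nonneg _) (hφD i j) 2
    have e4 := (abs_le.1 (n6a_s2 e3)).2
    rw [e2]
    nlinarith [sq_nonneg T]
  have hφV : φ * Real.sqrt (vsq (D1 v x)) = V := by
    rw [hV]
    have e1 : vsq (D1 θ x) = φ ^ 2 * vsq (D1 v x) := by
      unfold vsq
      rw [Finset.mul_sum]
      refine Finset.sum_congr rfl fun i _ => ?_
      rw [hd1 i]
      ring
    rw [e1, Real.sqrt_mul (sq_nonneg _), Real.sqrt_sq hφ.le]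
  have hL : |φ * lapG P.g v x| ≤ S2 / ‖x‖ * (φ * Real.sqrt (fsq (D2 v x))) + S2 / ‖x‖ ^ 2 * V := by
    have e1 := hlap P rfl rfl hP hop hk v hv x hx hp
    rw [abs_mul, abs_of_pos hφ]
    calc φ * |lapG P.g v x| ≤ φ * (S2 / ‖x‖ * Real.sqrt (fsq (D2 v x)) + S2 / ‖x‖ ^ 2 * Real.sqrt (vsq (D1 v x))) :=
          mul_le_mul_of_nonneg_left e1 hφ.le
      _ = S2 / ‖x‖ * (φ * Real.sqrt (fsq (D2 v x))) + S2 / ‖x‖ ^ 2 * (φ * Real.sqrt (vsq (D1 v x))) := by ring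
      _ = _ := by rw [hφV]
  -- the trace
  obtain ⟨tk, htk⟩ : ∃ tk : ℝ, tk = ∑ i, ∑ j, G i j * P.k x j i := ⟨_, rfl⟩
  have htk1 : |tk| ≤ 9 * (C * (|K| / ‖x‖ ^ 2)) := by
    rw [htk]
    refine n6a_s2 fun i j => n6a_mul ?_ (hkx j i)
    rw [hG]
    exact (h1 i j).2.1
  have hlv : lapG P.g v x = ∑ i, ∑ j, G i j * (D2 v x i j - ∑ m, chr P.g m i j x * D1 v x m) := by
    rw [hG]; rfl
  have hlθ : lapG P.g θ x = ∑ i, ∑ j, G i j * (D2 θ x i j - ∑ m, chr P.g m i j x * D1 θ x m) := by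
    rw [hG]; rfl
  have htr : MhTr P.g P.k θ x = - (φ * lapG P.g v x) - y * tk := by
    have e1 : MhTr P.g P.k θ x = lapG P.g θ x + 2 * gsq P.g θ x - 3 * gsq P.g θ x - y * tk := by
      rw [htk, hG, hy]
      unfold MhTr Mh lapG gsq upk
      simp only [Fin.sum_univ_three, if_true]
      ring
    have e2 : lapG P.g θ x = - (φ * lapG P.g v x) + gsq P.g θ x := by
      rw [hlθ, hlv, ← hq1]
      unfold q1
      simp only [hd2, Fin.sum_univ_three, hd1]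
      ring
    rw [e1, e2]
    ring
  have hM : |MhTr P.g P.k θ x| ≤ |φ * lapG P.g v x| + y * |tk| := by
    rw [htr]
    have e1 : |-(φ * lapG P.g v x) - y * tk| ≤ |-(φ * lapG P.g v x)| + |y * tk| := by
      rw [sub_eq_add_neg]
      refine (abs_add_le _ _).trans ?_
      rw [abs_neg (y * tk)]
    rw [abs_neg, abs_mul y, abs_of_nonneg hy0] at e1
    exact e1
  have hfin := n6b_alg (φ := φ) hC hΛ0 (abs_nonneg K) hx1 hy0 hV0 hN0 hVy hF (by positivity) hL hS2 hM htk1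
  rw [hy2] at hfin
  rw [← hN, ← hy]
  exact hfin

end UMB.E
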