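import Pool.Agent.Lib.UMB.E.N3b
import Pool.Agent.Lib.UMB.E.N4
import Pool.Agent.Lib.UMB.E.N6b
import Pool.Agent.Lib.UMB.BR.Top
import Pool.Agent.Lib.UMB.Far.T1

set_option autoImplicit false

/-!
# UMB.E chunk Q6: the structure `Cor` for the concrete operator
-/

open Filter Topology Set MeasureTheory
open scoped ContDiff

namespace UMB.E

open Pool.Agent.Lib.PenroseSph (E3 Tens pd trg chr meanCurv gradNorm)
open UMB.Lin (Ann cAnn sig)

theorem q6_vy {P : Par} (hP : P.Ok) {v : E3 → ℝ}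
    (hb : ∀ x ∈ cAnn P.R, v x ≤ (P.r1 / ‖x‖) ^ (P.q / 2)) {y : E3} (hy : y ∈ cAnn P.R) (hy1 : P.R1 / 2 ≤ ‖y‖) :
    v y ≤ P.v1 := by
  have hr1 : 1 ≤ P.r1 := hP.r1_ge
  have hR1 := hP.R1_ge
  have hq := hP.q_pos
  have hR1p : 0 < P.R1 := by linarith
  have hyp : 0 < ‖y‖ := by linarith
  have h1 : P.r1 / ‖y‖ ≤ 2 * P.r1 / P.R1 := by
    rw [div_le_div_iff₀ hyp hR1p]
    nlinarith
  have h0 : 0 ≤ P.r1 / ‖y‖ := by positivity
  have h2 : (P.r1 / ‖y‖) ^ (P.q / 2) ≤ (2 * P.r1 / P.R1) ^ (P.q / 2) :=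
    Real.rpow_le_rpow h0 h1 (by linarith)
  have h3 : 2 * P.r1 / P.R1 ≤ 1 := by
    rw [div_le_one hR1p]
    linarith
  have h4 : (2 * P.r1 / P.R1) ^ (P.q / 2) ≤ 1 :=
    Real.rpow_le_one (by positivity) h3 (by linarith)
  unfold Par.v1
  exact le_min ((hb y hy).trans (h2.trans h4)) ((hb y hy).trans h2)

theorem p_far {P : Par} (hP : P.Ok) {v : E3 → ℝ} (hv : W.Sol P.op v)
    (hb : ∀ x ∈ cAnn P.R, v x ≤ (P.r1 / ‖x‖) ^ (P.q / 2)) {x : E3} (hx : x ∈ Ann P.R) (hx1 : P.R1 ≤ ‖x‖) :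
    P.p (P.op.vd v x) = 2 ∧ P.p (v x) = 2 := by
  have hR1 : 4 ≤ P.R1 := by linarith [hP.r1_ge, hP.R1_ge]
  refine ⟨BR.p_two hP ?_, BR.p_two hP (q6_vy hP hb ⟨hx.1.le, hx.2.le⟩ (by linarith))⟩
  have hm := Far.t1_mol hP
  have hv0 := Far.t1_v1 hP
  have hcs : HasCompactSupport P.op.etad := by
    refine HasCompactSupport.of_support_subset_isCompact (isCompact_closedBall (0 : E3) P.d) ?_
    intro y hy
    rw [mem_closedBall_zero_iff]
    by_contra hc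
    exact hy (hm.supp y (not_le.1 hc).le)
  have hi : Integrable P.op.etad := hm.smooth.continuous.integrable_of_hasCompactSupport hcs
  have hi' : Integrable fun y => P.v1 * P.op.etad (x - y) := (hi.comp_sub_left x).const_mul _
  have e1 : ∫ y, P.v1 * P.op.etad (x - y) = P.v1 := by
    rw [integral_const_mul, integral_sub_left_eq_self P.op.etad volume x, hm.int, mul_one]
  have hext0 : ∀ y, 0 ≤ ext P.op.R v y := by
    intro y
    unfold ext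
    split_ifs with h3 h4
    · exact zero_le_one
    · exact hv.nonneg y ⟨not_lt.1 h3, h4⟩
    · exact le_rfl
  unfold OpData.vd
  rw [← e1]
  refine integral_mono_of_nonneg (Eventually.of_forall fun y =>
    mul_nonneg (hext0 y) (hm.nonneg _)) hi' (Eventually.of_forall fun y => ?_)
  show ext P.op.R v y * P.op.etad (x - y) ≤ P.v1 * P.op.etad (x - y)
  by_cases hxy : P.d ≤ ‖x - y‖
  · rw [hm.supp _ hxy, mul_zero, mul_zero]
  · apply mul_le_mul_of_nonneg_right _ (hm.nonneg _)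
    have h5 : ‖x‖ ≤ ‖x - y‖ + ‖y‖ := by
      calc ‖x‖ = ‖(x - y) + y‖ := by rw [sub_add_cancel]
        _ ≤ _ := norm_add_le _ _
    have h6 : P.R1 - 1 < ‖y‖ := by linarith [hP.d_le, not_le.1 hxy]
    unfold ext
    have h7 : ¬ ‖y‖ < 1 := by
      intro h8
      linarith
    rw [if_neg h7]
    split_ifs with h9
    · exact q6_vy hP hb ⟨not_lt.1 h7, h9⟩ (by linarith)
    · exact hv0.le

theorem cor_of {g : Tens} {a : ℝ} (hg : AF g a) (K : ℝ) {Λ : ℝ} (hc : Cmp g Λ) : ∃ Cf : ℝ, 0 ≤ Cf ∧ ∀ P : Par, P.g = g →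
    P.a = a → P.Ok → P.op.Ok → Kk P.g P.k P.a → (∀ x : E3, 1 ≤ ‖x‖ → ∀ i j, |P.k x i j| ≤ K / ‖x‖ ^ 2) →
    ∀ v : E3 → ℝ, W.Sol P.op v → 0 < P.kap v → ∀ Ce : ℝ, (∀ x ∈ Ann P.R, Real.exp (P.th v x) ≤ Ce * ‖x‖) →
    (∀ x ∈ cAnn P.R, v x ≤ (P.r1 / ‖x‖) ^ (P.q / 2)) →
    Cor P.g P.k P.R P.R1 (P.q / 2) Cf (P.th v) (eN P (P.kap v) v) := by
  obtain ⟨C, hC, hfar⟩ := cor_far hg K
  refine ⟨C, hC.le, ?_⟩
  intro P hPg hPa hP hop hk hkb v hv hκ Ce hup hb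
  have hgP : AF P.g P.a := by
    rw [hPg, hPa]
    exact hg
  have hcP : Cmp P.g Λ := by
    rw [hPg]
    exact hc
  refine ⟨?_, ?_, ?_, ?_⟩
  · intro x hx hx1
    exact cor_near hP hop hgP hk hv hκ hx hx1
  · intro x hx hx1
    obtain ⟨h1, h2⟩ := p_far hP hv hb hx hx1
    have h3 := hfar P hPg hPa hP hop hk hkb v hv (P.kap v) hκ x hx h1 h2
    rw [hPg]
    exact h3
  · intro x _
    unfold eN
    have hq := hP.q_pos
    positivity
  · exact (eN_int hP hop hgP hcP hv hκ hup le_rfl).1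

end UMB.E
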