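import Pool.Agent.Lib.UMB.M.Defs
import Pool.Agent.Lib.UMB.Wil

set_option autoImplicit false

/-!
# UMB.E chunk Q7: the inner boundary term against the Willmore energy
-/

open Filter Topology Set MeasureTheory
open scoped ContDiff

namespace UMB.E

open Pool.Agent.Lib.PenroseSph (E3 Tens pd trg chr meanCurv gradNorm S2 sm integrable_S2)

/-- Pointwise `Y² - Y (H - P) ≥ - ((H - |P|)⁺)²/4` if `Y ≥ 0`, `P ≥ 0`. -/
theorem bdry_wil {g k : Tens} {a : ℝ} (hg : SmM g a) (ha : a < 1) (hk : SmT k a) (θ : E3 → ℝ)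
    (hP : ∀ x : E3, ‖x‖ = 1 → 0 ≤ sphTr g k x) : -(wil g k / 4) ≤ bdry g k θ 1 := by
  have hpt : ∀ n : Metric.sphere (0 : E3) 1, -((max (meanCurv g (fun y => ‖y‖) (n : E3) - |sphTr g k n|) 0 ^ 2 *
      (gradNorm g (fun y => ‖y‖) (n : E3) * Real.sqrt (g (n : E3)).det)) / 4) ≤
        (1 : ℝ) ^ 2 * bd g k θ ((1 : ℝ) • (n : E3)) := by
    intro n
    rw [one_smul, one_pow, one_mul]
    have hn : ‖(n : E3)‖ = 1 := mem_sphere_zero_iff_norm.1 n.2
    generalize (n : E3) = x at hn ⊢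
    have h0 := hP x hn
    rw [abs_of_nonneg h0]
    unfold bd vol
    set Y := gradNorm g θ x with hY
    have hY0 : 0 ≤ Y := Real.sqrt_nonneg _
    set N := gradNorm g (fun y => ‖y‖) x with hN
    have hN0 : 0 ≤ N := Real.sqrt_nonneg _
    have hv0 : 0 ≤ Real.sqrt (g x).det := Real.sqrt_nonneg _
    set b := meanCurv g (fun y => ‖y‖) x - sphTr g k x with hb
    have hm0 : 0 ≤ max b 0 := le_max_right _ _
    have hm1 : b ≤ max b 0 := le_max_left _ _
    have h1 : -(max b 0 ^ 2 / 4) ≤ Y ^ 2 - Y * b := by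
      nlinarith [sq_nonneg (Y - max b 0 / 2), mul_le_mul_of_nonneg_left hm1 hY0]
    have h2 := mul_le_mul_of_nonneg_left h1 (mul_nonneg hv0 hN0)
    nlinarith [h2]
  have ci : Integrable (fun n : Metric.sphere (0 : E3) 1 => max (meanCurv g (fun y => ‖y‖) (n : E3) - |sphTr g k n|) 0 ^ 2 *
      (gradNorm g (fun y => ‖y‖) (n : E3) * Real.sqrt (g (n : E3)).det)) sm :=
    integrable_S2 (((((wil_mc hg ha).sub (wil_tr hg ha hk).abs).max continuous_const).pow 2).mul (wil_ad hg ha))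
  unfold bdry
  by_cases hint : Integrable (fun n : Metric.sphere (0 : E3) 1 => (1 : ℝ) ^ 2 * bd g k θ ((1 : ℝ) • (n : E3)))
      UMB.Lin.sig
  · have h2 : ∫ n : Metric.sphere (0 : E3) 1, -((max (meanCurv g (fun y => ‖y‖) (n : E3) - |sphTr g k n|) 0 ^ 2 *
      (gradNorm g (fun y => ‖y‖) (n : E3) * Real.sqrt (g (n : E3)).det)) / 4) ∂sm = -(wil g k / 4) := by
      rw [integral_neg, integral_div]
      rfl
    rw [← h2]
    exact integral_mono (ci.div_const 4).neg hint hpt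
  · rw [integral_undef hint]
    linarith [wil_nonneg g k]

/-- `tr_S k ≥ 0` if the plane traces are nonnegative. -/
theorem sphTr_nonneg {g k : Tens} {a : ℝ} (hg : SmM g a) {x : E3} (hx : a < ‖x‖) (hx0 : x ≠ 0) (h2 : TwoNonneg g k x) :
    0 ≤ sphTr g k x := by
  have h := h2 (fun i => Pool.Agent.Lib.PenroseSph.normal g (fun y => ‖y‖) i x)
  unfold sphTr
  rw [trLevel_eq]
  rw [quad_normal (hg.symm x hx) (hg.pos x hx) (pd_norm_ne hx0), mul_one] at h
  exact h

end UMB.E
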