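import Pool.Agent.Lib.UMB.E.BIn
import Pool.Agent.Lib.UMB.E.Q1
import Pool.Agent.Lib.UMB.E.Q2
import Pool.Agent.Lib.UMB.E.Q3a
import Pool.Agent.Lib.UMB.E.Q3b
import Pool.Agent.Lib.UMB.E.Q4
import Pool.Agent.Lib.UMB.E.Q5
import Pool.Agent.Lib.UMB.E.Q6
import Pool.Agent.Lib.UMB.E.Q7
import Pool.Agent.Lib.UMB.M.M2
import Pool.Agent.Lib.UMB.M.GB
import Pool.Agent.Lib.UMB.BR.LF
import Pool.Agent.Lib.UMB.Asm.Lev
import Pool.Agent.Lib.UMB.Far.Final

set_option autoImplicit false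

/-!
# UMB.E: the energy estimate `energy'` (S4.md 4.7)
-/

open Filter Topology Set MeasureTheory
open scoped ContDiff

namespace UMB.E

open Pool.Agent.Lib.PenroseSph (E3 Tens pd trg chr meanCurv gradNorm admFlux)
open UMB.Lin (Ann cAnn sig)

/-- Section 4 for one solution. -/
theorem star {P : Par} {K η0 R0 δ' : ℝ} {η : E3 → ℝ} (hP : P.Ok) (hop : P.op.Ok) (hg : AF P.g P.a)
    (hA : Adm P.g P.k P.a K η η0 R0 δ') {Λ : ℝ} (hc : Cmp P.g Λ) {Ce Cf c Cn : ℝ}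
    (hen : ∀ (g k : Tens) (a R ρ : ℝ) (θ e : E3 → ℝ), AF g a → Cmp g Λ → Kk g k a → Th g k Ce R θ → Cn ≤ ρ → ρ ≤ R →
      Cor g k R ρ (P.q / 2) Cf θ e →
      c * En g k R θ ≤ (∫ x in Ann R, mainD g k θ x) + (∫ x in Ann R, Real.exp (θ x) * e x * vol g x)
        + Cn / ρ * (1 + En g k R θ))
    {v : E3 → ℝ} (hv : W.Sol P.op v) (hκ : 0 < P.kap v)
    (hup : ∀ x ∈ Ann P.R, Real.exp (P.th v x) ≤ Ce * ‖x‖)
    (hcor : Cor P.g P.k P.R P.R1 (P.q / 2) Cf (P.th v) (eN P (P.kap v) v))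
    (hout : ∃ s : ℝ, 0 < s ∧ ∀ x : E3, P.R - s < ‖x‖ → ‖x‖ < P.R → P.y v x ≤ 4 / P.R) (hCn : Cn ≤ P.R1) :
    c * P.D v ≤ P.R * (4 * Real.pi + Far.sphQ P.g P.k (P.y v) P.R) / P.CC v - 4 * Real.pi
      + wil P.g P.k / 4
      + (∫ x in Ann P.R, Real.exp (P.th v x) * yreg P.g (P.th v) 0 x * η x * vol P.g x)
      + (∫ x in Ann P.R, Real.exp (P.th v x) * eN P (P.kap v) v x * vol P.g x) + Cn / P.R1 * (1 + P.D v) := by
  have hL := BR.lf hop hκ hv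
  have hG := BR.gk hg hA
  have hk : Kk P.g P.k P.a := ⟨hA.smooth, hA.symm, hA.two⟩
  have hR1 : 4 ≤ P.R1 := by linarith [hP.r1_ge, hP.R1_ge]
  have hRR1 : 8 * P.R1 ≤ P.R := hP.R_ge
  have h4 : 4 ≤ P.R := by linarith
  have hR0 : 0 < P.R := by linarith
  have hT := th_of_LF hg hc hk hL h4 hup hout
  have h1 := hen P.g P.k P.a P.R P.R1 (P.th v) _ hg hc hk hT hCn (by linarith) hcor
  have hη : ContinuousOn η (cann P.R) := hA.cont_err.mono fun x hx => hx.1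
  have hGB := GB_bound hG hL (P.isLevel hP hop hκ hv)
  have h2 := M2_energy hG hL hη (fun x hx => hA.two x hx.1.le) (fun x hx => hA.dec x hx.1.le) hGB
  rw [main_split hG hL hη, bdry_out, Real.exp_zero, one_mul] at h2
  have hSm : SmM P.g P.a := ⟨fun i j => hg.smooth i j, hg.symm, hg.pos⟩
  have h3 := bdry_wil hSm hg.lt hA.smooth (P.th v) fun x hx => by
    have hx0 : x ≠ 0 := by
      intro h0
      rw [h0, norm_zero] at hx
      exact zero_ne_one hx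
    exact sphTr_nonneg hSm (by rw [hx]; exact hg.lt) hx0 (hA.two x hx.ge)
  rw [← D_eq] at h1
  have hCC : P.R * (4 * Real.pi + Far.sphQ P.g P.k (P.y v) P.R) / P.CC v =
      Real.exp (P.T v) * (4 * Real.pi + Far.sphQ P.g P.k (P.y v) P.R) := by
    unfold Par.CC
    rw [Real.exp_neg]
    have := Real.exp_pos (P.T v)
    field_simp
  rw [hCC]
  linarith

/-- `v ≤ v1` for `|x| ≥ R1/2`. -/
theorem v_le_v1 {P : Par} (hP : P.Ok) {v : E3 → ℝ} (hb : ∀ x ∈ cAnn P.R, v x ≤ (P.r1 / ‖x‖) ^ (P.q / 2)) (x : E3)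
    (h1 : P.R1 / 2 ≤ ‖x‖) (h2 : ‖x‖ ≤ P.R) : v x ≤ P.v1 := by
  have hr1 := hP.r1_ge
  have hR1 := hP.R1_ge
  have hq := hP.q_pos
  have hx0 : 0 < ‖x‖ := by linarith
  have h3 := hb x ⟨by linarith, h2⟩
  have h4 : P.r1 / ‖x‖ ≤ 2 * P.r1 / P.R1 := by
    rw [div_le_div_iff₀ hx0 (by linarith)]
    nlinarith
  have h5 : (P.r1 / ‖x‖) ^ (P.q / 2) ≤ (2 * P.r1 / P.R1) ^ (P.q / 2) :=
    Real.rpow_le_rpow (by positivity) h4 (by positivity)
  have h6 : (2 * P.r1 / P.R1) ^ (P.q / 2) ≤ 1 := by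
    apply Real.rpow_le_one (by have : 0 < P.R1 := by linarith
                               positivity) _ (by positivity)
    rw [div_le_one (by linarith)]
    linarith
  unfold Par.v1
  rw [min_eq_right h6]
  linarith

/-- The last arithmetic. -/
theorem arith {c Cn R1 D Z CC w X Et e0 E φ Φ τ τ1 L N R cq C s : ℝ} (hc : 0 < c) (hCn : 0 < Cn) (hR1 : 1 ≤ R1)
    (hcR : 2 * Cn / c ≤ R1) (hD : 0 ≤ D) (hcq : 0 < cq) (hCC : cq ≤ CC) (hCR : CC ≤ R) (hφ : φ ≤ Φ) (hΦ : 0 ≤ Φ)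
    (hw : w ≤ 4 * Real.pi) (hτ1 : τ1 ≤ 1) (hτ1' : τ1 ≤ τ)
    (hZ : Z ≤ 8 * Real.pi * E + φ + τ1 / 2) (hX : X + Et ≤ L * N) (hL : 0 ≤ L) (hN : 0 ≤ N)
    (hs : e0 ≤ s) (hs0 : 0 ≤ s) (hs1 : s ≤ 1) (hsR : R * s ≤ τ1 / 2)
    (hC : C = 2 / c * ((8 * Real.pi * |E| + Φ + 1) / cq + 1 + Cn) + 2 / c + Cn)
    (h : c * D ≤ Z / CC - 4 * Real.pi + w + X + Et + e0 + Cn / R1 * (1 + D)) :
    D ≤ C * (1 + (1 + (1 + R) * L) * N) ∧
      CC * (4 * Real.pi - w - C / R1) ≤ 8 * Real.pi * E + φ + τ + (1 + (1 + R) * L) * N := by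
  have hpi := Real.pi_gt_three
  have hCC0 : 0 < CC := by linarith
  have hR0 : 0 < R := by linarith
  have hR10 : 0 < R1 := by linarith
  set M : ℝ := 8 * Real.pi * |E| + Φ + 1 with hM
  have hM0 : 0 < M := by positivity
  have hE1 : 8 * Real.pi * E ≤ 8 * Real.pi * |E| := by
    have := le_abs_self E
    gcongr
  have hZM : Z ≤ M := by linarith
  have hu : Cn / R1 ≤ c / 2 := by
    rw [div_le_iff₀ hR10]
    rw [div_le_iff₀ hc] at hcR
    nlinarith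
  have hu0 : 0 < Cn / R1 := by positivity
  have hu1 : Cn / R1 ≤ Cn := div_le_self hCn.le hR1
  set u := Cn / R1 with hudef
  have hZC : Z / CC ≤ M / cq := by
    calc Z / CC ≤ M / CC := div_le_div_of_nonneg_right hZM hCC0.le
      _ ≤ M / cq := div_le_div_of_nonneg_left hM0.le hcq hCC
  have hLN : 0 ≤ L * N := by positivity
  have huD : u * D ≤ c / 2 * D := mul_le_mul_of_nonneg_right hu hD
  constructor
  · have h1 : c / 2 * D ≤ M / cq + 1 + Cn + L * N := by nlinarith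
    have h2 : D ≤ 2 / c * (M / cq + 1 + Cn + L * N) := by
      have : D = 2 / c * (c / 2 * D) := by field_simp
      rw [this]
      exact mul_le_mul_of_nonneg_left h1 (by positivity)
    have h3 : 2 / c * (L * N) ≤ C * ((1 + (1 + R) * L) * N) := by
      have h4 : 2 / c ≤ C := by
        rw [hC]
        have : 0 ≤ 2 / c * (M / cq + 1 + Cn) := by positivity
        linarith
      have h5 : L * N ≤ (1 + (1 + R) * L) * N := by
        apply mul_le_mul_of_nonneg_right _ hN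
        nlinarith
      have h6 : 0 ≤ 2 / c := by positivity
      exact mul_le_mul h4 h5 hLN (h6.trans h4)
    have h7 : 2 / c * (M / cq + 1 + Cn) ≤ C := by
      rw [hC]
      have : 0 ≤ 2 / c := by positivity
      linarith
    nlinarith
  · have hCCn : Cn ≤ C := by
      rw [hC]
      have : 0 ≤ 2 / c * (M / cq + 1 + Cn) + 2 / c := by positivity
      linarith
    have h1 : 4 * Real.pi - w ≤ Z / CC + L * N + s + u := by nlinarith
    have h3 : u ≤ C / R1 := div_le_div_of_nonneg_right hCCn hR10.le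
    have h2 : CC * (4 * Real.pi - w) ≤ Z + R * (L * N) + R * s + (C / R1) * CC := by
      have h3' : (4 * Real.pi - w) * CC ≤ (Z / CC + L * N + s + u) * CC := mul_le_mul_of_nonneg_right h1 hCC0.le
      have h4 : (Z / CC + L * N + s + u) * CC = Z + (L * N) * CC + s * CC + u * CC := by
        field_simp
      have h5 : (L * N) * CC ≤ (L * N) * R := mul_le_mul_of_nonneg_left hCR hLN
      have h6 : s * CC ≤ s * R := mul_le_mul_of_nonneg_left hCR hs0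
      have h7 : u * CC ≤ (C / R1) * CC := mul_le_mul_of_nonneg_right h3 hCC0.le
      linarith
    have h5 : (1 + (1 + R) * L) * N = N + L * N + R * (L * N) := by ring
    have h6 : CC * (4 * Real.pi - w - C / R1) = CC * (4 * Real.pi - w) - (C / R1) * CC := by ring
    linarith

/-- The size function is nonnegative. -/
theorem errN_nonneg {η : E3 → ℝ} {η0 R : ℝ} (h : 0 ≤ η0) :
    0 ≤ errN η η0 R ∧ η0 ≤ errN η η0 R ∧
      Real.sqrt (∫ x in {x : E3 | 1 ≤ ‖x‖ ∧ ‖x‖ ≤ R}, (η x) ^ 2) ≤ errN η η0 R := by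
  have := Real.sqrt_nonneg (∫ x in {x : E3 | 1 ≤ ‖x‖ ∧ ‖x‖ ≤ R}, (η x) ^ 2)
  unfold errN
  refine ⟨by linarith, by linarith, by linarith⟩

/-- **ENERGY** (S4.md 4.7), with the Willmore term of the inner sphere and the flux `φ` at infinity. -/
theorem energy {g : Tens} {a E : ℝ} (hg : AF g a) (hE : Tendsto (admFlux g) atTop (𝓝 E)) (K : ℝ) {Φ : ℝ} (hΦ : 0 ≤ Φ) :
    ∃ c00 : ℝ, 0 ≤ c00 ∧ ∀ c0 : ℝ, c00 ≤ c0 → ∀ q : ℝ, 0 < q → q < 1 → ∃ C : ℝ, 0 < C ∧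
      ∀ᶠ R1 in atTop, ∀ τ : ℝ, 0 < τ → ∀ R0 : ℝ, ∀ᶠ R in atTop, ∃ L : ℝ, 1 ≤ L ∧
        ∀ (k : Tens) (η : E3 → ℝ) (η0 φ : ℝ), 0 ≤ φ → φ ≤ Φ → Adm g k a K η η0 R0 φ → wil g k ≤ 16 * Real.pi →
          ∀ eta : E3 → ℝ, Moll eta →
          ∀ᶠ eps in 𝓝[>] (0 : ℝ), ∀ᶠ d in 𝓝[>] (0 : ℝ), (mkP g k a c0 q R1 R eps d eta).Ok →
            ∀ v : E3 → ℝ, W.Sol (mkP g k a c0 q R1 R eps d eta).op v →
              (mkP g k a c0 q R1 R eps d eta).D v ≤ C * (1 + L * errN η 0 R) ∧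
              (mkP g k a c0 q R1 R eps d eta).CC v * (4 * Real.pi - wil g k / 4 - C / R1) ≤
                8 * Real.pi * E + φ + τ + L * errN η 0 R := by
  have hpi := Real.pi_pos
  obtain ⟨Λ, hc⟩ := exists_cmp hg
  obtain ⟨Cg, hCg⟩ := hg.decay
  have hdec : Far.Dec g Cg := hCg
  obtain ⟨Cf, hCf, hcor⟩ := cor_of hg K hc
  obtain ⟨F1, hF1, hfz1⟩ := Far.fz1' Cg
  obtain ⟨F2, hF2, hend⟩ := Far.end_value' Cg
  obtain ⟨c00, h00, hB⟩ := Be hg K
  refine ⟨c00, h00, fun c0 hc0 q hq0 hq1 => ?_⟩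
  obtain ⟨cq, Ce, hcq, hCe, hB⟩ := hB c0 hc0 q hq0 hq1
  obtain ⟨c, Cn, hc1, hCn, hen⟩ := energy_le Λ Ce (q / 2) Cf hCe.le (by positivity) hCf
  refine ⟨2 / c * ((8 * Real.pi * |E| + Φ + 1) / cq + 1 + Cn) + 2 / c + Cn, by positivity, ?_⟩
  filter_upwards [hB, eventually_ge_atTop (1 : ℝ), eventually_ge_atTop (2 * Cn / c), eventually_ge_atTop Cn]
    with R1 hB hR1 hR1c hR1n
  intro τ hτ R0
  set τ1 : ℝ := min τ 1 with hτ1
  have hτ10 : 0 < τ1 := lt_min hτ one_pos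
  have hτ11 : τ1 ≤ 1 := min_le_right _ _
  have hτ1τ : τ1 ≤ τ := min_le_left _ _
  have hlim1 : Tendsto (fun R : ℝ => 8 * Real.pi * admFlux g R) atTop (𝓝 (8 * Real.pi * E)) := hE.const_mul _
  have hlim2 : Tendsto (fun R : ℝ => F2 * R1 ^ 2 / R) atTop (𝓝 0) := tendsto_const_nhds.div_atTop tendsto_id
  have hlim3 : Tendsto (fun R : ℝ => F2 * R1 * Φ / R) atTop (𝓝 0) := tendsto_const_nhds.div_atTop tendsto_id
  filter_upwards [hB R0, eventually_ge_atTop (1 : ℝ), eventually_ge_atTop (F1 * R1), eventually_ge_atTop (F2 * R1),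
    eventually_ge_atTop R0, hlim1.eventually (gt_mem_nhds (show 8 * Real.pi * E < 8 * Real.pi * E + τ1 / 4 by linarith)),
    hlim2.eventually (gt_mem_nhds (show (0:ℝ) < τ1 / 8 by positivity)),
    hlim3.eventually (gt_mem_nhds (show (0:ℝ) < τ1 / 8 by positivity))] with R hB hRge hRF1 hRF2 hRR0 hRE hRF hRΦ
  obtain ⟨κ0, hκ0, hB⟩ := hB
  obtain ⟨L, hL, heta⟩ := eta_term hg K c0 q R1 R R0 Ce κ0 Λ hκ0 hCe.le hc
  have hR0 : 0 < R := by linarith
  refine ⟨1 + (1 + R) * L, by nlinarith [mul_nonneg (show 0 ≤ 1 + R by linarith) hL],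
    fun k η η0 φ hφ0 hφ1 hA hwil eta hmoll => ?_⟩
  set s : ℝ := min 1 (τ1 / (2 * R)) with hs
  have hs0 : 0 < s := lt_min one_pos (by positivity)
  have hs1 : s ≤ 1 := min_le_left _ _
  have hsR : R * s ≤ τ1 / 2 := by
    have : s ≤ τ1 / (2 * R) := min_le_right _ _
    calc R * s ≤ R * (τ1 / (2 * R)) := mul_le_mul_of_nonneg_left this hR0.le
      _ = τ1 / 2 := by field_simp
  filter_upwards [hB k η η0 φ hφ0 hA eta hmoll, err_small hg hκ0 hCe.le hc hA (c0 := c0) (q := q) (R1 := R1) (R := R) hs0]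
    with eps hB1 hS1
  filter_upwards [hB1, hS1] with d hB2 hS2
  intro hP v hv
  obtain ⟨hk1, hCC, hup, hvb⟩ := hB2 hP v hv
  have hes := hS2 eta hP v hv hk1 hup
  have het := heta k η η0 φ hA eps d eta hP v hv hk1 hup
  have hop := BR.op_ok hg hA hP
  have hκ : 0 < (mkP g k a c0 q R1 R eps d eta).kap v := lt_of_lt_of_le hκ0 hk1
  obtain ⟨hN0, -, hN3⟩ := errN_nonneg (η := η) (R := R) (le_refl (0 : ℝ))
  generalize hPdef : mkP g k a c0 q R1 R eps d eta = P at *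
  have eg : P.g = g := by rw [← hPdef]; rfl
  have ek : P.k = k := by rw [← hPdef]; rfl
  have ea : P.a = a := by rw [← hPdef]; rfl
  have eq' : P.q = q := by rw [← hPdef]; rfl
  have eR1 : P.R1 = R1 := by rw [← hPdef]; rfl
  have eR : P.R = R := by rw [← hPdef]; rfl
  have hpos : ∀ x : E3, 1 < ‖x‖ → ‖x‖ < P.R → 0 < v x := fun x h1 h2 => (BR.sol_between hop hv ⟨h1, h2⟩).1
  rw [← eq'] at hvb
  have hv1 := fun x h1 h2 => v_le_v1 hP hvb x h1 h2
  have hgP : AF P.g P.a := by rw [eg, ea]; exact hg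
  have hAP : Adm P.g P.k P.a K η η0 R0 φ := by rw [eg, ea, ek]; exact hA
  have hkP : Kk P.g P.k P.a := ⟨hAP.smooth, hAP.symm, hAP.two⟩
  have hdP : Far.Dec P.g Cg := by rw [eg]; exact hdec
  have hcP : Cmp P.g Λ := by rw [eg]; exact hc
  have hupP : ∀ x ∈ Ann P.R, Real.exp (P.th v x) ≤ Ce * ‖x‖ := hup
  have hcorP := hcor P eg ea hP hop hkP hAP.bound v hv hκ Ce hupP hvb
  obtain ⟨s1, hs1', hout⟩ := hfz1 P v hP hgP hdP hv hpos hv1 (by rw [eR1, eR]; exact hRF1)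
  have hZ := hend P v hP hgP hdP hAP.smooth hv hpos hv1 (by rw [eR1, eR]; exact hRF2)
  have hst := star (Ce := Ce) (Cf := Cf) (c := c) (Cn := Cn) hP hop hgP hAP hcP (by rw [eq']; exact hen) hv hκ hupP hcorP
    ⟨s1, hs1', fun x h1 h2 => hout x h1 h2.le⟩ (by rw [eR1]; exact hR1n)
  have hD0 : 0 ≤ P.D v := by
    rw [D_eq]
    have hL := BR.lf hop hκ hv
    have h4 : 4 ≤ P.R := by linarith [hP.r1_ge, hP.R1_ge, hP.R_ge]
    have hT := th_of_LF hgP hcP hkP hL h4 hupP ⟨s1, hs1', fun x h1 h2 => hout x h1 h2.le⟩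
    exact (p9_En hgP hkP hT).2.2
  have hCCR : P.CC v ≤ R := by
    rw [← eR]
    have h1 := (Par.T_pos hP hκ).le
    have h2 : Real.exp (-P.T v) ≤ 1 := Real.exp_le_one_iff.2 (by linarith)
    have h3 : 0 ≤ P.R := by rw [eR]; linarith
    unfold Par.CC
    calc P.R * Real.exp (-P.T v) ≤ P.R * 1 := mul_le_mul_of_nonneg_left h2 h3
      _ = P.R := mul_one _
  have hZ' : P.R * (4 * Real.pi + Far.sphQ P.g P.k (P.y v) P.R) ≤ 8 * Real.pi * E + φ + τ1 / 2 := by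
    refine hZ.trans ?_
    rw [eg, ek, eR, eR1]
    have hfl := hA.flux R hRR0
    have h2 : 0 ≤ F2 * R1 / R := by positivity
    have h3 : (1 + F2 * R1 / R) * trFlux g k R ≤ (1 + F2 * R1 / R) * φ := mul_le_mul_of_nonneg_left hfl (by linarith)
    have h4 : F2 * R1 / R * φ ≤ F2 * R1 * Φ / R := by
      have : F2 * R1 / R * φ ≤ F2 * R1 / R * Φ := mul_le_mul_of_nonneg_left hφ1 h2
      calc F2 * R1 / R * φ ≤ F2 * R1 / R * Φ := this
        _ = F2 * R1 * Φ / R := by ring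
    have h5 : (1 + F2 * R1 / R) * φ = φ + F2 * R1 / R * φ := by ring
    linarith
  have hX : (∫ x in Ann P.R, Real.exp (P.th v x) * yreg P.g (P.th v) 0 x * η x * vol P.g x) ≤
      L * errN η 0 R := by
    have h3 : L * Real.sqrt (∫ x in {x : E3 | 1 ≤ ‖x‖ ∧ ‖x‖ ≤ R}, (η x) ^ 2) ≤ L * errN η 0 R :=
      mul_le_mul_of_nonneg_left hN3 hL
    rw [eg, eR]
    linarith
  have he0 : (∫ x in Ann P.R, Real.exp (P.th v x) * eN P (P.kap v) v x * vol P.g x) ≤ s := by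
    rw [eg, eR]
    exact hes
  rw [eR1] at hst
  have hw4 : wil P.g P.k / 4 ≤ 4 * Real.pi := by
    rw [eg, ek]
    linarith
  have hfin := arith hc1 hCn hR1 hR1c hD0 hcq hCC hCCR hφ1 hΦ hw4 hτ11 hτ1τ hZ' (X := ∫ x in Ann P.R, Real.exp (P.th v x) *
    yreg P.g (P.th v) 0 x * η x * vol P.g x) (Et := 0) (by rw [add_zero]; exact hX) hL hN0 he0 hs0.le hs1 hsR rfl
    (by rw [add_zero]; exact hst)
  rw [eg, ek] at hfin
  exact hfin

end UMB.E
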