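import Pool.Agent.Lib.UMB.Core
import Pool.Agent.Lib.UMB.S1.Lim
import Pool.Agent.Lib.UMB.Lin.G5d

set_option autoImplicit false

/-!
# UMB.E: section 4 (energy), definitions

`θ` is the function whose levels are used, smooth in the open annulus `Ann R`; `y = yreg g θ 0 = |∇θ|`.
-/

open Filter Topology Set MeasureTheory
open scoped ContDiff

namespace UMB.E

open Pool.Agent.Lib.PenroseSph (E3 Tens pd trg)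
open UMB.Lin (Ann cAnn sig)

/-- `Mh(∇u, ∇u)`. -/
noncomputable def MhGG (g k : Tens) (u : E3 → ℝ) (x : E3) : ℝ := ∑ a, ∑ b, pd a u x * UMB.Mh g k u a b x * gradU g u b x

/-- `⟨dw, ∇u⟩`. -/
noncomputable def dwG (g : Tens) (w u : E3 → ℝ) (x : E3) : ℝ := ∑ a, pd a w x * gradU g u a x

/-- The energy density `exp θ |Mh|²/|∇θ| dV`. -/
noncomputable def enD (g k : Tens) (θ : E3 → ℝ) (x : E3) : ℝ :=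
  Real.exp (θ x) * (MhSq g k θ x / yreg g θ 0 x) * vol g x

/-- The energy `D`. -/
noncomputable def En (g k : Tens) (R : ℝ) (θ : E3 → ℝ) : ℝ := ∫ x in Ann R, enD g k θ x

/-- `∫_{|x| ≥ ρ} |x|⁻² |∇θ|² dV`. -/
noncomputable def X2 (g : Tens) (R ρ : ℝ) (θ : E3 → ℝ) : ℝ :=
  ∫ x in Ann R ∩ {x : E3 | ρ ≤ ‖x‖}, gsq g θ x / ‖x‖ ^ 2 * vol g x

/-- `∫_{|x| ≥ ρ} exp θ |x|⁻² |∇θ|³ dV`. -/
noncomputable def X3 (g : Tens) (R ρ : ℝ) (θ : E3 → ℝ) : ℝ :=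
  ∫ x in Ann R ∩ {x : E3 | ρ ≤ ‖x‖}, Real.exp (θ x) * yreg g θ 0 x ^ 3 / ‖x‖ ^ 2 * vol g x

/-- The metric is comparable with the flat metric on `{1 ≤ |x|}`. -/
structure Cmp (g : Tens) (Λ : ℝ) : Prop where
  pos : 0 < Λ
  low : ∀ x : E3, 1 ≤ ‖x‖ → ∀ u : Fin 3 → ℝ, ∑ i, u i ^ 2 ≤ Λ * ∑ i, ∑ j, (g x)⁻¹ i j * u i * u j
  inv : ∀ x : E3, 1 ≤ ‖x‖ → ∀ i j, |(g x)⁻¹ i j| ≤ Λ
  vol_ge : ∀ x : E3, 1 ≤ ‖x‖ → 1 ≤ Λ * vol g x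
  vol_le : ∀ x : E3, 1 ≤ ‖x‖ → vol g x ≤ Λ

/-- What section 4 needs about `θ`. -/
structure Th (g k : Tens) (Ce R : ℝ) (θ : E3 → ℝ) : Prop where
  four_le : 4 ≤ R
  smooth : ContDiffOn ℝ ∞ θ (Ann R)
  pos : ∀ x ∈ Ann R, 0 < θ x
  inner : ∀ ε : ℝ, 0 < ε → ∃ s : ℝ, 0 < s ∧ ∀ x : E3, 1 < ‖x‖ → ‖x‖ < 1 + s → θ x < ε
  up : ∀ x ∈ Ann R, Real.exp (θ x) ≤ Ce * ‖x‖
  outer : ∃ s : ℝ, 0 < s ∧ ∀ x : E3, R - s < ‖x‖ → ‖x‖ < R → yreg g θ 0 x ≤ 4 / R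
  bd : ∃ B : ℝ, ∀ x ∈ Ann R, (∀ i, |pd i θ x| ≤ B) ∧ ∀ i j, |pd i (pd j θ) x| ≤ B
  int : IntegrableOn (enD g k θ) (Ann R)
  crit : ∀ᵐ x : E3, x ∈ Ann R → gsq g θ x = 0 → MhSq g k θ x = 0

/-- What section 4 needs about `k`. -/
structure Kk (g k : Tens) (a : ℝ) : Prop where
  smooth : ∀ i j, ContDiffOn ℝ ∞ (fun x => k x i j) {x : E3 | a < ‖x‖}
  symm : ∀ x : E3, a < ‖x‖ → (k x).IsSymm
  two : ∀ x : E3, 1 ≤ ‖x‖ → TwoNonneg g k x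

end UMB.E
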