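import Pool.Agent.Lib.UMB.E.NDefs

set_option autoImplicit false

/-!
# UMB.E chunk N1: the fields of the concrete operator in the zones
-/

open Filter Topology Set MeasureTheory
open scoped ContDiff

namespace UMB.E

open Pool.Agent.Lib.PenroseSph (E3 Tens pd trg chr)
open UMB.Lin (Ann cAnn sig)

theorem n1_R1 {P : Par} (hP : P.Ok) : 0 < P.R1 := by
  have h1 := hP.r1_ge
  have h2 := hP.R1_ge
  linarith

/-- **N1a.** `smoothTransition t = 1` for `t ≥ 1` (`Real.smoothTransition.one_of_one_le`). -/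
theorem gh_eq {P : Par} (hP : P.Ok) {x : E3} (hx : ‖x‖ ≤ 3 * P.R1 / 2) : P.gh x = P.g x := by
  have hR := n1_R1 hP
  have h1 : ‖x‖ / P.R1 ≤ 3 / 2 := by
    rw [div_le_iff₀ hR]
    linarith
  have h2 : P.chi ‖x‖ = 1 := by
    unfold Par.chi
    exact Real.smoothTransition.one_of_one_le (by linarith)
  unfold Par.gh
  rw [h2]
  simp

theorem kh_eq {P : Par} (hP : P.Ok) {x : E3} (hx : ‖x‖ ≤ P.R1) : P.kh x = P.k x := by
  have hR := n1_R1 hP
  have h1 : ‖x‖ / P.R1 ≤ 1 := by
    rw [div_le_iff₀ hR]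
    linarith
  have h2 : P.chk ‖x‖ = 1 := by
    unfold Par.chk
    exact Real.smoothTransition.one_of_one_le (by linarith)
  unfold Par.kh
  rw [h2, one_smul]

/-- **N1b.** The functions `P.gh`, `P.g` agree near `x`. -/
theorem chr_gh {P : Par} (hP : P.Ok) {x : E3} (hx : ‖x‖ < 3 * P.R1 / 2) (m i j : Fin 3) :
    chr P.gh m i j x = chr P.g m i j x := by
  have hev : ∀ᶠ y in 𝓝 x, P.gh y = P.g y := by
    filter_upwards [(isOpen_lt continuous_norm continuous_const).mem_nhds hx] with y hy
    exact gh_eq hP (le_of_lt hy)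
  have hpd : ∀ l r s : Fin 3, pd l (fun y => P.gh y r s) x = pd l (fun y => P.g y r s) x := by
    intro l r s
    refine Pool.Agent.Lib.PenroseSph.pd_congr l ?_
    filter_upwards [hev] with y hy
    rw [hy]
  unfold chr
  rw [hev.self_of_nhds]
  simp only [hpd]

/-- **N1c.** Flat zone: `smoothTransition t = 0` for `t ≤ 0`; near `x` the metric is constant, so the Christoffel symbols
vanish. -/
theorem gh_flat {P : Par} (hP : P.Ok) {x : E3} (hx : 2 * P.R1 < ‖x‖) :
    P.gh x = 1 ∧ P.kh x = 0 ∧ ∀ m i j, chr P.gh m i j x = 0 := by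
  have hR := n1_R1 hP
  have hgh : ∀ y : E3, 2 * P.R1 < ‖y‖ → P.gh y = 1 := by
    intro y hy
    have h1 : 2 ≤ ‖y‖ / P.R1 := by
      rw [le_div_iff₀ hR]
      linarith
    have h2 : P.chi ‖y‖ = 0 := by
      unfold Par.chi
      exact Real.smoothTransition.zero_of_nonpos (by linarith)
    unfold Par.gh
    rw [h2]
    simp
  refine ⟨hgh x hx, ?_, fun m i j => ?_⟩
  · have h1 : 2 ≤ ‖x‖ / P.R1 := by
      rw [le_div_iff₀ hR]
      linarith
    have h2 : P.chk ‖x‖ = 0 := by
      unfold Par.chk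
      exact Real.smoothTransition.zero_of_nonpos (by linarith)
    unfold Par.kh
    rw [h2, zero_smul]
  · have hpd : ∀ l r s : Fin 3, pd l (fun y => P.gh y r s) x = 0 := by
      intro l r s
      have e : (fun y => P.gh y r s) =ᶠ[𝓝 x] fun _ => (1 : Matrix (Fin 3) (Fin 3) ℝ) r s := by
        filter_upwards [(isOpen_lt continuous_const continuous_norm).mem_nhds hx] with y hy
        rw [hgh y hy]
      rw [Pool.Agent.Lib.PenroseSph.pd_congr l e]
      unfold pd
      rw [fderiv_const_apply]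
      rfl
    unfold chr
    simp only [hpd]
    simp

/-- **N1d.** Inverse of the inverse (`Matrix.nonsing_inv_nonsing_inv`; `P.gh x` is positive definite as a convex combination
of positive definite matrices: `AF.pos` and `1`). -/
theorem opG_inv {P : Par} (hP : P.Ok) (hg : AF P.g P.a) {x : E3} (hx : 1 ≤ ‖x‖) :
    (P.gh x).PosDef ∧ (P.op.G x)⁻¹ = P.gh x := by
  have ha : P.a < ‖x‖ := hg.lt.trans_le hx
  have hgp : (P.g x).PosDef := by
    refine Matrix.PosDef.of_dotProduct_mulVec_pos ?_ ?_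
    · have := hg.symm x ha
      unfold Matrix.IsSymm at this
      rw [Matrix.IsHermitian, Matrix.conjTranspose_eq_transpose_of_trivial, this]
    · intro v hv
      have h1 := hg.pos x ha v hv
      have e : star v ⬝ᵥ (P.g x).mulVec v = quad P.g x v := by
        unfold quad
        simp only [dotProduct, Matrix.mulVec, Pi.star_apply, star_trivial, Finset.mul_sum]
        refine Finset.sum_congr rfl fun i _ => Finset.sum_congr rfl fun j _ => ?_
        ring
      rw [e]
      exact h1
  have hc0 : 0 ≤ P.chi ‖x‖ := Real.smoothTransition.nonneg _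
  have hc1 : P.chi ‖x‖ ≤ 1 := Real.smoothTransition.le_one _
  have hpd : (P.gh x).PosDef := by
    unfold Par.gh
    rcases hc0.eq_or_lt with h0 | h0
    · rw [← h0, zero_smul, sub_zero, one_smul, zero_add]
      exact Matrix.PosDef.one
    · exact (hgp.smul h0).add_posSemidef (Matrix.PosSemidef.one.smul (sub_nonneg.2 hc1))
  refine ⟨hpd, ?_⟩
  change ((P.gh x)⁻¹)⁻¹ = P.gh x
  exact Matrix.nonsing_inv_nonsing_inv _ hpd.det_pos.ne'.isUnit

end UMB.E
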