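import Pool.Agent.Lib.UMB.E.N1

set_option autoImplicit false

/-!
# UMB.E chunk N3a: critical points
-/

open Filter Topology Set MeasureTheory
open scoped ContDiff

namespace UMB.E

open Pool.Agent.Lib.PenroseSph (E3 Tens pd trg chr)
open UMB.Lin (Ann cAnn sig)

/-- **N3a.** Where `∇θ = 0`: `D1 θ = 0`, so `D1 v = 0` (`W.D1_theta`), `D2 θ = -φ D2 v`, and the equation gives
`tr2 aa (D2 v) = 0`, hence `tr2 aa Mop = 0`. (`q1 G u = 0` implies `u = 0`.) -/
theorem aMop_zero {P : Par} (hP : P.Ok) (hop : P.op.Ok) (hg : AF P.g P.a) {v : E3 → ℝ} (hv : W.Sol P.op v) {κ : ℝ}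
    (hκ : 0 < κ) {x : E3} (hx : x ∈ Ann P.R) (h0 : q1 (P.op.G x) (D1 (W.theta P.p κ v) x) = 0) :
    tr2 (P.op.aa v x) (Mop P κ v x) = 0 := by
  have hexp : W.Expo P.op.p0 P.p := ⟨hop.one_lt_p0, hop.p_smooth, hop.p_ge, hop.p_le⟩
  have hU : IsOpen (Ann P.R) := by
    have h1 : Ann P.R = {x : E3 | 1 < ‖x‖} ∩ {x : E3 | ‖x‖ < P.R} := by
      ext y
      rfl
    rw [h1]
    exact (isOpen_lt continuous_const continuous_norm).inter (isOpen_lt continuous_norm continuous_const)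
  have hsm : ContDiffOn ℝ ∞ v (Ann P.R) := hv.smooth
  have hnn : ∀ y ∈ Ann P.R, 0 ≤ v y := fun y hy => hv.nonneg y ⟨hy.1.le, hy.2.le⟩
  have hax : P.op.a < ‖x‖ := hop.a_lt.trans hx.1
  have hD0 : D1 (W.theta P.p κ v) x = 0 := by
    by_contra hne
    exact (hop.G_pos x hax _ hne).ne' h0
  have hφ : 0 < W.KK P.p (v x) + κ := W.e1_pos hexp hκ (hnn x hx)
  have hDv : ∀ i, D1 v x i = 0 := by
    intro i
    have h1 := W.D1_theta hexp hκ hU hsm hnn hx i
    rw [hD0] at h1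
    have h2 : (W.KK P.p (v x) + κ)⁻¹ ≠ 0 := (inv_pos.2 hφ).ne'
    have h3 : (0 : ℝ) = - (W.KK P.p (v x) + κ)⁻¹ * D1 v x i := h1
    have h4 := mul_eq_zero.1 h3.symm
    rcases h4 with h4 | h4
    · exact absurd (neg_eq_zero.1 h4) h2
    · exact h4
  have hM : ∀ i j, Mop P κ v x i j = - (W.KK P.p (v x) + κ)⁻¹ * D2 v x i j := by
    intro i j
    have h1 := W.D2_theta hexp hκ hU hsm hnn hx i j
    unfold Mop W.Mh
    rw [hD0, h1, hDv i]
    have h2 : q1 (P.op.G x) 0 = 0 := by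
      simp [q1]
    rw [h2]
    simp
  have heq : tr2 (P.op.aa v x) (D2 v x) = 0 := by
    have h1 := hv.solves x hx
    have h2 : ∑ i, P.op.bb v x i * D1 v x i = 0 := by
      simp [hDv]
    rw [h2, add_zero] at h1
    exact h1
  have h5 : tr2 (P.op.aa v x) (Mop P κ v x) =
      - (W.KK P.p (v x) + κ)⁻¹ * tr2 (P.op.aa v x) (D2 v x) := by
    unfold tr2
    rw [Finset.mul_sum]
    refine Finset.sum_congr rfl fun i _ => ?_
    rw [Finset.mul_sum]
    refine Finset.sum_congr rfl fun j _ => ?_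
    rw [hM i j]
    ring
  rw [h5, heq, mul_zero]

end UMB.E
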