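import Pool.Agent.Lib.UMB.E.N3a
import Pool.Agent.Lib.UMB.E.N2

set_option autoImplicit false

/-!
# UMB.E chunk N3b: the Cordes inequality in the near zone
-/

open Filter Topology Set MeasureTheory
open scoped ContDiff

namespace UMB.E

open Pool.Agent.Lib.PenroseSph (E3 Tens pd trg chr)
open UMB.Lin (Ann cAnn sig)

/-- **N3b.** `W.cord_aa` (`D.p0 - 1 = q`) for `M = Mop`, which is symmetric: `tr2 G M ² ≤ (1 - q/2) nsq G M + (7/q) (tr2 aa M)²`.
For `|x| < R1` the operator has `G = g⁻¹`, `k = k`, `Gam = chr g` (N1), so `nsq G M = MhSq`, `tr2 G M = MhTr` (N2 on the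
open set `Ann R ∩ {a < |x|}`, which is `Ann R`), and `eN * y = (7/q) (tr2 aa M)²` (N3a if `y = 0`). -/
theorem cor_near {P : Par} (hP : P.Ok) (hop : P.op.Ok) (hg : AF P.g P.a) (hk : Kk P.g P.k P.a) {v : E3 → ℝ}
    (hv : W.Sol P.op v) {κ : ℝ} (hκ : 0 < κ) {x : E3} (hx : x ∈ Ann P.R) (hx1 : ‖x‖ < P.R1) :
    P.q / 2 * MhSq P.g P.k (W.theta P.p κ v) x - eN P κ v x * yreg P.g (W.theta P.p κ v) 0 x
      ≤ MhSq P.g P.k (W.theta P.p κ v) x - MhTr P.g P.k (W.theta P.p κ v) x ^ 2 := by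
  have hexp : W.Expo P.op.p0 P.p := ⟨hop.one_lt_p0, hop.p_smooth, hop.p_ge, hop.p_le⟩
  have hU : IsOpen (Ann P.R) := p8_open P.R
  have hsm : ContDiffOn ℝ ∞ v (Ann P.R) := hv.smooth
  have hnn : ∀ y ∈ Ann P.R, 0 ≤ v y := fun y hy => hv.nonneg y ⟨hy.1.le, hy.2.le⟩
  have hax : P.op.a < ‖x‖ := hop.a_lt.trans hx.1
  have hsub : ∀ y ∈ Ann P.R, P.a < ‖y‖ := fun y hy => hg.lt.trans hy.1
  have hR1 : 0 < P.R1 := by
    have h1 := hP.r1_ge
    have h2 := hP.R1_ge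
    linarith
  have hmet : MetOn P.g (Ann P.R) := by
    refine ⟨hU, fun i j => (hg.smooth i j).mono fun y hy => hsub y hy, fun y hy => hg.symm y (hsub y hy), ?_⟩
    intro y hy w hw
    exact hg.pos y (hsub y hy) w hw
  have hks : ∀ y ∈ Ann P.R, (P.k y).IsSymm := fun y hy => hk.symm y (hsub y hy)
  have hθ : ContDiffOn ℝ ∞ (W.theta P.p κ v) (Ann P.R) := W.theta_smooth hexp hκ hU hsm hnn
  have hgh : P.gh x = P.g x := gh_eq hP (by linarith)
  have hG : P.op.G x = (P.g x)⁻¹ := by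
    change (P.gh x)⁻¹ = (P.g x)⁻¹
    rw [hgh]
  have hGi : (P.op.G x)⁻¹ = P.g x := by
    rw [(opG_inv hP hg hx.1.le).2, hgh]
  have hk' : P.op.k x = P.k x := kh_eq hP hx1.le
  have hGam : (fun m => P.op.Gam m x) = fun m => Matrix.of fun i j => chr P.g m i j x := by
    funext m
    ext i j
    exact chr_gh hP (by linarith) m i j
  obtain ⟨h1, h2, h3, h4⟩ := mh_bridge hmet hks hθ hx
  have hMop : Mop P κ v x = W.Mh (P.g x)⁻¹ (P.g x) (P.k x)
      (fun m => Matrix.of fun i j => chr P.g m i j x) (D1 (W.theta P.p κ v) x) (D2 (W.theta P.p κ v) x) := by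
    unfold Mop
    rw [hG, ← hG, hGi, hk', hGam, hG]
  rw [← hMop] at h1 h2 h4
  have hC := W.cord_aa hop v hax (Mop P κ v x) h4
  rw [hG, h1, h2] at hC
  have hp0 : P.op.p0 - 1 = P.q := by
    change 1 + P.q - 1 = P.q
    ring
  rw [hp0] at hC
  have hE : eN P κ v x * yreg P.g (W.theta P.p κ v) 0 x =
      7 / P.q * tr2 (P.op.aa v x) (Mop P κ v x) ^ 2 := by
    have hq0 : 0 ≤ q1 (P.op.G x) (D1 (W.theta P.p κ v) x) := W.a3_q1_nonneg (hop.G_pos x hax) _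
    have hy : yreg P.g (W.theta P.p κ v) 0 x = Real.sqrt (q1 (P.op.G x) (D1 (W.theta P.p κ v) x)) := by
      unfold yreg
      rw [add_zero, hG, h3]
    unfold eN
    rw [hy]
    by_cases hz : q1 (P.op.G x) (D1 (W.theta P.p κ v) x) = 0
    · have h5 := aMop_zero hP hop hg hv hκ hx hz
      rw [h5]
      simp
    · have h6 : Real.sqrt (q1 (P.op.G x) (D1 (W.theta P.p κ v) x)) ≠ 0 :=
        (Real.sqrt_pos.2 (lt_of_le_of_ne hq0 (Ne.symm hz))).ne'
      rw [mul_assoc, div_mul_cancel₀ _ h6]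
  rw [hE]
  linarith

end UMB.E
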