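import Pool.Agent.Lib.UMB.E.N1
import Pool.Agent.Lib.UMB.BR.Top

set_option autoImplicit false

/-!
# UMB.E chunk N5: decay of the fields
-/

open Filter Topology Set MeasureTheory
open scoped ContDiff

namespace UMB.E

open Pool.Agent.Lib.PenroseSph (E3 Tens pd trg chr pd_radial)
open UMB.Lin (Ann cAnn sig)

/-- The entries of the inverse of a matrix with a lower bound of the quadratic form. -/
theorem n5_inv {B : Matrix (Fin 3) (Fin 3) ℝ} {M : ℝ} (hM : 0 ≤ M) (hdet : IsUnit B.det)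
    (h : ∀ v : Fin 3 → ℝ, ∑ i, v i ^ 2 ≤ M * ∑ i, ∑ j, B i j * v i * v j) (i j : Fin 3) : |B⁻¹ i j| ≤ M := by
  obtain ⟨w, hw⟩ : ∃ w : Fin 3 → ℝ, w = fun a => B⁻¹ a j := ⟨_, rfl⟩
  have h1 : ∀ a, ∑ b, B a b * w b = if a = j then 1 else 0 := by
    intro a
    have h2 : B * B⁻¹ = 1 := Matrix.mul_nonsing_inv _ hdet
    have h3 := congrFun (congrFun h2 a) j
    rw [Matrix.mul_apply, Matrix.one_apply] at h3
    rw [hw]
    exact h3
  have h2 : ∑ a, ∑ b, B a b * w a * w b = w j := by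
    have : ∀ a, ∑ b, B a b * w a * w b = w a * (if a = j then 1 else 0) := by
      intro a
      rw [← h1 a, Finset.mul_sum]
      exact Finset.sum_congr rfl fun b _ => by ring
    simp only [this]
    simp
  have h3 := h w
  rw [h2] at h3
  have h4 : ∀ a, w a ^ 2 ≤ ∑ a, w a ^ 2 := fun a =>
    Finset.single_le_sum (f := fun a => w a ^ 2) (fun _ _ => sq_nonneg _) (Finset.mem_univ a)
  have h5 : |w j| ≤ M := by
    rcases eq_or_ne (w j) 0 with h0 | h0
    · rw [h0, abs_zero]; exact hM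
    · have h6 : |w j| * |w j| ≤ M * |w j| := by
        have e1 := h4 j
        have e2 : w j ^ 2 = |w j| * |w j| := by rw [← sq_abs, sq]
        have e3 : M * w j ≤ M * |w j| := mul_le_mul_of_nonneg_left (le_abs_self _) hM
        linarith
      exact le_of_mul_le_mul_right h6 (abs_pos.2 h0)
  have h7 : w i ^ 2 ≤ M ^ 2 := by
    have e3 : M * w j ≤ M * |w j| := mul_le_mul_of_nonneg_left (le_abs_self _) hM
    have e4 : M * |w j| ≤ M * M := mul_le_mul_of_nonneg_left h5 hM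
    have := h4 i
    nlinarith
  have h8 : |w i| ≤ M := abs_le_of_sq_le_sq h7 hM
  rw [hw] at h8
  exact h8

/-- The difference of two inverses. -/
theorem n5_diff {A B : Matrix (Fin 3) (Fin 3) ℝ} {M s : ℝ} (hM : 0 ≤ M) (hA : IsUnit A.det) (hB : IsUnit B.det)
    (hAi : ∀ i j, |A⁻¹ i j| ≤ M) (hBi : ∀ i j, |B⁻¹ i j| ≤ M) (hs : ∀ i j, |B i j - A i j| ≤ s) (i j : Fin 3) :
    |A⁻¹ i j - B⁻¹ i j| ≤ 9 * M ^ 2 * s := by
  have hs0 : 0 ≤ s := (abs_nonneg _).trans (hs 0 0)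
  have h1 : A⁻¹ - B⁻¹ = A⁻¹ * (B - A) * B⁻¹ := by
    rw [Matrix.mul_sub, Matrix.sub_mul, Matrix.mul_assoc, Matrix.mul_nonsing_inv _ hB, Matrix.nonsing_inv_mul _ hA,
      Matrix.mul_one, Matrix.one_mul]
  have h2 : A⁻¹ i j - B⁻¹ i j = ∑ b, (∑ a, A⁻¹ i a * (B a b - A a b)) * B⁻¹ b j := by
    have := congrFun (congrFun h1 i) j
    rw [Matrix.sub_apply, Matrix.mul_apply] at this
    rw [this]
    exact Finset.sum_congr rfl fun b _ => by rw [Matrix.mul_apply]; rfl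
  rw [h2]
  have h3 : ∀ b, |(∑ a, A⁻¹ i a * (B a b - A a b)) * B⁻¹ b j| ≤ 3 * M * s * M := by
    intro b
    rw [abs_mul]
    have h4 : |∑ a, A⁻¹ i a * (B a b - A a b)| ≤ 3 * M * s := by
      refine (Finset.abs_sum_le_sum_abs _ _).trans ?_
      have h5 : ∀ a ∈ (Finset.univ : Finset (Fin 3)), |A⁻¹ i a * (B a b - A a b)| ≤ M * s := by
        intro a _
        rw [abs_mul]
        exact mul_le_mul (hAi i a) (hs a b) (abs_nonneg _) hM
      refine (Finset.sum_le_card_nsmul _ _ _ h5).trans ?_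
      simp only [Finset.card_univ, Fintype.card_fin, nsmul_eq_mul]
      push_cast
      linarith
    exact mul_le_mul h4 (hBi b j) (abs_nonneg _) (by positivity)
  refine (Finset.abs_sum_le_sum_abs _ _).trans ?_
  refine (Finset.sum_le_card_nsmul _ _ _ fun b _ => h3 b).trans ?_
  simp only [Finset.card_univ, Fintype.card_fin, nsmul_eq_mul]
  push_cast
  linarith

/-- The Christoffel symbols are bounded by the inverse and the derivatives. -/
theorem n5_chr {g : Tens} {x : E3} {M s : ℝ} (hM : 0 ≤ M) (hi : ∀ i j, |(g x)⁻¹ i j| ≤ M)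
    (hd : ∀ i j k, |pd k (fun y => g y i j) x| ≤ s) (m i j : Fin 3) : |chr g m i j x| ≤ 9 / 2 * M * s := by
  unfold chr
  rw [abs_mul, abs_of_pos (by norm_num : (0:ℝ) < 1 / 2)]
  have h3 : ∀ l ∈ (Finset.univ : Finset (Fin 3)), |(g x)⁻¹ m l *
      (pd i (fun y => g y j l) x + pd j (fun y => g y i l) x - pd l (fun y => g y i j) x)| ≤ M * (3 * s) := by
    intro l _
    rw [abs_mul]
    refine mul_le_mul (hi m l) ?_ (abs_nonneg _) hM
    have a1 := hd j l i
    have a2 := hd i l j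
    have a3 := hd i j l
    calc |pd i (fun y => g y j l) x + pd j (fun y => g y i l) x - pd l (fun y => g y i j) x|
        ≤ |pd i (fun y => g y j l) x + pd j (fun y => g y i l) x| + |pd l (fun y => g y i j) x| := abs_sub _ _
      _ ≤ |pd i (fun y => g y j l) x| + |pd j (fun y => g y i l) x| + |pd l (fun y => g y i j) x| := by
          gcongr
          exact abs_add_le _ _
      _ ≤ 3 * s := by linarith
  have h4 := (Finset.abs_sum_le_sum_abs (fun l => (g x)⁻¹ m l *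
      (pd i (fun y => g y j l) x + pd j (fun y => g y i l) x - pd l (fun y => g y i j) x)) Finset.univ).trans
    (Finset.sum_le_card_nsmul _ _ _ h3)
  simp only [Finset.card_univ, Fintype.card_fin, nsmul_eq_mul] at h4
  push_cast at h4
  linarith

/-- The derivative of the smooth transition is bounded. -/
theorem n5_trans : ∃ S : ℝ, 0 ≤ S ∧ ∀ t : ℝ, |deriv Real.smoothTransition t| ≤ S := by
  have hc : Continuous (deriv Real.smoothTransition) := Real.smoothTransition.contDiff.continuous_deriv (n := ∞) (by simp)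
  obtain ⟨S, hS⟩ := (isCompact_Icc (a := (0:ℝ)) (b := 1)).exists_bound_of_continuousOn hc.continuousOn
  refine ⟨max S 0, le_max_right _ _, fun t => ?_⟩
  rcases lt_or_ge t 0 with h | h
  · have h1 : Real.smoothTransition =ᶠ[𝓝 t] fun _ => 0 := by
      filter_upwards [gt_mem_nhds h] with s hs
      exact Real.smoothTransition.zero_of_nonpos hs.le
    rw [h1.deriv_eq, deriv_const, abs_zero]
    exact le_max_right _ _
  · rcases lt_or_ge 1 t with h' | h'
    · have h1 : Real.smoothTransition =ᶠ[𝓝 t] fun _ => 1 := by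
        filter_upwards [lt_mem_nhds h'] with s hs
        exact Real.smoothTransition.one_of_one_le hs.le
      rw [h1.deriv_eq, deriv_const, abs_zero]
      exact le_max_right _ _
    · exact (hS t ⟨h, h'⟩).trans (le_max_left _ _)

/-- The derivative of the cut-off. -/
theorem n5_chi {S : ℝ} (hS0 : 0 ≤ S) (hS : ∀ t : ℝ, |deriv Real.smoothTransition t| ≤ S) {P : Par} (hP : P.Ok) {r : ℝ} (hr : 1 ≤ r) :
    DifferentiableAt ℝ P.chi r ∧ |deriv P.chi r| ≤ 4 * S / r := by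
  have hR1 := hP.R1_pos
  have h1 : HasDerivAt (fun r : ℝ => 4 - 2 * (r / P.R1)) (-(2 / P.R1)) r := by
    have := (((hasDerivAt_id r).div_const P.R1).const_mul 2).const_sub 4
    refine this.congr_deriv ?_
    ring
  have h2 : HasDerivAt Real.smoothTransition (deriv Real.smoothTransition (4 - 2 * (r / P.R1))) (4 - 2 * (r / P.R1)) :=
    (Real.smoothTransition.contDiff.differentiable (n := ∞) (by simp) _).hasDerivAt
  have h3 : HasDerivAt P.chi (deriv Real.smoothTransition (4 - 2 * (r / P.R1)) * (-(2 / P.R1))) r := h2.comp r h1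
  refine ⟨h3.differentiableAt, ?_⟩
  rcases lt_or_ge (2 * P.R1) r with h4 | h4
  · have h5 : P.chi =ᶠ[𝓝 r] fun _ => 0 := by
      filter_upwards [lt_mem_nhds h4] with s hs
      exact UMB.BR.chi_zero hP hs.le
    rw [h5.deriv_eq, deriv_const, abs_zero]
    positivity
  · rw [h3.deriv, abs_mul, abs_neg, abs_of_pos (by positivity : 0 < 2 / P.R1)]
    have h5 : 2 / P.R1 ≤ 4 / r := by
      rw [div_le_div_iff₀ hR1 (by linarith)]
      linarith
    calc |deriv Real.smoothTransition (4 - 2 * (r / P.R1))| * (2 / P.R1) ≤ S * (4 / r) :=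
          mul_le_mul (hS _) h5 (by positivity) hS0
      _ = 4 * S / r := by ring

/-- **N5.** `gh - δ = χ (g - δ)`, so `|gh - δ| ≤ C/|x|`, `|∂ gh| ≤ |∂χ| |g - δ| + |∂g| ≤ C/|x|²` (`|χ'| ≤ C/R1` on
`3R1/2 ≤ |x| ≤ 2R1`, zero elsewhere). The inverse is a smooth function of the matrix near `1` (for `|x| ≥ r`), compactness for
`1 ≤ |x| ≤ r` (there `R1 ≥ 4`, the metrics `χ g + (1-χ) δ` with `χ ∈ [0,1]`: compact family, positive definite).
`chr = (1/2) ∑ inv * (∂ + ∂ - ∂)`. -/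
theorem gh_bd {g : Tens} {a : ℝ} (hg : AF g a) : ∃ C : ℝ, 0 < C ∧ ∀ P : Par, P.g = g → P.a = a → P.Ok →
    ∀ x : E3, 1 ≤ ‖x‖ → (∀ i j, |(g x)⁻¹ i j - (P.gh x)⁻¹ i j| ≤ C / ‖x‖ ∧ |(g x)⁻¹ i j| ≤ C ∧ |(P.gh x)⁻¹ i j| ≤ C ∧
        |g x i j| ≤ C) ∧
      (∀ m i j, |chr g m i j x| ≤ C / ‖x‖ ^ 2 ∧ |chr P.gh m i j x| ≤ C / ‖x‖ ^ 2) ∧
      (∀ u : Fin 3 → ℝ, ∑ i, u i ^ 2 ≤ C * q1 (P.gh x)⁻¹ u) := by
  obtain ⟨C0, hC0⟩ := hg.decay
  obtain ⟨Λ, hΛ⟩ := exists_cmp hg
  obtain ⟨S, hS0, hS⟩ := n5_trans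
  obtain ⟨c, hcd⟩ : ∃ c : ℝ, c = |C0| := ⟨_, rfl⟩
  obtain ⟨M, hMd⟩ : ∃ M : ℝ, M = 1 + 3 * Λ := ⟨_, rfl⟩
  have hΛp := hΛ.pos
  have hc : 0 ≤ c := by rw [hcd]; exact abs_nonneg _
  have hM : 1 ≤ M := by rw [hMd]; linarith
  have hdec : ∀ x : E3, 1 ≤ ‖x‖ → ∀ i j k,
      |g x i j - (1 : Matrix (Fin 3) (Fin 3) ℝ) i j| ≤ c / ‖x‖ ∧ |pd k (fun y => g y i j) x| ≤ c / ‖x‖ ^ 2 := by
    intro x hx i j k
    have h1 := hC0 x hx i j k
    have h2 : C0 ≤ c := by rw [hcd]; exact le_abs_self _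
    exact ⟨h1.1.trans (div_le_div_of_nonneg_right h2 (by linarith)),
      h1.2.trans (div_le_div_of_nonneg_right h2 (by positivity))⟩
  have hK : ∀ x : E3, 1 ≤ ‖x‖ → ∀ i j, |g x i j| ≤ 1 + c := by
    intro x hx i j
    have h1 := (hdec x hx i j 0).1
    have h2 : c / ‖x‖ ≤ c := div_le_self hc hx
    have h3 : |(1 : Matrix (Fin 3) (Fin 3) ℝ) i j| ≤ 1 := by
      rw [Matrix.one_apply]
      split_ifs <;> simp
    have h4 : g x i j = (g x i j - (1 : Matrix (Fin 3) (Fin 3) ℝ) i j) + (1 : Matrix (Fin 3) (Fin 3) ℝ) i j := by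
      ring
    rw [h4]
    refine (abs_add_le _ _).trans ?_
    linarith
  -- lower bound of the quadratic form of `g`
  have hlow : ∀ x : E3, 1 ≤ ‖x‖ → ∀ v : Fin 3 → ℝ, ∑ i, v i ^ 2 ≤ M * ∑ i, ∑ j, g x i j * v i * v j := by
    intro x hx v
    have hmet := AF.met hg
    have hxm : x ∈ {x : E3 | a < ‖x‖} := lt_of_lt_of_le hg.lt hx
    have hpd := (hmet.posDef hxm)
    have h1 := p5_low hpd.inv v
    have h2 : ((g x)⁻¹)⁻¹ = g x := Matrix.nonsing_inv_nonsing_inv _ (hmet.det_pos hxm).ne'.isUnit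
    rw [h2] at h1
    have h3 : ∑ i, (g x)⁻¹ i i ≤ M := by
      rw [Fin.sum_univ_three, hMd]
      have a0 := (abs_le.1 (hΛ.inv x hx 0 0)).2
      have a1 := (abs_le.1 (hΛ.inv x hx 1 1)).2
      have a2 := (abs_le.1 (hΛ.inv x hx 2 2)).2
      linarith
    have h4 : 0 ≤ ∑ i, ∑ j, g x i j * v i * v j := by
      by_cases hv : v = 0
      · simp [hv]
      · exact (hg.pos x hxm v hv).le
    exact h1.trans (mul_le_mul_of_nonneg_right h3 h4)
  obtain ⟨D, hDd⟩ : ∃ D : ℝ, D = (4 * S + 1) * c := ⟨_, rfl⟩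
  have hD0 : 0 ≤ D := by rw [hDd]; positivity
  have hcD : c ≤ D := by rw [hDd]; nlinarith [mul_nonneg hS0 hc]
  obtain ⟨C, hCd⟩ : ∃ C : ℝ, C = M + 9 * M ^ 2 * c + 3 * (1 + c) + 9 / 2 * M * D := ⟨_, rfl⟩
  have t1 : 0 ≤ 9 * M ^ 2 * c := by positivity
  have t2 : 0 ≤ 9 / 2 * M * D := by positivity
  refine ⟨C, by rw [hCd]; linarith, ?_⟩
  intro P hPg hPa hP x hx
  have hx0 : 0 < ‖x‖ := by linarith
  have hxne : x ≠ 0 := norm_pos_iff.1 hx0
  have hgh : ∀ y : E3, ∀ i j, P.gh y i j = P.chi ‖y‖ * g y i j + (1 - P.chi ‖y‖) * (1 : Matrix (Fin 3) (Fin 3) ℝ) i j := by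
    intro y i j
    unfold Par.gh
    rw [hPg]
    rfl
  have hχ0 : 0 ≤ P.chi ‖x‖ := Real.smoothTransition.nonneg _
  have hχ1 : P.chi ‖x‖ ≤ 1 := Real.smoothTransition.le_one _
  have hmet := AF.met hg
  have hxm : x ∈ {x : E3 | a < ‖x‖} := lt_of_lt_of_le hg.lt hx
  have hmh : MetOn P.gh {x : E3 | max P.a 0 < ‖x‖} := UMB.BR.met (by rw [hPg, hPa]; exact hg) hP
  have hxh : x ∈ {x : E3 | max P.a 0 < ‖x‖} := by
    show max P.a 0 < ‖x‖
    rw [hPa]
    exact max_lt hxm hx0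
  have hqh : ∀ v : Fin 3 → ℝ, ∑ i, ∑ j, P.gh x i j * v i * v j =
      P.chi ‖x‖ * (∑ i, ∑ j, g x i j * v i * v j) + (1 - P.chi ‖x‖) * ∑ i, v i ^ 2 := by
    intro v
    simp only [hgh, Fin.sum_univ_three, Matrix.one_apply]
    simp
    ring
  have hlowh : ∀ v : Fin 3 → ℝ, ∑ i, v i ^ 2 ≤ M * ∑ i, ∑ j, P.gh x i j * v i * v j := by
    intro v
    rw [hqh v]
    have h1 := hlow x hx v
    have h2 : 0 ≤ ∑ i, v i ^ 2 := Finset.sum_nonneg fun _ _ => sq_nonneg _
    have h3 := mul_le_mul_of_nonneg_left h1 hχ0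
    have h4 : (1 - P.chi ‖x‖) * ∑ i, v i ^ 2 ≤ (1 - P.chi ‖x‖) * (M * ∑ i, v i ^ 2) :=
      mul_le_mul_of_nonneg_left (le_mul_of_one_le_left h2 hM) (sub_nonneg.2 hχ1)
    nlinarith
  have hgi : ∀ i j, |(g x)⁻¹ i j| ≤ M := fun i j =>
    n5_inv (by linarith) (hmet.det_pos hxm).ne'.isUnit (hlow x hx) i j
  have hghi : ∀ i j, |(P.gh x)⁻¹ i j| ≤ M := fun i j =>
    n5_inv (by linarith) (hmh.det_pos hxh).ne'.isUnit hlowh i j
  refine ⟨fun i j => ⟨?_, ?_, ?_, ?_⟩, fun m i j => ⟨?_, ?_⟩, fun u => ?_⟩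
  · have h1 : ∀ i j, |P.gh x i j - g x i j| ≤ c / ‖x‖ := by
      intro i j
      have h2 : P.gh x i j - g x i j = (1 - P.chi ‖x‖) * -(g x i j - (1 : Matrix (Fin 3) (Fin 3) ℝ) i j) := by
        rw [hgh x i j]
        ring
      rw [h2, abs_mul, abs_neg, abs_of_nonneg (sub_nonneg.2 hχ1)]
      have h3 := (hdec x hx i j 0).1
      calc (1 - P.chi ‖x‖) * |g x i j - (1 : Matrix (Fin 3) (Fin 3) ℝ) i j| ≤ 1 * (c / ‖x‖) :=
            mul_le_mul (by linarith) h3 (abs_nonneg _) zero_le_one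
        _ = c / ‖x‖ := one_mul _
    have h2 := n5_diff (by linarith) (hmet.det_pos hxm).ne'.isUnit (hmh.det_pos hxh).ne'.isUnit hgi hghi h1 i j
    refine h2.trans ?_
    rw [← mul_div_assoc]
    apply div_le_div_of_nonneg_right _ hx0.le
    rw [hCd]
    linarith
  · exact (hgi i j).trans (by rw [hCd]; linarith)
  · exact (hghi i j).trans (by rw [hCd]; linarith)
  · exact (hK x hx i j).trans (by rw [hCd]; linarith)
  · have h1 : ∀ i j k, |pd k (fun y => g y i j) x| ≤ D / ‖x‖ ^ 2 := fun i j k =>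
      (hdec x hx i j k).2.trans (div_le_div_of_nonneg_right hcD (by positivity))
    refine (n5_chr (by linarith) hgi h1 m i j).trans ?_
    rw [← mul_div_assoc]
    apply div_le_div_of_nonneg_right _ (by positivity)
    rw [hCd]
    linarith
  · have h1 : ∀ i j k, |pd k (fun y => P.gh y i j) x| ≤ D / ‖x‖ ^ 2 := by
      intro i j k
      obtain ⟨hcd1, hcd2⟩ := n5_chi hS0 hS hP hx
      have hgd : DifferentiableAt ℝ (fun y => g y i j) x :=
        ((hmet.smooth i j).contDiffAt (hmet.isOpen.mem_nhds hxm)).differentiableAt (by simp)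
      have hχd : DifferentiableAt ℝ (fun y : E3 => P.chi ‖y‖) x :=
        hcd1.comp x ((contDiffAt_norm ℝ hxne).differentiableAt (by simp : (1 : WithTop ℕ∞) ≠ 0))
      have e1 : (fun y => P.gh y i j) = fun y : E3 => P.chi ‖y‖ * (g y i j - (1 : Matrix (Fin 3) (Fin 3) ℝ) i j)
          + (1 : Matrix (Fin 3) (Fin 3) ℝ) i j := by
        funext y
        rw [hgh y i j]
        ring
      have e2 : pd k (fun y => P.gh y i j) x = P.chi ‖x‖ * pd k (fun y => g y i j) x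
          + (g x i j - (1 : Matrix (Fin 3) (Fin 3) ℝ) i j) * pd k (fun y : E3 => P.chi ‖y‖) x := by
        have f1 : HasFDerivAt (fun y : E3 => P.chi ‖y‖ * (g y i j - (1 : Matrix (Fin 3) (Fin 3) ℝ) i j)
            + (1 : Matrix (Fin 3) (Fin 3) ℝ) i j)
            (P.chi ‖x‖ • fderiv ℝ (fun y => g y i j) x +
              (g x i j - (1 : Matrix (Fin 3) (Fin 3) ℝ) i j) • fderiv ℝ (fun y : E3 => P.chi ‖y‖) x) x :=
          (hχd.hasFDerivAt.mul (hgd.hasFDerivAt.sub_const _)).add_const _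
        unfold pd
        rw [e1, f1.fderiv]
        rfl
      rw [e2, pd_radial hxne hcd1 k]
      have a1 := (hdec x hx i j k).2
      have a2 := (hdec x hx i j k).1
      have a3 : |x k / ‖x‖| ≤ 1 := by
        rw [abs_div, abs_of_pos hx0, div_le_one hx0]
        have := PiLp.norm_apply_le x k
        simpa using this
      calc |P.chi ‖x‖ * pd k (fun y => g y i j) x + (g x i j - (1 : Matrix (Fin 3) (Fin 3) ℝ) i j) *
            (deriv P.chi ‖x‖ * (x k / ‖x‖))|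
          ≤ |P.chi ‖x‖ * pd k (fun y => g y i j) x| + |(g x i j - (1 : Matrix (Fin 3) (Fin 3) ℝ) i j) *
            (deriv P.chi ‖x‖ * (x k / ‖x‖))| := abs_add_le _ _
        _ = P.chi ‖x‖ * |pd k (fun y => g y i j) x| + |g x i j - (1 : Matrix (Fin 3) (Fin 3) ℝ) i j| *
            (|deriv P.chi ‖x‖| * |x k / ‖x‖|) := by
            rw [abs_mul, abs_mul, abs_mul, abs_of_nonneg hχ0]
        _ ≤ 1 * (c / ‖x‖ ^ 2) + c / ‖x‖ * (4 * S / ‖x‖ * 1) := by
            gcongr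
        _ = D / ‖x‖ ^ 2 := by
            rw [hDd]
            field_simp
            ring
    refine (n5_chr (by linarith) hghi h1 m i j).trans ?_
    rw [← mul_div_assoc]
    apply div_le_div_of_nonneg_right _ (by positivity)
    rw [hCd]
    linarith
  · have hpd := hmh.posDef hxh
    have h1 := p5_low hpd u
    have h2 : ∑ i, P.gh x i i ≤ 3 * (1 + c) := by
      have h3 : ∀ i, P.gh x i i ≤ 1 + c := by
        intro i
        rw [hgh x i i, Matrix.one_apply_eq]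
        have h4 := (abs_le.1 (hK x hx i i)).2
        nlinarith
      rw [Fin.sum_univ_three]
      linarith [h3 0, h3 1, h3 2]
    have h3 : q1 (P.gh x)⁻¹ u = ∑ i, ∑ j, (P.gh x)⁻¹ i j * u i * u j := rfl
    have h4 : 0 ≤ q1 (P.gh x)⁻¹ u := by
      have h5 := hpd.inv.posSemidef.dotProduct_mulVec_nonneg u
      have h6 : star u ⬝ᵥ ((P.gh x)⁻¹).mulVec u = ∑ i, ∑ j, (P.gh x)⁻¹ i j * u i * u j := by
        simp only [dotProduct, Matrix.mulVec, Pi.star_apply, star_trivial, Finset.mul_sum]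
        exact Finset.sum_congr rfl fun i _ => Finset.sum_congr rfl fun j _ => by ring
      rw [h6] at h5
      exact h5
    rw [← h3] at h1
    refine h1.trans (mul_le_mul_of_nonneg_right ?_ h4)
    rw [hCd]
    linarith

end UMB.E
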