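import Pool.Agent.Lib.UMB.E.N5

set_option autoImplicit false

/-!
# UMB.E chunk N6a: the far zone
-/

open Filter Topology Set MeasureTheory
open scoped ContDiff

namespace UMB.E

open Pool.Agent.Lib.PenroseSph (E3 Tens pd trg chr)
open UMB.Lin (Ann cAnn sig)

theorem n6a_s1 {t : Fin 3 → ℝ} {T : ℝ} (h : ∀ i, |t i| ≤ T) : |∑ i, t i| ≤ 3 * T := by
  refine (Finset.abs_sum_le_sum_abs _ _).trans ?_
  rw [Fin.sum_univ_three]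
  linarith [h 0, h 1, h 2]

theorem n6a_s2 {t : Fin 3 → Fin 3 → ℝ} {T : ℝ} (h : ∀ i j, |t i j| ≤ T) : |∑ i, ∑ j, t i j| ≤ 9 * T := by
  have := n6a_s1 (t := fun i => ∑ j, t i j) (T := 3 * T) fun i => n6a_s1 (h i)
  linarith

theorem n6a_fsq (B : Matrix (Fin 3) (Fin 3) ℝ) (i j : Fin 3) : |B i j| ≤ Real.sqrt (fsq B) := by
  rw [← Real.sqrt_sq_eq_abs]
  refine Real.sqrt_le_sqrt ?_
  unfold fsq
  refine le_trans ?_ (Finset.single_le_sum (f := fun i => ∑ j, B i j ^ 2)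
    (fun i _ => Finset.sum_nonneg fun j _ => sq_nonneg _) (Finset.mem_univ i))
  exact Finset.single_le_sum (f := fun j => B i j ^ 2) (fun j _ => sq_nonneg _) (Finset.mem_univ j)

theorem n6a_vsq (u : Fin 3 → ℝ) (i : Fin 3) : |u i| ≤ Real.sqrt (vsq u) := by
  rw [← Real.sqrt_sq_eq_abs]
  refine Real.sqrt_le_sqrt ?_
  unfold vsq
  exact Finset.single_le_sum (f := fun j => u j ^ 2) (fun j _ => sq_nonneg _) (Finset.mem_univ i)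

theorem n6a_mul {a b A B : ℝ} (ha : |a| ≤ A) (hb : |b| ≤ B) : |a * b| ≤ A * B := by
  rw [abs_mul]
  exact mul_le_mul ha hb (abs_nonneg _) ((abs_nonneg _).trans ha)

/-- **N6a.** Where `p(v_d) = 2` the equation is `gh⁻¹:D²v - gh⁻¹:Γ_gh dv + (tr_gh kh) n.dv = 0`. So
`|g⁻¹:D²v - g⁻¹:Γ_g dv| ≤ C/|x| ∑|D²v| + C/|x|² ∑|dv|` (N5, `|n_i| ≤ C`: `W.nn_le` with `u = e_i`). -/
theorem lap_far {g : Tens} {a : ℝ} (hg : AF g a) (K : ℝ) : ∃ C : ℝ, 0 < C ∧ ∀ P : Par, P.g = g → P.a = a → P.Ok →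
    P.op.Ok → (∀ x : E3, 1 ≤ ‖x‖ → ∀ i j, |P.k x i j| ≤ K / ‖x‖ ^ 2) → ∀ v : E3 → ℝ, W.Sol P.op v →
    ∀ x ∈ Ann P.R, P.p (P.op.vd v x) = 2 →
      |lapG g v x| ≤ C / ‖x‖ * Real.sqrt (fsq (D2 v x)) + C / ‖x‖ ^ 2 * Real.sqrt (vsq (D1 v x)) := by
  obtain ⟨C, hC, hb⟩ := gh_bd hg
  refine ⟨9 * C + 54 * C ^ 2 + 27 * (C * |K| * (1 + C)) + 1, by positivity, ?_⟩
  rintro P rfl rfl hP hop hk v hv x hx hp
  have hx1 : 1 ≤ ‖x‖ := hx.1.le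
  have hx0 : 0 < ‖x‖ := by linarith
  obtain ⟨h1, h2, -⟩ := hb P rfl rfl hP x hx1
  have hxa : P.op.a < ‖x‖ := lt_of_lt_of_le hop.a_lt hx1
  have heq := hv.solves x hx
  have haa : P.op.aa v x = (P.gh x)⁻¹ := by
    ext i j
    show P.op.G x i j + (P.p (P.op.vd v x) - 2) * P.op.nn v x i * P.op.nn v x j = (P.gh x)⁻¹ i j
    rw [hp]
    show (P.gh x)⁻¹ i j + (2 - 2) * P.op.nn v x i * P.op.nn v x j = (P.gh x)⁻¹ i j
    ring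
  obtain ⟨A, hA⟩ : ∃ A : Matrix (Fin 3) (Fin 3) ℝ, A = (P.g x)⁻¹ := ⟨_, rfl⟩
  obtain ⟨B, hB⟩ : ∃ B : Matrix (Fin 3) (Fin 3) ℝ, B = (P.gh x)⁻¹ := ⟨_, rfl⟩
  rw [← hA, ← hB] at h1
  obtain ⟨n, hn⟩ : ∃ n : Fin 3 → ℝ, n = P.op.nn v x := ⟨_, rfl⟩
  obtain ⟨S, hS⟩ : ∃ S : ℝ, S = Real.sqrt (fsq (D2 v x)) := ⟨_, rfl⟩
  obtain ⟨V, hV⟩ : ∃ V : ℝ, V = Real.sqrt (vsq (D1 v x)) := ⟨_, rfl⟩
  have hS1 : ∀ i j, |D2 v x i j| ≤ S := fun i j => by rw [hS]; exact n6a_fsq _ i j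
  have hV1 : ∀ i, |D1 v x i| ≤ V := fun i => by rw [hV]; exact n6a_vsq _ i
  have hS0 : 0 ≤ S := by rw [hS]; exact Real.sqrt_nonneg _
  have hV0 : 0 ≤ V := by rw [hV]; exact Real.sqrt_nonneg _
  have hn1 : ∀ i, |n i| ≤ 1 + C := by
    intro i
    have e1 := W.nn_le hop v hxa (fun m => if m = i then 1 else 0)
    have e2 : ∑ m, P.op.nn v x m * (if m = i then (1 : ℝ) else 0) = n i := by
      rw [hn]; simp
    have e3 : q1 (P.op.G x) (fun m => if m = i then (1 : ℝ) else 0) = B i i := by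
      rw [hB]
      show q1 (P.gh x)⁻¹ (fun m => if m = i then (1 : ℝ) else 0) = (P.gh x)⁻¹ i i
      unfold q1
      simp
    rw [e2, e3] at e1
    have e4 := (abs_le.1 ((h1 i i).2.2.1)).2
    rw [abs_le]
    constructor <;> nlinarith [sq_nonneg (n i - 1), sq_nonneg (n i + 1)]
  have hkh : ∀ i j, |P.kh x i j| ≤ |K| / ‖x‖ ^ 2 := by
    intro i j
    have e1 := hk x hx1 i j
    have e2 : K / ‖x‖ ^ 2 ≤ |K| / ‖x‖ ^ 2 := div_le_div_of_nonneg_right (le_abs_self K) (by positivity)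
    have e3 : 0 ≤ P.chk ‖x‖ := Real.smoothTransition.nonneg _
    have e4 : P.chk ‖x‖ ≤ 1 := Real.smoothTransition.le_one _
    have e5 : P.kh x i j = P.chk ‖x‖ * P.k x i j := rfl
    rw [e5, abs_mul, abs_of_nonneg e3]
    have e6 := abs_nonneg (P.k x i j)
    nlinarith
  have key : lapG P.g v x = ∑ i, ∑ j, (A i j - B i j) * D2 v x i j
      - ∑ i, ∑ j, A i j * ∑ m, chr P.g m i j x * D1 v x m + ∑ i, ∑ j, B i j * ∑ m, chr P.gh m i j x * D1 v x m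
      - (∑ i, ∑ j, B i j * P.kh x i j) * ∑ m, n m * D1 v x m := by
    have e1 : lapG P.g v x = ∑ i, ∑ j, A i j * (D2 v x i j - ∑ m, chr P.g m i j x * D1 v x m) := by
      rw [hA]; rfl
    have e2 : ∑ i, ∑ j, B i j * D2 v x i j + ∑ i, (- (∑ l, ∑ j, B l j * chr P.gh i l j x)
        + (∑ l, ∑ j, B l j * P.kh x l j) * n i) * D1 v x i = 0 := by
      rw [← heq]
      unfold OpData.bb tr2
      rw [haa, hB, hn]
      rfl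
    rw [e1]
    obtain ⟨κ, hκ⟩ : ∃ κ : ℝ, κ = ∑ i, ∑ j, B i j * P.kh x i j := ⟨_, rfl⟩
    rw [← hκ] at e2 ⊢
    simp only [Fin.sum_univ_three] at e2 ⊢
    linear_combination e2
  have b1 : |∑ i, ∑ j, (A i j - B i j) * D2 v x i j| ≤ 9 * (C / ‖x‖ * S) :=
    n6a_s2 fun i j => n6a_mul (h1 i j).1 (hS1 i j)
  have b2 : |∑ i, ∑ j, A i j * ∑ m, chr P.g m i j x * D1 v x m| ≤ 9 * (C * (3 * (C / ‖x‖ ^ 2 * V))) :=
    n6a_s2 fun i j => n6a_mul (h1 i j).2.1 (n6a_s1 fun m => n6a_mul (h2 m i j).1 (hV1 m))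
  have b3 : |∑ i, ∑ j, B i j * ∑ m, chr P.gh m i j x * D1 v x m| ≤ 9 * (C * (3 * (C / ‖x‖ ^ 2 * V))) :=
    n6a_s2 fun i j => n6a_mul (h1 i j).2.2.1 (n6a_s1 fun m => n6a_mul (h2 m i j).2 (hV1 m))
  have b4 : |(∑ i, ∑ j, B i j * P.kh x i j) * ∑ m, n m * D1 v x m|
      ≤ (9 * (C * (|K| / ‖x‖ ^ 2))) * (3 * ((1 + C) * V)) :=
    n6a_mul (n6a_s2 fun i j => n6a_mul (h1 i j).2.2.1 (hkh i j)) (n6a_s1 fun m => n6a_mul (hn1 m) (hV1 m))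
  rw [key, ← hS, ← hV]
  have b5 := abs_le.1 b1
  have b6 := abs_le.1 b2
  have b7 := abs_le.1 b3
  have b8 := abs_le.1 b4
  have t1 : 0 ≤ S / ‖x‖ := by positivity
  have t2 : 0 ≤ V / ‖x‖ ^ 2 := by positivity
  have c1 : 9 * (C / ‖x‖ * S) = 9 * C * (S / ‖x‖) := by ring
  have c2 : 9 * (C * (3 * (C / ‖x‖ ^ 2 * V))) = 27 * C ^ 2 * (V / ‖x‖ ^ 2) := by ring
  have c3 : (9 * (C * (|K| / ‖x‖ ^ 2))) * (3 * ((1 + C) * V)) = 27 * (C * |K| * (1 + C)) * (V / ‖x‖ ^ 2) := by ring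
  have c4 : (9 * C + 54 * C ^ 2 + 27 * (C * |K| * (1 + C)) + 1) / ‖x‖ * S
      + (9 * C + 54 * C ^ 2 + 27 * (C * |K| * (1 + C)) + 1) / ‖x‖ ^ 2 * V
      = (9 * C + 54 * C ^ 2 + 27 * (C * |K| * (1 + C)) + 1) * (S / ‖x‖)
        + (9 * C + 54 * C ^ 2 + 27 * (C * |K| * (1 + C)) + 1) * (V / ‖x‖ ^ 2) := by ring
  rw [c4]
  rw [c1] at b5
  rw [c2] at b6 b7
  rw [c3] at b8
  have p1 : 0 ≤ C ^ 2 * (S / ‖x‖) := by positivity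
  have p2 : 0 ≤ (C * |K| * (1 + C)) * (S / ‖x‖) := by positivity
  have p3 : 0 ≤ C * (V / ‖x‖ ^ 2) := by positivity
  rw [abs_le]
  constructor <;> nlinarith [b5.1, b5.2, b6.1, b6.2, b7.1, b7.2, b8.1, b8.2, p1, p2, p3, t1, t2]

end UMB.E
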