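import Pool.Agent.Lib.UMB.E.Defs

set_option autoImplicit false

/-!
# UMB.E chunk P1: two divergence identities
-/

open Filter Topology Set MeasureTheory
open scoped ContDiff

namespace UMB.E

open Pool.Agent.Lib.PenroseSph (E3 Tens pd trg)

/-- **P1a.** `div(w ∇u) = ⟨dw, ∇u⟩ + w Δu`. `MetOn.div_eq` with `F a = w * gradU g u a`, and in the ring `SmR U`:
`GA.dv_mul`, `GA.dv_gr`, evaluated with `val_dv`, `val_gr`, `val_lap`, `val_D` (see the proof of `MetOn.master` in
S1/Eval.lean). -/
theorem div_grad {g : Tens} {U : Set E3} (h : MetOn g U) {u w : E3 → ℝ} (hu : ContDiffOn ℝ ∞ u U)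
    (hw : ContDiffOn ℝ ∞ w U) {x : E3} (hx : x ∈ U) :
    ∑ a, pd a (fun y => vol g y * (w y * gradU g u a y)) x = vol g x * (dwG g w u x + w x * lapG g u x) := by
  rw [h.div_eq (fun a y => w y * gradU g u a y) (fun a => hw.mul (h.gradU_smooth hu a)) hx]
  congr 1
  have key := h.ga.dv_mul (rest w hw) (h.ga.gr (rest u hu))
  rw [h.ga.dv_gr] at key
  have h1 := congrArg (fun f : SmR U => f.1 ⟨x, hx⟩) key
  simp only [val_add, val_mul, val_sum, val_lap, val_gr] at h1
  rw [val_dv h _ (fun a y => w y * gradU g u a y) (fun a y => by rw [val_mul, val_gr]; rfl)] at h1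
  rw [h1]
  unfold dwG
  simp only [val_D h _ (rest w hw) w (fun _ => rfl)]
  rw [add_comm]
  rfl

theorem p1_pd_yreg {g : Tens} {U : Set E3} (h : MetOn g U) {u : E3 → ℝ} (hu : ContDiffOn ℝ ∞ u U)
    {e : ℝ} (he : 0 < e) {x : E3} (hx : x ∈ U) (i : Fin 3) :
    pd i (yreg g u e) x = hgrad g u i x / yreg g u e x := by
  have hs := h.yreg_smooth hu he
  have hr : ContDiffOn ℝ ∞ (fun y => (yreg g u e y)⁻¹) U := hs.inv fun y hy => (h.yreg_pos he hy).ne'
  have key := h.ga.D_s (rest u hu) (rest _ hs) (rest _ hr) (rest (fun _ => e) contDiffOn_const) (by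
      intro i
      apply Subtype.ext
      funext y
      rw [val_D h i _ (fun _ => e) (fun _ => rfl)]
      show fderiv ℝ (fun _ => e) (y : E3) _ = 0
      simp) (by
      apply Subtype.ext
      funext y
      rw [val_mul, val_add, val_fsq h hu]
      show yreg g u e y * yreg g u e y = gsq g u y + e
      have h0 := h.gsq_nonneg (u := u) y.2
      unfold yreg
      rw [Real.mul_self_sqrt (by positivity)]) (by
      apply Subtype.ext
      funext y
      rw [val_mul]
      show (yreg g u e y)⁻¹ * yreg g u e y = 1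
      exact inv_mul_cancel₀ (h.yreg_pos he y.2).ne') i
  have h1 := congrArg (fun f : SmR U => f.1 ⟨x, hx⟩) key
  simp only [val_mul, val_hg] at h1
  rw [val_D h i _ (yreg g u e) (fun _ => rfl)] at h1
  rw [h1, div_eq_inv_mul]
  rfl

/-- **P1b.** `div(w e^u y_e ∇u) = e^u y_e ⟨dw, ∇u⟩ + w e^u (y_e |∇u|² + y_e Δu + Hess u(∇u,∇u)/y_e)`,
`y_e = √(|∇u|² + e)`. P1a with `w * exp u * yreg g u e` for `w`: `pd a (exp u) = exp u pd a u`,
`pd a (yreg g u e) = hgrad g u a / yreg g u e` (`GA.D_fsq` evaluated, chain rule for the square root, or `GA.D_s`). -/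
theorem div_y {g : Tens} {U : Set E3} (h : MetOn g U) {u w : E3 → ℝ} (hu : ContDiffOn ℝ ∞ u U)
    (hw : ContDiffOn ℝ ∞ w U) {e : ℝ} (he : 0 < e) {x : E3} (hx : x ∈ U) :
    ∑ a, pd a (fun y => vol g y * (w y * Real.exp (u y) * yreg g u e y * gradU g u a y)) x
      = vol g x * (Real.exp (u x) * yreg g u e x * dwG g w u x + w x * Real.exp (u x) *
          (yreg g u e x * gsq g u x + yreg g u e x * lapG g u x + hgg g u x / yreg g u e x)) := by
  have hs := h.yreg_smooth hu he
  rw [div_grad h hu (w := fun y => w y * Real.exp (u y) * yreg g u e y) ((hw.mul hu.exp).mul hs) hx]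
  congr 1
  have hdu : DifferentiableAt ℝ u x := (hu.contDiffAt (h.isOpen.mem_nhds hx)).differentiableAt (by simp)
  have hdw : DifferentiableAt ℝ w x := (hw.contDiffAt (h.isOpen.mem_nhds hx)).differentiableAt (by simp)
  have hds : DifferentiableAt ℝ (yreg g u e) x := (hs.contDiffAt (h.isOpen.mem_nhds hx)).differentiableAt (by simp)
  have hde : DifferentiableAt ℝ (fun y => Real.exp (u y)) x := hdu.exp
  have hpe : ∀ a, pd a (fun y => Real.exp (u y)) x = Real.exp (u x) * pd a u x := by
    intro a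
    show fderiv ℝ (fun y => Real.exp (u y)) x _ = Real.exp (u x) * fderiv ℝ u x _
    rw [hdu.hasFDerivAt.exp.fderiv]
    rfl
  have hp : ∀ a, pd a (fun y => w y * Real.exp (u y) * yreg g u e y) x =
      w x * Real.exp (u x) * (hgrad g u a x / yreg g u e x) + yreg g u e x * (w x * (Real.exp (u x) * pd a u x) +
        Real.exp (u x) * pd a w x) := by
    intro a
    rw [Pool.Agent.Lib.PenroseSph.pd_mul (f := fun y => w y * Real.exp (u y)) a (hdw.mul hde) hds,
      Pool.Agent.Lib.PenroseSph.pd_mul a hdw hde, hpe, p1_pd_yreg h hu he hx]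
  unfold dwG
  simp only [hp]
  unfold hgg gsq
  simp only [Fin.sum_univ_three]
  ring

end UMB.E
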