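import Pool.Agent.Lib.UMB.E.Defs

set_option autoImplicit false

/-!
# UMB.E chunk P6: divergence theorem for fields which vanish near the inner sphere
-/

open Filter Topology Set MeasureTheory
open scoped ContDiff

namespace UMB.E

open Pool.Agent.Lib.PenroseSph (E3 Tens pd trg)
open UMB.Lin (Ann cAnn sig)

/-- **P6.** Multiply `F i` by a smooth function of `|x|` which is `1` for `1 + s/2 ≤ |x| ≤ R'` and `0` for `|x| ≤ 1 + s/4` and for
`|x| ≥ (R' + R)/2` (products of `Real.smoothTransition`, smooth away from the origin); the product is `C¹` on `E3`, agrees with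
`F i` near the points of `Ann R'` outside the set `|x| ≤ 1 + s/2`, and both are `0` near `1 < |x| < 1 + s`. Then
`UMB.Lin.int_pd` on `Ann R'` (the inner boundary term vanishes), sum over `i`. -/
theorem div_sub {R : ℝ} {F : Fin 3 → E3 → ℝ} (hF : ∀ i, ContDiffOn ℝ 1 (F i) (Ann R)) {s : ℝ} (hs : 0 < s)
    (h0 : ∀ (i : Fin 3) (x : E3), 1 < ‖x‖ → ‖x‖ < 1 + s → F i x = 0) {R' : ℝ} (h1 : 1 + s < R') (h2 : R' < R) :
    ∫ x in Ann R', ∑ i, pd i (F i) x = R' ^ 2 * ∫ n : Metric.sphere (0 : E3) 1, ∑ i, F i (R' • (n : E3)) * (n : E3) i ∂sig := by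
  have hR' : 1 < R' := by linarith
  obtain ⟨R2, hR2⟩ : ∃ R2 : ℝ, R2 = (R' + R) / 2 := ⟨_, rfl⟩
  have hR2a : R' < R2 := by rw [hR2]; linarith
  have hR2b : R2 < R := by rw [hR2]; linarith
  obtain ⟨χ, hχ⟩ : ∃ χ : E3 → ℝ, ∀ x, χ x = Real.smoothTransition ((‖x‖ - (1 + s / 4)) / (s / 4))
      * Real.smoothTransition ((R2 - ‖x‖) / (R2 - R')) := ⟨_, fun _ => rfl⟩
  have hχ0 : ∀ x : E3, ‖x‖ ≤ 1 + s / 4 → χ x = 0 := by
    intro x hx
    rw [hχ, Real.smoothTransition.zero_of_nonpos, zero_mul]
    exact div_nonpos_of_nonpos_of_nonneg (by linarith) (by linarith)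
  have hχ2 : ∀ x : E3, R2 ≤ ‖x‖ → χ x = 0 := by
    intro x hx
    rw [hχ, Real.smoothTransition.zero_of_nonpos (x := (R2 - ‖x‖) / (R2 - R')), mul_zero]
    exact div_nonpos_of_nonpos_of_nonneg (by linarith) (by linarith)
  have hχ1 : ∀ x : E3, 1 + s / 2 ≤ ‖x‖ → ‖x‖ ≤ R' → χ x = 1 := by
    intro x hx hx'
    rw [hχ, Real.smoothTransition.one_of_one_le, Real.smoothTransition.one_of_one_le, one_mul]
    · rw [le_div_iff₀ (by linarith)]
      linarith
    · rw [le_div_iff₀ (by linarith)]
      linarith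
  have hχs : ∀ x : E3, x ≠ 0 → ContDiffAt ℝ 1 χ x := by
    intro x hx
    have hn : ContDiffAt ℝ 1 (fun y : E3 => ‖y‖) x := contDiffAt_norm ℝ hx
    have h3 : ContDiffAt ℝ 1 (fun y : E3 => Real.smoothTransition ((‖y‖ - (1 + s / 4)) / (s / 4))
      * Real.smoothTransition ((R2 - ‖y‖) / (R2 - R'))) x := by
      refine ContDiffAt.mul ?_ ?_
      · exact Real.smoothTransition.contDiffAt.comp x ((hn.sub contDiffAt_const).div_const _)
      · exact Real.smoothTransition.contDiffAt.comp x ((contDiffAt_const.sub hn).div_const _)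
    exact h3.congr_of_eventuallyEq (Eventually.of_forall hχ)
  obtain ⟨G, hG⟩ : ∃ G : Fin 3 → E3 → ℝ, ∀ i x, G i x = χ x * F i x := ⟨_, fun _ _ => rfl⟩
  have hAo : IsOpen (Ann R) := UMB.Lin.isOpen_Ann R
  have hGs : ∀ i, ContDiff ℝ 1 (G i) := by
    intro i
    rw [contDiff_iff_contDiffAt]
    intro x
    rcases lt_or_ge ‖x‖ (1 + s / 4) with hx | hx
    · have h3 : G i =ᶠ[𝓝 x] fun _ => 0 := by
        filter_upwards [(isOpen_lt continuous_norm continuous_const).mem_nhds
          (show x ∈ {y : E3 | ‖y‖ < 1 + s / 4} from hx)] with y hy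
        rw [hG, hχ0 y (le_of_lt hy), zero_mul]
      exact contDiffAt_const.congr_of_eventuallyEq h3
    · rcases lt_or_ge R2 ‖x‖ with hx2 | hx2
      · have h3 : G i =ᶠ[𝓝 x] fun _ => 0 := by
          filter_upwards [(isOpen_lt continuous_const continuous_norm).mem_nhds
            (show x ∈ {y : E3 | R2 < ‖y‖} from hx2)] with y hy
          rw [hG, hχ2 y (le_of_lt hy), zero_mul]
        exact contDiffAt_const.congr_of_eventuallyEq h3
      · have hxA : x ∈ Ann R := ⟨by linarith, by linarith⟩
        have hx0 : x ≠ 0 := by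
          rintro rfl
          rw [norm_zero] at hx
          linarith
        have h3 : ContDiffAt ℝ 1 (fun y => χ y * F i y) x :=
          (hχs x hx0).mul ((hF i).contDiffAt (hAo.mem_nhds hxA))
        exact h3.congr_of_eventuallyEq (Eventually.of_forall (hG i))
  have hpd : ∀ i, ∀ x ∈ Ann R', pd i (F i) x = pd i (G i) x := by
    intro i x hx
    have key : F i =ᶠ[𝓝 x] G i := by
      rcases lt_or_ge ‖x‖ (1 + s) with hx1 | hx1
      · filter_upwards [(isOpen_lt continuous_norm continuous_const).mem_nhds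
            (show x ∈ {y : E3 | ‖y‖ < 1 + s} from hx1),
          (isOpen_lt continuous_const continuous_norm).mem_nhds
            (show x ∈ {y : E3 | 1 < ‖y‖} from hx.1)] with y hy hy'
        rw [hG, h0 i y hy' hy, mul_zero]
      · filter_upwards [(isOpen_lt continuous_norm continuous_const).mem_nhds
            (show x ∈ {y : E3 | ‖y‖ < R'} from hx.2),
          (isOpen_lt continuous_const continuous_norm).mem_nhds
            (show x ∈ {y : E3 | 1 + s / 2 < ‖y‖} by
              show 1 + s / 2 < ‖x‖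
              linarith)] with y hy hy'
        rw [hG, hχ1 y (le_of_lt hy') (le_of_lt hy), one_mul]
    unfold pd
    rw [key.fderiv_eq]
  have hint : ∀ i, IntegrableOn (pd i (G i)) (Ann R') := by
    intro i
    refine UMB.Lin.integrableOn_Ann ?_
    have h3 : Continuous (fderiv ℝ (G i)) := (hGs i).continuous_fderiv (by norm_num)
    exact h3.clm_apply continuous_const
  have hn1 : ∀ n : Metric.sphere (0 : E3) 1, ‖(n : E3)‖ = 1 := fun n => by
    have := n.2
    rwa [mem_sphere_zero_iff_norm] at this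
  have hsphere : ∀ i (n : Metric.sphere (0 : E3) 1), G i (R' • (n : E3)) = F i (R' • (n : E3)) := by
    intro i n
    have h3 : ‖R' • (n : E3)‖ = R' := by
      rw [norm_smul, hn1, mul_one, Real.norm_eq_abs, abs_of_pos (by linarith)]
    rw [hG, hχ1 _ (by rw [h3]; linarith) h3.le, one_mul]
  have hin : ∀ i, ∫ n : Metric.sphere (0 : E3) 1, G i (n : E3) * (n : E3) i ∂sig = 0 := by
    intro i
    have h3 : ∀ n : Metric.sphere (0 : E3) 1, G i (n : E3) * (n : E3) i = 0 := by
      intro n
      rw [hG, hχ0 _ (by rw [hn1]; linarith), zero_mul, zero_mul]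
    simp only [h3, integral_zero]
  have hints : ∀ i, Integrable (fun n : Metric.sphere (0 : E3) 1 => F i (R' • (n : E3)) * (n : E3) i) sig := by
    intro i
    have h3 : Continuous fun n : Metric.sphere (0 : E3) 1 => G i (R' • (n : E3)) * (n : E3) i := by
      refine ((hGs i).continuous.comp (continuous_subtype_val.const_smul R')).mul ?_
      exact (EuclideanSpace.proj (𝕜 := ℝ) i : E3 →L[ℝ] ℝ).continuous.comp continuous_subtype_val
    simp only [hsphere] at h3
    exact h3.integrable_of_hasCompactSupport (HasCompactSupport.of_compactSpace _)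
  have e1 : ∫ x in Ann R', ∑ i, pd i (F i) x = ∑ i, ∫ x in Ann R', pd i (G i) x := by
    rw [← integral_finsetSum _ fun i _ => hint i]
    refine setIntegral_congr_fun (UMB.Lin.measurableSet_Ann R') fun x hx => ?_
    exact Finset.sum_congr rfl fun i _ => hpd i x hx
  rw [e1, integral_finsetSum _ fun i _ => hints i, Finset.mul_sum]
  refine Finset.sum_congr rfl fun i _ => ?_
  rw [UMB.Lin.int_pd hR' i (hGs i), hin, sub_zero]
  simp only [hsphere]

end UMB.E
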