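import Pool.Agent.Lib.UMB.E.P8
import Pool.Agent.Lib.UMB.E.P6
import Pool.Agent.Lib.UMB.E.P7

set_option autoImplicit false

/-!
# UMB.E chunk P8c: the first integrated identity
-/

open Filter Topology Set MeasureTheory
open scoped ContDiff

namespace UMB.E

open Pool.Agent.Lib.PenroseSph (E3 Tens pd trg)
open UMB.Lin (Ann cAnn sig)

/-- bounded continuous functions are integrable on the annulus -/
theorem p8c_bint {R : ℝ} {f : E3 → ℝ} (hc : ContinuousOn f (Ann R)) {B : ℝ} (hb : ∀ x ∈ Ann R, |f x| ≤ B) :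
    IntegrableOn f (Ann R) := by
  have hm : AEStronglyMeasurable f (volume.restrict (Ann R)) :=
    hc.aestronglyMeasurable (UMB.Lin.measurableSet_Ann R)
  have : IsFiniteMeasure (volume.restrict (Ann R)) :=
    ⟨by rw [Measure.restrict_apply_univ]; exact UMB.Lin.volume_Ann_lt_top R⟩
  refine Integrable.of_bound hm B ?_
  filter_upwards [ae_restrict_mem (UMB.Lin.measurableSet_Ann R)] with x hx
  exact hb x hx

/-- continuous on the open annulus and zero near the inner sphere: integrable on smaller annuli -/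
theorem p8c_int {R R' : ℝ} (hR' : R' < R) {G : E3 → ℝ} (hG : ContinuousOn G (Ann R)) {s : ℝ} (hs : 0 < s)
    (h0 : ∀ x : E3, 1 < ‖x‖ → ‖x‖ < 1 + s → G x = 0) : IntegrableOn G (Ann R') := by
  have hK : IsCompact {x : E3 | 1 + s / 2 ≤ ‖x‖ ∧ ‖x‖ ≤ R'} := by
    have hcl : IsClosed {x : E3 | 1 + s / 2 ≤ ‖x‖ ∧ ‖x‖ ≤ R'} :=
      (isClosed_le continuous_const continuous_norm).inter (isClosed_le continuous_norm continuous_const)
    refine (isCompact_closedBall (0 : E3) R').of_isClosed_subset hcl ?_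
    intro x hx
    rw [mem_closedBall_zero_iff]
    exact hx.2
  have h1 : IntegrableOn G {x : E3 | 1 + s / 2 ≤ ‖x‖ ∧ ‖x‖ ≤ R'} := by
    refine (hG.mono ?_).integrableOn_compact hK
    intro x hx
    exact ⟨by linarith [hx.1], by linarith [hx.2]⟩
  have hm : MeasurableSet {x : E3 | 1 < ‖x‖ ∧ ‖x‖ < 1 + s} :=
    ((isOpen_lt continuous_const continuous_norm).inter (isOpen_lt continuous_norm continuous_const)).measurableSet
  have h2 : IntegrableOn G {x : E3 | 1 < ‖x‖ ∧ ‖x‖ < 1 + s} := by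
    have h3 : IntegrableOn (fun _ : E3 => (0 : ℝ)) {x : E3 | 1 < ‖x‖ ∧ ‖x‖ < 1 + s} := integrableOn_zero
    exact h3.congr_fun (fun x hx => (h0 x hx.1 hx.2).symm) hm
  refine (h2.union h1).mono_set ?_
  intro x hx
  by_cases h : ‖x‖ < 1 + s
  · exact Or.inl ⟨hx.1, h⟩
  · exact Or.inr ⟨by linarith [not_lt.1 h], hx.2.le⟩

theorem p8c_met {g : Tens} {a : ℝ} (hg : AF g a) (R : ℝ) : MetOn g (Ann R) where
  isOpen := UMB.Lin.isOpen_Ann R
  smooth := fun i j => (hg.smooth i j).mono fun _ hx => lt_trans hg.lt hx.1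
  symm := fun x hx => hg.symm x (lt_trans hg.lt hx.1)
  pos := fun x hx => hg.pos x (lt_trans hg.lt hx.1)

/-- the cutoff in the values of `θ` -/
noncomputable def p8c_eta (t z : ℝ) : ℝ := Real.smoothTransition (2 * z / t - 1)

theorem p8c_eta_smooth (t : ℝ) : ContDiff ℝ ∞ (p8c_eta t) := by
  unfold p8c_eta
  refine Real.smoothTransition.contDiff.comp ?_
  exact ((contDiff_const.mul contDiff_id).div_const t).sub contDiff_const

theorem p8c_eta_nonneg (t z : ℝ) : 0 ≤ p8c_eta t z := Real.smoothTransition.nonneg _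

theorem p8c_eta_le (t z : ℝ) : p8c_eta t z ≤ 1 := Real.smoothTransition.le_one _

theorem p8c_eta_zero {t z : ℝ} (ht : 0 < t) (hz : z < t / 2) : p8c_eta t z = 0 := by
  unfold p8c_eta
  refine Real.smoothTransition.zero_of_nonpos ?_
  have : 2 * z / t ≤ 1 := by
    rw [div_le_one ht]; linarith
  linarith

theorem p8c_eta_one {t z : ℝ} (ht : 0 < t) (hz : t ≤ z) : p8c_eta t z = 1 := by
  unfold p8c_eta
  refine Real.smoothTransition.one_of_one_le ?_
  have : 2 ≤ 2 * z / t := by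
    rw [le_div_iff₀ ht]; linarith
  linarith

theorem p8c_eta_mono {t : ℝ} (ht : 0 < t) : Monotone (p8c_eta t) := by
  intro z z' h
  unfold p8c_eta
  refine Real.smoothTransition.monotone ?_
  have : 2 * z / t ≤ 2 * z' / t := by gcongr
  linarith


theorem p8c_diff {R : ℝ} {f : E3 → ℝ} (hf : ContDiffOn ℝ ∞ f (Ann R)) {x : E3} (hx : x ∈ Ann R) :
    DifferentiableAt ℝ f x :=
  (hf.contDiffAt ((UMB.Lin.isOpen_Ann R).mem_nhds hx)).differentiableAt (by simp)

theorem p8c_pd_comp {R : ℝ} {θ : E3 → ℝ} (hθ : ContDiffOn ℝ ∞ θ (Ann R)) (t : ℝ) (i : Fin 3) {x : E3} (hx : x ∈ Ann R) :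
    pd i (fun y => p8c_eta t (θ y)) x = deriv (p8c_eta t) (θ x) * pd i θ x := by
  have h1 : HasDerivAt (p8c_eta t) (deriv (p8c_eta t) (θ x)) (θ x) :=
    ((p8c_eta_smooth t).differentiable (by simp) (θ x)).hasDerivAt
  have h2 : HasFDerivAt θ (fderiv ℝ θ x) x := (p8c_diff hθ hx).hasFDerivAt
  have h3 := h1.comp_hasFDerivAt x h2
  have h4 : fderiv ℝ (fun y => p8c_eta t (θ y)) x = deriv (p8c_eta t) (θ x) • fderiv ℝ θ x := h3.fderiv
  unfold pd
  rw [h4]
  rfl

theorem p8c_dw {g : Tens} {R : ℝ} {θ W : E3 → ℝ} (hθ : ContDiffOn ℝ ∞ θ (Ann R)) (hW : ContDiffOn ℝ ∞ W (Ann R)) (t : ℝ)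
    {x : E3} (hx : x ∈ Ann R) :
    dwG g (fun y => p8c_eta t (θ y) * W y) θ x
      = p8c_eta t (θ x) * dwG g W θ x + W x * (deriv (p8c_eta t) (θ x) * gsq g θ x) := by
  have h1 : ∀ i, pd i (fun y => p8c_eta t (θ y) * W y) x
      = p8c_eta t (θ x) * pd i W x + W x * (deriv (p8c_eta t) (θ x) * pd i θ x) := by
    intro i
    have hd : DifferentiableAt ℝ (fun y => p8c_eta t (θ y)) x :=
      ((p8c_eta_smooth t).differentiable (by simp) (θ x)).comp x (p8c_diff hθ hx)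
    rw [Pool.Agent.Lib.PenroseSph.pd_mul i hd (p8c_diff hW hx), p8c_pd_comp hθ t i hx]
  unfold dwG gsq
  simp only [h1, Fin.sum_univ_three]
  ring

theorem p8c_pd_zero {f : E3 → ℝ} {U : Set E3} (hU : IsOpen U) (h : ∀ x ∈ U, f x = 0) (i : Fin 3) {x : E3} (hx : x ∈ U) :
    pd i f x = 0 := by
  have h1 : f =ᶠ[𝓝 x] fun _ => 0 := by
    filter_upwards [hU.mem_nhds hx] with y hy
    exact h y hy
  unfold pd
  rw [h1.fderiv_eq]
  simp

/-- the inequality for one `t` and one `R'` -/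
theorem p8c_step {g k : Tens} {Λ a Ce R : ℝ} {θ W : E3 → ℝ} (hg : AF g a) (hc : Cmp g Λ) (h : Th g k Ce R θ)
    (hW : ContDiffOn ℝ ∞ W (Ann R)) (hW0 : ∀ x ∈ Ann R, 0 ≤ W x)
    (hint : IntegrableOn (fun x => vol g x * (dwG g W θ x + W x * lapG g θ x)) (Ann R)) {M t R' : ℝ} (ht : 0 < t)
    (hR' : 1 < R') (hR'R : R' < R) (hM : ∀ x : E3, ‖x‖ = R' → W x ≤ M / ‖x‖ ^ 2)
    (hy : ∀ x : E3, ‖x‖ = R' → yreg g θ 0 x ≤ 4 / R) :
    ∫ x in Ann R', p8c_eta t (θ x) * (vol g x * (dwG g W θ x + W x * lapG g θ x))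
      ≤ (sig.real univ) * (36 * Λ ^ 2 * Real.sqrt Λ) * M / R := by
  have met := p8c_met hg R
  have hR0 : 0 < R := by linarith [h.four_le]
  obtain ⟨s1, hs1, hin⟩ := h.inner (t / 2) (by positivity)
  set s : ℝ := min s1 ((R' - 1) / 2) with hs
  have hs0 : 0 < s := lt_min hs1 (by linarith)
  have hsR : 1 + s < R' := by
    have := min_le_right s1 ((R' - 1) / 2)
    linarith
  have hz : ∀ x : E3, 1 < ‖x‖ → ‖x‖ < 1 + s → p8c_eta t (θ x) = 0 := by
    intro x hx1 hx2
    refine p8c_eta_zero ht (hin x hx1 ?_)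
    have := min_le_left s1 ((R' - 1) / 2)
    linarith
  have hηs : ContDiffOn ℝ ∞ (fun x => p8c_eta t (θ x)) (Ann R) := (p8c_eta_smooth t).comp_contDiffOn h.smooth
  have hWt : ContDiffOn ℝ ∞ (fun x => p8c_eta t (θ x) * W x) (Ann R) := hηs.mul hW
  have hF : ∀ i, ContDiffOn ℝ ∞ (fun y => vol g y * ((p8c_eta t (θ y) * W y) * gradU g θ i y)) (Ann R) := fun i =>
    met.vol_smooth.mul (hWt.mul (met.gradU_smooth h.smooth i))
  have hF0 : ∀ (i : Fin 3) (x : E3), 1 < ‖x‖ → ‖x‖ < 1 + s →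
      (fun y => vol g y * ((p8c_eta t (θ y) * W y) * gradU g θ i y)) x = 0 := by
    intro i x hx1 hx2
    simp only [hz x hx1 hx2]
    ring
  have hdiv := div_sub (fun i => (hF i).of_le (by norm_cast)) hs0 hF0 hsR hR'R
  -- the boundary term
  have hsub : Ann R' ⊆ Ann R := fun x hx => ⟨hx.1, lt_trans hx.2 hR'R⟩
  have hΛ := hc.pos
  have hbd : ∫ n : Metric.sphere (0 : E3) 1,
      ∑ i, (fun y => vol g y * ((p8c_eta t (θ y) * W y) * gradU g θ i y)) (R' • (n : E3)) * (n : E3) i ∂sig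
      ≤ (36 * Λ ^ 2 * Real.sqrt Λ) * (M / R' ^ 2) / R * (sig.real univ) := by
    refine (le_abs_self _).trans ?_
    rw [← Real.norm_eq_abs]
    refine norm_integral_le_of_norm_le_const ?_
    filter_upwards with n
    have hn : ‖(n : E3)‖ = 1 := by simp
    set x : E3 := R' • (n : E3) with hx
    have hxn : ‖x‖ = R' := by
      rw [hx, norm_smul, hn, mul_one, Real.norm_eq_abs, abs_of_pos (by linarith)]
    have hxA : x ∈ Ann R := ⟨by rw [hxn]; exact hR', by rw [hxn]; exact hR'R⟩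
    have hx1 : 1 ≤ ‖x‖ := by rw [hxn]; exact hR'.le
    have hg0 := met.gsq_nonneg (u := θ) hxA
    have hgr := (grad_bd hc hx1 θ W hg0).2.1
    have hv1 := hc.vol_le x hx1
    have hv0 := (met.vol_pos hxA).le
    have hy0 := hy x hxn
    have hW1 := hM x hxn
    rw [hxn] at hW1
    have hW2 := hW0 x hxA
    have hη0 := p8c_eta_nonneg t (θ x)
    have hη1 := p8c_eta_le t (θ x)
    have hni : ∀ i, |(n : E3) i| ≤ 1 := by
      intro i
      have h5 := PiLp.norm_apply_le (n : E3) i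
      rw [hn, Real.norm_eq_abs] at h5
      exact h5
    have hterm : ∀ i, |(vol g x * ((p8c_eta t (θ x) * W x) * gradU g θ i x)) * (n : E3) i|
        ≤ Λ * ((1 * (M / R' ^ 2)) * (3 * Λ * Real.sqrt Λ * (4 / R))) * 1 := by
      intro i
      rw [abs_mul, abs_mul, abs_mul, abs_mul, abs_of_nonneg hv0, abs_of_nonneg hη0, abs_of_nonneg hW2]
      have h6 : |gradU g θ i x| ≤ 3 * Λ * Real.sqrt Λ * (4 / R) :=
        (hgr i).trans (mul_le_mul_of_nonneg_left hy0 (by positivity))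
      have h7 : 0 ≤ M / R' ^ 2 := hW2.trans hW1
      have h8 := hni i
      gcongr
    rw [Real.norm_eq_abs]
    refine (Finset.abs_sum_le_sum_abs _ _).trans ?_
    refine (Finset.sum_le_sum fun i _ => hterm i).trans (le_of_eq ?_)
    rw [Finset.sum_const, Finset.card_univ, Fintype.card_fin, nsmul_eq_mul]
    push_cast
    ring
  have hpt : ∀ x ∈ Ann R', p8c_eta t (θ x) * (vol g x * (dwG g W θ x + W x * lapG g θ x))
      ≤ ∑ i, pd i (fun y => vol g y * ((p8c_eta t (θ y) * W y) * gradU g θ i y)) x := by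
    intro x hx
    have hx' := hsub hx
    rw [div_grad met h.smooth hWt hx', p8c_dw h.smooth hW t hx']
    have h1 : 0 ≤ deriv (p8c_eta t) (θ x) := Monotone.deriv_nonneg (p8c_eta_mono ht)
    have h2 := hW0 x hx'
    have h3 := met.gsq_nonneg (u := θ) hx'
    have h4 := (met.vol_pos hx').le
    have h5 : 0 ≤ vol g x * (W x * (deriv (p8c_eta t) (θ x) * gsq g θ x)) := by positivity
    nlinarith [h5]
  have hi1 : IntegrableOn (fun x => p8c_eta t (θ x) * (vol g x * (dwG g W θ x + W x * lapG g θ x))) (Ann R') := by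
    have h1 := hint.mono_set hsub
    have h2 : AEStronglyMeasurable (fun x => p8c_eta t (θ x)) (volume.restrict (Ann R')) :=
      (hηs.continuousOn.mono hsub).aestronglyMeasurable (UMB.Lin.measurableSet_Ann R')
    refine Integrable.mono h1 (h2.mul h1.aestronglyMeasurable) ?_
    filter_upwards with x
    rw [norm_mul, Real.norm_eq_abs, abs_of_nonneg (p8c_eta_nonneg _ _)]
    exact mul_le_of_le_one_left (norm_nonneg _) (p8c_eta_le _ _)
  have hi2 : IntegrableOn (fun x => ∑ i, pd i (fun y => vol g y * ((p8c_eta t (θ y) * W y) * gradU g θ i y)) x) (Ann R') := by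
    refine p8c_int hR'R ?_ hs0 ?_
    · exact continuousOn_finsetSum _ fun i _ => (smooth_pd (UMB.Lin.isOpen_Ann R) (hF i) i).continuousOn
    · intro x hx1 hx2
      refine Finset.sum_eq_zero fun i _ => ?_
      refine p8c_pd_zero (U := {x : E3 | 1 < ‖x‖ ∧ ‖x‖ < 1 + s}) ?_ ?_ i ⟨hx1, hx2⟩
      · exact (isOpen_lt continuous_const continuous_norm).inter (isOpen_lt continuous_norm continuous_const)
      · intro y hy
        exact hF0 i y hy.1 hy.2
  calc ∫ x in Ann R', p8c_eta t (θ x) * (vol g x * (dwG g W θ x + W x * lapG g θ x))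
      ≤ ∫ x in Ann R', ∑ i, pd i (fun y => vol g y * ((p8c_eta t (θ y) * W y) * gradU g θ i y)) x :=
        setIntegral_mono_on hi1 hi2 (UMB.Lin.measurableSet_Ann R') hpt
    _ = _ := hdiv
    _ ≤ R' ^ 2 * ((36 * Λ ^ 2 * Real.sqrt Λ) * (M / R' ^ 2) / R * (sig.real univ)) :=
        mul_le_mul_of_nonneg_left hbd (by positivity)
    _ = (sig.real univ) * (36 * Λ ^ 2 * Real.sqrt Λ) * M / R := by
        have : R' ≠ 0 := by linarith
        field_simp

/-- the limits `t → 0` and `R' → R` -/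
theorem p8c_core {g k : Tens} {Λ a Ce R : ℝ} {θ W : E3 → ℝ} (hg : AF g a) (hc : Cmp g Λ) (h : Th g k Ce R θ)
    (hW : ContDiffOn ℝ ∞ W (Ann R)) (hW0 : ∀ x ∈ Ann R, 0 ≤ W x)
    (hint : IntegrableOn (fun x => vol g x * (dwG g W θ x + W x * lapG g θ x)) (Ann R)) {M : ℝ}
    (hM : ∃ s : ℝ, 0 < s ∧ ∀ x : E3, R - s < ‖x‖ → ‖x‖ < R → W x ≤ M / ‖x‖ ^ 2) :
    ∫ x in Ann R, vol g x * (dwG g W θ x + W x * lapG g θ x)
      ≤ (sig.real univ) * (36 * Λ ^ 2 * Real.sqrt Λ) * M / R := by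
  obtain ⟨s1, hs1, hM1⟩ := hM
  obtain ⟨s2, hs2, hy2⟩ := h.outer
  have hR4 := h.four_le
  set δ : ℝ := min (min s1 s2) 1 with hδ
  have hδ0 : 0 < δ := lt_min (lt_min hs1 hs2) one_pos
  have hδ1 : δ ≤ s1 := (min_le_left _ _).trans (min_le_left _ _)
  have hδ2 : δ ≤ s2 := (min_le_left _ _).trans (min_le_right _ _)
  have hδ3 : δ ≤ 1 := min_le_right _ _
  set f : E3 → ℝ := fun x => vol g x * (dwG g W θ x + W x * lapG g θ x) with hf
  set u : ℕ → ℝ := fun n => 1 / ((n : ℝ) + 1) with hu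
  have hu0 : ∀ n, 0 < u n := fun n => by simp only [hu]; positivity
  have hu1 : ∀ n, u n ≤ 1 := fun n => by
    simp only [hu]
    rw [div_le_one (by positivity)]
    have : (0 : ℝ) ≤ n := Nat.cast_nonneg n
    linarith
  have hul : Tendsto u atTop (𝓝 0) := tendsto_one_div_add_atTop_nhds_zero_nat
  set ρ : ℕ → ℝ := fun n => R - δ * u n / 2 with hρ
  have hρl : Tendsto ρ atTop (𝓝 R) := by
    have : Tendsto (fun n => R - δ * u n / 2) atTop (𝓝 (R - δ * 0 / 2)) :=
      ((hul.const_mul δ).div_const 2).const_sub R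
    simpa using this
  have hρ1 : ∀ n, R - δ < ρ n := fun n => by
    simp only [hρ]
    have h1 : δ * u n ≤ δ * 1 := mul_le_mul_of_nonneg_left (hu1 n) hδ0.le
    linarith
  have hρ2 : ∀ n, ρ n < R := fun n => by
    simp only [hρ]
    have := mul_pos hδ0 (hu0 n)
    linarith
  have hstep : ∀ n, ∫ x in Ann (ρ n), p8c_eta (u n) (θ x) * f x
      ≤ (sig.real univ) * (36 * Λ ^ 2 * Real.sqrt Λ) * M / R := by
    intro n
    refine p8c_step hg hc h hW hW0 hint (hu0 n) (by have := hρ1 n; linarith) (hρ2 n) ?_ ?_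
    · intro x hx
      exact hM1 x (by rw [hx]; have := hρ1 n; linarith) (by rw [hx]; exact hρ2 n)
    · intro x hx
      exact hy2 x (by rw [hx]; have := hρ1 n; linarith) (by rw [hx]; exact hρ2 n)
  set F : ℕ → E3 → ℝ := fun n => indicator (Ann (ρ n)) (fun x => p8c_eta (u n) (θ x) * f x) with hF
  have hsub : ∀ n, Ann (ρ n) ⊆ Ann R := fun n x hx => ⟨hx.1, lt_trans hx.2 (hρ2 n)⟩
  have hFint : ∀ n, ∫ x in Ann R, F n x = ∫ x in Ann (ρ n), p8c_eta (u n) (θ x) * f x := by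
    intro n
    simp only [hF]
    rw [setIntegral_indicator (UMB.Lin.measurableSet_Ann _), inter_eq_self_of_subset_right (hsub n)]
  have hηs : ∀ t, ContinuousOn (fun x => p8c_eta t (θ x)) (Ann R) := fun t =>
    ((p8c_eta_smooth t).comp_contDiffOn h.smooth).continuousOn
  have hlim : Tendsto (fun n => ∫ x in Ann R, F n x) atTop (𝓝 (∫ x in Ann R, f x)) := by
    refine tendsto_integral_of_dominated_convergence (fun x => |f x|) ?_ hint.abs ?_ ?_
    · intro n
      refine AEStronglyMeasurable.indicator ?_ (UMB.Lin.measurableSet_Ann _)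
      exact ((hηs (u n)).aestronglyMeasurable (UMB.Lin.measurableSet_Ann R)).mul hint.aestronglyMeasurable
    · intro n
      filter_upwards with x
      simp only [hF]
      refine (norm_indicator_le_norm_self _ x).trans ?_
      rw [norm_mul, Real.norm_eq_abs, Real.norm_eq_abs, abs_of_nonneg (p8c_eta_nonneg _ _)]
      exact mul_le_of_le_one_left (abs_nonneg _) (p8c_eta_le _ _)
    · filter_upwards [ae_restrict_mem (UMB.Lin.measurableSet_Ann R)] with x hx
      have h1 : ∀ᶠ n in atTop, ‖x‖ < ρ n := hρl.eventually (lt_mem_nhds hx.2)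
      have h2 : ∀ᶠ n in atTop, u n < θ x := hul.eventually (gt_mem_nhds (h.pos x hx))
      refine Tendsto.congr' ?_ tendsto_const_nhds
      filter_upwards [h1, h2] with n hn1 hn2
      simp only [hF]
      rw [indicator_of_mem (show x ∈ Ann (ρ n) from ⟨hx.1, hn1⟩), p8c_eta_one (hu0 n) hn2.le, one_mul]
  refine le_of_tendsto' hlim fun n => ?_
  rw [hFint n]
  exact hstep n

/-- **P8c.** For `t > 0` and `R' < R` near `R`: with `η_t(z) = smoothTransition(2z/t - 1)` (`0` for `z ≤ t/2`, `1` for `z ≥ t`,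
monotone) apply `div_sub` to `F a = vol g * (η_t(θ) w gradU a)` (zero near the inner sphere by `Th.inner`), `div_grad`
with `η_t(θ) w` for `w`: `∑ pd a F = vol (η_t(θ) (dwG + w Δθ) + η_t'(θ) w |∇θ|²)`, the last term is `≥ 0`. The boundary term is
`≤ R'² · 4π · (1/R'²) · Λ · 9 Λ^{3/2} · (4/R)` (`Wt.le`, `grad_bd`, `Th.outer`). `t → 0` (dominated convergence; `θ > 0`) and
`R' → R`, then `lap_eq` and `y tr k ≥ 0`. -/
theorem int_grad : ∀ Λ : ℝ, ∃ C : ℝ, 0 < C ∧ ∀ (g k : Tens) (a Ce R : ℝ) (θ w : E3 → ℝ) (Cw ρ : ℝ), AF g a → Cmp g Λ →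
    Kk g k a → Th g k Ce R θ → Wt Cw ρ w →
    ∫ x in Ann R, w x * gsq g θ x * vol g x
      ≤ C / R + ∫ x in Ann R, (|dwG g w θ x| + w x * |MhTr g k θ x|) * vol g x := by
  intro Λ
  refine ⟨|(sig.real univ) * (36 * Λ ^ 2 * Real.sqrt Λ)| + 1, by positivity, ?_⟩
  intro g k a Ce R θ w Cw ρ hg hc hk h hw
  have met := p8c_met hg R
  obtain ⟨B, hB⟩ := bdd hg hk h
  obtain ⟨c1, c2, c3, c4, c5, c6, c7, c8, c9, c10⟩ := contOn hg hk h
  have hR4 := h.four_le
  have hR0 : 0 < R := by linarith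
  have hsubw : Ann R ⊆ {x : E3 | 1 / 2 < ‖x‖} := fun x hx => lt_trans (by norm_num) hx.1
  have hws : ContDiffOn ℝ ∞ w (Ann R) := hw.smooth.mono hsubw
  have hw0 : ∀ x ∈ Ann R, 0 ≤ w x := fun x hx => hw.nonneg x hx.1.le
  have hw1 : ∀ x ∈ Ann R, w x ≤ 1 := by
    intro x hx
    refine (hw.le x hx.1.le).trans ?_
    rw [div_le_one (by have := hx.1; positivity)]
    exact one_le_pow₀ hx.1.le
  have cdw : ContinuousOn (dwG g w θ) (Ann R) := by
    unfold dwG
    exact continuousOn_finsetSum _ fun i _ =>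
      ((smooth_pd (UMB.Lin.isOpen_Ann R) hws i).continuousOn).mul (met.gradU_smooth h.smooth i).continuousOn
  have hdwb : ∀ x ∈ Ann R, |dwG g w θ x| ≤ |Cw| * (3 * Λ * Real.sqrt Λ * B) := by
    intro x hx
    have hx1 : 1 ≤ ‖x‖ := hx.1.le
    have hg0 := met.gsq_nonneg (u := θ) hx
    refine (grad_bd hc hx1 θ w hg0).2.2.trans ?_
    have hgr := hw.grad x hx1
    have hy : yreg g θ 0 x ≤ B := (le_abs_self _).trans (hB x hx).2.1
    have hΛ := hc.pos
    have h1 : ∑ i, |pd i w x| ≤ |Cw| := by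
      refine hgr.trans ?_
      rw [div_le_iff₀ (by positivity)]
      have h2 : Real.sqrt (w x) ≤ 1 := Real.sqrt_le_one.2 (hw1 x hx)
      have h3 : (1 : ℝ) ≤ ‖x‖ ^ 2 := one_le_pow₀ hx1
      calc Cw * Real.sqrt (w x) ≤ |Cw| * 1 :=
            mul_le_mul (le_abs_self _) h2 (Real.sqrt_nonneg _) (abs_nonneg _)
        _ ≤ |Cw| * ‖x‖ ^ 2 := mul_le_mul_of_nonneg_left h3 (abs_nonneg _)
    have h4 : 0 ≤ yreg g θ 0 x := Real.sqrt_nonneg _
    gcongr
  have hB0 : ∀ x ∈ Ann R, 0 ≤ B := fun x hx => (abs_nonneg _).trans (hB x hx).1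
  have i1 : IntegrableOn (fun x => vol g x * (dwG g w θ x + w x * lapG g θ x)) (Ann R) := by
    refine p8c_bint (c10.mul (cdw.add (hws.continuousOn.mul c6)))
      (B := |B| * (|Cw| * (3 * Λ * Real.sqrt Λ * B) + 1 * |B|)) ?_
    intro x hx
    have hb := hB x hx
    have h1 : |w x| ≤ 1 := by rw [abs_of_nonneg (hw0 x hx)]; exact hw1 x hx
    have h2 : |lapG g θ x| ≤ |B| := hb.2.2.2.2.2.1.trans (le_abs_self _)
    have h3 : |vol g x| ≤ |B| := hb.2.2.2.2.2.2.2.2.2.1.trans (le_abs_self _)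
    rw [abs_mul]
    refine mul_le_mul h3 ?_ (abs_nonneg _) (abs_nonneg _)
    refine (abs_add_le _ _).trans (add_le_add (hdwb x hx) ?_)
    rw [abs_mul]
    exact mul_le_mul h1 h2 (abs_nonneg _) zero_le_one
  have i2 : IntegrableOn (fun x => (|dwG g w θ x| + w x * |MhTr g k θ x|) * vol g x) (Ann R) := by
    refine p8c_bint ((cdw.abs.add (hws.continuousOn.mul c3.abs)).mul c10)
      (B := (|Cw| * (3 * Λ * Real.sqrt Λ * B) + 1 * |B|) * |B|) ?_
    intro x hx
    have hb := hB x hx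
    have h1 : |w x| ≤ 1 := by rw [abs_of_nonneg (hw0 x hx)]; exact hw1 x hx
    have h2 : |MhTr g k θ x| ≤ |B| := hb.2.2.1.trans (le_abs_self _)
    have h3 : |vol g x| ≤ |B| := hb.2.2.2.2.2.2.2.2.2.1.trans (le_abs_self _)
    have h4 := hdwb x hx
    rw [abs_mul]
    refine mul_le_mul ?_ h3 (abs_nonneg _) (by have := (abs_nonneg _).trans h4; positivity)
    refine (abs_add_le _ _).trans (add_le_add (by rw [abs_abs]; exact h4) ?_)
    rw [abs_mul, abs_abs]
    exact mul_le_mul h1 h2 (abs_nonneg _) zero_le_one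
  have i3 : IntegrableOn (fun x => w x * gsq g θ x * vol g x) (Ann R) := by
    refine p8c_bint ((hws.continuousOn.mul c1).mul c10) (B := 1 * |B| * |B|) ?_
    intro x hx
    have hb := hB x hx
    have h1 : |w x| ≤ 1 := by rw [abs_of_nonneg (hw0 x hx)]; exact hw1 x hx
    have h2 : |gsq g θ x| ≤ |B| := hb.1.trans (le_abs_self _)
    have h3 : |vol g x| ≤ |B| := hb.2.2.2.2.2.2.2.2.2.1.trans (le_abs_self _)
    rw [abs_mul, abs_mul]
    exact mul_le_mul (mul_le_mul h1 h2 (abs_nonneg _) zero_le_one) h3 (abs_nonneg _) (by positivity)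
  have hcore := p8c_core hg hc h hws hw0 i1 (M := 1) ⟨1, one_pos, fun x hx _ => hw.le x (by linarith)⟩
  have hpt : ∀ x ∈ Ann R, w x * gsq g θ x * vol g x ≤ vol g x * (dwG g w θ x + w x * lapG g θ x)
      + (|dwG g w θ x| + w x * |MhTr g k θ x|) * vol g x := by
    intro x hx
    have hks : ∀ x ∈ Ann R, (k x).IsSymm := fun x hx => hk.symm x (lt_trans hg.lt hx.1)
    have h1 := lap_eq met hks (u := θ) hx
    have h2 := (k_sign met hks hx (hk.two x hx.1.le) θ).1
    have h3 : 0 ≤ yreg g θ 0 x := Real.sqrt_nonneg _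
    have h4 := (met.vol_pos hx).le
    have h5 := hw0 x hx
    have h6 := neg_abs_le (dwG g w θ x)
    have h7 := neg_abs_le (MhTr g k θ x)
    rw [h1]
    have h8 : 0 ≤ vol g x * ((dwG g w θ x + |dwG g w θ x|) + w x * (MhTr g k θ x + |MhTr g k θ x|)
        + w x * (yreg g θ 0 x * trg g k x)) := by
      have e1 : 0 ≤ dwG g w θ x + |dwG g w θ x| := by linarith
      have e2 : 0 ≤ MhTr g k θ x + |MhTr g k θ x| := by linarith
      positivity
    nlinarith [h8]
  have hfin : ∫ x in Ann R, w x * gsq g θ x * vol g x ≤ (∫ x in Ann R, vol g x * (dwG g w θ x + w x * lapG g θ x))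
      + ∫ x in Ann R, (|dwG g w θ x| + w x * |MhTr g k θ x|) * vol g x := by
    rw [← integral_add i1 i2]
    exact setIntegral_mono_on i3 (i1.add i2) (UMB.Lin.measurableSet_Ann R) hpt
  have hC : (sig.real univ) * (36 * Λ ^ 2 * Real.sqrt Λ) * 1 / R
      ≤ (|(sig.real univ) * (36 * Λ ^ 2 * Real.sqrt Λ)| + 1) / R := by
    refine div_le_div_of_nonneg_right ?_ hR0.le
    have := le_abs_self ((sig.real univ) * (36 * Λ ^ 2 * Real.sqrt Λ))
    linarith
  linarith

end UMB.E
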