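import Pool.Agent.Lib.UMB.E.P8
import Pool.Agent.Lib.UMB.E.P6
import Pool.Agent.Lib.UMB.E.P7
import Pool.Agent.Lib.UMB.E.P8c

set_option autoImplicit false

/-!
# UMB.E chunk P10a: the second integrated identity
-/

open Filter Topology Set MeasureTheory
open scoped ContDiff

namespace UMB.E

open Pool.Agent.Lib.PenroseSph (E3 Tens pd trg)
open UMB.Lin (Ann cAnn sig)

/-- comparison of the regularised lengths -/
theorem p10a_yreg_le {g : Tens} {θ : E3 → ℝ} {x : E3} (h0 : 0 ≤ gsq g θ x) {e : ℝ} (he : 0 ≤ e) :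
    yreg g θ e x ≤ yreg g θ 0 x + Real.sqrt e := by
  unfold yreg
  rw [add_zero]
  apply Real.sqrt_le_iff.2
  refine ⟨by positivity, ?_⟩
  have h1 := Real.sq_sqrt h0
  have h2 := Real.sq_sqrt he
  have h3 := mul_nonneg (Real.sqrt_nonneg (gsq g θ x)) (Real.sqrt_nonneg e)
  nlinarith

theorem p10a_yreg_ge {g : Tens} {θ : E3 → ℝ} {x : E3} {e : ℝ} (he : 0 ≤ e) :
    yreg g θ 0 x ≤ yreg g θ e x := by
  unfold yreg
  exact Real.sqrt_le_sqrt (by linarith)

/-- `|hgg|/y_e` is bounded uniformly in `e ≥ 0`. -/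
theorem p10a_hgg {g k : Tens} {a Ce R Λ : ℝ} {θ : E3 → ℝ} (hg : AF g a) (hc : Cmp g Λ) (hk : Kk g k a)
    (h : Th g k Ce R θ) {B : ℝ} {x : E3} (hx : x ∈ Ann R)
    (hb1 : |gsq g θ x| ≤ B) (hb2 : |yreg g θ 0 x| ≤ B) (hb3 : |MhSq g k θ x| ≤ B) (hb4 : |kGG g k θ x| ≤ B) {e : ℝ}
    (he : 0 ≤ e) : |hgg g θ x / yreg g θ e x| ≤ Real.sqrt B * B + B * B + B := by
  have met := p8c_met hg R
  have hks : ∀ x ∈ Ann R, (k x).IsSymm := fun x hx => hk.symm x (lt_trans hg.lt hx.1)
  have hg0 := met.gsq_nonneg (u := θ) hx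
  have hy0 : 0 ≤ yreg g θ 0 x := Real.sqrt_nonneg _
  have hye := p10a_yreg_ge (g := g) (θ := θ) (x := x) he
  have hB0 : 0 ≤ B := (abs_nonneg _).trans hb1
  have hysq : yreg g θ 0 x ^ 2 = gsq g θ x := ysq_zero hg0
  rw [abs_of_nonneg hg0] at hb1
  rw [abs_of_nonneg hy0] at hb2
  rcases hy0.lt_or_eq with hy | hy
  · have hM := (mh_ineq met hks h.smooth hx).2.2
    have hM0 := (mh_ineq met hks h.smooth hx).1
    have hM1 : |MhGG g k θ x| ≤ Real.sqrt B * gsq g θ x := by
      rw [← Real.sqrt_sq_eq_abs]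
      have h1 : MhGG g k θ x ^ 2 ≤ B * gsq g θ x ^ 2 :=
        hM.trans (mul_le_mul_of_nonneg_right ((le_abs_self _).trans hb3) (sq_nonneg _))
      refine (Real.sqrt_le_sqrt h1).trans (le_of_eq ?_)
      rw [Real.sqrt_mul hB0, Real.sqrt_sq hg0]
    have h2 : |hgg g θ x| ≤ (Real.sqrt B * yreg g θ 0 x + yreg g θ 0 x * gsq g θ x + B) * yreg g θ 0 x := by
      rw [hgg_eq' met hx (k := k)]
      have e1 : |MhGG g k θ x - gsq g θ x ^ 2 + yreg g θ 0 x * kGG g k θ x|
          ≤ |MhGG g k θ x| + gsq g θ x ^ 2 + yreg g θ 0 x * |kGG g k θ x| := by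
        refine (abs_add_le _ _).trans ?_
        refine add_le_add ((abs_sub _ _).trans ?_) ?_
        · rw [abs_of_nonneg (sq_nonneg (gsq g θ x))]
        · rw [abs_mul, abs_of_nonneg hy0]
      refine e1.trans ?_
      have e2 : yreg g θ 0 x * |kGG g k θ x| ≤ yreg g θ 0 x * B := mul_le_mul_of_nonneg_left hb4 hy0
      have e3 : gsq g θ x ^ 2 = yreg g θ 0 x * gsq g θ x * yreg g θ 0 x := by
        rw [← hysq]; ring
      rw [← hysq] at hM1
      nlinarith
    have h3 : 0 < yreg g θ e x := lt_of_lt_of_le hy hye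
    rw [abs_div, abs_of_pos h3, div_le_iff₀ h3]
    refine h2.trans ?_
    have h4 : Real.sqrt B * yreg g θ 0 x + yreg g θ 0 x * gsq g θ x + B ≤ Real.sqrt B * B + B * B + B := by
      have e4 : Real.sqrt B * yreg g θ 0 x ≤ Real.sqrt B * B := mul_le_mul_of_nonneg_left hb2 (Real.sqrt_nonneg _)
      have e5 : yreg g θ 0 x * gsq g θ x ≤ B * B := mul_le_mul hb2 hb1 hg0 hB0
      linarith
    exact mul_le_mul h4 hye hy0 (by positivity)
  · have hx1 : 1 ≤ ‖x‖ := hx.1.le
    have hgr := (grad_bd hc hx1 θ θ hg0).2.1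
    have h0 : ∀ i, gradU g θ i x = 0 := by
      intro i
      have := hgr i
      rw [← hy, mul_zero] at this
      exact abs_nonpos_iff.1 this
    have h1 : hgg g θ x = 0 := by
      unfold hgg
      simp [h0]
    rw [h1]
    simp
    positivity

theorem p10a_hgg_lim {g : Tens} {a R Λ : ℝ} {θ : E3 → ℝ} (hg : AF g a) (hc : Cmp g Λ)
    {x : E3} (hx : x ∈ Ann R) {u : ℕ → ℝ} (hu : Tendsto u atTop (𝓝 0)) :
    Tendsto (fun n => yreg g θ (u n) x) atTop (𝓝 (yreg g θ 0 x)) ∧
    Tendsto (fun n => hgg g θ x / yreg g θ (u n) x) atTop (𝓝 (hgg g θ x / yreg g θ 0 x)) := by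
  have met := p8c_met hg R
  have hg0 := met.gsq_nonneg (u := θ) hx
  have hy0 : 0 ≤ yreg g θ 0 x := Real.sqrt_nonneg _
  have h1 : Tendsto (fun n => yreg g θ (u n) x) atTop (𝓝 (yreg g θ 0 x)) := by
    unfold yreg
    exact (Real.continuous_sqrt.tendsto _).comp (hu.const_add (gsq g θ x))
  refine ⟨h1, ?_⟩
  rcases hy0.lt_or_eq with hy | hy
  · exact tendsto_const_nhds.div h1 hy.ne'
  · have hx1 : 1 ≤ ‖x‖ := hx.1.le
    have hgr := (grad_bd hc hx1 θ θ hg0).2.1
    have h0 : ∀ i, gradU g θ i x = 0 := by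
      intro i
      have := hgr i
      rw [← hy, mul_zero] at this
      exact abs_nonpos_iff.1 this
    have h1 : hgg g θ x = 0 := by
      unfold hgg
      simp [h0]
    simp only [h1, zero_div]
    exact tendsto_const_nhds

/-- **P10a.** With `e > 0`, `η_t` as in P8c: `div_sub` for `F a = vol g * (η_t(θ) w exp θ y_e gradU a)`, `div_y` with `η_t(θ) w`
for `w`: the term `η_t'(θ) w exp θ y_e |∇θ|²` is `≥ 0`. Boundary term `≤ R'² 4π R'⁻² Λ · Ce R · (4/R + √e) · 9 Λ^{3/2} (4/R)`.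
`e → 0`: `y_e → y` uniformly, `|hgg/y_e| ≤ |hgg|/y` is bounded (`|hgg| ≤ C y²`: `hgg_eq'`, `mh_ineq`), pointwise convergence also
where `y = 0` (`hgg = 0` there); `t → 0`, `R' → R`. -/
theorem int_y0 : ∀ Λ : ℝ, ∃ C : ℝ, 0 < C ∧ ∀ (g k : Tens) (a Ce R : ℝ) (θ w : E3 → ℝ) (Cw ρ : ℝ), AF g a → Cmp g Λ →
    Kk g k a → 0 ≤ Ce → Th g k Ce R θ → Wt Cw ρ w →
    ∫ x in Ann R, w x * Real.exp (θ x) * (yreg g θ 0 x * gsq g θ x + yreg g θ 0 x * lapG g θ x
        + hgg g θ x / yreg g θ 0 x) * vol g x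
      ≤ C * Ce / R + ∫ x in Ann R, Real.exp (θ x) * yreg g θ 0 x * |dwG g w θ x| * vol g x := by
  intro Λ
  set S : ℝ := (sig.real univ) * (36 * Λ ^ 2 * Real.sqrt Λ) with hS
  refine ⟨4 * |S| + 1, by positivity, ?_⟩
  intro g k a Ce R θ w Cw ρ hg hc hk hCe h hw
  have met := p8c_met hg R
  obtain ⟨B, hB⟩ := bdd hg hk h
  obtain ⟨c1, c2, c3, c4, c5, c6, c7, c8, c9, c10⟩ := contOn hg hk h
  have hR4 := h.four_le
  have hR0 : 0 < R := by linarith
  have hsubw : Ann R ⊆ {x : E3 | 1 / 2 < ‖x‖} := fun x hx => lt_trans (by norm_num) hx.1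
  have hws : ContDiffOn ℝ ∞ w (Ann R) := hw.smooth.mono hsubw
  have hw0 : ∀ x ∈ Ann R, 0 ≤ w x := fun x hx => hw.nonneg x hx.1.le
  have hw1 : ∀ x ∈ Ann R, w x ≤ 1 := by
    intro x hx
    refine (hw.le x hx.1.le).trans ?_
    rw [div_le_one (by have := hx.1; positivity)]
    exact one_le_pow₀ hx.1.le
  have cdw : ContinuousOn (dwG g w θ) (Ann R) := by
    unfold dwG
    exact continuousOn_finsetSum _ fun i _ =>
      ((smooth_pd (UMB.Lin.isOpen_Ann R) hws i).continuousOn).mul (met.gradU_smooth h.smooth i).continuousOn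
  have cexp : ContinuousOn (fun x => Real.exp (θ x)) (Ann R) := Real.continuous_exp.comp_continuousOn h.smooth.continuousOn
  have hΛ := hc.pos
  -- a common bound
  set A : ℝ := |Cw| * (3 * Λ * Real.sqrt Λ * |B|) with hA
  have hA0 : 0 ≤ A := by positivity
  have hdwb : ∀ x ∈ Ann R, |dwG g w θ x| ≤ A := by
    intro x hx
    have hx1 : 1 ≤ ‖x‖ := hx.1.le
    have hg0 := met.gsq_nonneg (u := θ) hx
    refine (grad_bd hc hx1 θ w hg0).2.2.trans ?_
    have hgr := hw.grad x hx1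
    have hy : yreg g θ 0 x ≤ |B| := ((le_abs_self _).trans (hB x hx).2.1).trans (le_abs_self _)
    have h1 : ∑ i, |pd i w x| ≤ |Cw| := by
      refine hgr.trans ?_
      rw [div_le_iff₀ (by positivity)]
      have h2 : Real.sqrt (w x) ≤ 1 := Real.sqrt_le_one.2 (hw1 x hx)
      have h3 : (1 : ℝ) ≤ ‖x‖ ^ 2 := one_le_pow₀ hx1
      calc Cw * Real.sqrt (w x) ≤ |Cw| * 1 :=
            mul_le_mul (le_abs_self _) h2 (Real.sqrt_nonneg _) (abs_nonneg _)
        _ ≤ |Cw| * ‖x‖ ^ 2 := mul_le_mul_of_nonneg_left h3 (abs_nonneg _)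
    have h4 : 0 ≤ yreg g θ 0 x := Real.sqrt_nonneg _
    rw [hA]
    gcongr
  set Q : ℝ := Real.sqrt |B| * |B| + |B| * |B| + |B| with hQ
  have hQ0 : 0 ≤ Q := by positivity
  have hgq : ∀ x ∈ Ann R, ∀ e : ℝ, 0 ≤ e → |hgg g θ x / yreg g θ e x| ≤ Q := by
    intro x hx e he
    have hb := hB x hx
    exact p10a_hgg hg hc hk h hx (hb.1.trans (le_abs_self _)) (hb.2.1.trans (le_abs_self _))
      (hb.2.2.2.1.trans (le_abs_self _)) (hb.2.2.2.2.2.2.2.2.1.trans (le_abs_self _)) he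
  -- the integrands
  set fe : ℝ → E3 → ℝ := fun e x => vol g x * (Real.exp (θ x) * yreg g θ e x * dwG g w θ x + w x * Real.exp (θ x) *
          (yreg g θ e x * gsq g θ x + yreg g θ e x * lapG g θ x + hgg g θ x / yreg g θ e x)) with hfe
  set Bd : ℝ := |B| * (Real.exp |B| * (|B| + 1) * A + 1 * Real.exp |B| * ((|B| + 1) * |B| + (|B| + 1) * |B| + Q)) with hBd
  have hfeb : ∀ e : ℝ, 0 ≤ e → e ≤ 1 → ∀ x ∈ Ann R, |fe e x| ≤ Bd := by
    intro e he he1 x hx
    have hb := hB x hx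
    have hg0 := met.gsq_nonneg (u := θ) hx
    have k1 : |vol g x| ≤ |B| := hb.2.2.2.2.2.2.2.2.2.1.trans (le_abs_self _)
    have k2 : |Real.exp (θ x)| ≤ Real.exp |B| := by
      rw [abs_of_pos (Real.exp_pos _)]
      exact Real.exp_le_exp.2 ((le_abs_self _).trans (hb.2.2.2.2.2.2.2.2.2.2.trans (le_abs_self _)))
    have k3 : |yreg g θ e x| ≤ |B| + 1 := by
      rw [abs_of_nonneg (show 0 ≤ yreg g θ e x from Real.sqrt_nonneg _)]
      refine (p10a_yreg_le hg0 he).trans (add_le_add ?_ (Real.sqrt_le_one.2 he1))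
      exact ((le_abs_self _).trans hb.2.1).trans (le_abs_self _)
    have k4 := hdwb x hx
    have k5 : |w x| ≤ 1 := by rw [abs_of_nonneg (hw0 x hx)]; exact hw1 x hx
    have k6 : |gsq g θ x| ≤ |B| := hb.1.trans (le_abs_self _)
    have k7 : |lapG g θ x| ≤ |B| := hb.2.2.2.2.2.1.trans (le_abs_self _)
    have k8 := hgq x hx e he
    simp only [hfe]
    rw [abs_mul]
    refine mul_le_mul k1 ?_ (abs_nonneg _) (abs_nonneg _)
    refine (abs_add_le _ _).trans (add_le_add ?_ ?_)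
    · rw [abs_mul, abs_mul]
      exact mul_le_mul (mul_le_mul k2 k3 (abs_nonneg _) (Real.exp_pos _).le) k4 (abs_nonneg _) (by positivity)
    · rw [abs_mul, abs_mul]
      refine mul_le_mul (mul_le_mul k5 k2 (abs_nonneg _) zero_le_one) ?_ (abs_nonneg _) (by positivity)
      refine (abs_add_le _ _).trans (add_le_add ((abs_add_le _ _).trans (add_le_add ?_ ?_)) k8)
      · rw [abs_mul]
        exact mul_le_mul k3 k6 (abs_nonneg _) (by positivity)
      · rw [abs_mul]
        exact mul_le_mul k3 k7 (abs_nonneg _) (by positivity)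
  have hfec : ∀ e : ℝ, 0 < e → ContinuousOn (fe e) (Ann R) := by
    intro e he
    have cy : ContinuousOn (yreg g θ e) (Ann R) := (met.yreg_smooth h.smooth he).continuousOn
    exact c10.mul (((cexp.mul cy).mul cdw).add ((hws.continuousOn.mul cexp).mul
      (((cy.mul c1).add (cy.mul c6)).add (c7.div cy fun x hx => (met.yreg_pos he hx).ne'))))
  have hfei : ∀ e : ℝ, 0 < e → e ≤ 1 → IntegrableOn (fe e) (Ann R) := fun e he he1 =>
    p8c_bint (hfec e he) (hfeb e he.le he1)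
  -- the inequality for e > 0
  have hstep : ∀ e : ℝ, 0 < e → e ≤ 1 → ∫ x in Ann R, fe e x ≤ S * (Ce * R * (4 / R + Real.sqrt e)) / R := by
    intro e he he1
    have cyw : ContDiffOn ℝ ∞ (fun y => w y * Real.exp (θ y) * yreg g θ e y) (Ann R) :=
      (hws.mul (Real.contDiff_exp.comp_contDiffOn h.smooth)).mul (met.yreg_smooth h.smooth he)
    have heq : ∀ x ∈ Ann R, fe e x = vol g x * (dwG g (fun y => w y * Real.exp (θ y) * yreg g θ e y) θ x
        + (fun y => w y * Real.exp (θ y) * yreg g θ e y) x * lapG g θ x) := by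
      intro x hx
      have h1 := div_grad met h.smooth cyw hx
      have h2 := div_y met h.smooth hws he hx
      simp only [hfe]
      rw [← h2, ← h1]
    have hi : IntegrableOn (fun x => vol g x * (dwG g (fun y => w y * Real.exp (θ y) * yreg g θ e y) θ x
        + (fun y => w y * Real.exp (θ y) * yreg g θ e y) x * lapG g θ x)) (Ann R) :=
      (hfei e he he1).congr_fun heq (UMB.Lin.measurableSet_Ann R)
    have hW0 : ∀ x ∈ Ann R, 0 ≤ (fun y => w y * Real.exp (θ y) * yreg g θ e y) x := by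
      intro x hx
      have := hw0 x hx
      have h2 : 0 ≤ yreg g θ e x := Real.sqrt_nonneg _
      simp only
      positivity
    obtain ⟨s, hs, hout⟩ := h.outer
    have hM : ∃ s : ℝ, 0 < s ∧ ∀ x : E3, R - s < ‖x‖ → ‖x‖ < R →
        (fun y => w y * Real.exp (θ y) * yreg g θ e y) x ≤ (Ce * R * (4 / R + Real.sqrt e)) / ‖x‖ ^ 2 := by
      refine ⟨min s 1, lt_min hs one_pos, ?_⟩
      intro x hx1 hx2
      have hxs : R - s < ‖x‖ := by have := min_le_left s 1; linarith
      have hx3 : 1 < ‖x‖ := by have := min_le_right s 1; linarith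
      have hxA : x ∈ Ann R := ⟨hx3, hx2⟩
      have hg0 := met.gsq_nonneg (u := θ) hxA
      have q1 := hw.le x hx3.le
      have q2 : Real.exp (θ x) ≤ Ce * R := (h.up x hxA).trans (mul_le_mul_of_nonneg_left hx2.le hCe)
      have q3 : yreg g θ e x ≤ 4 / R + Real.sqrt e :=
        (p10a_yreg_le hg0 he.le).trans (add_le_add (hout x hxs hx2) le_rfl)
      have q4 := hw0 x hxA
      have q5 : 0 ≤ yreg g θ e x := Real.sqrt_nonneg _
      have q6 : 0 ≤ 1 / ‖x‖ ^ 2 := by positivity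
      calc w x * Real.exp (θ x) * yreg g θ e x ≤ (1 / ‖x‖ ^ 2) * (Ce * R) * (4 / R + Real.sqrt e) :=
            mul_le_mul (mul_le_mul q1 q2 (Real.exp_pos _).le q6) q3 q5 (by positivity)
        _ = _ := by ring
    have := p8c_core hg hc h cyw hW0 hi hM
    rw [setIntegral_congr_fun (UMB.Lin.measurableSet_Ann R) heq]
    exact this
  -- the limit
  set u : ℕ → ℝ := fun n => 1 / ((n : ℝ) + 1) with hu
  have hu0 : ∀ n, 0 < u n := fun n => by simp only [hu]; positivity
  have hu1 : ∀ n, u n ≤ 1 := fun n => by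
    simp only [hu]
    rw [div_le_one (by positivity)]
    have : (0 : ℝ) ≤ n := Nat.cast_nonneg n
    linarith
  have hul : Tendsto u atTop (𝓝 0) := tendsto_one_div_add_atTop_nhds_zero_nat
  have : IsFiniteMeasure (volume.restrict (Ann R)) :=
    ⟨by rw [Measure.restrict_apply_univ]; exact UMB.Lin.volume_Ann_lt_top R⟩
  have hlimx : ∀ x ∈ Ann R, Tendsto (fun n => fe (u n) x) atTop (𝓝 (fe 0 x)) := by
    intro x hx
    obtain ⟨l1, l2⟩ := p10a_hgg_lim hg hc hx hul
    simp only [hfe]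
    exact (((l1.const_mul _).mul_const _).add ((((l1.mul_const _).add (l1.mul_const _)).add l2).const_mul _)).const_mul _
  have hlim : Tendsto (fun n => ∫ x in Ann R, fe (u n) x) atTop (𝓝 (∫ x in Ann R, fe 0 x)) := by
    refine tendsto_integral_of_dominated_convergence (fun _ => Bd) ?_ (integrable_const _) ?_ ?_
    · intro n
      exact (hfec (u n) (hu0 n)).aestronglyMeasurable (UMB.Lin.measurableSet_Ann R)
    · intro n
      filter_upwards [ae_restrict_mem (UMB.Lin.measurableSet_Ann R)] with x hx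
      exact hfeb (u n) (hu0 n).le (hu1 n) x hx
    · filter_upwards [ae_restrict_mem (UMB.Lin.measurableSet_Ann R)] with x hx
      exact hlimx x hx
  have hlimc : Tendsto (fun n => S * (Ce * R * (4 / R + Real.sqrt (u n))) / R) atTop
      (𝓝 (S * (Ce * R * (4 / R + Real.sqrt 0)) / R)) :=
    ((((((Real.continuous_sqrt.tendsto 0).comp hul).const_add _).const_mul _).const_mul _).div_const _)
  have hmain : ∫ x in Ann R, fe 0 x ≤ S * (Ce * R * (4 / R + Real.sqrt 0)) / R :=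
    le_of_tendsto_of_tendsto' hlim hlimc fun n => hstep (u n) (hu0 n) (hu1 n)
  have hfe0m : AEStronglyMeasurable (fe 0) (volume.restrict (Ann R)) := by
    refine aestronglyMeasurable_of_tendsto_ae atTop (f := fun n => fe (u n)) ?_ ?_
    · intro n
      exact (hfec (u n) (hu0 n)).aestronglyMeasurable (UMB.Lin.measurableSet_Ann R)
    · filter_upwards [ae_restrict_mem (UMB.Lin.measurableSet_Ann R)] with x hx
      exact hlimx x hx
  have hfe0i : IntegrableOn (fe 0) (Ann R) := by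
    refine Integrable.of_bound hfe0m Bd ?_
    filter_upwards [ae_restrict_mem (UMB.Lin.measurableSet_Ann R)] with x hx
    exact hfeb 0 le_rfl zero_le_one x hx
  have i2 : IntegrableOn (fun x => Real.exp (θ x) * yreg g θ 0 x * |dwG g w θ x| * vol g x) (Ann R) := by
    refine p8c_bint (((cexp.mul c2).mul cdw.abs).mul c10) (B := Real.exp |B| * |B| * A * |B|) ?_
    intro x hx
    have hb := hB x hx
    have k1 : |vol g x| ≤ |B| := hb.2.2.2.2.2.2.2.2.2.1.trans (le_abs_self _)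
    have k2 : |Real.exp (θ x)| ≤ Real.exp |B| := by
      rw [abs_of_pos (Real.exp_pos _)]
      exact Real.exp_le_exp.2 ((le_abs_self _).trans (hb.2.2.2.2.2.2.2.2.2.2.trans (le_abs_self _)))
    have k3 : |yreg g θ 0 x| ≤ |B| := hb.2.1.trans (le_abs_self _)
    have k4 := hdwb x hx
    rw [abs_mul, abs_mul, abs_mul, abs_abs]
    exact mul_le_mul (mul_le_mul (mul_le_mul k2 k3 (abs_nonneg _) (Real.exp_pos _).le) k4 (abs_nonneg _) (by positivity))
      k1 (abs_nonneg _) (by positivity)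
  have heq : ∀ x, w x * Real.exp (θ x) * (yreg g θ 0 x * gsq g θ x + yreg g θ 0 x * lapG g θ x
        + hgg g θ x / yreg g θ 0 x) * vol g x = fe 0 x - vol g x * (Real.exp (θ x) * yreg g θ 0 x * dwG g w θ x) := by
    intro x
    simp only [hfe]
    ring
  have i4 : IntegrableOn (fun x => vol g x * (Real.exp (θ x) * yreg g θ 0 x * dwG g w θ x)) (Ann R) := by
    refine Integrable.mono i2 ?_ ?_
    · exact (c10.mul ((cexp.mul c2).mul cdw)).aestronglyMeasurable (UMB.Lin.measurableSet_Ann R)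
    · filter_upwards with x
      rw [Real.norm_eq_abs, Real.norm_eq_abs]
      simp only [abs_mul, abs_abs]
      exact le_of_eq (by ring)
  have i3 : IntegrableOn (fun x => w x * Real.exp (θ x) * (yreg g θ 0 x * gsq g θ x + yreg g θ 0 x * lapG g θ x
        + hgg g θ x / yreg g θ 0 x) * vol g x) (Ann R) := by
    simp only [heq]
    exact hfe0i.sub i4
  have hpt : ∀ x ∈ Ann R, w x * Real.exp (θ x) * (yreg g θ 0 x * gsq g θ x + yreg g θ 0 x * lapG g θ x
        + hgg g θ x / yreg g θ 0 x) * vol g x ≤ fe 0 x + Real.exp (θ x) * yreg g θ 0 x * |dwG g w θ x| * vol g x := by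
    intro x hx
    rw [heq x]
    have h2 := neg_abs_le (dwG g w θ x)
    have h3 : 0 ≤ yreg g θ 0 x := Real.sqrt_nonneg _
    have h4 := (met.vol_pos hx).le
    have h5 : 0 ≤ vol g x * (Real.exp (θ x) * yreg g θ 0 x * (dwG g w θ x + |dwG g w θ x|)) := by
      have e1 : 0 ≤ dwG g w θ x + |dwG g w θ x| := by linarith
      positivity
    nlinarith [h5]
  have hfin : ∫ x in Ann R, w x * Real.exp (θ x) * (yreg g θ 0 x * gsq g θ x + yreg g θ 0 x * lapG g θ x
        + hgg g θ x / yreg g θ 0 x) * vol g x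
      ≤ (∫ x in Ann R, fe 0 x) + ∫ x in Ann R, Real.exp (θ x) * yreg g θ 0 x * |dwG g w θ x| * vol g x := by
    rw [← integral_add hfe0i i2]
    exact setIntegral_mono_on i3 (hfe0i.add i2) (UMB.Lin.measurableSet_Ann R) hpt
  have hC : S * (Ce * R * (4 / R + Real.sqrt 0)) / R ≤ (4 * |S| + 1) * Ce / R := by
    refine div_le_div_of_nonneg_right ?_ hR0.le
    rw [Real.sqrt_zero, add_zero]
    have e1 : S * (Ce * R * (4 / R)) = 4 * S * Ce := by field_simp
    rw [e1]
    have := le_abs_self S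
    nlinarith
  linarith

end UMB.E
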