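import Pool.Agent.Lib.UMB.E.P10a

set_option autoImplicit false

/-!
# UMB.E chunk P10b: the second integrated inequality
-/

open Filter Topology Set MeasureTheory
open scoped ContDiff

namespace UMB.E

open Pool.Agent.Lib.PenroseSph (E3 Tens pd trg)
open UMB.Lin (Ann cAnn sig)

namespace P10bAux

theorem ann_open (R : ℝ) : IsOpen (Ann R) := by
  have h1 : Ann R = {x : E3 | 1 < ‖x‖} ∩ {x : E3 | ‖x‖ < R} := rfl
  rw [h1]
  exact (isOpen_lt continuous_const continuous_norm).inter (isOpen_lt continuous_norm continuous_const)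

theorem ann_fin (R : ℝ) : volume (Ann R) < ⊤ := by
  refine lt_of_le_of_lt (measure_mono (t := Metric.ball (0 : E3) R) ?_) measure_ball_lt_top
  intro x hx
  simpa using hx.2

theorem integ {R : ℝ} {f : E3 → ℝ} (hm : AEMeasurable f (volume.restrict (Ann R))) {B : ℝ}
    (hB : ∀ x ∈ Ann R, |f x| ≤ B) : IntegrableOn f (Ann R) := by
  refine IntegrableOn.of_bound (ann_fin R) hm.aestronglyMeasurable B ?_
  exact (ae_restrict_iff' (ann_open R).measurableSet).2 (Eventually.of_forall fun x hx => hB x hx)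

/-- pointwise algebra -/
theorem alg {y f lp hg mt mg ms tk kg : ℝ} (hy : 0 ≤ y) (hyf : y ^ 2 = f) (hl : lp = mt + f + y * tk)
    (hh : hg = mg - f ^ 2 + y * kg) (h0 : 0 ≤ ms) (h1 : mt ^ 2 ≤ 3 * ms) (h2 : mg ^ 2 ≤ ms * f ^ 2)
    (h3 : 0 ≤ f * tk + kg) :
    y ^ 3 ≤ (y * f + y * lp + hg / y) + 3 * y * Real.sqrt ms ∧ |hg / y| ≤ Real.sqrt ms * y + y ^ 3 + |kg| := by
  rcases hy.eq_or_lt with h | h
  · subst h
    simp
  · have hs0 := Real.sqrt_nonneg ms
    have hs2 : Real.sqrt ms ^ 2 = ms := Real.sq_sqrt h0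
    have hf : f = y ^ 2 := hyf.symm
    have hmt : |mt| ≤ 9 / 5 * Real.sqrt ms := by
      refine abs_le_of_sq_le_sq ?_ (by positivity)
      nlinarith
    have hmg : |mg| ≤ Real.sqrt ms * y ^ 2 := by
      refine abs_le_of_sq_le_sq ?_ (by positivity)
      calc mg ^ 2 ≤ ms * f ^ 2 := h2
        _ = (Real.sqrt ms * y ^ 2) ^ 2 := by rw [hf, mul_pow, hs2]
    have hd : hg / y = mg / y - y ^ 3 + kg := by
      rw [hh, hf]; field_simp
    have hmgy : |mg / y| ≤ Real.sqrt ms * y := by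
      rw [abs_div, abs_of_pos h, div_le_iff₀ h]
      calc |mg| ≤ Real.sqrt ms * y ^ 2 := hmg
        _ = Real.sqrt ms * y * y := by ring
    constructor
    · rw [hd, hl, hf]
      rw [hf] at h3
      have e1 := (abs_le.1 hmgy).1
      have e2 := (abs_le.1 hmt).1
      nlinarith [mul_le_mul_of_nonneg_left e2 h.le, mul_nonneg hs0 h.le]
    · rw [hd]
      have e3 := abs_add_le (mg / y - y ^ 3) kg
      have e4 := abs_sub (mg / y) (y ^ 3)
      have e5 : |y ^ 3| = y ^ 3 := abs_of_pos (by positivity)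
      linarith

end P10bAux

open P10bAux in
/-- **P10b.** `y |∇θ|² + y Δθ + hgg/y = y³ + (y tr Mh + Mh(∇θ,∇θ)/y) + (|∇θ|² tr k + k(∇θ,∇θ))` (`lap_eq`, `hgg_eq'`; where `y = 0`
everything is `0`), the last bracket is `≥ 0` (`k_sign`), the middle one is `≥ - 3 y √MhSq` (`mh_ineq`). -/
theorem int_y : ∀ Λ : ℝ, ∃ C : ℝ, 0 < C ∧ ∀ (g k : Tens) (a Ce R : ℝ) (θ w : E3 → ℝ) (Cw ρ : ℝ), AF g a → Cmp g Λ →
    Kk g k a → 0 ≤ Ce → Th g k Ce R θ → Wt Cw ρ w →
    ∫ x in Ann R, w x * Real.exp (θ x) * yreg g θ 0 x ^ 3 * vol g x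
      ≤ C * Ce / R + ∫ x in Ann R, Real.exp (θ x) * yreg g θ 0 x *
        (|dwG g w θ x| + 3 * w x * Real.sqrt (MhSq g k θ x)) * vol g x := by
  intro Λ
  obtain ⟨C, hC, hint⟩ := int_y0 Λ
  refine ⟨C, hC, ?_⟩
  intro g k a Ce R θ w Cw ρ hg hcmp hk hCe hth hw
  have h0 := hint g k a Ce R θ w Cw ρ hg hcmp hk hCe hth hw
  have ha := hg.lt
  have hann1 : ∀ x ∈ Ann R, 1 ≤ ‖x‖ := fun x hx => hx.1.le
  have hsub : Ann R ⊆ {x : E3 | a < ‖x‖} := fun x hx => by
    have := hx.1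
    show a < ‖x‖
    linarith
  have hmet : MetOn g (Ann R) :=
    ⟨ann_open R, fun i j => (hg.smooth i j).mono hsub, fun x hx => hg.symm x (hsub hx),
      fun x hx v hv => hg.pos x (hsub hx) v hv⟩
  have hks : ∀ x ∈ Ann R, (k x).IsSymm := fun x hx => hk.symm x (hsub hx)
  have hbB := bdd hg hk hth
  obtain ⟨B, hB⟩ := hbB
  obtain ⟨c1, c2, c3, c4, c5, c6, c7, c8, c9, c10⟩ := contOn hg hk hth
  have hms := (ann_open R).measurableSet
  have am : ∀ {f : E3 → ℝ}, ContinuousOn f (Ann R) → AEMeasurable f (volume.restrict (Ann R)) :=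
    fun hf => hf.aemeasurable hms
  have mθ := am hth.smooth.continuousOn
  have mE : AEMeasurable (fun x => Real.exp (θ x)) (volume.restrict (Ann R)) := Real.measurable_exp.comp_aemeasurable mθ
  have hsub2 : Ann R ⊆ {x : E3 | 1 / 2 < ‖x‖} := fun x hx => by
    have := hx.1
    show 1 / 2 < ‖x‖
    linarith
  have mw := am (hw.smooth.continuousOn.mono hsub2)
  have my := am c2
  have mf := am c1
  have mms := am c4
  have ml := am c6
  have mh := am c7
  have mv := am c10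
  have mdw : AEMeasurable (dwG g w θ) (volume.restrict (Ann R)) := by
    refine am ?_
    unfold dwG
    refine continuousOn_finsetSum _ fun i _ => ?_
    refine ContinuousOn.mul ?_ (hmet.gradU_smooth hth.smooth i).continuousOn
    exact ((smooth_pd (isOpen_lt continuous_const continuous_norm) hw.smooth i).continuousOn).mono hsub2
  -- pointwise facts
  have hy0 : ∀ x, 0 ≤ yreg g θ 0 x := fun x => Real.sqrt_nonneg _
  have hy2 : ∀ x ∈ Ann R, yreg g θ 0 x ^ 2 = gsq g θ x := fun x hx => ysq_zero (hmet.gsq_nonneg hx)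
  have hmh : ∀ x ∈ Ann R, 0 ≤ MhSq g k θ x ∧ MhTr g k θ x ^ 2 ≤ 3 * MhSq g k θ x ∧
      MhGG g k θ x ^ 2 ≤ MhSq g k θ x * gsq g θ x ^ 2 := fun x hx => mh_ineq hmet hks hth.smooth hx
  have hksg : ∀ x ∈ Ann R, 0 ≤ gsq g θ x * trg g k x + kGG g k θ x := fun x hx =>
    (k_sign hmet hks hx (hk.two x (hann1 x hx)) θ).2.2
  have halg : ∀ x ∈ Ann R, yreg g θ 0 x ^ 3 ≤ (yreg g θ 0 x * gsq g θ x + yreg g θ 0 x * lapG g θ x
        + hgg g θ x / yreg g θ 0 x) + 3 * yreg g θ 0 x * Real.sqrt (MhSq g k θ x) ∧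
      |hgg g θ x / yreg g θ 0 x| ≤ Real.sqrt (MhSq g k θ x) * yreg g θ 0 x + yreg g θ 0 x ^ 3 + |kGG g k θ x| := by
    intro x hx
    obtain ⟨q1, q2, q3⟩ := hmh x hx
    exact alg (hy0 x) (hy2 x hx) (lap_eq hmet hks hx) (hgg_eq' hmet hx) q1 q2 q3 (hksg x hx)
  have hw0 : ∀ x ∈ Ann R, 0 ≤ w x := fun x hx => hw.nonneg x (hann1 x hx)
  have hw1 : ∀ x ∈ Ann R, w x ≤ 1 := by
    intro x hx
    refine (hw.le x (hann1 x hx)).trans ?_
    rw [div_le_one (by have := hann1 x hx; positivity)]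
    exact one_le_pow₀ (hann1 x hx)
  have hv0 : ∀ x ∈ Ann R, 0 ≤ vol g x := fun x _ => Real.sqrt_nonneg _
  -- bounds
  have hB1 : ∀ x ∈ Ann R, 0 ≤ B := fun x hx => (abs_nonneg _).trans (hB x hx).1
  have bθ : ∀ x ∈ Ann R, θ x ≤ B := fun x hx => (le_abs_self _).trans (hB x hx).2.2.2.2.2.2.2.2.2.2
  have bE : ∀ x ∈ Ann R, Real.exp (θ x) ≤ Real.exp B := fun x hx => Real.exp_le_exp.2 (bθ x hx)
  have by' : ∀ x ∈ Ann R, yreg g θ 0 x ≤ B := fun x hx => (le_abs_self _).trans (hB x hx).2.1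
  have bms : ∀ x ∈ Ann R, Real.sqrt (MhSq g k θ x) ≤ 1 + B := by
    intro x hx
    have h1 := (le_abs_self _).trans (hB x hx).2.2.2.1
    have h2 := hB1 x hx
    rw [Real.sqrt_le_left (by linarith)]
    nlinarith
  have bv : ∀ x ∈ Ann R, vol g x ≤ B := fun x hx => (le_abs_self _).trans (hB x hx).2.2.2.2.2.2.2.2.2.1
  have bkg : ∀ x ∈ Ann R, |kGG g k θ x| ≤ B := fun x hx => (hB x hx).2.2.2.2.2.2.2.2.1
  have blp : ∀ x ∈ Ann R, |lapG g θ x| ≤ B := fun x hx => (hB x hx).2.2.2.2.2.1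
  have bfs : ∀ x ∈ Ann R, |gsq g θ x| ≤ B := fun x hx => (hB x hx).1
  have bdw : ∀ x ∈ Ann R, |dwG g w θ x| ≤ |Cw| * (3 * Λ * Real.sqrt Λ * B) := by
    intro x hx
    have hΛ := hcmp.pos
    refine (grad_bd hcmp (hann1 x hx) θ w (hmet.gsq_nonneg hx)).2.2.trans ?_
    have h1 := hw.grad x (hann1 x hx)
    have h2 : Cw * Real.sqrt (w x) / ‖x‖ ^ 2 ≤ |Cw| := by
      have hn := hann1 x hx
      rw [div_le_iff₀ (by positivity)]
      have h3 : Real.sqrt (w x) ≤ 1 := by
        rw [Real.sqrt_le_one]; exact hw1 x hx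
      calc Cw * Real.sqrt (w x) ≤ |Cw| * 1 :=
            mul_le_mul (le_abs_self _) h3 (Real.sqrt_nonneg _) (abs_nonneg _)
        _ ≤ |Cw| * ‖x‖ ^ 2 := mul_le_mul_of_nonneg_left (one_le_pow₀ hn) (abs_nonneg _)
    exact mul_le_mul (h1.trans h2) (mul_le_mul_of_nonneg_left (by' x hx) (by positivity))
      (by have := hy0 x; positivity) (abs_nonneg _)
  -- integrability
  have i1 : IntegrableOn (fun x => w x * Real.exp (θ x) * yreg g θ 0 x ^ 3 * vol g x) (Ann R) := by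
    refine integ (B := 1 * Real.exp B * B ^ 3 * B) (((mw.mul mE).mul (my.pow_const 3)).mul mv) ?_
    intro x hx
    have p1 := hw0 x hx
    have p2 := hy0 x
    have p3 := hv0 x hx
    have p4 := (Real.exp_pos (θ x)).le
    have p5 := hB1 x hx
    rw [abs_of_nonneg (by positivity)]
    gcongr
    · exact hw1 x hx
    · exact bθ x hx
    · exact by' x hx
    · exact bv x hx
  have i2 : IntegrableOn (fun x => w x * Real.exp (θ x) * (yreg g θ 0 x * gsq g θ x + yreg g θ 0 x * lapG g θ x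
        + hgg g θ x / yreg g θ 0 x) * vol g x) (Ann R) := by
    refine integ (B := 1 * Real.exp B * (B * B + B * B + ((1 + B) * B + B ^ 3 + B)) * B)
      (((mw.mul mE).mul (((my.mul mf).add (my.mul ml)).add (mh.div my))).mul mv) ?_
    intro x hx
    have p1 := hw0 x hx
    have p2 := hy0 x
    have p3 := hv0 x hx
    have p4 := (Real.exp_pos (θ x)).le
    have p5 := hB1 x hx
    have p6 := by' x hx
    rw [abs_mul, abs_mul, abs_mul, abs_of_nonneg p1, abs_of_nonneg p4, abs_of_nonneg p3]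
    have q1 : |yreg g θ 0 x * gsq g θ x + yreg g θ 0 x * lapG g θ x + hgg g θ x / yreg g θ 0 x|
        ≤ B * B + B * B + ((1 + B) * B + B ^ 3 + B) := by
      have r1 : |yreg g θ 0 x * gsq g θ x| ≤ B * B := by
        rw [abs_mul, abs_of_nonneg p2]
        exact mul_le_mul p6 (bfs x hx) (abs_nonneg _) p5
      have r2 : |yreg g θ 0 x * lapG g θ x| ≤ B * B := by
        rw [abs_mul, abs_of_nonneg p2]
        exact mul_le_mul p6 (blp x hx) (abs_nonneg _) p5
      have r3 := (halg x hx).2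
      have r4 : Real.sqrt (MhSq g k θ x) * yreg g θ 0 x ≤ (1 + B) * B :=
        mul_le_mul (bms x hx) p6 p2 (by linarith)
      have r5 : yreg g θ 0 x ^ 3 ≤ B ^ 3 := pow_le_pow_left₀ p2 p6 3
      have r6 := bkg x hx
      have r7 := abs_add_le (yreg g θ 0 x * gsq g θ x + yreg g θ 0 x * lapG g θ x) (hgg g θ x / yreg g θ 0 x)
      have r8 := abs_add_le (yreg g θ 0 x * gsq g θ x) (yreg g θ 0 x * lapG g θ x)
      linarith
    have q2 : 0 ≤ B * B + B * B + ((1 + B) * B + B ^ 3 + B) := by positivity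
    exact mul_le_mul (mul_le_mul (mul_le_mul (hw1 x hx) (bE x hx) p4 (by norm_num)) q1 (abs_nonneg _)
      (by positivity)) (bv x hx) p3 (by positivity)
  have i3 : IntegrableOn (fun x => Real.exp (θ x) * yreg g θ 0 x * (3 * w x * Real.sqrt (MhSq g k θ x)) * vol g x)
      (Ann R) := by
    refine integ (B := Real.exp B * B * (3 * 1 * (1 + B)) * B)
      (((mE.mul my).mul ((mw.const_mul 3).mul mms.sqrt)).mul mv) ?_
    intro x hx
    have p1 := hw0 x hx
    have p2 := hy0 x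
    have p3 := hv0 x hx
    have p4 := (Real.exp_pos (θ x)).le
    have p5 := hB1 x hx
    have p6 := Real.sqrt_nonneg (MhSq g k θ x)
    rw [abs_of_nonneg (by positivity)]
    gcongr
    · exact bθ x hx
    · exact by' x hx
    · exact hw1 x hx
    · exact bms x hx
    · exact bv x hx
  have i4 : IntegrableOn (fun x => Real.exp (θ x) * yreg g θ 0 x * |dwG g w θ x| * vol g x) (Ann R) := by
    refine integ (B := Real.exp B * B * (|Cw| * (3 * Λ * Real.sqrt Λ * B)) * B)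
      (((mE.mul my).mul mdw.abs).mul mv) ?_
    intro x hx
    have p2 := hy0 x
    have p3 := hv0 x hx
    have p4 := (Real.exp_pos (θ x)).le
    have p5 := hB1 x hx
    have p6 := abs_nonneg (dwG g w θ x)
    have p7 := hcmp.pos
    rw [abs_of_nonneg (by positivity)]
    gcongr
    · exact bθ x hx
    · exact by' x hx
    · exact bdw x hx
    · exact bv x hx
  have hsplit : ∫ x in Ann R, Real.exp (θ x) * yreg g θ 0 x *
        (|dwG g w θ x| + 3 * w x * Real.sqrt (MhSq g k θ x)) * vol g x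
      = (∫ x in Ann R, Real.exp (θ x) * yreg g θ 0 x * |dwG g w θ x| * vol g x)
        + ∫ x in Ann R, Real.exp (θ x) * yreg g θ 0 x * (3 * w x * Real.sqrt (MhSq g k θ x)) * vol g x := by
    rw [← integral_add i4 i3]
    refine integral_congr_ae (Eventually.of_forall fun x => ?_)
    simp only
    ring
  have hmono : ∫ x in Ann R, w x * Real.exp (θ x) * yreg g θ 0 x ^ 3 * vol g x
      ≤ ∫ x in Ann R, (w x * Real.exp (θ x) * (yreg g θ 0 x * gsq g θ x + yreg g θ 0 x * lapG g θ x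
        + hgg g θ x / yreg g θ 0 x) * vol g x
        + Real.exp (θ x) * yreg g θ 0 x * (3 * w x * Real.sqrt (MhSq g k θ x)) * vol g x) := by
    refine setIntegral_mono_on i1 (i2.add i3) hms fun x hx => ?_
    have p1 := hw0 x hx
    have p3 := hv0 x hx
    have p4 := (Real.exp_pos (θ x)).le
    have p7 := (halg x hx).1
    have p8 : 0 ≤ w x * Real.exp (θ x) * vol g x := by positivity
    calc w x * Real.exp (θ x) * yreg g θ 0 x ^ 3 * vol g x
        = (w x * Real.exp (θ x) * vol g x) * yreg g θ 0 x ^ 3 := by ring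
      _ ≤ (w x * Real.exp (θ x) * vol g x) * ((yreg g θ 0 x * gsq g θ x + yreg g θ 0 x * lapG g θ x
        + hgg g θ x / yreg g θ 0 x) + 3 * yreg g θ 0 x * Real.sqrt (MhSq g k θ x)) :=
          mul_le_mul_of_nonneg_left p7 p8
      _ = _ := by ring
  rw [integral_add i2 i3] at hmono
  rw [hsplit]
  linarith

end UMB.E
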