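import Pool.Agent.Lib.UMB.E.P9
import Pool.Agent.Lib.UMB.E.P10b

set_option autoImplicit false

/-!
# UMB.E chunk P11: the bound of `X3`
-/

open Filter Topology Set MeasureTheory
open scoped ContDiff

namespace UMB.E

open Pool.Agent.Lib.PenroseSph (E3 Tens pd trg)
open UMB.Lin (Ann cAnn sig)

theorem p11_alg {s y : ℝ} (hy : 0 ≤ y) (h0 : y = 0 → s = 0) : 3 * (y * s) ≤ 1 / 2 * y ^ 3 + 9 / 2 * (s ^ 2 / y) := by
  rcases hy.eq_or_lt with h | h
  · have hs := h0 h.symm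
    rw [← h, hs]
    simp
  · have : 1 / 2 * y ^ 3 + 9 / 2 * (s ^ 2 / y) - 3 * (y * s) = (y ^ 2 - 3 * s) ^ 2 / (2 * y) := by
      field_simp
      ring
    have h2 : 0 ≤ (y ^ 2 - 3 * s) ^ 2 / (2 * y) := by positivity
    linarith

/-- **P11.** `w` from P7, `Z := ∫ w exp θ y³ vol`. `exp θ y |dwG| ≤ C √w |x|⁻² exp θ y² ≤ C Ce |x|⁻² y²` on `|x| ≥ ρ/2` (`√w ≤ 1/|x|`,
`exp θ ≤ Ce |x|`) and `0` for `|x| < ρ/2`, so its integral is `≤ C Ce X2(ρ/2) ≤ C Ce (1+D)/ρ` (P9).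
`3 w exp θ y √MhSq ≤ (1/2) w exp θ y³ + (9/2) w exp θ MhSq/y` (a.e., `Th.crit`) and `w ≤ 4/ρ²`: integral `≤ Z/2 + 18 D/ρ²`.
P10b: `Z ≤ C Ce/R + Z/2 + C Ce (1+D)/ρ + 18 D/ρ²`; `X3 ≤ Z`. -/
theorem X3_le : ∀ Λ Ce : ℝ, 0 ≤ Ce → ∃ C : ℝ, 0 < C ∧ ∀ (g k : Tens) (a R : ℝ) (θ : E3 → ℝ) (ρ : ℝ), AF g a → Cmp g Λ →
    Kk g k a → Th g k Ce R θ → 2 ≤ ρ → ρ ≤ R → X3 g R ρ θ ≤ C / ρ * (1 + En g k R θ) := by
  intro Λ Ce hCe
  by_cases hΛ : 0 < Λ
  swap
  · exact ⟨1, one_pos, fun g k a R θ ρ hg hc hk hT hρ hρR => absurd hc.pos hΛ⟩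
  obtain ⟨C1, hC1, h1⟩ := int_y Λ
  obtain ⟨Cw, hCw, hwt⟩ := exists_wt
  obtain ⟨C2, hC2, h2⟩ := X2_le Λ
  set K : ℝ := Cw * (3 * Λ * Real.sqrt Λ) with hK
  have hK0 : 0 < K := by positivity
  refine ⟨2 * (C1 * Ce + 2 * K * Ce * C2 + 18), by positivity, ?_⟩
  intro g k a R θ ρ hg hc hk hT hρ hρR
  have hρ1 : 1 ≤ ρ := by linarith
  have hρ0 : 0 < ρ := by linarith
  obtain ⟨w, hw⟩ := hwt ρ hρ1
  have hX2 := h2 g k a Ce R θ (ρ / 2) hg hc hk hT (by linarith) (by linarith)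
  obtain ⟨b1, b2, b3, b4, b5, b6⟩ := p9_BC_of hg hk hT
  obtain ⟨n1, n2, n3⟩ := p9_En hg hk hT
  have hm := p9_met R hg
  set S : Set E3 := {x : E3 | ρ / 2 ≤ ‖x‖} with hS
  have hSm : MeasurableSet S := p9_meas _
  have hmeas : MeasurableSet (Ann R ∩ {x : E3 | ρ ≤ ‖x‖}) := (UMB.Lin.measurableSet_Ann R).inter (p9_meas ρ)
  have hI := h1 g k a Ce R θ w Cw ρ hg hc hk hCe hT hw
  set Z := ∫ x in Ann R, w x * Real.exp (θ x) * yreg g θ 0 x ^ 3 * vol g x with hZ
  have hZi : IntegrableOn (fun x => w x * Real.exp (θ x) * yreg g θ 0 x ^ 3 * vol g x) (Ann R) :=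
    ((((p9_BC_w hw).mul b4).mul (b2.pow 3)).mul b3).int
  have hi2 : IntegrableOn (fun x => gsq g θ x / ‖x‖ ^ 2 * vol g x) (Ann R) := by
    have := ((b1.mul (p9_BC_inv 2)).mul b3).int
    refine this.congr_fun (fun x _ => ?_) (UMB.Lin.measurableSet_Ann R)
    show gsq g θ x * (1 / ‖x‖ ^ 2) * vol g x = gsq g θ x / ‖x‖ ^ 2 * vol g x
    ring
  have hi2' : IntegrableOn (fun x => S.indicator (fun x => gsq g θ x / ‖x‖ ^ 2 * vol g x) x) (Ann R) := hi2.indicator hSm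
  have hz : IntegrableOn (fun _ : E3 => (0 : ℝ)) (Ann R) := integrable_zero _ _ _
  have hmono : ∫ x in Ann R, Real.exp (θ x) * yreg g θ 0 x *
        (|dwG g w θ x| + 3 * w x * Real.sqrt (MhSq g k θ x)) * vol g x ≤
      ∫ x in Ann R, (1 / 2 * (w x * Real.exp (θ x) * yreg g θ 0 x ^ 3 * vol g x) + 18 / ρ * enD g k θ x +
        K * Ce * S.indicator (fun x => gsq g θ x / ‖x‖ ^ 2 * vol g x) x + 0 * 0) := by
    have hint : IntegrableOn (fun x => 1 / 2 * (w x * Real.exp (θ x) * yreg g θ 0 x ^ 3 * vol g x) + 18 / ρ * enD g k θ x +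
        K * Ce * S.indicator (fun x => gsq g θ x / ‖x‖ ^ 2 * vol g x) x + 0 * 0) (Ann R) :=
      (((hZi.const_mul _).add (hT.int.const_mul _)).add (hi2'.const_mul _)).add (hz.const_mul _)
    refine integral_mono_of_nonneg ?_ hint ?_
    · filter_upwards [ae_restrict_mem (UMB.Lin.measurableSet_Ann R)] with x hx
      have hw0 := hw.nonneg x hx.1.le
      have hy0 : 0 ≤ yreg g θ 0 x := Real.sqrt_nonneg _
      have hv0 : 0 ≤ vol g x := Real.sqrt_nonneg _
      show 0 ≤ Real.exp (θ x) * yreg g θ 0 x * (|dwG g w θ x| + 3 * w x * Real.sqrt (MhSq g k θ x)) * vol g x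
      positivity
    · filter_upwards [p9_crit hg hT] with x hx
      obtain ⟨hx, hcr⟩ := hx
      have hx1 : 1 ≤ ‖x‖ := hx.1.le
      have hx0 : 0 < ‖x‖ := lt_trans one_pos hx.1
      have hw0 := hw.nonneg x hx1
      have hy0 : 0 ≤ yreg g θ 0 x := Real.sqrt_nonneg _
      have hys : yreg g θ 0 x ^ 2 = gsq g θ x := ysq_zero (hm.gsq_nonneg hx)
      have hs2 : Real.sqrt (MhSq g k θ x) ^ 2 = MhSq g k θ x := Real.sq_sqrt (n1 x hx)
      have hv0 : 0 ≤ vol g x := Real.sqrt_nonneg _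
      have hE := hT.up x hx
      have hE0 := Real.exp_pos (θ x)
      have hd := p9_dw (θ := θ) hg hc hw hx
      by_cases hxS : x ∈ S
      · have hxρ : ρ / 2 ≤ ‖x‖ := hxS
        have e2 := p11_alg (s := Real.sqrt (MhSq g k θ x)) hy0 hcr
        rw [hs2] at e2
        have hwle := hw.le x hx1
        have hsw : Real.sqrt (w x) ≤ 1 / ‖x‖ := by
          rw [Real.sqrt_le_left (by positivity)]
          refine hwle.trans (le_of_eq ?_)
          rw [div_pow, one_pow]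
        -- first term
        have e1 : Real.exp (θ x) * yreg g θ 0 x * |dwG g w θ x| ≤ K * Ce * (gsq g θ x / ‖x‖ ^ 2) := by
          have h1 : Real.exp (θ x) * yreg g θ 0 x * |dwG g w θ x| ≤
              Real.exp (θ x) * yreg g θ 0 x * (K * (Real.sqrt (w x) * yreg g θ 0 x / ‖x‖ ^ 2)) :=
            mul_le_mul_of_nonneg_left hd (by positivity)
          have h2 : Real.exp (θ x) * yreg g θ 0 x * (K * (Real.sqrt (w x) * yreg g θ 0 x / ‖x‖ ^ 2)) =
              K * (Real.exp (θ x) * Real.sqrt (w x)) * (gsq g θ x / ‖x‖ ^ 2) := by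
            rw [← hys]; ring
          have h3 : Real.exp (θ x) * Real.sqrt (w x) ≤ Ce * ‖x‖ * (1 / ‖x‖) :=
            mul_le_mul hE hsw (Real.sqrt_nonneg _) (by positivity)
          have h4 : Ce * ‖x‖ * (1 / ‖x‖) = Ce := by
            field_simp
          rw [h4] at h3
          have h5 : 0 ≤ gsq g θ x / ‖x‖ ^ 2 := div_nonneg (hm.gsq_nonneg hx) (by positivity)
          rw [h2] at h1
          refine h1.trans ?_
          exact mul_le_mul_of_nonneg_right (mul_le_mul_of_nonneg_left h3 hK0.le) h5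
        -- second term
        have hwρ : w x ≤ 4 / ρ := by
          refine hwle.trans ?_
          have h1 : (ρ / 2) ^ 2 ≤ ‖x‖ ^ 2 := pow_le_pow_left₀ (by positivity) hxρ 2
          have h2 : 1 / ‖x‖ ^ 2 ≤ 1 / (ρ / 2) ^ 2 := one_div_le_one_div_of_le (by positivity) h1
          refine h2.trans ?_
          rw [div_le_div_iff₀ (by positivity) hρ0]
          nlinarith
        have hq0 : 0 ≤ MhSq g k θ x / yreg g θ 0 x := div_nonneg (n1 x hx) hy0
        have e3 : Real.exp (θ x) * yreg g θ 0 x * (3 * w x * Real.sqrt (MhSq g k θ x)) ≤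
            1 / 2 * (w x * Real.exp (θ x) * yreg g θ 0 x ^ 3) +
              18 / ρ * (Real.exp (θ x) * (MhSq g k θ x / yreg g θ 0 x)) := by
          have h1 := mul_le_mul_of_nonneg_left e2 (mul_nonneg hE0.le hw0)
          have h2 : 9 / 2 * (w x * (Real.exp (θ x) * (MhSq g k θ x / yreg g θ 0 x))) ≤
              9 / 2 * (4 / ρ * (Real.exp (θ x) * (MhSq g k θ x / yreg g θ 0 x))) :=
            mul_le_mul_of_nonneg_left (mul_le_mul_of_nonneg_right hwρ (mul_nonneg hE0.le hq0)) (by norm_num)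
          have h3 : 9 / 2 * (4 / ρ * (Real.exp (θ x) * (MhSq g k θ x / yreg g θ 0 x))) =
              18 / ρ * (Real.exp (θ x) * (MhSq g k θ x / yreg g θ 0 x)) := by ring
          rw [h3] at h2
          have h4 : Real.exp (θ x) * yreg g θ 0 x * (3 * w x * Real.sqrt (MhSq g k θ x)) =
              Real.exp (θ x) * w x * (3 * (yreg g θ 0 x * Real.sqrt (MhSq g k θ x))) := by ring
          rw [h4]
          refine h1.trans ?_
          nlinarith [h2]
        have e4 : Real.exp (θ x) * yreg g θ 0 x * (|dwG g w θ x| + 3 * w x * Real.sqrt (MhSq g k θ x)) ≤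
            1 / 2 * (w x * Real.exp (θ x) * yreg g θ 0 x ^ 3) +
              18 / ρ * (Real.exp (θ x) * (MhSq g k θ x / yreg g θ 0 x)) + K * Ce * (gsq g θ x / ‖x‖ ^ 2) := by
          rw [mul_add]
          linarith
        have e5 := mul_le_mul_of_nonneg_right e4 hv0
        rw [Set.indicator_of_mem hxS]
        unfold enD
        refine e5.trans (le_of_eq ?_)
        ring
      · have hlt : ‖x‖ < ρ / 2 := not_le.mp hxS
        have hwz : w x = 0 := hw.zero x hx1 hlt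
        have hd0 : |dwG g w θ x| ≤ 0 := by
          refine hd.trans (le_of_eq ?_)
          rw [hwz, Real.sqrt_zero]
          ring
        have e7 : |dwG g w θ x| = 0 := le_antisymm hd0 (abs_nonneg _)
        have hen := n2 x hx
        rw [Set.indicator_of_notMem hxS, e7, hwz]
        have : 0 ≤ 18 / ρ * enD g k θ x := mul_nonneg (by positivity) hen
        simpa using this
  rw [p9_int4 hZi hT.int hi2' hz (1 / 2) (18 / ρ) (K * Ce) 0, setIntegral_indicator hSm, zero_mul, add_zero] at hmono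
  have q1 : C1 * Ce / R ≤ C1 * Ce / ρ := div_le_div_of_nonneg_left (by positivity) hρ0 hρR
  have q2 : K * Ce * (∫ x in Ann R ∩ S, gsq g θ x / ‖x‖ ^ 2 * vol g x) ≤
      K * Ce * (C2 / (ρ / 2) * (1 + En g k R θ)) := mul_le_mul_of_nonneg_left hX2 (by positivity)
  have q3 : K * Ce * (C2 / (ρ / 2) * (1 + En g k R θ)) = 2 * K * Ce * C2 / ρ * (1 + En g k R θ) := by
    field_simp
  rw [q3] at q2
  have hEn : ∫ x in Ann R, enD g k θ x = En g k R θ := rfl
  rw [hEn] at hmono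
  have q4 : Z ≤ 2 * (C1 * Ce / ρ + 18 / ρ * En g k R θ + 2 * K * Ce * C2 / ρ * (1 + En g k R θ)) := by linarith
  have q5 : C1 * Ce / ρ ≤ C1 * Ce / ρ * (1 + En g k R θ) := le_mul_of_one_le_right (by positivity) (by linarith)
  have q6 : 18 / ρ * En g k R θ ≤ 18 / ρ * (1 + En g k R θ) :=
    mul_le_mul_of_nonneg_left (by linarith) (by positivity)
  have q7 : Z ≤ 2 * (C1 * Ce + 2 * K * Ce * C2 + 18) / ρ * (1 + En g k R θ) := by
    have : 2 * (C1 * Ce + 2 * K * Ce * C2 + 18) / ρ * (1 + En g k R θ) =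
        2 * (C1 * Ce / ρ * (1 + En g k R θ) + 18 / ρ * (1 + En g k R θ) + 2 * K * Ce * C2 / ρ * (1 + En g k R θ)) := by
      ring
    rw [this]
    linarith
  refine le_trans ?_ q7
  have e1 : X3 g R ρ θ = ∫ x in Ann R ∩ {x : E3 | ρ ≤ ‖x‖}, w x * Real.exp (θ x) * yreg g θ 0 x ^ 3 * vol g x := by
    unfold X3
    refine setIntegral_congr_fun hmeas fun x hx => ?_
    show Real.exp (θ x) * yreg g θ 0 x ^ 3 / ‖x‖ ^ 2 * vol g x = w x * Real.exp (θ x) * yreg g θ 0 x ^ 3 * vol g x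
    rw [hw.eq x hx.1.1.le hx.2]
    ring
  rw [e1]
  refine setIntegral_mono_set hZi ?_ (Eventually.of_forall fun x hx => hx.1)
  filter_upwards [ae_restrict_mem (UMB.Lin.measurableSet_Ann R)] with x hx
  have hw0 := hw.nonneg x hx.1.le
  have hy0 : 0 ≤ yreg g θ 0 x := Real.sqrt_nonneg _
  have hv0 : 0 ≤ vol g x := Real.sqrt_nonneg _
  show 0 ≤ w x * Real.exp (θ x) * yreg g θ 0 x ^ 3 * vol g x
  positivity

end UMB.E
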