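import Pool.Agent.Lib.UMB.E.Defs

set_option autoImplicit false

/-!
# UMB.E chunk P2: Laplacian and radial second derivative in terms of `Mh`
-/

open Filter Topology Set MeasureTheory
open scoped ContDiff

namespace UMB.E

open Pool.Agent.Lib.PenroseSph (E3 Tens pd trg)

/-- **P2a.** `Δu = tr Mh + |∇u|² + |∇u| tr k`: the trace of the definition of `Mh` (`MetOn.trg_eq`, `∑ gradU a pd a = gsq`,
the term `if a = b` contributes `3 gsq`). -/
theorem lap_eq {g k : Tens} {U : Set E3} (h : MetOn g U) (hks : ∀ x ∈ U, (k x).IsSymm) {u : E3 → ℝ} {x : E3}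
    (hx : x ∈ U) : lapG g u x = MhTr g k u x + gsq g u x + yreg g u 0 x * trg g k x := by
  rw [h.trg_eq hks hx]
  unfold MhTr Mh lapG gsq
  simp only [Fin.sum_univ_three, if_true]
  ring

/-- **P2b.** `Hess u (∇u,∇u) = Mh(∇u,∇u) - |∇u|⁴ + |∇u| k(∇u,∇u)` (`MetOn.hgg_eq`). -/
theorem hgg_eq' {g k : Tens} {U : Set E3} (h : MetOn g U) {u : E3 → ℝ} {x : E3} (hx : x ∈ U) :
    hgg g u x = MhGG g k u x - gsq g u x ^ 2 + yreg g u 0 x * kGG g k u x := by
  rw [h.hgg_eq hx]
  have hf : gsq g u x = ∑ a, pd a u x * gradU g u a x := rfl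
  unfold MhGG Mh kGG
  generalize yreg g u 0 x = y
  simp only [hf, Fin.sum_univ_three]
  simp
  ring

end UMB.E
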