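import Pool.Agent.Lib.UMB.E.Defs
import Pool.Agent.Lib.UMB.Lin.M2

set_option autoImplicit false

/-!
# UMB.E chunk P3: inequalities of linear algebra in the metric `g`
-/

open Filter Topology Set MeasureTheory
open scoped ContDiff

namespace UMB.E

open Pool.Agent.Lib.PenroseSph (E3 Tens pd trg)

/-- **P3a.** Linear algebra: `G` positive definite symmetric, `S` symmetric, `M = G S` (one index raised). Then
`∑ M_ab M_ba ≥ 0`, `(tr M)² ≤ 3 ∑ M_ab M_ba`, and `(∑ p_a M_ab u_b)² ≤ (∑ M_ab M_ba) (∑ p_a u_a)²` for `u = G p`.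
Proof: `G = L Lᵀ`, `T := Lᵀ S L` symmetric: `∑ M_ab M_ba = ∑ T_ij²`, `tr M = tr T`, with `z = Lᵀ p`:
`∑ p_a M_ab u_b = ∑ T_ij z_i z_j`, `∑ p_a u_a = |z|²`; Cauchy-Schwarz. -/
theorem alg_ineq {G S : Matrix (Fin 3) (Fin 3) ℝ} (hG : G.PosDef) (hS : ∀ i j, S i j = S j i) {p u : Fin 3 → ℝ}
    (hu : ∀ a, u a = ∑ j, G a j * p j) {M : Fin 3 → Fin 3 → ℝ} (hM : ∀ a b, M a b = ∑ j, G a j * S b j) :
    0 ≤ ∑ a, ∑ b, M a b * M b a ∧ (∑ a, M a a) ^ 2 ≤ 3 * ∑ a, ∑ b, M a b * M b a ∧
      (∑ a, ∑ b, p a * M a b * u b) ^ 2 ≤ (∑ a, ∑ b, M a b * M b a) * (∑ a, p a * u a) ^ 2 := by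
  obtain ⟨B, hB, hBB⟩ := UMB.Lin.m2_sqrt G hG.posSemidef
  have hB' : G = B.transpose * B := by
    rw [hB, hBB]
  set T : Matrix (Fin 3) (Fin 3) ℝ := B * S * B.transpose with hT
  have hSt : S.transpose = S := by
    ext a b
    exact hS b a
  have hTs : T.transpose = T := by
    rw [hT, Matrix.transpose_mul, Matrix.transpose_mul, Matrix.transpose_transpose, hSt,
      Matrix.mul_assoc]
  have hTs' : ∀ a b, T a b = T b a := fun a b => by
    conv_lhs => rw [← hTs]
    rfl
  have hMm : ∀ a b, M a b = (G * S) a b := by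
    intro a b
    rw [hM, Matrix.mul_apply]
    exact Finset.sum_congr rfl fun j _ => by rw [hS b j]
  have e1 : ∑ a, ∑ b, M a b * M b a = ∑ a, ∑ b, T a b ^ 2 := by
    have h1 : ∑ a, ∑ b, M a b * M b a = Matrix.trace ((G * S) * (G * S)) := by
      simp only [Matrix.trace, Matrix.diag_apply, Matrix.mul_apply (M := G * S), hMm]
    have h2 : ∑ a, ∑ b, T a b ^ 2 = Matrix.trace (T * T) := by
      simp only [Matrix.trace, Matrix.diag_apply, Matrix.mul_apply (M := T)]
      refine Finset.sum_congr rfl fun a _ => Finset.sum_congr rfl fun b _ => ?_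
      rw [hTs' b a]
      ring
    rw [h1, h2, hB', hT]
    have h3 : B.transpose * B * S * (B.transpose * B * S)
        = B.transpose * (B * S * B.transpose * B * S) := by
      simp only [Matrix.mul_assoc]
    have h4 : B * S * B.transpose * (B * S * B.transpose)
        = (B * S * B.transpose * B * S) * B.transpose := by
      simp only [Matrix.mul_assoc]
    rw [h3, h4, Matrix.trace_mul_comm]
  have e2 : ∑ a, M a a = ∑ a, T a a := by
    have h1 : ∑ a, M a a = Matrix.trace (G * S) := by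
      simp only [Matrix.trace, Matrix.diag_apply, hMm]
    have h2 : ∑ a, T a a = Matrix.trace T := rfl
    rw [h1, h2, hB', hT, Matrix.mul_assoc, Matrix.trace_mul_comm]
  set z : Fin 3 → ℝ := fun i => ∑ j, B i j * p j with hz
  have hG1 : ∀ a j, G a j = ∑ i, B i a * B i j := by
    intro a j
    rw [hB', Matrix.mul_apply]
    rfl
  have e3 : ∑ a, p a * u a = ∑ i, z i * z i := by
    simp only [hu, hG1, hz, Fin.sum_univ_three]
    ring
  have e4 : ∑ a, ∑ b, p a * M a b * u b = ∑ i, ∑ j, T i j * (z i * z j) := by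
    have h1 : ∀ i j, T i j = ∑ b, (∑ a, B i a * S a b) * B j b := by
      intro i j
      rw [hT, Matrix.mul_apply]
      refine Finset.sum_congr rfl fun b _ => ?_
      rw [Matrix.mul_apply]
      rfl
    simp only [hu, hM, hG1, hz, h1, Fin.sum_univ_three, hS 1 0, hS 2 0, hS 2 1]
    ring
  rw [e1, e2, e3, e4]
  refine ⟨Finset.sum_nonneg fun a _ => Finset.sum_nonneg fun b _ => sq_nonneg _, ?_, ?_⟩
  · simp only [Fin.sum_univ_three]
    nlinarith [sq_nonneg (T 0 0 - T 1 1), sq_nonneg (T 0 0 - T 2 2), sq_nonneg (T 1 1 - T 2 2),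
      sq_nonneg (T 0 1), sq_nonneg (T 0 2), sq_nonneg (T 1 0), sq_nonneg (T 1 2),
      sq_nonneg (T 2 0), sq_nonneg (T 2 1)]
  · have h1 := Finset.sum_mul_sq_le_sq_mul_sq (Finset.univ : Finset (Fin 3 × Fin 3))
      (fun q => T q.1 q.2) (fun q => z q.1 * z q.2)
    rw [Fintype.sum_prod_type, Fintype.sum_prod_type, Fintype.sum_prod_type] at h1
    have h2 : ∑ i, ∑ j, (z i * z j) ^ 2 = (∑ i, z i * z i) ^ 2 := by
      simp only [Fin.sum_univ_three]
      ring
    rw [h2] at h1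
    exact h1

/-- **P3b.** `Mh` with the first index raised is `g⁻¹ S` with `S` symmetric:
`S_bj = Hess_bj + 2 u_b u_j - |∇u|² g_bj - |∇u| k_bj`. -/
theorem mh_ineq {g k : Tens} {U : Set E3} (h : MetOn g U) (hks : ∀ x ∈ U, (k x).IsSymm) {u : E3 → ℝ}
    (hu : ContDiffOn ℝ ∞ u U) {x : E3} (hx : x ∈ U) :
    0 ≤ MhSq g k u x ∧ MhTr g k u x ^ 2 ≤ 3 * MhSq g k u x ∧ MhGG g k u x ^ 2 ≤ MhSq g k u x * gsq g u x ^ 2 := by
  have hGp : ((g x)⁻¹).PosDef := (h.posDef hx).inv
  have hgs : ∀ i j, g x i j = g x j i := fun i j => ((h.symm x hx).apply i j).symm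
  have hk : ∀ i j, k x i j = k x j i := fun i j => ((hks x hx).apply i j).symm
  have hsym : ∀ i j, hess g u i j x = hess g u j i x := fun i j => h.hess_symm hu hx i j
  have hS : ∀ i j, (Matrix.of fun b j => hess g u b j x + 2 * pd b u x * pd j u x
      - gsq g u x * g x b j - yreg g u 0 x * k x b j : Matrix (Fin 3) (Fin 3) ℝ) i j
      = (Matrix.of fun b j => hess g u b j x + 2 * pd b u x * pd j u x
      - gsq g u x * g x b j - yreg g u 0 x * k x b j : Matrix (Fin 3) (Fin 3) ℝ) j i := by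
    intro i j
    simp only [Matrix.of_apply, hsym i j, hgs i j, hk i j]
    ring
  have hM : ∀ a b, Mh g k u a b x = ∑ j, (g x)⁻¹ a j * (Matrix.of fun b j =>
      hess g u b j x + 2 * pd b u x * pd j u x
      - gsq g u x * g x b j - yreg g u 0 x * k x b j : Matrix (Fin 3) (Fin 3) ℝ) b j := by
    intro a b
    have h1 : ∑ j, (g x)⁻¹ a j * g x b j = if a = b then 1 else 0 := by
      rw [← h.inv_mul hx a b]
      exact Finset.sum_congr rfl fun j _ => by rw [hgs b j]
    have h2 : upk g k a b x = ∑ j, (g x)⁻¹ a j * k x b j := by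
      unfold upk
      exact Finset.sum_congr rfl fun j _ => by rw [hk b j]
    have h3 : (if a = b then gsq g u x else 0) = gsq g u x * ∑ j, (g x)⁻¹ a j * g x b j := by
      rw [h1]
      split_ifs <;> simp
    unfold Mh
    rw [h3, h2]
    simp only [Matrix.of_apply, hessM, gradU, Fin.sum_univ_three]
    ring
  obtain ⟨h1, h2, h3⟩ := alg_ineq hGp hS (p := fun a => pd a u x) (u := fun a => gradU g u a x)
    (fun a => rfl) (M := fun a b => Mh g k u a b x) hM
  exact ⟨h1, h2, h3⟩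

end UMB.E
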