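import Pool.Agent.Lib.UMB.E.Defs
import Pool.Agent.Lib.UMB.Lin.M2

set_option autoImplicit false

/-!
# UMB.E chunk P4: signs of `tr k` and `|∇u|² tr k + k(∇u,∇u)`
-/

open Filter Topology Set MeasureTheory
open scoped ContDiff

namespace UMB.E

open Pool.Agent.Lib.PenroseSph (E3 Tens pd trg)

/-- Auxiliary: two positive semidefinite matrices. -/
theorem p4_alg {G Q : Matrix (Fin 3) (Fin 3) ℝ} (hG : G.PosSemidef) (hQ : Q.PosSemidef) (p : Fin 3 → ℝ) :
    0 ≤ ∑ a, ∑ b, G a b * Q a b ∧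
      ∑ a, ∑ b, Q a b * (∑ j, G a j * p j) * (∑ j, G b j * p j)
        ≤ (∑ a, ∑ b, G a b * Q a b) * ∑ a, p a * ∑ j, G a j * p j := by
  obtain ⟨B, hB, hBB⟩ := UMB.Lin.m2_sqrt G hG
  obtain ⟨C, hC, hCC⟩ := UMB.Lin.m2_sqrt Q hQ
  have hG1 : ∀ a b, G a b = ∑ i, B i a * B i b := by
    intro a b
    rw [← hBB, Matrix.mul_apply]
    refine Finset.sum_congr rfl fun i _ => ?_
    have h1 : B a i = B i a := by
      conv_lhs => rw [← hB]
      rfl
    rw [h1]
  have hQ1 : ∀ a b, Q a b = ∑ i, C i a * C i b := by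
    intro a b
    rw [← hCC, Matrix.mul_apply]
    refine Finset.sum_congr rfl fun i _ => ?_
    have h1 : C a i = C i a := by
      conv_lhs => rw [← hC]
      rfl
    rw [h1]
  obtain ⟨N, hN⟩ : ∃ N : Fin 3 → Fin 3 → ℝ, ∀ i j, N i j = ∑ a, C i a * B j a := ⟨_, fun _ _ => rfl⟩
  obtain ⟨z, hz⟩ : ∃ z : Fin 3 → ℝ, ∀ j, z j = ∑ b, B j b * p b := ⟨_, fun _ => rfl⟩
  have e1 : ∑ a, ∑ b, G a b * Q a b = ∑ i, ∑ j, N i j ^ 2 := by
    simp only [hG1, hQ1, hN, Fin.sum_univ_three]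
    ring
  have e2 : ∑ a, p a * ∑ j, G a j * p j = ∑ j, z j ^ 2 := by
    simp only [hG1, hz, Fin.sum_univ_three]
    ring
  have e3 : ∑ a, ∑ b, Q a b * (∑ j, G a j * p j) * (∑ j, G b j * p j)
      = ∑ i, (∑ j, N i j * z j) ^ 2 := by
    have h1 : ∀ a, ∑ j, G a j * p j = ∑ j, B j a * z j := by
      intro a
      simp only [hG1, hz, Fin.sum_univ_three]
      ring
    simp only [h1, hQ1, hN, Fin.sum_univ_three]
    ring
  rw [e1, e2, e3]
  refine ⟨Finset.sum_nonneg fun a _ => Finset.sum_nonneg fun b _ => sq_nonneg _, ?_⟩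
  rw [Finset.sum_mul]
  exact Finset.sum_le_sum fun i _ => Finset.sum_mul_sq_le_sq_mul_sq _ _ _

/-- **P4.** The matrix `Q = (tr k) g - k` is positive semidefinite (`TwoNonneg`), its `g`-trace is `2 tr k`, so
`tr k ≥ 0`; with `G = g⁻¹ = L Lᵀ`, `T = Lᵀ Q L ≥ 0`, `z = Lᵀ du`: `T(z,z) ≤ tr T |z|²`, that is
`tr k |∇u|² - k(∇u,∇u) ≤ 2 tr k |∇u|²`. The second: `Q(∇u,∇u) ≥ 0`. -/
theorem k_sign {g k : Tens} {U : Set E3} (h : MetOn g U) (hks : ∀ x ∈ U, (k x).IsSymm) {x : E3}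
    (hx : x ∈ U) (h2 : TwoNonneg g k x) (u : E3 → ℝ) :
    0 ≤ trg g k x ∧ 0 ≤ gsq g u x * trg g k x - kGG g k u x ∧ 0 ≤ gsq g u x * trg g k x + kGG g k u x := by
  have hgs : ∀ i j, g x i j = g x j i := fun i j => ((h.symm x hx).apply i j).symm
  have hk : ∀ i j, k x i j = k x j i := fun i j => ((hks x hx).apply i j).symm
  have hGs : ∀ i j, (g x)⁻¹ i j = (g x)⁻¹ j i := fun i j => h.inv_symm hx i j
  have hquad : ∀ (A : Matrix (Fin 3) (Fin 3) ℝ) (v : Fin 3 → ℝ),
      star v ⬝ᵥ A.mulVec v = ∑ i, ∑ j, A i j * v i * v j := by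
    intro A v
    simp only [dotProduct, Matrix.mulVec, Pi.star_apply, star_trivial, Finset.mul_sum]
    exact Finset.sum_congr rfl fun i _ => Finset.sum_congr rfl fun j _ => by ring
  have hG : ((g x)⁻¹).PosSemidef := (h.posDef hx).inv.posSemidef
  obtain ⟨Q, hQd⟩ : ∃ Q : Matrix (Fin 3) (Fin 3) ℝ, ∀ i j, Q i j = trg g k x * g x i j - k x i j :=
    ⟨Matrix.of fun i j => trg g k x * g x i j - k x i j, fun _ _ => rfl⟩
  have hQq : ∀ v : Fin 3 → ℝ, ∑ i, ∑ j, Q i j * v i * v j = trg g k x * quad g x v - quad k x v := by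
    intro v
    simp only [hQd, quad, Finset.mul_sum, ← Finset.sum_sub_distrib]
    exact Finset.sum_congr rfl fun i _ => Finset.sum_congr rfl fun j _ => by ring
  have hQ : Q.PosSemidef := by
    refine Matrix.PosSemidef.of_dotProduct_mulVec_nonneg ?_ ?_
    · ext i j
      simp only [Matrix.conjTranspose_apply, star_trivial, hQd, hgs j i, hk j i]
    · intro v
      rw [hquad, hQq]
      exact h2 v
  obtain ⟨h3, h4⟩ := p4_alg hG hQ (fun j => pd j u x)
  have e1 : ∑ a, ∑ b, (g x)⁻¹ a b * Q a b = 2 * trg g k x := by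
    have h5 : ∑ a, ∑ b, (g x)⁻¹ a b * Q a b
        = trg g k x * (∑ a, ∑ b, (g x)⁻¹ a b * g x b a) - ∑ a, ∑ b, (g x)⁻¹ a b * k x a b := by
      simp only [hQd, Finset.mul_sum, ← Finset.sum_sub_distrib]
      refine Finset.sum_congr rfl fun i _ => Finset.sum_congr rfl fun j _ => ?_
      rw [hgs j i]
      ring
    have h6 : ∑ a, ∑ b, (g x)⁻¹ a b * g x b a = 3 := by
      simp only [h.inv_mul hx, Fin.sum_univ_three]
      norm_num
    have h7 : ∑ a, ∑ b, (g x)⁻¹ a b * k x a b = trg g k x := rfl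
    rw [h5, h6, h7]
    ring
  have e2 : ∑ a, pd a u x * ∑ j, (g x)⁻¹ a j * pd j u x = gsq g u x := rfl
  have e3 : ∑ a, ∑ b, Q a b * (∑ j, (g x)⁻¹ a j * pd j u x) * (∑ j, (g x)⁻¹ b j * pd j u x)
      = trg g k x * quad g x (fun a => gradU g u a x) - quad k x (fun a => gradU g u a x) := by
    rw [← hQq]
    rfl
  have e4 : quad g x (fun a => gradU g u a x) = gsq g u x := by
    have h5 : ∀ i, ∑ j, g x i j * gradU g u j x = pd i u x := by
      intro i
      have h6 : ∑ j, g x i j * gradU g u j x = ∑ l, (∑ j, g x i j * (g x)⁻¹ j l) * pd l u x := by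
        simp only [gradU, Fin.sum_univ_three]
        ring
      rw [h6]
      simp only [h.mul_inv hx]
      simp
    have h7 : quad g x (fun a => gradU g u a x)
        = ∑ i, (∑ j, g x i j * gradU g u j x) * gradU g u i x := by
      simp only [quad, Finset.sum_mul]
      exact Finset.sum_congr rfl fun i _ => Finset.sum_congr rfl fun j _ => by ring
    rw [h7]
    simp only [h5]
    rfl
  have e5 : quad k x (fun a => gradU g u a x) = kGG g k u x := by
    have h5 : ∀ c, ∑ a, pd a u x * (g x)⁻¹ a c = gradU g u c x := by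
      intro c
      unfold gradU
      exact Finset.sum_congr rfl fun a _ => by rw [hGs a c]; ring
    have h6 : kGG g k u x = ∑ c, ∑ b, (∑ a, pd a u x * (g x)⁻¹ a c) * k x c b * gradU g u b x := by
      simp only [kGG, upk, Fin.sum_univ_three]
      ring
    rw [h6]
    simp only [h5]
    unfold quad
    exact Finset.sum_congr rfl fun i _ => Finset.sum_congr rfl fun j _ => by ring
  have h8 := h2 (fun a => gradU g u a x)
  rw [e4, e5] at h8
  rw [e1, e2, e3, e4, e5] at h4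
  rw [e1] at h3
  refine ⟨by linarith, by linarith, by linarith⟩

end UMB.E
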