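import Pool.Agent.Lib.UMB.E.Defs

set_option autoImplicit false

/-!
# UMB.E chunk P7b: integrals of powers
-/

open Filter Topology Set MeasureTheory
open scoped ContDiff

namespace UMB.E

open Pool.Agent.Lib.PenroseSph (E3 Tens pd trg)
open UMB.Lin (Ann cAnn sig)

theorem p7b_gen (m : ℕ) : ∃ C : ℝ, 0 < C ∧ ∀ R ρ : ℝ, 0 < ρ →
    ∫ x in Ann R ∩ {x : E3 | ρ ≤ ‖x‖}, 1 / ‖x‖ ^ (m + 4) ≤ C / ρ ^ (m + 1) := by
  have hv : 0 ≤ (volume : Measure E3).real (Metric.ball 0 1) := measureReal_nonneg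
  refine ⟨3 * ((volume : Measure E3).real (Metric.ball 0 1) / (m + 1)) + 1, by positivity, fun R ρ hρ => ?_⟩
  have hmeas : MeasurableSet (Ann R ∩ {x : E3 | ρ ≤ ‖x‖}) :=
    (UMB.Lin.measurableSet_Ann R).inter (isClosed_le continuous_const continuous_norm).measurableSet
  have e1 : ∫ x in Ann R ∩ {x : E3 | ρ ≤ ‖x‖}, 1 / ‖x‖ ^ (m + 4) =
      ∫ x : E3, (Ioo 1 R ∩ Ici ρ).indicator (fun r : ℝ => 1 / r ^ (m + 4)) ‖x‖ := by
    rw [← integral_indicator hmeas]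
    refine integral_congr_ae (Eventually.of_forall fun x => ?_)
    by_cases hx : x ∈ Ann R ∩ {x : E3 | ρ ≤ ‖x‖}
    · have hx2 : ‖x‖ ∈ Ioo 1 R ∩ Ici ρ := hx
      simp only [indicator_of_mem hx, indicator_of_mem hx2]
    · have hx2 : ‖x‖ ∉ Ioo 1 R ∩ Ici ρ := hx
      simp only [indicator_of_notMem hx, indicator_of_notMem hx2]
  have hdim : Module.finrank ℝ E3 = 3 := by simp [E3]
  rw [e1, integral_fun_norm_addHaar, hdim]
  simp only [smul_eq_mul, nsmul_eq_mul]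
  have e2 : ∫ y in Ioi (0 : ℝ), y ^ (3 - 1) * (Ioo 1 R ∩ Ici ρ).indicator (fun r : ℝ => 1 / r ^ (m + 4)) y ≤
      ∫ y in Ioi (0 : ℝ), (Ioi ρ).indicator (fun y : ℝ => y ^ (-(m + 2 : ℝ))) y := by
    refine integral_mono_of_nonneg ?_ ?_ ?_
    · refine (ae_restrict_iff' measurableSet_Ioi).2 (Eventually.of_forall fun y hy => ?_)
      have hy' : (0 : ℝ) < y := hy
      exact mul_nonneg (by positivity) (indicator_nonneg (fun z hz => by
        have hz1 : ρ ≤ z := hz.2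
        have : 0 < z := by linarith
        positivity) y)
    · exact ((integrableOn_Ioi_rpow_of_lt (by linarith [(Nat.cast_nonneg m : (0:ℝ) ≤ m)]) hρ).integrable_indicator
        measurableSet_Ioi).integrableOn
    · have hne : ∀ᵐ y : ℝ, y ≠ ρ := by
        refine (measure_eq_zero_iff_ae_notMem.1 (?_ : volume ({ρ} : Set ℝ) = 0))
        simp
      refine (ae_restrict_iff' measurableSet_Ioi).2 (hne.mono fun y hne hy => ?_)
      have hy' : (0 : ℝ) < y := hy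
      by_cases h1 : y ∈ Ioo 1 R ∩ Ici ρ
      · have h2 : y ∈ Ioi ρ := lt_of_le_of_ne h1.2 (Ne.symm hne)
        simp only [indicator_of_mem h1, indicator_of_mem h2]
        rw [Real.rpow_neg hy'.le]
        have h3 : y ^ ((m : ℝ) + 2) = y ^ (m + 2) := by
          rw [← Real.rpow_natCast]; push_cast; rfl
        rw [h3]
        apply le_of_eq
        have h4 : y ^ (m + 4) = y ^ (m + 2) * y ^ 2 := by ring
        rw [h4]
        field_simp
      · simp only [indicator_of_notMem h1, mul_zero]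
        exact indicator_nonneg (fun z hz => Real.rpow_nonneg (hρ.le.trans (le_of_lt hz)) _) y
  have e3 : ∫ y in Ioi (0 : ℝ), (Ioi ρ).indicator (fun y : ℝ => y ^ (-(m + 2 : ℝ))) y = 1 / ρ ^ (m + 1) / (m + 1) := by
    rw [setIntegral_indicator measurableSet_Ioi, Ioi_inter_Ioi, sup_of_le_right hρ.le,
      integral_Ioi_rpow_of_lt (by linarith [(Nat.cast_nonneg m : (0:ℝ) ≤ m)]) hρ]
    have h1 : (-((m : ℝ) + 2) + 1) = -((m + 1 : ℕ) : ℝ) := by push_cast; ring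
    rw [h1, Real.rpow_neg hρ.le, Real.rpow_natCast]
    push_cast
    field_simp
  have e4 := e2.trans_eq e3
  have h5 : (3 : ℝ) * ((volume : Measure E3).real (Metric.ball 0 1) * (1 / ρ ^ (m + 1) / (m + 1))) ≤
      (3 * ((volume : Measure E3).real (Metric.ball 0 1) / (m + 1)) + 1) / ρ ^ (m + 1) := by
    have h6 : (3 : ℝ) * ((volume : Measure E3).real (Metric.ball 0 1) * (1 / ρ ^ (m + 1) / (m + 1))) =
      (3 * ((volume : Measure E3).real (Metric.ball 0 1) / (m + 1))) / ρ ^ (m + 1) := by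
      field_simp
    rw [h6]
    have h7 : 0 < ρ ^ (m + 1) := by positivity
    exact div_le_div_of_nonneg_right (by linarith) h7.le
  refine le_trans ?_ h5
  push_cast
  exact mul_le_mul_of_nonneg_left (mul_le_mul_of_nonneg_left e4 hv) (by norm_num)

/-- **P7b.** Integrals of powers: polar coordinates (`UMB.Lin.polar_Ann`, or `∫_{|x| ≥ ρ} |x|^{-m} dx = 4π ρ^{3-m}/(m-3)`):
`∫_{Ann R, |x| ≥ ρ} |x|^{-4} ≤ C/ρ`, `∫_{Ann R, |x| ≥ ρ} |x|^{-6} ≤ C/ρ³`. -/
theorem pow_int : ∃ C : ℝ, 0 < C ∧ ∀ R ρ : ℝ, 1 < R → 1 / 2 ≤ ρ →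
    ∫ x in Ann R ∩ {x : E3 | ρ ≤ ‖x‖}, 1 / ‖x‖ ^ 4 ≤ C / ρ ∧
      ∫ x in Ann R ∩ {x : E3 | ρ ≤ ‖x‖}, 1 / ‖x‖ ^ 6 ≤ C / ρ ^ 3 := by
  obtain ⟨C0, hC0, h0⟩ := p7b_gen 0
  obtain ⟨C2, hC2, h2⟩ := p7b_gen 2
  refine ⟨C0 + C2, by linarith, fun R ρ _ hρ => ?_⟩
  have hρ0 : 0 < ρ := by linarith
  constructor
  · refine (h0 R ρ hρ0).trans ?_
    rw [zero_add, pow_one]
    exact div_le_div_of_nonneg_right (by linarith) hρ0.le
  · refine (h2 R ρ hρ0).trans ?_
    have h7 : 0 < ρ ^ (2 + 1) := by positivity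
    exact div_le_div_of_nonneg_right (by linarith) h7.le

end UMB.E
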