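import Pool.Agent.Lib.UMB.E.P1
import Pool.Agent.Lib.UMB.E.P2
import Pool.Agent.Lib.UMB.E.P3
import Pool.Agent.Lib.UMB.E.P4
import Pool.Agent.Lib.UMB.E.P5

set_option autoImplicit false

/-!
# UMB.E chunk P8: bounds and continuity
-/

open Filter Topology Set MeasureTheory
open scoped ContDiff

namespace UMB.E

open Pool.Agent.Lib.PenroseSph (E3 Tens pd trg)
open UMB.Lin (Ann cAnn sig)

/-- Bounded and continuous on `Ann R`. -/
def p8BC (R : ℝ) (f : E3 → ℝ) : Prop := ContinuousOn f (Ann R) ∧ ∃ B : ℝ, ∀ x ∈ Ann R, |f x| ≤ B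

theorem p8_add {R : ℝ} {f g : E3 → ℝ} (hf : p8BC R f) (hg : p8BC R g) : p8BC R fun x => f x + g x := by
  obtain ⟨A, hA⟩ := hf.2
  obtain ⟨B, hB⟩ := hg.2
  exact ⟨hf.1.add hg.1, A + B, fun x hx => (abs_add_le _ _).trans (add_le_add (hA x hx) (hB x hx))⟩

theorem p8_neg {R : ℝ} {f : E3 → ℝ} (hf : p8BC R f) : p8BC R fun x => -f x := by
  obtain ⟨A, hA⟩ := hf.2
  exact ⟨hf.1.neg, A, fun x hx => by rw [abs_neg]; exact hA x hx⟩

theorem p8_sub {R : ℝ} {f g : E3 → ℝ} (hf : p8BC R f) (hg : p8BC R g) : p8BC R fun x => f x - g x := by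
  simp only [sub_eq_add_neg]
  exact p8_add hf (p8_neg hg)

theorem p8_mul {R : ℝ} {f g : E3 → ℝ} (hf : p8BC R f) (hg : p8BC R g) : p8BC R fun x => f x * g x := by
  obtain ⟨A, hA⟩ := hf.2
  obtain ⟨B, hB⟩ := hg.2
  refine ⟨hf.1.mul hg.1, A * B, fun x hx => ?_⟩
  rw [abs_mul]
  exact mul_le_mul (hA x hx) (hB x hx) (abs_nonneg _) ((abs_nonneg _).trans (hA x hx))

theorem p8_const {R : ℝ} (c : ℝ) : p8BC R fun _ => c := ⟨continuousOn_const, |c|, fun _ _ => le_rfl⟩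

theorem p8_sum {R : ℝ} {f : Fin 3 → E3 → ℝ} (hf : ∀ i, p8BC R (f i)) : p8BC R fun x => ∑ i, f i x := by
  simp only [Fin.sum_univ_three]
  exact p8_add (p8_add (hf 0) (hf 1)) (hf 2)

theorem p8_sqrt {R : ℝ} {f : E3 → ℝ} (hf : p8BC R f) : p8BC R fun x => Real.sqrt (f x) := by
  obtain ⟨A, hA⟩ := hf.2
  refine ⟨Real.continuous_sqrt.comp_continuousOn hf.1, Real.sqrt A, fun x hx => ?_⟩
  rw [abs_of_nonneg (Real.sqrt_nonneg _)]
  exact Real.sqrt_le_sqrt ((le_abs_self _).trans (hA x hx))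

theorem p8_cpt {a R : ℝ} (ha : a < 1) {f : E3 → ℝ} (hf : ContinuousOn f {x : E3 | a < ‖x‖}) : p8BC R f := by
  have hsub : cAnn R ⊆ {x : E3 | a < ‖x‖} := fun x hx => ha.trans_le hx.1
  have hc : IsCompact (cAnn R) := by
    refine Metric.isCompact_of_isClosed_isBounded ?_ ?_
    · exact (isClosed_le continuous_const continuous_norm).inter (isClosed_le continuous_norm continuous_const)
    · refine (Metric.isBounded_closedBall (x := (0 : E3)) (r := R)).subset fun x hx => ?_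
      rw [mem_closedBall_zero_iff]
      exact hx.2
  have hsub2 : Ann R ⊆ cAnn R := fun x hx => ⟨hx.1.le, hx.2.le⟩
  refine ⟨hf.mono (hsub2.trans hsub), ?_⟩
  obtain ⟨B, hB⟩ := hc.exists_bound_of_continuousOn (hf.mono hsub)
  exact ⟨B, fun x hx => hB x (hsub2 hx)⟩

section p8

variable {g k : Tens} {a Ce R : ℝ} {θ : E3 → ℝ}

theorem p8_open (R : ℝ) : IsOpen (Ann R) :=
  (isOpen_lt continuous_const continuous_norm).inter (isOpen_lt continuous_norm continuous_const)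

theorem p8_d1 (h : Th g k Ce R θ) (i : Fin 3) : p8BC R fun x => pd i θ x := by
  obtain ⟨B, hB⟩ := h.bd
  exact ⟨(smooth_pd (p8_open R) h.smooth i).continuousOn, B, fun x hx => (hB x hx).1 i⟩

theorem p8_d2 (h : Th g k Ce R θ) (i j : Fin 3) : p8BC R fun x => pd i (pd j θ) x := by
  obtain ⟨B, hB⟩ := h.bd
  exact ⟨(smooth_pd (p8_open R) (smooth_pd (p8_open R) h.smooth j) i).continuousOn, B, fun x hx => (hB x hx).2 i j⟩

theorem p8_inv (hg : AF g a) (i j : Fin 3) : p8BC R fun x => (g x)⁻¹ i j :=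
  p8_cpt hg.lt ((AF.met hg).inv_smooth i j).continuousOn

theorem p8_k (hg : AF g a) (hk : Kk g k a) (i j : Fin 3) : p8BC R fun x => k x i j :=
  p8_cpt hg.lt (hk.smooth i j).continuousOn

theorem p8_dg (hg : AF g a) (i j l : Fin 3) : p8BC R fun x => pd l (fun y => g y i j) x :=
  p8_cpt hg.lt (smooth_pd (AF.met hg).isOpen (hg.smooth i j) l).continuousOn

theorem p8_vol (hg : AF g a) : p8BC R (vol g) :=
  p8_sqrt (p8_cpt hg.lt (AF.met hg).det_smooth.continuousOn)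

theorem p8_chr (hg : AF g a) (l i j : Fin 3) : p8BC R fun x => Pool.Agent.Lib.PenroseSph.chr g l i j x := by
  unfold Pool.Agent.Lib.PenroseSph.chr
  exact p8_mul (p8_const _) (p8_sum fun m => p8_mul (p8_inv hg _ _) (p8_sub (p8_add (p8_dg hg _ _ _) (p8_dg hg _ _ _)) (p8_dg hg _ _ _)))

theorem p8_gradU (hg : AF g a) (h : Th g k Ce R θ) (i : Fin 3) : p8BC R fun x => gradU g θ i x := by
  unfold gradU
  exact p8_sum fun j => p8_mul (p8_inv hg _ _) (p8_d1 h _)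

theorem p8_gsq (hg : AF g a) (h : Th g k Ce R θ) : p8BC R fun x => gsq g θ x := by
  unfold gsq
  exact p8_sum fun j => p8_mul (p8_d1 h _) (p8_gradU hg h _)

theorem p8_yreg (hg : AF g a) (h : Th g k Ce R θ) : p8BC R fun x => yreg g θ 0 x := by
  unfold yreg
  exact p8_sqrt (p8_add (p8_gsq hg h) (p8_const 0))

theorem p8_hess (hg : AF g a) (h : Th g k Ce R θ) (i j : Fin 3) : p8BC R fun x => hess g θ i j x := by
  unfold hess
  exact p8_sub (p8_d2 h _ _) (p8_sum fun l => p8_mul (p8_chr hg _ _ _) (p8_d1 h _))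

theorem p8_hessM (hg : AF g a) (h : Th g k Ce R θ) (i j : Fin 3) : p8BC R fun x => hessM g θ i j x := by
  unfold hessM
  exact p8_sum fun l => p8_mul (p8_inv hg _ _) (p8_hess hg h _ _)

theorem p8_lapG (hg : AF g a) (h : Th g k Ce R θ) : p8BC R fun x => lapG g θ x := by
  unfold lapG
  exact p8_sum fun l => p8_hessM hg h _ _

theorem p8_hgg (hg : AF g a) (h : Th g k Ce R θ) : p8BC R fun x => hgg g θ x := by
  unfold hgg hgrad
  exact p8_sum fun l => p8_mul (p8_sum fun m => p8_mul (p8_hess hg h _ _) (p8_gradU hg h _)) (p8_gradU hg h _)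

theorem p8_upk (hg : AF g a) (hk : Kk g k a) (i j : Fin 3) : p8BC R fun x => upk g k i j x := by
  unfold upk
  exact p8_sum fun l => p8_mul (p8_inv hg _ _) (p8_k hg hk _ _)

theorem p8_trg (hg : AF g a) (hk : Kk g k a) : p8BC R fun x => trg g k x := by
  unfold trg
  exact p8_sum fun l => p8_sum fun m => p8_mul (p8_inv hg _ _) (p8_k hg hk _ _)

theorem p8_kGG (hg : AF g a) (hk : Kk g k a) (h : Th g k Ce R θ) : p8BC R fun x => kGG g k θ x := by
  unfold kGG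
  exact p8_sum fun l => p8_sum fun m => p8_mul (p8_mul (p8_d1 h _) (p8_upk hg hk _ _)) (p8_gradU hg h _)

theorem p8_Mh (hg : AF g a) (hk : Kk g k a) (h : Th g k Ce R θ) (i j : Fin 3) : p8BC R fun x => UMB.Mh g k θ i j x := by
  unfold UMB.Mh
  refine p8_sub (p8_sub (p8_add (p8_hessM hg h _ _) (p8_mul (p8_mul (p8_const 2) (p8_gradU hg h _)) (p8_d1 h _))) ?_)
    (p8_mul (p8_yreg hg h) (p8_upk hg hk _ _))
  by_cases hij : i = j
  · simp only [hij, if_true]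
    exact p8_gsq hg h
  · simp only [hij, if_false]
    exact p8_const 0

theorem p8_MhTr (hg : AF g a) (hk : Kk g k a) (h : Th g k Ce R θ) : p8BC R fun x => MhTr g k θ x := by
  unfold MhTr
  exact p8_sum fun l => p8_Mh hg hk h _ _

theorem p8_MhSq (hg : AF g a) (hk : Kk g k a) (h : Th g k Ce R θ) : p8BC R fun x => MhSq g k θ x := by
  unfold MhSq
  exact p8_sum fun l => p8_sum fun m => p8_mul (p8_Mh hg hk h _ _) (p8_Mh hg hk h _ _)

theorem p8_MhGG (hg : AF g a) (hk : Kk g k a) (h : Th g k Ce R θ) : p8BC R fun x => MhGG g k θ x := by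
  unfold MhGG
  exact p8_sum fun l => p8_sum fun m => p8_mul (p8_mul (p8_d1 h _) (p8_Mh hg hk h _ _)) (p8_gradU hg h _)

theorem p8_th (h : Th g k Ce R θ) : p8BC R θ := by
  refine ⟨h.smooth.continuousOn, |Ce| * R, fun x hx => ?_⟩
  have h1 := h.pos x hx
  have h2 := h.up x hx
  have h3 := Real.add_one_le_exp (θ x)
  have h4 := hx.1
  have h5 := hx.2
  rw [abs_of_pos h1]
  have h6 : Ce * ‖x‖ ≤ |Ce| * R := by
    calc Ce * ‖x‖ ≤ |Ce| * ‖x‖ := mul_le_mul_of_nonneg_right (le_abs_self _) (norm_nonneg _)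
      _ ≤ |Ce| * R := mul_le_mul_of_nonneg_left h5.le (abs_nonneg _)
  linarith

end p8

/-- **P8a.** All functions which occur are bounded and continuous on `Ann R`: `gsq`, `yreg g θ 0`, `MhTr`, `MhSq`, `MhGG`,
`lapG`, `hgg` (`Th.bd`, and `g⁻¹`, `chr`, `k` are bounded on the compact set `cAnn R ⊆ {a < |x|}`). -/
theorem bdd {g k : Tens} {a Ce R : ℝ} {θ : E3 → ℝ} (hg : AF g a) (hk : Kk g k a) (h : Th g k Ce R θ) :
    ∃ B : ℝ, ∀ x ∈ Ann R, |gsq g θ x| ≤ B ∧ |yreg g θ 0 x| ≤ B ∧ |MhTr g k θ x| ≤ B ∧ |MhSq g k θ x| ≤ B ∧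
      |MhGG g k θ x| ≤ B ∧ |lapG g θ x| ≤ B ∧ |hgg g θ x| ≤ B ∧ |trg g k x| ≤ B ∧ |kGG g k θ x| ≤ B ∧ |vol g x| ≤ B ∧
      |θ x| ≤ B := by
  obtain ⟨B1, h1⟩ := (p8_gsq hg h).2
  obtain ⟨B2, h2⟩ := (p8_yreg hg h).2
  obtain ⟨B3, h3⟩ := (p8_MhTr hg hk h).2
  obtain ⟨B4, h4⟩ := (p8_MhSq hg hk h).2
  obtain ⟨B5, h5⟩ := (p8_MhGG hg hk h).2
  obtain ⟨B6, h6⟩ := (p8_lapG hg h).2
  obtain ⟨B7, h7⟩ := (p8_hgg hg h).2
  obtain ⟨B8, h8⟩ := (p8_trg (R := R) hg hk).2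
  obtain ⟨B9, h9⟩ := (p8_kGG hg hk h).2
  obtain ⟨B10, h10⟩ := (p8_vol (R := R) hg).2
  obtain ⟨B11, h11⟩ := (p8_th h).2
  refine ⟨|B1| + |B2| + |B3| + |B4| + |B5| + |B6| + |B7| + |B8| + |B9| + |B10| + |B11|, fun x hx => ?_⟩
  have p1 := abs_nonneg B1
  have p2 := abs_nonneg B2
  have p3 := abs_nonneg B3
  have p4 := abs_nonneg B4
  have p5 := abs_nonneg B5
  have p6 := abs_nonneg B6
  have p7 := abs_nonneg B7
  have p8 := abs_nonneg B8
  have p9 := abs_nonneg B9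
  have p10 := abs_nonneg B10
  have p11 := abs_nonneg B11
  have q1 := (h1 x hx).trans (le_abs_self B1)
  have q2 := (h2 x hx).trans (le_abs_self B2)
  have q3 := (h3 x hx).trans (le_abs_self B3)
  have q4 := (h4 x hx).trans (le_abs_self B4)
  have q5 := (h5 x hx).trans (le_abs_self B5)
  have q6 := (h6 x hx).trans (le_abs_self B6)
  have q7 := (h7 x hx).trans (le_abs_self B7)
  have q8 := (h8 x hx).trans (le_abs_self B8)
  have q9 := (h9 x hx).trans (le_abs_self B9)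
  have q10 := (h10 x hx).trans (le_abs_self B10)
  have q11 := (h11 x hx).trans (le_abs_self B11)
  refine ⟨?_, ?_, ?_, ?_, ?_, ?_, ?_, ?_, ?_, ?_, ?_⟩ <;> linarith

/-- **P8b.** Continuity on `Ann R` (hence measurability). -/
theorem contOn {g k : Tens} {a Ce R : ℝ} {θ : E3 → ℝ} (hg : AF g a) (hk : Kk g k a) (h : Th g k Ce R θ) :
    ContinuousOn (gsq g θ) (Ann R) ∧ ContinuousOn (yreg g θ 0) (Ann R) ∧ ContinuousOn (MhTr g k θ) (Ann R) ∧
      ContinuousOn (MhSq g k θ) (Ann R) ∧ ContinuousOn (MhGG g k θ) (Ann R) ∧ ContinuousOn (lapG g θ) (Ann R) ∧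
      ContinuousOn (hgg g θ) (Ann R) ∧ ContinuousOn (trg g k) (Ann R) ∧ ContinuousOn (kGG g k θ) (Ann R) ∧
      ContinuousOn (vol g) (Ann R) := by
  exact ⟨(p8_gsq hg h).1, (p8_yreg hg h).1, (p8_MhTr hg hk h).1, (p8_MhSq hg hk h).1, (p8_MhGG hg hk h).1, (p8_lapG hg h).1,
    (p8_hgg hg h).1, (p8_trg hg hk).1, (p8_kGG hg hk h).1, (p8_vol hg).1⟩

end UMB.E
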