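import Pool.Agent.Lib.UMB.E.P8c
import Pool.Agent.Lib.UMB.E.P7b

set_option autoImplicit false

/-!
# UMB.E chunk P9: the bound of `X2`
-/

open Filter Topology Set MeasureTheory
open scoped ContDiff

namespace UMB.E

open Pool.Agent.Lib.PenroseSph (E3 Tens pd trg)
open UMB.Lin (Ann cAnn sig)

theorem p9_met {g : Tens} {a : ℝ} (R : ℝ) (hg : AF g a) : MetOn g (Ann R) :=
  ⟨UMB.Lin.isOpen_Ann R, fun i j => (hg.smooth i j).mono fun _ hx => lt_trans hg.lt hx.1,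
    fun x hx => hg.symm x (lt_trans hg.lt hx.1), fun x hx => hg.pos x (lt_trans hg.lt hx.1)⟩

theorem p9_intOn {R : ℝ} {f : E3 → ℝ} (hf : ContinuousOn f (Ann R)) {M : ℝ} (hM : ∀ x ∈ Ann R, |f x| ≤ M) :
    IntegrableOn f (Ann R) := by
  refine IntegrableOn.of_bound (UMB.Lin.volume_Ann_lt_top R)
    (hf.aestronglyMeasurable (UMB.Lin.measurableSet_Ann R)) M ?_
  filter_upwards [ae_restrict_mem (UMB.Lin.measurableSet_Ann R)] with x hx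
  exact hM x hx

/-- Bounded and continuous on the annulus. -/
def p9_BC (R : ℝ) (f : E3 → ℝ) : Prop := ContinuousOn f (Ann R) ∧ ∃ M : ℝ, ∀ x ∈ Ann R, |f x| ≤ M

theorem p9_BC.int {R : ℝ} {f : E3 → ℝ} (h : p9_BC R f) : IntegrableOn f (Ann R) := by
  obtain ⟨h1, M, h2⟩ := h
  exact p9_intOn h1 h2

theorem p9_BC.mul {R : ℝ} {f f' : E3 → ℝ} (h : p9_BC R f) (h' : p9_BC R f') : p9_BC R fun x => f x * f' x := by
  obtain ⟨h1, M, h2⟩ := h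
  obtain ⟨h3, M', h4⟩ := h'
  refine ⟨h1.mul h3, M * M', fun x hx => ?_⟩
  rw [abs_mul]
  exact mul_le_mul (h2 x hx) (h4 x hx) (abs_nonneg _) ((abs_nonneg _).trans (h2 x hx))

theorem p9_BC.pow {R : ℝ} {f : E3 → ℝ} (h : p9_BC R f) (n : ℕ) : p9_BC R fun x => f x ^ n := by
  obtain ⟨h1, M, h2⟩ := h
  refine ⟨h1.pow n, M ^ n, fun x hx => ?_⟩
  rw [abs_pow]
  exact pow_le_pow_left₀ (abs_nonneg _) (h2 x hx) n

/-- all functions of `θ` -/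
theorem p9_BC_of {g k : Tens} {a Ce R : ℝ} {θ : E3 → ℝ} (hg : AF g a) (hk : Kk g k a) (h : Th g k Ce R θ) :
    p9_BC R (gsq g θ) ∧ p9_BC R (yreg g θ 0) ∧ p9_BC R (vol g) ∧ p9_BC R (fun x => Real.exp (θ x)) ∧
      p9_BC R (MhSq g k θ) ∧ p9_BC R (MhTr g k θ) := by
  obtain ⟨B, hB⟩ := bdd hg hk h
  obtain ⟨c1, c2, c3, c4, c5, c6, c7, c8, c9, c10⟩ := contOn hg hk h
  refine ⟨⟨c1, B, fun x hx => (hB x hx).1⟩, ⟨c2, B, fun x hx => (hB x hx).2.1⟩,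
    ⟨c10, B, fun x hx => (hB x hx).2.2.2.2.2.2.2.2.2.1⟩, ⟨?_, Real.exp B, fun x hx => ?_⟩,
    ⟨c4, B, fun x hx => (hB x hx).2.2.2.1⟩, ⟨c3, B, fun x hx => (hB x hx).2.2.1⟩⟩
  · exact Real.continuous_exp.comp_continuousOn h.smooth.continuousOn
  · rw [abs_of_pos (Real.exp_pos _)]
    exact Real.exp_le_exp.mpr ((le_abs_self _).trans (hB x hx).2.2.2.2.2.2.2.2.2.2)

theorem p9_BC_w {R C ρ : ℝ} {w : E3 → ℝ} (hw : Wt C ρ w) : p9_BC R w := by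
  refine ⟨hw.smooth.continuousOn.mono fun x hx => ?_, 1, fun x hx => ?_⟩
  · show 1 / 2 < ‖x‖
    have := hx.1
    linarith
  · have h1 : 1 ≤ ‖x‖ := hx.1.le
    rw [abs_of_nonneg (hw.nonneg x h1)]
    refine (hw.le x h1).trans ?_
    rw [div_le_one (by positivity)]
    exact one_le_pow₀ h1

theorem p9_BC_inv {R : ℝ} (n : ℕ) : p9_BC R fun x => 1 / ‖x‖ ^ n := by
  refine ⟨?_, 1, fun x hx => ?_⟩
  · refine ContinuousOn.div continuousOn_const (continuous_norm.pow n).continuousOn fun x hx => ?_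
    have : 0 < ‖x‖ := lt_trans one_pos hx.1
    positivity
  · have h1 : 1 ≤ ‖x‖ := hx.1.le
    have h0 : 0 < ‖x‖ := lt_trans one_pos hx.1
    rw [abs_of_nonneg (by positivity), div_le_one (by positivity)]
    exact one_le_pow₀ h1

theorem p9_meas (ρ : ℝ) : MeasurableSet {x : E3 | ρ ≤ ‖x‖} :=
  (isClosed_le continuous_const continuous_norm).measurableSet

/-- The gradient of the weight. -/
theorem p9_dw {g : Tens} {a R Λ : ℝ} {θ : E3 → ℝ} (hg : AF g a) (hc : Cmp g Λ) {Cw ρ : ℝ} {w : E3 → ℝ}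
    (hw : Wt Cw ρ w) {x : E3} (hx : x ∈ Ann R) :
    |dwG g w θ x| ≤ Cw * (3 * Λ * Real.sqrt Λ) * (Real.sqrt (w x) * yreg g θ 0 x / ‖x‖ ^ 2) := by
  have h1 : 1 ≤ ‖x‖ := hx.1.le
  have hm := p9_met R hg
  have h3 := (grad_bd hc h1 θ w (hm.gsq_nonneg hx)).2.2
  have hy : 0 ≤ yreg g θ 0 x := Real.sqrt_nonneg _
  have hL := hc.pos
  have h4 : 0 ≤ 3 * Λ * Real.sqrt Λ * yreg g θ 0 x := by positivity
  refine h3.trans ((mul_le_mul_of_nonneg_right (hw.grad x h1) h4).trans (le_of_eq ?_))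
  ring

theorem p9_alg {s y w E l : ℝ} (hy : 0 ≤ y) (h0 : y = 0 → s = 0) (hw : 0 ≤ w) (hE : 1 ≤ E) (hl : 0 < l) :
    2 * w * s ≤ l * (E * (s ^ 2 / y)) + 1 / 4 * (w * y ^ 2) + w ^ 3 / l ^ 2 := by
  rcases hy.eq_or_lt with h | h
  · have hs := h0 h.symm
    rw [← h, hs]
    have : 0 ≤ w ^ 3 / l ^ 2 := by positivity
    simp
    exact this
  · have e1 : 2 * w * s ≤ l * (s ^ 2 / y) + w ^ 2 * y / l := by
      have : l * (s ^ 2 / y) + w ^ 2 * y / l - 2 * w * s = (l * s - w * y) ^ 2 / (l * y) := by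
        field_simp
        ring
      have h2 : 0 ≤ (l * s - w * y) ^ 2 / (l * y) := by positivity
      linarith
    have e2 : w ^ 2 * y / l ≤ 1 / 4 * (w * y ^ 2) + w ^ 3 / l ^ 2 := by
      have : 1 / 4 * (w * y ^ 2) + w ^ 3 / l ^ 2 - w ^ 2 * y / l = w * (y / 2 - w / l) ^ 2 := by
        field_simp
        ring
      have h2 : 0 ≤ w * (y / 2 - w / l) ^ 2 := by positivity
      linarith
    have e3 : l * (s ^ 2 / y) ≤ l * (E * (s ^ 2 / y)) := by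
      have : 0 ≤ s ^ 2 / y := by positivity
      have := mul_le_mul_of_nonneg_right hE this
      rw [one_mul] at this
      exact mul_le_mul_of_nonneg_left this hl.le
    linarith

theorem p9_alg2 (K q y r w : ℝ) (hq : q ^ 2 = w) : K * (q * y / r ^ 2) ≤ 1 / 4 * (w * y ^ 2) + K ^ 2 * (1 / r ^ 4) := by
  have : 1 / 4 * (w * y ^ 2) + K ^ 2 * (1 / r ^ 4) - K * (q * y / r ^ 2) = (q * y / 2 - K / r ^ 2) ^ 2 := by
    rw [← hq]
    rcases eq_or_ne r 0 with h | h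
    · rw [h]; norm_num; ring
    · field_simp
      ring
  have h2 := sq_nonneg (q * y / 2 - K / r ^ 2)
  linarith

/-- The energy is nonnegative. -/
theorem p9_En {g k : Tens} {a Ce R : ℝ} {θ : E3 → ℝ} (hg : AF g a) (hk : Kk g k a) (h : Th g k Ce R θ) :
    (∀ x ∈ Ann R, 0 ≤ MhSq g k θ x) ∧ (∀ x ∈ Ann R, 0 ≤ enD g k θ x) ∧ 0 ≤ En g k R θ := by
  have hm := p9_met R hg
  have hks : ∀ x ∈ Ann R, (k x).IsSymm := fun x hx => hk.symm x (lt_trans hg.lt hx.1)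
  have h1 : ∀ x ∈ Ann R, 0 ≤ MhSq g k θ x := fun x hx => (mh_ineq hm hks h.smooth hx).1
  have h2 : ∀ x ∈ Ann R, 0 ≤ enD g k θ x := fun x hx =>
    mul_nonneg (mul_nonneg (Real.exp_pos _).le (div_nonneg (h1 x hx) (Real.sqrt_nonneg _))) (Real.sqrt_nonneg _)
  exact ⟨h1, h2, setIntegral_nonneg (UMB.Lin.measurableSet_Ann R) h2⟩

/-- `√MhSq` vanishes where the gradient vanishes. -/
theorem p9_crit {g k : Tens} {a Ce R : ℝ} {θ : E3 → ℝ} (hg : AF g a) (h : Th g k Ce R θ) :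
    ∀ᵐ x ∂(volume.restrict (Ann R)), x ∈ Ann R ∧ (yreg g θ 0 x = 0 → Real.sqrt (MhSq g k θ x) = 0) := by
  have hm := p9_met R hg
  filter_upwards [ae_restrict_mem (UMB.Lin.measurableSet_Ann R), ae_restrict_of_ae h.crit] with x hx hc
  refine ⟨hx, fun h0 => ?_⟩
  have h1 := ysq_zero (hm.gsq_nonneg (u := θ) hx)
  rw [h0] at h1
  rw [hc hx (by rw [← h1]; norm_num), Real.sqrt_zero]

theorem p9_trace {s2 t : ℝ} (h0 : 0 ≤ s2) (h : t ^ 2 ≤ 3 * s2) : |t| ≤ 2 * Real.sqrt s2 := by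
  have h1 : |t| ≤ Real.sqrt (4 * s2) := by
    rw [← Real.sqrt_sq_eq_abs]
    exact Real.sqrt_le_sqrt (by linarith)
  have h2 : Real.sqrt (4 * s2) = 2 * Real.sqrt s2 := by
    rw [Real.sqrt_mul (by norm_num)]
    have : Real.sqrt 4 = 2 := by
      rw [show (4 : ℝ) = 2 ^ 2 by norm_num, Real.sqrt_sq (by norm_num)]
    rw [this]
  rw [← h2]
  exact h1

theorem p9_int4 {μ : Measure E3} {f1 f2 f3 f4 : E3 → ℝ} (h1 : Integrable f1 μ) (h2 : Integrable f2 μ)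
    (h3 : Integrable f3 μ) (h4 : Integrable f4 μ) (c1 c2 c3 c4 : ℝ) :
    ∫ x, (c1 * f1 x + c2 * f2 x + c3 * f3 x + c4 * f4 x) ∂μ =
      c1 * (∫ x, f1 x ∂μ) + c2 * (∫ x, f2 x ∂μ) + c3 * (∫ x, f3 x ∂μ) + c4 * ∫ x, f4 x ∂μ := by
  have a1 := h1.const_mul c1
  have a2 := h2.const_mul c2
  have a3 := h3.const_mul c3
  have a4 := h4.const_mul c4
  have s1 : Integrable (fun x => c1 * f1 x + c2 * f2 x) μ := a1.add a2
  have s2 : Integrable (fun x => c1 * f1 x + c2 * f2 x + c3 * f3 x) μ := s1.add a3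
  rw [integral_add s2 a4, integral_add s1 a3, integral_add a1 a2, integral_const_mul, integral_const_mul,
    integral_const_mul, integral_const_mul]

theorem p9_main {Λ C1 Cw Cp : ℝ} (hΛ : 0 < Λ) (hC1 : 0 < C1) (hCw : 0 < Cw) (hCp : 0 < Cp)
    {g k : Tens} {a Ce R : ℝ} {θ : E3 → ℝ} {ρ : ℝ} (hg : AF g a) (hc : Cmp g Λ) (hk : Kk g k a) (hT : Th g k Ce R θ)
    (hρ : 1 ≤ ρ) (hρR : ρ ≤ R) {w : E3 → ℝ} (hw : Wt Cw ρ w)
    (hI : ∫ x in Ann R, w x * gsq g θ x * vol g x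
      ≤ C1 / R + ∫ x in Ann R, (|dwG g w θ x| + w x * |MhTr g k θ x|) * vol g x)
    (hp4 : ∫ x in Ann R ∩ {x : E3 | ρ / 2 ≤ ‖x‖}, 1 / ‖x‖ ^ 4 ≤ Cp / (ρ / 2))
    (hp6 : ∫ x in Ann R ∩ {x : E3 | ρ / 2 ≤ ‖x‖}, 1 / ‖x‖ ^ 6 ≤ Cp / (ρ / 2) ^ 3) :
    ∫ x in Ann R, w x * gsq g θ x * vol g x ≤
      2 * (C1 + 1 + 2 * (Cw * (3 * Λ * Real.sqrt Λ)) ^ 2 * Λ * Cp + 8 * Λ * Cp) / ρ * (1 + En g k R θ) := by
  obtain ⟨b1, b2, b3, b4, b5, b6⟩ := p9_BC_of hg hk hT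
  obtain ⟨n1, n2, n3⟩ := p9_En hg hk hT
  have hm := p9_met R hg
  have hks : ∀ x ∈ Ann R, (k x).IsSymm := fun x hx => hk.symm x (lt_trans hg.lt hx.1)
  have hρ0 : 0 < ρ := lt_of_lt_of_le one_pos hρ
  set K : ℝ := Cw * (3 * Λ * Real.sqrt Λ) with hK
  set S : Set E3 := {x : E3 | ρ / 2 ≤ ‖x‖} with hS
  have hSm : MeasurableSet S := p9_meas _
  set Z := ∫ x in Ann R, w x * gsq g θ x * vol g x with hZ
  have hZi : IntegrableOn (fun x => w x * gsq g θ x * vol g x) (Ann R) := (((p9_BC_w hw).mul b1).mul b3).int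
  have hi4 : IntegrableOn (fun x : E3 => S.indicator (fun x => 1 / ‖x‖ ^ 4) x) (Ann R) := (p9_BC_inv 4).int.indicator hSm
  have hi6 : IntegrableOn (fun x : E3 => S.indicator (fun x => 1 / ‖x‖ ^ 6) x) (Ann R) := (p9_BC_inv 6).int.indicator hSm
  set B : E3 → ℝ := fun x => 1 / 2 * (w x * gsq g θ x * vol g x) + ρ⁻¹ * enD g k θ x +
    K ^ 2 * Λ * S.indicator (fun x => 1 / ‖x‖ ^ 4) x + ρ ^ 2 * Λ * S.indicator (fun x => 1 / ‖x‖ ^ 6) x with hB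
  have hBi : IntegrableOn B (Ann R) :=
    (((hZi.const_mul _).add (hT.int.const_mul _)).add (hi4.const_mul _)).add (hi6.const_mul _)
  have hFB : ∫ x in Ann R, (|dwG g w θ x| + w x * |MhTr g k θ x|) * vol g x ≤ ∫ x in Ann R, B x := by
    refine integral_mono_of_nonneg ?_ hBi ?_
    · filter_upwards [ae_restrict_mem (UMB.Lin.measurableSet_Ann R)] with x hx
      exact mul_nonneg (add_nonneg (abs_nonneg _) (mul_nonneg (hw.nonneg x hx.1.le) (abs_nonneg _)))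
        (Real.sqrt_nonneg _)
    · filter_upwards [p9_crit hg hT] with x hx
      obtain ⟨hx, hcr⟩ := hx
      have hx1 : 1 ≤ ‖x‖ := hx.1.le
      have hw0 := hw.nonneg x hx1
      have hy0 : 0 ≤ yreg g θ 0 x := Real.sqrt_nonneg _
      have hys : yreg g θ 0 x ^ 2 = gsq g θ x := ysq_zero (hm.gsq_nonneg hx)
      have hs2 : Real.sqrt (MhSq g k θ x) ^ 2 = MhSq g k θ x := Real.sq_sqrt (n1 x hx)
      have hv0 : 0 ≤ vol g x := Real.sqrt_nonneg _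
      have hvL : vol g x ≤ Λ := hc.vol_le x hx1
      have htr := p9_trace (n1 x hx) (mh_ineq hm hks hT.smooth hx).2.1
      have hE : 1 ≤ Real.exp (θ x) := Real.one_le_exp (hT.pos x hx).le
      have hd := p9_dw (θ := θ) hg hc hw hx
      by_cases hxS : x ∈ S
      · have e1 := p9_alg2 K (Real.sqrt (w x)) (yreg g θ 0 x) ‖x‖ (w x) (Real.sq_sqrt hw0)
        have e2 := p9_alg (s := Real.sqrt (MhSq g k θ x)) (y := yreg g θ 0 x) (w := w x) (E := Real.exp (θ x))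
          (l := ρ⁻¹) hy0 hcr hw0 hE (inv_pos.mpr hρ0)
        have e3 : w x ^ 3 / ρ⁻¹ ^ 2 ≤ ρ ^ 2 * (1 / ‖x‖ ^ 6) := by
          have h1 : w x ^ 3 ≤ (1 / ‖x‖ ^ 2) ^ 3 := pow_le_pow_left₀ hw0 (hw.le x hx1) 3
          have h2 : w x ^ 3 / ρ⁻¹ ^ 2 = ρ ^ 2 * w x ^ 3 := by
            field_simp
          have h3 : (1 / ‖x‖ ^ 2) ^ 3 = 1 / ‖x‖ ^ 6 := by
            rw [div_pow, one_pow, ← pow_mul]
          rw [h2, ← h3]
          exact mul_le_mul_of_nonneg_left h1 (by positivity)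
        have e4 : w x * |MhTr g k θ x| ≤ 2 * w x * Real.sqrt (MhSq g k θ x) := by
          have := mul_le_mul_of_nonneg_left htr hw0
          linarith
        have e5 : |dwG g w θ x| + w x * |MhTr g k θ x| ≤ 1 / 2 * (w x * gsq g θ x) +
            ρ⁻¹ * (Real.exp (θ x) * (MhSq g k θ x / yreg g θ 0 x)) + K ^ 2 * (1 / ‖x‖ ^ 4) + ρ ^ 2 * (1 / ‖x‖ ^ 6) := by
          rw [hs2, hys] at e2
          rw [hys] at e1
          linarith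
        have e6 := mul_le_mul_of_nonneg_right e5 hv0
        have k4 : K ^ 2 * (1 / ‖x‖ ^ 4) * vol g x ≤ K ^ 2 * (1 / ‖x‖ ^ 4) * Λ :=
          mul_le_mul_of_nonneg_left hvL (by positivity)
        have k6 : ρ ^ 2 * (1 / ‖x‖ ^ 6) * vol g x ≤ ρ ^ 2 * (1 / ‖x‖ ^ 6) * Λ :=
          mul_le_mul_of_nonneg_left hvL (by positivity)
        simp only [hB, Set.indicator_of_mem hxS]
        unfold enD
        nlinarith [e6, k4, k6]
      · have hlt : ‖x‖ < ρ / 2 := not_le.mp hxS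
        have hwz : w x = 0 := hw.zero x hx1 hlt
        have hd0 : |dwG g w θ x| ≤ 0 := by
          refine hd.trans (le_of_eq ?_)
          rw [hwz, Real.sqrt_zero]
          ring
        have hen := n2 x hx
        simp only [hB, Set.indicator_of_notMem hxS, hwz]
        have e7 : |dwG g w θ x| = 0 := le_antisymm hd0 (abs_nonneg _)
        rw [e7]
        have : 0 ≤ ρ⁻¹ * enD g k θ x := mul_nonneg (inv_pos.mpr hρ0).le hen
        simpa using this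
  have hBint : ∫ x in Ann R, B x = 1 / 2 * Z + ρ⁻¹ * En g k R θ +
      K ^ 2 * Λ * (∫ x in Ann R ∩ S, 1 / ‖x‖ ^ 4) + ρ ^ 2 * Λ * (∫ x in Ann R ∩ S, 1 / ‖x‖ ^ 6) := by
    have h := p9_int4 hZi hT.int hi4 hi6 (1 / 2) ρ⁻¹ (K ^ 2 * Λ) (ρ ^ 2 * Λ)
    rw [setIntegral_indicator hSm, setIntegral_indicator hSm] at h
    exact h
  rw [hBint] at hFB
  have q1 : C1 / R ≤ C1 / ρ := div_le_div_of_nonneg_left hC1.le hρ0 hρR
  have q4 : K ^ 2 * Λ * (∫ x in Ann R ∩ S, 1 / ‖x‖ ^ 4) ≤ K ^ 2 * Λ * (Cp / (ρ / 2)) :=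
    mul_le_mul_of_nonneg_left hp4 (by positivity)
  have q6 : ρ ^ 2 * Λ * (∫ x in Ann R ∩ S, 1 / ‖x‖ ^ 6) ≤ ρ ^ 2 * Λ * (Cp / (ρ / 2) ^ 3) :=
    mul_le_mul_of_nonneg_left hp6 (by positivity)
  have q4' : K ^ 2 * Λ * (Cp / (ρ / 2)) = 2 * K ^ 2 * Λ * Cp / ρ := by
    field_simp
  have q6' : ρ ^ 2 * Λ * (Cp / (ρ / 2) ^ 3) = 8 * Λ * Cp / ρ := by
    field_simp
    try ring
  rw [q4'] at q4
  rw [q6'] at q6
  have hZle : Z ≤ 2 * (C1 / ρ + ρ⁻¹ * En g k R θ + 2 * K ^ 2 * Λ * Cp / ρ + 8 * Λ * Cp / ρ) := by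
    linarith
  refine hZle.trans ?_
  have hD := n3
  have h1 : 2 * (C1 / ρ + ρ⁻¹ * En g k R θ + 2 * K ^ 2 * Λ * Cp / ρ + 8 * Λ * Cp / ρ) =
      2 * (C1 + En g k R θ + 2 * K ^ 2 * Λ * Cp + 8 * Λ * Cp) / ρ := by
    field_simp
  have h2 : 2 * (C1 + 1 + 2 * K ^ 2 * Λ * Cp + 8 * Λ * Cp) / ρ * (1 + En g k R θ) =
      2 * (C1 + 1 + 2 * K ^ 2 * Λ * Cp + 8 * Λ * Cp) * (1 + En g k R θ) / ρ := by
    field_simp
  rw [h1, h2]
  refine div_le_div_of_nonneg_right ?_ hρ0.le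
  have h3 : 0 ≤ C1 + 2 * K ^ 2 * Λ * Cp + 8 * Λ * Cp := by positivity
  have h4 := mul_nonneg h3 hD
  nlinarith

/-- **P9.** `w` from P7, `Z := ∫ w |∇θ|² vol`. (i) `∫ |dwG| vol ≤ C ∫ √w |x|⁻² y vol ≤ C Z^{1/2} (∫_{|x| ≥ ρ/2} |x|⁻⁴)^{1/2} ≤ Z/4 + C/ρ`.
(ii) `w |tr Mh| ≤ 2 w √MhSq = 2 (e^θ MhSq/y)^{1/2} · w (e^{-θ} y)^{1/2}` (a.e.; where `y = 0` both sides vanish by `Th.crit`),
`e^{-θ} ≤ 1`, so `∫ w |tr Mh| vol ≤ 2 D^{1/2} (∫ w² y vol)^{1/2}` and `∫ w² y vol ≤ Z^{1/2} (∫ w³ vol)^{1/2}`,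
`∫ w³ vol ≤ Λ ∫_{|x| ≥ ρ/2} |x|⁻⁶ ≤ C ρ⁻³`; with `Z = z⁴`: `2 D^{1/2} Z^{1/4} (C ρ⁻³)^{1/4} ≤ Z/4 + C D^{2/3}/ρ ≤ Z/4 + C (1+D)/ρ`.
(iii) `int_grad`: `Z ≤ C/R + Z/2 + C(1+D)/ρ`, and `ρ ≤ R`. Finally `X2 ≤ Z` (`w = |x|⁻²` for `|x| ≥ ρ`). -/
theorem X2_le : ∀ Λ : ℝ, ∃ C : ℝ, 0 < C ∧ ∀ (g k : Tens) (a Ce R : ℝ) (θ : E3 → ℝ) (ρ : ℝ), AF g a → Cmp g Λ →
    Kk g k a → Th g k Ce R θ → 1 ≤ ρ → ρ ≤ R → X2 g R ρ θ ≤ C / ρ * (1 + En g k R θ) := by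
  intro Λ
  by_cases hΛ : 0 < Λ
  swap
  · exact ⟨1, one_pos, fun g k a Ce R θ ρ hg hc hk hT hρ hρR => absurd hc.pos hΛ⟩
  obtain ⟨C1, hC1, h1⟩ := int_grad Λ
  obtain ⟨Cw, hCw, hwt⟩ := exists_wt
  obtain ⟨Cp, hCp, hpow⟩ := pow_int
  refine ⟨2 * (C1 + 1 + 2 * (Cw * (3 * Λ * Real.sqrt Λ)) ^ 2 * Λ * Cp + 8 * Λ * Cp), by positivity, ?_⟩
  intro g k a Ce R θ ρ hg hc hk hT hρ hρR
  obtain ⟨w, hw⟩ := hwt ρ hρ
  have hR1 : 1 < R := by linarith [hT.four_le]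
  obtain ⟨hp4, hp6⟩ := hpow R (ρ / 2) hR1 (by linarith)
  have hmain := p9_main hΛ hC1 hCw hCp hg hc hk hT hρ hρR hw (h1 g k a Ce R θ w Cw ρ hg hc hk hT hw) hp4 hp6
  refine le_trans ?_ hmain
  obtain ⟨b1, b2, b3, b4, b5, b6⟩ := p9_BC_of hg hk hT
  have hm := p9_met R hg
  have hZi : IntegrableOn (fun x => w x * gsq g θ x * vol g x) (Ann R) := (((p9_BC_w hw).mul b1).mul b3).int
  have hmeas : MeasurableSet (Ann R ∩ {x : E3 | ρ ≤ ‖x‖}) := (UMB.Lin.measurableSet_Ann R).inter (p9_meas ρ)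
  have e1 : X2 g R ρ θ = ∫ x in Ann R ∩ {x : E3 | ρ ≤ ‖x‖}, w x * gsq g θ x * vol g x := by
    unfold X2
    refine setIntegral_congr_fun hmeas fun x hx => ?_
    show gsq g θ x / ‖x‖ ^ 2 * vol g x = w x * gsq g θ x * vol g x
    rw [hw.eq x hx.1.1.le hx.2]
    ring
  rw [e1]
  refine setIntegral_mono_set hZi ?_ (Eventually.of_forall fun x hx => hx.1)
  filter_upwards [ae_restrict_mem (UMB.Lin.measurableSet_Ann R)] with x hx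
  exact mul_nonneg (mul_nonneg (hw.nonneg x hx.1.le) (hm.gsq_nonneg hx)) (Real.sqrt_nonneg _)

end UMB.E
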